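import Mathlib

/-!
# Half density: definitions and interface statements of the block HD (MP_0f91f8_co)

FINAL THEOREM: `FinalStmt` below (sets of multiplicative density larger than one half contain
Pythagorean triples, and the collision inequality).

Modules (each is a `Prop` defined below; the final theorem is the composition):
* A  `U3Stmt`    : aperiodic completely multiplicative functions are U^3 uniform (elementary);
* B  `AperStmt`  : the three pair correlations tend to 0 for aperiodic f (uses `U3Stmt`);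
* C  `PretStmt`  : not aperiodic implies pretentious (qualitative Halasz theorem);
* D  `PWPret`    : the lower bound for pretentious f;
* E  `FinalStmt` : Bochner, Fatou and the counting argument, from `PWStmt`.
-/

set_option autoImplicit false

namespace Pool.Agent.F0f91f8.HD

open Filter Topology ComplexConjugate
open scoped BigOperators

/-- completely multiplicative functions with values of modulus one on the positive integers -/
def CM (f : ℕ → ℂ) : Prop :=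
  f 0 = 0 ∧ (∀ m n : ℕ, f (m * n) = f m * f n) ∧ ∀ n : ℕ, 0 < n → ‖f n‖ = 1

/-- aperiodic: mean value zero on every arithmetic progression -/
def Aper (f : ℕ → ℂ) : Prop :=
  ∀ q a : ℕ, 0 < q →
    Tendsto (fun N : ℕ => (∑ n ∈ (Finset.Icc 1 N).filter (fun n => n % q = a % q), f n) / (N : ℂ))
      atTop (𝓝 0)

/-- multiplicative derivative of a function on an additive group -/
def Dl {G : Type*} [Add G] (F : G → ℂ) (h : G) : G → ℂ := fun x => F (x + h) * conj (F x)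

/-- the eighth power of the U^3 norm on `ZMod P` (normalised averages) -/
noncomputable def U3 (P : ℕ) [NeZero P] (F : ZMod P → ℂ) : ℝ :=
  (∑ h₁ : ZMod P, ∑ h₂ : ZMod P, ∑ h₃ : ZMod P, ∑ x : ZMod P,
    Dl (Dl (Dl F h₁) h₂) h₃ x).re / (P : ℝ) ^ 4

/-- the function `f` cut off at `N`, as a function on `ZMod P` -/
def tr (f : ℕ → ℂ) (N P : ℕ) : ZMod P → ℂ := fun x => if x.val ≤ N then f x.val else 0

/-- MODULE A -/
def U3Stmt : Prop :=
  ∀ f : ℕ → ℂ, CM f → Aper f → ∀ ε : ℝ, 0 < ε → ∀ C : ℕ, ∃ N₀ : ℕ, ∀ N ≥ N₀, ∀ P : ℕ,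
    ∀ _ : NeZero P, P.Prime → 2 * N ≤ P → P ≤ C * N → U3 P (tr f N P) ≤ ε

/-- the triple with parameters `κ k a n`: `x = 2κn(ka+κn)`, `y = ka(ka+2κn)`,
`z = (ka+κn)² + (κn)²` -/
def tX (κ k a n : ℕ) : ℕ := 2 * (κ * n) * (k * a + κ * n)
def tY (κ k a n : ℕ) : ℕ := k * a * (k * a + 2 * (κ * n))
def tZ (κ k a n : ℕ) : ℕ := (k * a + κ * n) ^ 2 + (κ * n) ^ 2

theorem tXYZ (κ k a n : ℕ) : tX κ k a n ^ 2 + tY κ k a n ^ 2 = tZ κ k a n ^ 2 := by
  unfold tX tY tZ; ring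

/-- the average of `G a n₀` over `n₀ = u + u'`, `a = Q (v + v') + a₀`, `1 ≤ u, u' ≤ M`,
`1 ≤ v, v' ≤ D M` -/
noncomputable def Bx (Q D a₀ M : ℕ) (G : ℕ → ℕ → ℂ) : ℂ :=
  (∑ u ∈ Finset.Icc 1 M, ∑ u' ∈ Finset.Icc 1 M, ∑ v ∈ Finset.Icc 1 (D * M),
    ∑ v' ∈ Finset.Icc 1 (D * M), G (Q * (v + v') + a₀) (u + u')) /
      ((M : ℂ) ^ 2 * ((D * M : ℕ) : ℂ) ^ 2)

/-- MODULE B -/
def AperStmt : Prop :=
  ∀ f : ℕ → ℂ, CM f → Aper f → ∀ κ k Q D a₀ : ℕ, 0 < κ → 0 < k → 0 < Q → 0 < D →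
    Tendsto (fun M : ℕ => Bx Q D a₀ M fun a n => f (tX κ k a n) * conj (f (tY κ k a n)))
      atTop (𝓝 0) ∧
    Tendsto (fun M : ℕ => Bx Q D a₀ M fun a n => f (tY κ k a n) * conj (f (tZ κ k a n)))
      atTop (𝓝 0) ∧
    Tendsto (fun M : ℕ => Bx Q D a₀ M fun a n => f (tZ κ k a n) * conj (f (tX κ k a n)))
      atTop (𝓝 0)

/-- `f` pretends to be `χ(n) n^(it)` -/
def Pret (f : ℕ → ℂ) : Prop :=
  ∃ (q : ℕ) (_ : NeZero q) (χ : DirichletCharacter ℂ q) (t : ℝ),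
    Summable fun p : Nat.Primes =>
      ‖f p - χ ((p : ℕ) : ZMod q) * ((p : ℕ) : ℂ) ^ (t * Complex.I)‖ ^ 2 / ((p : ℕ) : ℝ)

/-- MODULE C -/
def PretStmt : Prop := ∀ f : ℕ → ℂ, CM f → ¬ Aper f → Pret f

/-- `k' = ∏_{p ≤ w} p^(e p)`, `e p < K` -/
def kp (w K : ℕ) (e : Fin (w + 1) → Fin K) : ℕ :=
  ∏ p : Fin (w + 1), if (p : ℕ).Prime then (p : ℕ) ^ (e p : ℕ) else 1

/-- `k = ∏_{w < p ≤ K} p^(e p + 2)`, `e p < K` -/
def kk (w K : ℕ) (e : Fin (K + 1) → Fin K) : ℕ :=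
  ∏ p : Fin (K + 1), if (p : ℕ).Prime ∧ w < (p : ℕ) then (p : ℕ) ^ ((e p : ℕ) + 2) else 1

/-- the inverse of `k` modulo `Q` -/
def inv0 (Q k : ℕ) : ℕ := ((k : ZMod Q)⁻¹).val

/-- side ratio; `K² κ ≤ DD w K` for `κ = w! k'` -/
def DD (w K : ℕ) : ℕ := K ^ 2 * w.factorial * w.factorial ^ K

/-- the average of `Φ(x,y,z)` over the family with parameters `w K M` -/
noncomputable def Av (w K M : ℕ) (Φ : ℕ → ℕ → ℕ → ℂ) : ℂ :=
  (∑ e : Fin (w + 1) → Fin K, ∑ e' : Fin (K + 1) → Fin K,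
    Bx w.factorial (DD w K) (inv0 w.factorial (kk w K e')) M fun a n =>
      Φ (tX (w.factorial * kp w K e) (kk w K e') a n)
        (tY (w.factorial * kp w K e) (kk w K e') a n)
        (tZ (w.factorial * kp w K e) (kk w K e') a n)) /
    ((K : ℂ) ^ (w + 1) * (K : ℂ) ^ (K + 1))

/-- the three pair correlations on a triple -/
def pc (f : ℕ → ℂ) (x y z : ℕ) : ℂ :=
  f x * conj (f y) + f y * conj (f z) + f z * conj (f x)

/-- the pointwise lower bound in nested limits -/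
def PW (f : ℕ → ℂ) : Prop :=
  ∀ ε : ℝ, 0 < ε → ∃ w₀ : ℕ, ∀ w ≥ w₀, ∃ K₀ : ℕ, ∀ K ≥ K₀, ∃ M₀ : ℕ, ∀ M ≥ M₀,
    -ε ≤ (Av w K M (pc f)).re

/-- MODULE D -/
def PWPret : Prop := ∀ f : ℕ → ℂ, CM f → Pret f → PW f

def PWStmt : Prop := ∀ f : ℕ → ℂ, CM f → PW f

/-- MODULE E: the final theorem, for a finitely additive probability on a set `Ω` and events
`E i n` (`i < r`, `n` a positive integer) which are disjoint for different `i`, have
dilation invariant densities and pair correlations, and never contain a Pythagorean triple -/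
def ProcStmt : Prop :=
  ∀ (Ω : Type) (μ : Set Ω → ℝ), (∀ A, 0 ≤ μ A) → μ Set.univ = 1 →
    (∀ A B, Disjoint A B → μ (A ∪ B) = μ A + μ B) →
    ∀ (r : ℕ) (E : Fin r → ℕ+ → Set Ω) (d : Fin r → ℝ),
      (∀ n i j, i ≠ j → Disjoint (E i n) (E j n)) →
      (∀ i n, μ (E i n) = d i) →
      (∀ i (k a b : ℕ+), μ (E i (k * a) ∩ E i (k * b)) = μ (E i a ∩ E i b)) →
      (∀ i (x y z : ℕ+), x ^ 2 + y ^ 2 = z ^ 2 → E i x ∩ E i y ∩ E i z = ∅) →
      ∑ i, d i ^ 2 ≤ 1 / 3 ∧ ∑ i, d i ^ 2 ≤ (∑ i, d i) / 2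

/-- the multiplicative box `{∏_{p ≤ R} p^(e p) : e p < R}` -/
def Box (R : ℕ) : Finset ℕ :=
  Finset.univ.image fun e : Fin (R + 1) → Fin R =>
    ∏ p : Fin (R + 1), if (p : ℕ).Prime then (p : ℕ) ^ (e p : ℕ) else 1

/-- finite form: every family of disjoint subsets of a large multiplicative box with
`Σ|A_i|² > (1/3 + ε)|F|²` or `Σ|A_i|² > (1/2 + ε) |F| Σ|A_i|` has a member containing a triple.
Invariant form: the same for invariant means. -/
def FinStmt : Prop :=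
  ∀ ε : ℝ, 0 < ε → ∃ R₀ : ℕ, ∀ R ≥ R₀, ∀ (r : ℕ) (A : Fin r → Finset ℕ),
    (∀ i, A i ⊆ Box R) → (∀ i j, i ≠ j → Disjoint (A i) (A j)) →
    ((1 / 3 + ε) * ((Box R).card : ℝ) ^ 2 ≤ ∑ i, ((A i).card : ℝ) ^ 2 ∨
      (1 / 2 * ∑ i, ((A i).card : ℝ) * (Box R).card + ε * ((Box R).card : ℝ) ^ 2 ≤
        ∑ i, ((A i).card : ℝ) ^ 2)) →
    ∃ i, ∃ x ∈ A i, ∃ y ∈ A i, ∃ z ∈ A i, x ^ 2 + y ^ 2 = z ^ 2

end Pool.Agent.F0f91f8.HD
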