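import Pool.Agent.Work.MP_0f91f8_co.HD.StmtsD

/-!
# Item DAv: `Av` of the pair correlations
-/

set_option autoImplicit false

namespace Pool.Agent.F0f91f8.HD

open Filter Topology ComplexConjugate
open scoped BigOperators

/-- item DAv -/
theorem pr_DAv (hBx : StDBx) : StDAv := by
  intro f w K M
  unfold Av
  congr 1
  refine Finset.sum_congr rfl fun e _ => Finset.sum_congr rfl fun e' _ => ?_
  obtain ⟨h, -⟩ := hBx w.factorial (DD w K) (inv0 w.factorial (kk w K e')) M
  unfold CX CY CZ BF pc
  rw [← h, ← h]

end Pool.Agent.F0f91f8.HD
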