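import Pool.Agent.Work.MP_0f91f8_co.HD.StmtsD

/-!
# Half density, module D, item DBx: rules for the averages
-/

set_option autoImplicit false

namespace Pool.Agent.F0f91f8.HD

open Filter Topology ComplexConjugate
open scoped BigOperators

theorem pr_DBx : StDBx := by
  intro Q D a₀ M
  refine ⟨?_, ?_, ?_, ?_, ?_, ?_, ?_⟩
  · intro F G
    unfold Bx
    rw [← add_div]
    congr 1
    simp only [Finset.sum_add_distrib]
  · intro c F
    unfold Bx
    rw [← mul_div_assoc]
    congr 1
    simp only [← Finset.mul_sum]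
  · intro F
    unfold Bx BR
    rw [norm_div]
    have h1 : ‖((M : ℂ) ^ 2 * ((D * M : ℕ) : ℂ) ^ 2)‖ = (M : ℝ) ^ 2 * ((D * M : ℕ) : ℝ) ^ 2 := by
      rw [norm_mul, norm_pow, norm_pow, Complex.norm_natCast, Complex.norm_natCast]
    rw [h1]
    refine div_le_div_of_nonneg_right ?_ (by positivity)
    refine (norm_sum_le _ _).trans (Finset.sum_le_sum fun u _ => ?_)
    refine (norm_sum_le _ _).trans (Finset.sum_le_sum fun u' _ => ?_)
    refine (norm_sum_le _ _).trans (Finset.sum_le_sum fun v _ => ?_)
    exact norm_sum_le _ _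
  · intro F G h
    unfold BR
    refine div_le_div_of_nonneg_right ?_ (by positivity)
    refine Finset.sum_le_sum fun u hu => Finset.sum_le_sum fun u' _ =>
      Finset.sum_le_sum fun v _ => Finset.sum_le_sum fun v' _ => ?_
    rw [Finset.mem_Icc] at hu
    exact h _ _ (by omega) (Nat.le_add_left _ _)
  · intro F G
    unfold BR
    rw [← add_div]
    congr 1
    simp only [Finset.sum_add_distrib]
  · intro c F
    unfold BR
    rw [← mul_div_assoc]
    congr 1
    simp only [← Finset.mul_sum]
  · intro hD hM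
    have hDM : 0 < D * M := Nat.mul_pos hD hM
    have hMr : (M : ℝ) ≠ 0 := by positivity
    have hDMr : ((D * M : ℕ) : ℝ) ≠ 0 := by exact_mod_cast hDM.ne'
    have hMc : (M : ℂ) ≠ 0 := by exact_mod_cast hM.ne'
    have hDMc : ((D * M : ℕ) : ℂ) ≠ 0 := by exact_mod_cast hDM.ne'
    constructor
    · unfold Bx
      simp only [Finset.sum_const, Nat.card_Icc, Nat.add_sub_cancel, nsmul_eq_mul, mul_one]
      rw [div_eq_one_iff_eq (by positivity)]
      ring
    · unfold BR
      simp only [Finset.sum_const, Nat.card_Icc, Nat.add_sub_cancel, nsmul_eq_mul, mul_one]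
      rw [div_eq_one_iff_eq (by positivity)]
      ring

end Pool.Agent.F0f91f8.HD
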