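import Pool.Agent.Work.MP_0f91f8_co.HD.StmtsD2

/-!
# Half density, module D, item DCt: counting (helper33)
-/

set_option autoImplicit false

namespace Pool.Agent.F0f91f8.HD

open Filter Topology ComplexConjugate
open scoped BigOperators

namespace IDCt

/-- one residue class -/
lemma one_class (m M c r : ℕ) (hm : 0 < m) :
    (((Finset.Icc 1 M).filter fun u => (u + c) % m = r).card : ℝ) ≤ (M : ℝ) / m + 1 := by
  have hm' : (0 : ℝ) < m := by exact_mod_cast hm
  have key : ((Finset.Icc 1 M).filter fun u => (u + c) % m = r).card ≤ M / m + 1 := by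
    have hinj : Set.InjOn (fun u : ℕ => (u - 1) / m)
        (((Finset.Icc 1 M).filter fun u => (u + c) % m = r) : Finset ℕ) := by
      intro u hu v hv h
      have hu' := Finset.mem_filter.1 (Finset.mem_coe.1 hu)
      have hv' := Finset.mem_filter.1 (Finset.mem_coe.1 hv)
      have hu1 := (Finset.mem_Icc.1 hu'.1)
      have hv1 := (Finset.mem_Icc.1 hv'.1)
      have h' : (u - 1) / m = (v - 1) / m := h
      -- u + c ≡ v + c mod m, so m ∣ u - v; and |u - v| < m
      have hmod : (u + c) ≡ (v + c) [MOD m] := by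
        unfold Nat.ModEq
        rw [hu'.2, hv'.2]
      have hmod2 : u ≡ v [MOD m] := Nat.ModEq.add_right_cancel' c hmod
      have hmod3 : u - 1 ≡ v - 1 [MOD m] := by
        have e1 : u = (u - 1) + 1 := by omega
        have e2 : v = (v - 1) + 1 := by omega
        rw [e1, e2] at hmod2
        exact Nat.ModEq.add_right_cancel' 1 hmod2
      have hmod4 : (u - 1) % m = (v - 1) % m := hmod3
      have h1 := Nat.div_add_mod (u - 1) m
      have h2 := Nat.div_add_mod (v - 1) m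
      rw [h', hmod4] at h1
      omega
    have hmap : ∀ u ∈ ((Finset.Icc 1 M).filter fun u => (u + c) % m = r),
        (fun u : ℕ => (u - 1) / m) u ∈ Finset.range (M / m + 1) := by
      intro u hu
      have hu1 := (Finset.mem_Icc.1 (Finset.mem_filter.1 hu).1)
      rw [Finset.mem_range]
      have : (u - 1) / m ≤ M / m := Nat.div_le_div_right (by omega)
      show (u - 1) / m < M / m + 1
      omega
    have := Finset.card_le_card_of_injOn _ hmap hinj
    rwa [Finset.card_range] at this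
  have h1 : (((Finset.Icc 1 M).filter fun u => (u + c) % m = r).card : ℝ) ≤
      ((M / m + 1 : ℕ) : ℝ) := by exact_mod_cast key
  refine h1.trans ?_
  push_cast
  have : ((M / m : ℕ) : ℝ) ≤ (M : ℝ) / m := Nat.cast_div_le
  linarith

lemma classes (m M c : ℕ) (S : Finset ℕ) (hm : 0 < m) :
    (((Finset.Icc 1 M).filter fun u => (u + c) % m ∈ S).card : ℝ) ≤ S.card * ((M : ℝ) / m + 1) := by
  have h1 : ((Finset.Icc 1 M).filter fun u => (u + c) % m ∈ S) =
      S.biUnion fun r => (Finset.Icc 1 M).filter fun u => (u + c) % m = r := by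
    ext u
    simp only [Finset.mem_filter, Finset.mem_biUnion]
    constructor
    · rintro ⟨h1, h2⟩
      exact ⟨_, h2, h1, rfl⟩
    · rintro ⟨r, hr, h1, h2⟩
      exact ⟨h1, h2 ▸ hr⟩
  rw [h1]
  have h2 : ((S.biUnion fun r => (Finset.Icc 1 M).filter fun u => (u + c) % m = r).card : ℝ) ≤
      ∑ r ∈ S, (((Finset.Icc 1 M).filter fun u => (u + c) % m = r).card : ℝ) := by
    exact_mod_cast Finset.card_biUnion_le
  refine h2.trans ?_
  refine (Finset.sum_le_sum fun r _ => one_class m M c r hm).trans ?_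
  rw [Finset.sum_const, nsmul_eq_mul]

lemma card_pr4 (K M : ℕ) : (pr4 K M).card ^ 4 ≤ M := by
  rcases (pr4 K M).eq_empty_or_nonempty with h | h
  · rw [h]; simp
  · obtain ⟨p, hp, hmax⟩ := (pr4 K M).exists_max_image id h
    have h1 : pr4 K M ⊆ Finset.Icc 1 p := by
      intro x hx
      rw [Finset.mem_Icc]
      have hx' := Finset.mem_filter.1 (by simpa [pr4] using hx : x ∈ (Finset.range (M + 1)).filter
        fun p => p.Prime ∧ K < p ∧ p ^ 4 ≤ M)
      exact ⟨hx'.2.1.pos, hmax x hx⟩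
    have h2 : (pr4 K M).card ≤ p := by
      have := Finset.card_le_card h1
      simpa using this
    have hp' := Finset.mem_filter.1 (by simpa [pr4] using hp : p ∈ (Finset.range (M + 1)).filter
        fun p => p.Prime ∧ K < p ∧ p ^ 4 ≤ M)
    exact (Nat.pow_le_pow_left h2 4).trans hp'.2.2.2

lemma mem_pr4 {K M p : ℕ} : p ∈ pr4 K M ↔ p.Prime ∧ K < p ∧ p ^ 4 ≤ M := by
  unfold pr4
  rw [Finset.mem_filter, Finset.mem_range]
  constructor
  · exact fun h => h.2
  · intro h
    refine ⟨?_, h⟩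
    have h1 : p ≤ p ^ 4 := Nat.le_self_pow (by norm_num) p
    omega

lemma tele (K N : ℕ) (hK : 1 ≤ K) (hKN : K ≤ N) :
    ∑ n ∈ Finset.Ioc K N, 1 / (n : ℝ) ^ 2 ≤ 1 / (K : ℝ) - 1 / (N : ℝ) := by
  induction N, hKN using Nat.le_induction with
  | base => simp
  | succ N hN ih =>
    rw [Finset.sum_Ioc_succ_top (by omega)]
    have hN0 : (0 : ℝ) < N := by
      have : 0 < N := by omega
      exact_mod_cast this
    have h1 : 1 / ((N + 1 : ℕ) : ℝ) ^ 2 ≤ 1 / (N : ℝ) - 1 / ((N + 1 : ℕ) : ℝ) := by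
      push_cast
      rw [div_sub_div _ _ hN0.ne' (by positivity), div_le_div_iff₀ (by positivity) (by positivity)]
      nlinarith
    linarith

lemma sum_sq (K M : ℕ) (hK : 1 ≤ K) : ∑ p ∈ pr4 K M, 1 / (p : ℝ) ^ 2 ≤ 1 / (K : ℝ) := by
  have h1 : pr4 K M ⊆ Finset.Ioc K (K + M) := by
    intro p hp
    have := mem_pr4.1 hp
    rw [Finset.mem_Ioc]
    have h1 : p ≤ p ^ 4 := Nat.le_self_pow (by norm_num) p
    omega
  refine (Finset.sum_le_sum_of_subset_of_nonneg h1 fun _ _ _ => by positivity).trans ?_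
  refine (tele K (K + M) hK (by omega)).trans ?_
  have : (0 : ℝ) ≤ 1 / ((K + M : ℕ) : ℝ) := by positivity
  linarith

lemma congr_class (m α β : ℕ) (hm : 0 < m) (h : Nat.Coprime α m) :
    ∃ r < m, ∀ u : ℕ, m ∣ α * u + β ↔ u % m = r := by
  have : NeZero m := ⟨hm.ne'⟩
  set x : ZMod m := -((α : ZMod m)⁻¹ * (β : ZMod m)) with hx
  have hu : (α : ZMod m) * (α : ZMod m)⁻¹ = 1 := ZMod.coe_mul_inv_eq_one α h
  refine ⟨x.val, ZMod.val_lt x, fun u => ?_⟩
  rw [← ZMod.natCast_eq_zero_iff]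
  push_cast
  constructor
  · intro h1
    have h2 : (u : ZMod m) = x := by
      have h3 : (α : ZMod m) * u = -β := by
        linear_combination h1
      calc (u : ZMod m) = ((α : ZMod m) * (α : ZMod m)⁻¹) * u := by rw [hu, one_mul]
        _ = (α : ZMod m)⁻¹ * ((α : ZMod m) * u) := by ring
        _ = x := by rw [h3, hx]; ring
    rw [← h2, ZMod.val_natCast]
  · intro h1
    have h2 : (u : ZMod m) = x := by
      have h3 : ((u % m : ℕ) : ZMod m) = ((x.val : ℕ) : ZMod m) := by rw [h1]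
      rwa [ZMod.natCast_mod, ZMod.natCast_zmod_val] at h3
    rw [h2, hx]
    linear_combination (-(β : ZMod m)) * hu

lemma card_sq (η : ℝ) (hη : 0 < η) :
    ∃ M0 : ℕ, ∀ M ≥ M0, ∀ K : ℕ, ((pr4 K M).card : ℝ) ^ 2 ≤ η * M := by
  obtain ⟨M0, hM0⟩ := exists_nat_ge (1 / η ^ 2)
  refine ⟨M0, fun M hM K => ?_⟩
  have h1 : ((pr4 K M).card : ℝ) ^ 4 ≤ M := by exact_mod_cast card_pr4 K M
  have h2 : 1 / η ^ 2 ≤ (M : ℝ) := hM0.trans (by exact_mod_cast hM)
  have h3 : 1 ≤ η ^ 2 * M := by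
    rw [div_le_iff₀ (by positivity)] at h2
    linarith
  have hM' : (0 : ℝ) ≤ M := by positivity
  have h4 : (((pr4 K M).card : ℝ) ^ 2) ^ 2 ≤ (η * M) ^ 2 := by
    calc (((pr4 K M).card : ℝ) ^ 2) ^ 2 = ((pr4 K M).card : ℝ) ^ 4 := by ring
      _ ≤ (M : ℝ) := h1
      _ = 1 * (M : ℝ) := (one_mul _).symm
      _ ≤ (η ^ 2 * M) * M := mul_le_mul_of_nonneg_right h3 hM'
      _ = (η * M) ^ 2 := by ring
  exact abs_le_of_sq_le_sq' h4 (by positivity) |>.2

lemma mean_sqrt (M : ℕ) (x : ℕ → ℝ) (_ : ∀ u, 0 ≤ x u) :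
    (∑ u ∈ Finset.Icc 1 M, x u) / (M : ℝ) ≤
      Real.sqrt ((∑ u ∈ Finset.Icc 1 M, x u ^ 2) / (M : ℝ)) := by
  rcases Nat.eq_zero_or_pos M with h | h
  · subst h; simp
  · have hM : (0 : ℝ) < M := by exact_mod_cast h
    refine Real.le_sqrt_of_sq_le ?_
    have h1 := sq_sum_le_card_mul_sum_sq (s := Finset.Icc 1 M) (f := x)
    rw [Nat.card_Icc, Nat.add_sub_cancel] at h1
    rw [div_pow, div_le_div_iff₀ (by positivity) hM]
    calc (∑ u ∈ Finset.Icc 1 M, x u) ^ 2 * M ≤ (M * ∑ u ∈ Finset.Icc 1 M, x u ^ 2) * M :=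
          mul_le_mul_of_nonneg_right h1 hM.le
      _ = _ := by ring

end IDCt

open IDCt in
theorem pr_DCt : StDCt :=
  ⟨fun m M c S hm => classes m M c S hm, card_pr4, fun K M hK => sum_sq K M hK,
    fun m α β hm h => congr_class m α β hm h, card_sq, mean_sqrt⟩

end Pool.Agent.F0f91f8.HD
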