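import Pool.Agent.Work.MP_0f91f8_co.HD.StmtsD

/-! Half density, module D: item DDe (helper83). -/

set_option autoImplicit false

namespace Pool.Agent.F0f91f8.HD

open Filter Topology ComplexConjugate
open scoped BigOperators

namespace DDe

theorem cm_one {f : ℕ → ℂ} (hf : CM f) : f 1 = 1 := by
  have h1 := hf.2.1 1 1
  have h2 : f 1 ≠ 0 := by
    intro h
    have := hf.2.2 1 one_pos
    rw [h] at this
    simp at this
  rw [mul_one] at h1
  have h3 : f 1 * 1 = f 1 * f 1 := by rw [mul_one]; exact h1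
  exact (mul_left_cancel₀ h2 h3).symm

/-- the completely multiplicative function with values `G p` at the primes -/
noncomputable def ext (G : ℕ → ℂ) (n : ℕ) : ℂ :=
  if n = 0 then 0 else n.factorization.prod fun p k => G p ^ k

theorem ext_mul (G : ℕ → ℂ) (m n : ℕ) : ext G (m * n) = ext G m * ext G n := by
  unfold ext
  by_cases hm : m = 0
  · simp [hm]
  by_cases hn : n = 0
  · simp [hn]
  rw [if_neg (Nat.mul_ne_zero hm hn), if_neg hm, if_neg hn, Nat.factorization_mul hm hn]
  exact Finsupp.prod_add_index' (fun _ => pow_zero _) (fun _ _ _ => pow_add _ _ _)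

theorem ext_prime (G : ℕ → ℂ) {p : ℕ} (hp : p.Prime) : ext G p = G p := by
  unfold ext
  rw [if_neg hp.ne_zero, hp.factorization]
  exact (Finsupp.prod_single_index (h := fun (p : ℕ) (k : ℕ) => G p ^ k) (pow_zero (G p))).trans (pow_one (G p))

theorem ext_cm (G : ℕ → ℂ) (hG : ∀ p : ℕ, p.Prime → ‖G p‖ = 1) : CM (ext G) := by
  refine ⟨by simp [ext], ext_mul G, fun n hn => ?_⟩
  unfold ext
  rw [if_neg hn.ne']
  unfold Finsupp.prod
  rw [norm_prod]
  refine Finset.prod_eq_one fun p hp => ?_
  have hpp : p.Prime := by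
    rw [Nat.support_factorization] at hp
    exact Nat.prime_of_mem_primeFactors hp
  rw [norm_pow, hG p hpp, one_pow]

end DDe

open DDe in
theorem pr_DDe : StDDe := by
  intro f hf hp
  obtain ⟨q, hq, χ, t, hs⟩ := hp
  have hq0 : 0 < q := Nat.pos_of_ne_zero hq.out
  -- the values at primes
  let c : ℕ → ℂ := fun p => χ ((p : ℕ) : ZMod q) * ((p : ℕ) : ℂ) ^ (t * Complex.I)
  let G : ℕ → ℂ := fun p => if p ∣ q then 1 else f p * conj (c p)
  have hpow : ∀ n : ℕ, 0 < n → ‖(n : ℂ) ^ (t * Complex.I)‖ = 1 := fun n hn => by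
    rw [Complex.norm_natCast_cpow_of_pos hn]; simp
  have hcop : ∀ n : ℕ, n.Coprime q → ‖χ ((n : ℕ) : ZMod q)‖ = 1 := fun n hn => by
    have hu : IsUnit ((n : ℕ) : ZMod q) := (ZMod.isUnit_iff_coprime n q).mpr hn
    exact DirichletCharacter.unit_norm_eq_one χ hu.unit
  have hc1 : ∀ p : ℕ, p.Prime → ¬ p ∣ q → ‖c p‖ = 1 := fun p hp hpq => by
    change ‖χ ((p : ℕ) : ZMod q) * ((p : ℕ) : ℂ) ^ (t * Complex.I)‖ = 1
    rw [norm_mul, hpow p hp.pos, hcop p ((Nat.Prime.coprime_iff_not_dvd hp).mpr hpq), one_mul]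
  have hG1 : ∀ p : ℕ, p.Prime → ‖G p‖ = 1 := fun p hp => by
    by_cases h : p ∣ q
    · simp only [G, if_pos h, norm_one]
    · simp only [G, if_neg h]
      rw [norm_mul, Complex.norm_conj, hf.2.2 p hp.pos, hc1 p hp h, one_mul]
  refine ⟨ext G, t, q, hf, ⟨ext_cm G hG1, ?_⟩, hq0, ?_⟩
  · refine Summable.of_nonneg_of_le (fun p => by positivity) (fun p => ?_) hs
    have hpp := p.2
    rw [ext_prime G hpp]
    refine div_le_div_of_nonneg_right ?_ (Nat.cast_nonneg _)
    by_cases h : (p : ℕ) ∣ q
    · simp only [G, if_pos h, sub_self, norm_zero]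
      exact (le_of_eq (by norm_num)).trans (sq_nonneg _)
    · simp only [G, if_neg h]
      have h1 : ‖(1 : ℂ) - f p * conj (c p)‖ = ‖f p - c p‖ := by
        have h2 : c p * ((1 : ℂ) - f p * conj (c p)) = c p - f p := by
          have h3 : c p * conj (c p) = 1 := by
            rw [Complex.mul_conj, Complex.normSq_eq_norm_sq, hc1 p hpp h]; simp
          linear_combination (-f p) * h3
        have h4 : ‖c p * ((1 : ℂ) - f p * conj (c p))‖ = ‖(1 : ℂ) - f p * conj (c p)‖ := by
          rw [norm_mul, hc1 p hpp h, one_mul]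
        rw [← h4, h2, norm_sub_rev]
      rw [h1]
  · have key : ∀ n : ℕ, 0 < n → n.Coprime q →
        f n = χ ((n : ℕ) : ZMod q) * ((n : ℕ) : ℂ) ^ (t * Complex.I) * ext G n := by
      intro n
      induction n using Nat.recOnMul with
      | zero => intro h; exact absurd h (lt_irrefl 0)
      | one =>
        intro _ _
        rw [cm_one hf]
        simp [ext]
      | prime p hpp =>
        intro _ hcp
        have hpq : ¬ p ∣ q := (Nat.Prime.coprime_iff_not_dvd hpp).mp hcp
        rw [ext_prime G hpp]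
        simp only [G, if_neg hpq]
        have h3 : c p * conj (c p) = 1 := by
          rw [Complex.mul_conj, Complex.normSq_eq_norm_sq, hc1 p hpp hpq]; simp
        change f p = c p * (f p * conj (c p))
        linear_combination (-f p) * h3
      | mul a b iha ihb =>
        intro hab hcab
        have ha0 : 0 < a := Nat.pos_of_mul_pos_right hab
        have hb0 : 0 < b := Nat.pos_of_mul_pos_left hab
        have hca : a.Coprime q := Nat.Coprime.coprime_mul_right hcab
        have hcb : b.Coprime q := Nat.Coprime.coprime_mul_left hcab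
        rw [hf.2.1, iha ha0 hca, ihb hb0 hcb, ext_mul, Nat.cast_mul, Nat.cast_mul, map_mul,
          Complex.natCast_mul_natCast_cpow]
        ring
    intro n hn hmod
    have hz : ((n : ℕ) : ZMod q) = 1 := by
      have h1 : ((n : ℕ) : ZMod q) = ((1 : ℕ) : ZMod q) := (ZMod.natCast_eq_natCast_iff' n 1 q).mpr hmod
      rw [h1, Nat.cast_one]
    have hcn : n.Coprime q := by
      have hu : IsUnit ((n : ℕ) : ZMod q) := by rw [hz]; exact isUnit_one
      exact (ZMod.isUnit_iff_coprime n q).mp hu
    rw [key n hn hcn, hz, map_one, one_mul]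

end Pool.Agent.F0f91f8.HD
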