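import Pool.Agent.Work.MP_0f91f8_co.HD.StmtsD

/-!
Block HD, item DEx: estimates for the exponential function and for products.
-/

set_option autoImplicit false

namespace Pool.Agent.F0f91f8.HD

open Filter Topology ComplexConjugate
open scoped BigOperators

namespace IDEx

theorem exp_lip (z w : ℂ) (hz : z.re ≤ 0) (hw : w.re ≤ 0) :
    ‖Complex.exp z - Complex.exp w‖ ≤ ‖z - w‖ := by
  have hc : Convex ℝ {z : ℂ | z.re ≤ 0} := convex_halfSpace_re_le 0
  have h := hc.norm_image_sub_le_of_norm_hasDerivWithin_le (f := Complex.exp) (f' := Complex.exp)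
    (C := 1) (x := w) (y := z) (fun x _ => (Complex.hasDerivAt_exp x).hasDerivWithinAt)
    (fun x hx => by
      rw [Complex.norm_exp]
      exact Real.exp_le_one_iff.2 hx) hw hz
  rwa [one_mul] at h

theorem one_fac (h : ℂ) (hh : h.re ≤ 0) : ‖Complex.exp h - 1 - h‖ ≤ ‖h‖ ^ 2 := by
  have hc : Convex ℝ ({z : ℂ | z.re ≤ 0} ∩ Metric.closedBall 0 ‖h‖) :=
    (convex_halfSpace_re_le 0).inter (convex_closedBall _ _)
  have h1 := hc.norm_image_sub_le_of_norm_hasDerivWithin_le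
    (f := fun z => Complex.exp z - 1 - z) (f' := fun z => Complex.exp z - 1) (C := ‖h‖)
    (x := 0) (y := h)
    (fun x _ => (((Complex.hasDerivAt_exp x).sub_const 1).sub (hasDerivAt_id x)).hasDerivWithinAt)
    (fun x hx => by
      have h2 := exp_lip x 0 hx.1 (by simp)
      rw [Complex.exp_zero, sub_zero] at h2
      exact h2.trans (by simpa using hx.2))
    ⟨by simp, by simp⟩ ⟨hh, by simp⟩
  simpa [sq] using h1

theorem prod_diff (S : Finset ℕ) (z w : ℕ → ℂ) (hz : ∀ p ∈ S, ‖z p‖ ≤ 1)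
    (hw : ∀ p ∈ S, ‖w p‖ ≤ 1) :
    ‖∏ p ∈ S, z p - ∏ p ∈ S, w p‖ ≤ ∑ p ∈ S, ‖z p - w p‖ := by
  induction S using Finset.induction_on with
  | empty => simp
  | insert a s ha ih =>
    rw [Finset.prod_insert ha, Finset.prod_insert ha, Finset.sum_insert ha]
    have h1 := ih (fun p hp => hz p (Finset.mem_insert_of_mem hp))
      (fun p hp => hw p (Finset.mem_insert_of_mem hp))
    have h2 : z a * ∏ p ∈ s, z p - w a * ∏ p ∈ s, w p =
        z a * (∏ p ∈ s, z p - ∏ p ∈ s, w p) + (z a - w a) * ∏ p ∈ s, w p := by ring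
    rw [h2]
    have h3 : ‖z a * (∏ p ∈ s, z p - ∏ p ∈ s, w p)‖ ≤ ∑ p ∈ s, ‖z p - w p‖ := by
      rw [norm_mul]
      calc ‖z a‖ * ‖∏ p ∈ s, z p - ∏ p ∈ s, w p‖ ≤ 1 * ‖∏ p ∈ s, z p - ∏ p ∈ s, w p‖ :=
            mul_le_mul_of_nonneg_right (hz a (Finset.mem_insert_self _ _)) (norm_nonneg _)
        _ ≤ _ := by rw [one_mul]; exact h1
    have h4 : ‖(z a - w a) * ∏ p ∈ s, w p‖ ≤ ‖z a - w a‖ := by
      rw [norm_mul, norm_prod]
      refine mul_le_of_le_one_right (norm_nonneg _) ?_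
      exact Finset.prod_le_one (fun _ _ => norm_nonneg _)
        fun p hp => hw p (Finset.mem_insert_of_mem hp)
    calc _ ≤ _ := norm_add_le _ _
      _ ≤ ‖z a - w a‖ + ∑ p ∈ s, ‖z p - w p‖ := by linarith

end IDEx

open IDEx in
theorem pr_DEx : StDEx := by
  refine ⟨exp_lip, fun S g hg => ?_, prod_diff⟩
  have hre : ∀ p ∈ S, (g p - 1).re ≤ 0 := fun p hp => by
    have h1 := Complex.re_le_norm (g p)
    rw [hg p hp] at h1
    rw [Complex.sub_re, Complex.one_re]
    linarith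
  rw [Complex.exp_sum]
  refine (prod_diff S g (fun p => Complex.exp (g p - 1)) (fun p hp => (hg p hp).le)
    (fun p hp => ?_)).trans (Finset.sum_le_sum fun p hp => ?_)
  · rw [Complex.norm_exp]
    exact Real.exp_le_one_iff.2 (hre p hp)
  · have h1 := one_fac (g p - 1) (hre p hp)
    rw [norm_sub_rev]
    have h2 : Complex.exp (g p - 1) - g p = Complex.exp (g p - 1) - 1 - (g p - 1) := by ring
    rw [h2]
    exact h1

end Pool.Agent.F0f91f8.HD
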