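import Pool.Agent.Work.MP_0f91f8_co.HD.StmtsD

/-!
# Half density, module D, item DFc: factorisation of a completely multiplicative function
-/

set_option autoImplicit false

namespace Pool.Agent.F0f91f8.HD

open Filter Topology ComplexConjugate
open scoped BigOperators

namespace IDFc

lemma map_one {g : ℕ → ℂ} (hg : CM g) : g 1 = 1 := by
  have h1 : g 1 ≠ 0 := by
    intro h
    have := hg.2.2 1 one_pos
    rw [h, norm_zero] at this
    exact zero_ne_one this
  have h2 : g 1 * g 1 = g 1 * 1 := by
    rw [mul_one, ← hg.2.1 1 1]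
  exact mul_left_cancel₀ h1 h2

lemma map_pow {g : ℕ → ℂ} (hg : CM g) (p k : ℕ) : g (p ^ k) = g p ^ k := by
  induction k with
  | zero => rw [pow_zero, pow_zero, map_one hg]
  | succ k ih => rw [pow_succ, pow_succ, hg.2.1, ih]

lemma map_prod {g : ℕ → ℂ} (hg : CM g) (s : Finset ℕ) (f : ℕ → ℕ) :
    g (∏ p ∈ s, f p) = ∏ p ∈ s, g (f p) := by
  induction s using Finset.induction_on with
  | empty => rw [Finset.prod_empty, Finset.prod_empty, map_one hg]
  | insert a s ha ih => rw [Finset.prod_insert ha, Finset.prod_insert ha, hg.2.1, ih]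

lemma eq_prod {g : ℕ → ℂ} (hg : CM g) {n : ℕ} (hn : 0 < n) :
    g n = ∏ p ∈ n.primeFactors, g p ^ n.factorization p := by
  conv_lhs => rw [← Nat.prod_factorization_pow_eq_self hn.ne']
  rw [Finsupp.prod, Nat.support_factorization, map_prod hg]
  exact Finset.prod_congr rfl fun p _ => map_pow hg _ _

lemma norm_prod {g : ℕ → ℂ} (hg : CM g) (n : ℕ) (s : Finset ℕ) (hs : s ⊆ n.primeFactors) :
    ‖∏ p ∈ s, g p ^ n.factorization p‖ = 1 := by
  rw [Complex.norm_prod]
  refine Finset.prod_eq_one fun p hp => ?_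
  rw [norm_pow, hg.2.2 p (Nat.prime_of_mem_primeFactors (hs hp)).pos, one_pow]

end IDFc

open IDFc in
theorem pr_DFc : StDFc := by
  intro g hg w K n hn hwK
  refine ⟨fun h => ?_, norm_prod hg n _ (Finset.filter_subset _ _),
    norm_prod hg n _ (Finset.filter_subset _ _)⟩
  rw [eq_prod hg hn]
  unfold gP gT
  have e : n.primeFactors = (n.primeFactors.filter fun p => w < p ∧ p ≤ K) ∪
      (n.primeFactors.filter fun p => K < p) := by
    ext p
    rw [Finset.mem_union, Finset.mem_filter, Finset.mem_filter]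
    constructor
    · intro hp
      have h1 := h p (Nat.prime_of_mem_primeFactors hp) (Nat.dvd_of_mem_primeFactors hp)
      rcases le_or_gt p K with h2 | h2
      · exact Or.inl ⟨hp, h1, h2⟩
      · exact Or.inr ⟨hp, h2⟩
    · rintro (h1 | h1)
      · exact h1.1
      · exact h1.1
  conv_lhs => rw [e]
  refine Finset.prod_union ?_
  rw [Finset.disjoint_left]
  intro p h1 h2
  have h3 := (Finset.mem_filter.1 h1).2.2
  have h4 := (Finset.mem_filter.1 h2).2
  omega

end Pool.Agent.F0f91f8.HD
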