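import Pool.Agent.Work.MP_0f91f8_co.HD.StmtsD

/-! Half density, module D: item DFi (helper83). -/

set_option autoImplicit false

namespace Pool.Agent.F0f91f8.HD

open Filter Topology ComplexConjugate
open scoped BigOperators

namespace DFi

theorem card_e (n K : ℕ) : ((Fintype.card (Fin n → Fin K) : ℕ) : ℝ) = (K : ℝ) ^ n := by
  simp

theorem sum_norm_le {α : Type*} [Fintype α] (F : α → ℂ) (δ : ℝ) (h : ∀ e, ‖F e‖ ≤ δ) :
    ‖∑ e, F e‖ ≤ (Fintype.card α : ℝ) * δ := by
  refine (norm_sum_le _ _).trans ?_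
  refine (Finset.sum_le_sum fun e _ => h e).trans ?_
  simp

/-- averages over `e`, `e'` -/
noncomputable def avg {w K : ℕ} (F : (Fin (w + 1) → Fin K) → (Fin (K + 1) → Fin K) → ℂ) : ℂ :=
  (∑ e, ∑ e', F e e') / ((K : ℂ) ^ (w + 1) * (K : ℂ) ^ (K + 1))

theorem avg_add {w K : ℕ} (F G : (Fin (w + 1) → Fin K) → (Fin (K + 1) → Fin K) → ℂ) :
    avg (fun e e' => F e e' + G e e') = avg F + avg G := by
  unfold avg
  simp only [Finset.sum_add_distrib]
  rw [add_div]

theorem avg_norm {w K : ℕ} (hK : 1 ≤ K) (F : (Fin (w + 1) → Fin K) → (Fin (K + 1) → Fin K) → ℂ)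
    (δ : ℝ) (h : ∀ e e', ‖F e e'‖ ≤ δ) : ‖avg F‖ ≤ δ := by
  have hK0 : (0 : ℝ) < K := by exact_mod_cast hK
  have h1 : ∀ e, ‖∑ e', F e e'‖ ≤ (K : ℝ) ^ (K + 1) * δ := fun e => by
    have := sum_norm_le (fun e' => F e e') δ (h e)
    rwa [card_e] at this
  have h2 : ‖∑ e, ∑ e', F e e'‖ ≤ (K : ℝ) ^ (w + 1) * ((K : ℝ) ^ (K + 1) * δ) := by
    have := sum_norm_le (fun e => ∑ e', F e e') _ h1
    rwa [card_e] at this
  unfold avg
  rw [norm_div]
  have h3 : ‖(K : ℂ) ^ (w + 1) * (K : ℂ) ^ (K + 1)‖ = (K : ℝ) ^ (w + 1) * (K : ℝ) ^ (K + 1) := by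
    simp
  rw [h3, div_le_iff₀ (by positivity)]
  linarith [h2]

theorem avg_re {w K : ℕ} (hK : 1 ≤ K) (F : (Fin (w + 1) → Fin K) → (Fin (K + 1) → Fin K) → ℂ)
    (c : ℝ) (h : ∀ e e', c ≤ (F e e').re) : c ≤ (avg F).re := by
  have hK0 : (0 : ℝ) < K := by exact_mod_cast hK
  have h3 : ((K : ℂ) ^ (w + 1) * (K : ℂ) ^ (K + 1)) =
      (((K : ℝ) ^ (w + 1) * (K : ℝ) ^ (K + 1) : ℝ) : ℂ) := by push_cast; rfl
  unfold avg
  rw [h3, Complex.div_ofReal_re, le_div_iff₀ (by positivity), Complex.re_sum]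
  simp only [Complex.re_sum]
  have h4 : ∑ e : Fin (w + 1) → Fin K, ∑ e' : Fin (K + 1) → Fin K, c ≤
      ∑ e, ∑ e', (F e e').re :=
    Finset.sum_le_sum fun e _ => Finset.sum_le_sum fun e' _ => h e e'
  have h5 : ∑ e : Fin (w + 1) → Fin K, ∑ e' : Fin (K + 1) → Fin K, c =
      (K : ℝ) ^ (w + 1) * ((K : ℝ) ^ (K + 1) * c) := by
    simp
  rw [h5] at h4
  linarith [h4]

theorem avg_mul {w K : ℕ} (A : (Fin (w + 1) → Fin K) → ℂ) (B : (Fin (K + 1) → Fin K) → ℂ) :
    avg (fun e e' => A e * B e') =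
      ((∑ e, A e) / (K : ℂ) ^ (w + 1)) * ((∑ e', B e') / (K : ℂ) ^ (K + 1)) := by
  unfold avg
  rw [div_mul_div_comm, Finset.sum_mul_sum]

theorem mean_norm {n K : ℕ} (hK : 1 ≤ K) (B : (Fin n → Fin K) → ℂ) (δ : ℝ)
    (h : ∀ e, ‖B e‖ ≤ δ) : ‖(∑ e, B e) / (K : ℂ) ^ n‖ ≤ δ := by
  have hK0 : (0 : ℝ) < K := by exact_mod_cast hK
  have := sum_norm_le B δ h
  rw [card_e] at this
  rw [norm_div]
  have h3 : ‖(K : ℂ) ^ n‖ = (K : ℝ) ^ n := by simp
  rw [h3, div_le_iff₀ (by positivity)]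
  linarith

theorem cm_le {f : ℕ → ℂ} (hf : CM f) (n : ℕ) : ‖f n‖ ≤ 1 := by
  rcases Nat.eq_zero_or_pos n with h | h
  · rw [h, hf.1]; simp
  · rw [hf.2.2 n h]

theorem gP_le {g : ℕ → ℂ} (hg : CM g) (A B n : ℕ) : ‖gP g A B n‖ ≤ 1 := by
  unfold gP
  rw [norm_prod]
  refine Finset.prod_le_one (fun _ _ => norm_nonneg _) fun p _ => ?_
  rw [norm_pow]
  exact pow_le_one₀ (norm_nonneg _) (cm_le hg p)

theorem pow_le (n : ℕ) (t : ℝ) : ‖(n : ℂ) ^ (t * Complex.I)‖ ≤ 1 := by
  rcases Nat.eq_zero_or_pos n with h | h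
  · subst h
    by_cases ht : (t : ℂ) * Complex.I = 0
    · rw [ht]; simp
    · rw [Nat.cast_zero, Complex.zero_cpow ht]; simp
  · rw [Complex.norm_natCast_cpow_of_pos h]
    simp

theorem bx_le (Q D a₀ M : ℕ) (G : ℕ → ℕ → ℂ) (h : ∀ a n, ‖G a n‖ ≤ 1) :
    ‖Bx Q D a₀ M G‖ ≤ 1 := by
  unfold Bx
  rw [norm_div]
  have h3 : ‖(M : ℂ) ^ 2 * ((D * M : ℕ) : ℂ) ^ 2‖ = (M : ℝ) ^ 2 * ((D * M : ℕ) : ℝ) ^ 2 := by
    rw [norm_mul, norm_pow, norm_pow, Complex.norm_natCast, Complex.norm_natCast]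
  rw [h3]
  refine div_le_one_of_le₀ ?_ (by positivity)
  have hs : ∀ (N : ℕ) (F : ℕ → ℂ) (c : ℝ), (∀ u, ‖F u‖ ≤ c) →
      ‖∑ u ∈ Finset.Icc 1 N, F u‖ ≤ (N : ℝ) * c := by
    intro N F c hF
    refine (norm_sum_le _ _).trans ?_
    refine (Finset.sum_le_sum fun e _ => hF e).trans ?_
    simp
  refine (hs M _ _ fun u => hs M _ _ fun u' => hs (D * M) _ _ fun v => hs (D * M) _ 1 fun v' =>
    h _ _).trans (le_of_eq ?_)
  ring

end DFi

open DFi in
theorem pr_DFi (hAv : StDAv) (hTl : StDTl) (hXm : StDXm) (hZm : StDZm) (hYm : StDYm)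
    (hVe : StDVe) (hKp : StDKp) (hDe : StDDe) (hOn : StDOn) : StDFi := by
  intro f hf hp
  by_cases hall : ∀ p : ℕ, p.Prime → f p = 1
  · exact hOn f hf hall
  push Not at hall
  obtain ⟨p0, hp0, hfp0⟩ := hall
  obtain ⟨g, t, q, hd⟩ := hDe f hf hp
  obtain ⟨cX, hcX, hX⟩ := hXm
  obtain ⟨cZ, hcZ, hZ⟩ := hZm
  obtain ⟨cY, hcY, hY⟩ := hYm
  obtain ⟨cV, hcV, hV⟩ := hVe
  have hg := hd.hg
  obtain ⟨-, -, -, hert, -, hcLQ, -⟩ := hTl g hg
  intro ε hε
  set C : ℝ := cX + cZ + cY + cV with hC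
  have hC0 : 0 < C := by positivity
  have hXC : cX ≤ C := by linarith
  have hZC : cZ ≤ C := by linarith
  have hYC : cY ≤ C := by linarith
  have hVC : cV ≤ C := by linarith
  set δ : ℝ := ε / 40 with hδ
  have hδ0 : 0 < δ := by positivity
  have her0 : ∀ K, 0 ≤ er g K := fun K => Real.sqrt_nonneg _
  refine ⟨p0 + q + 2 + ⌈C / δ⌉₊, fun w hw => ?_⟩
  have hwp0 : p0 ≤ w := by omega
  have hwq : q ≤ w := by omega
  have hw2 : 2 ≤ w := by omega
  have hqw : q ∣ w.factorial := Nat.dvd_factorial hd.hq hwq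
  have hw0 : (0 : ℝ) < w := by
    have : 0 < w := by omega
    exact_mod_cast this
  have hCw : C * (1 / (w : ℝ)) ≤ δ := by
    have h1 : C / δ ≤ (w : ℝ) := by
      refine (Nat.le_ceil _).trans ?_
      have : ⌈C / δ⌉₊ ≤ w := by omega
      exact_mod_cast this
    rw [div_le_iff₀ hδ0] at h1
    rw [mul_one_div, div_le_iff₀ hw0]
    linarith
  -- eventually statements in K
  have hinv : Tendsto (fun K : ℕ => ((K : ℝ))⁻¹) atTop (𝓝 0) := tendsto_inv_atTop_nhds_zero_nat
  have hevc : ∀ c : ℝ, ∀ᶠ K : ℕ in atTop, c * ((K : ℝ))⁻¹ ≤ δ := fun c => by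
    have h1 : Tendsto (fun K : ℕ => c * ((K : ℝ))⁻¹) atTop (𝓝 (c * 0)) := hinv.const_mul c
    rw [mul_zero] at h1
    exact (h1.eventually (gt_mem_nhds hδ0)).mono fun K h => h.le
  have hever : ∀ᶠ K : ℕ in atTop, C * er g K ≤ δ := by
    have h1 : Tendsto (fun K : ℕ => C * er g K) atTop (𝓝 (C * 0)) := hert.const_mul C
    rw [mul_zero] at h1
    exact (h1.eventually (gt_mem_nhds hδ0)).mono fun K h => h.le
  have hf1 : 0 < ‖1 - f p0‖ := by
    rw [norm_pos_iff, sub_ne_zero]; exact fun h => hfp0 h.symm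
  -- the case distinction gives a p1
  have hcase : (∃ p1 : ℕ, p1.Prime ∧ w < p1 ∧ g p1 ≠ 1) ∨ ∀ p : ℕ, p.Prime → w < p → g p = 1 := by
    by_cases h : ∃ p1 : ℕ, p1.Prime ∧ w < p1 ∧ g p1 ≠ 1
    · exact Or.inl h
    · push Not at h
      exact Or.inr h
  -- common part
  have hmain : ∀ K : ℕ, w ≤ K → C * er g K ≤ δ → (C * (1 + |t|)) * ((K : ℝ))⁻¹ ≤ δ →
      (2 / ‖1 - f p0‖) * ((K : ℝ))⁻¹ ≤ δ → ∃ M0 : ℕ, ∀ M ≥ M0,
      ‖avg (fun e e' => CX f w K e e' M)‖ ≤ 5 * δ ∧ ‖avg (fun e e' => CZ f w K e e' M)‖ ≤ 5 * δ := by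
    intro K hwK h1 h2 h3
    have hK1 : 1 ≤ K := by omega
    have hK0 : (0 : ℝ) < K := by exact_mod_cast hK1
    obtain ⟨MX, hMX⟩ := hX f g t q hd w K hw2 hwK hqw δ hδ0
    obtain ⟨MZ, hMZ⟩ := hZ f g t q hd w K hw2 hwK hqw δ hδ0
    have heT : ∀ c : ℝ, 0 < c → c ≤ C → c * eT g t w K ≤ 3 * δ := by
      intro c hc hcC
      have h4 : c * eT g t w K ≤ C * eT g t w K := by
        refine mul_le_mul_of_nonneg_right hcC ?_
        unfold eT
        have := her0 K
        positivity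
      refine h4.trans ?_
      have h5 : C * eT g t w K = C * er g K + C * (1 / (w : ℝ)) + (C * (1 + |t|)) * ((K : ℝ))⁻¹ := by
        unfold eT; ring
      rw [h5]; linarith
    have hk : ‖(∑ e : Fin (w + 1) → Fin K, f (kp w K e)) / (K : ℂ) ^ (w + 1)‖ ≤ δ := by
      refine ((hKp f hf w K p0 hK1 hp0 hfp0).1 hwp0).trans ?_
      have : 2 / (K * ‖1 - f p0‖) = (2 / ‖1 - f p0‖) * ((K : ℝ))⁻¹ := by
        field_simp
      rw [this]; exact h3
    refine ⟨max MX MZ, fun M hM => ⟨?_, ?_⟩⟩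
    · have hU : ∀ e' : Fin (K + 1) → Fin K, ‖UX f g t w K e' M‖ ≤ 1 := by
        intro e'
        unfold UX BF
        rw [norm_mul, norm_mul, norm_mul]
        have a1 := cm_le hf (2 * w.factorial)
        have a2 : ‖conj (g (kk w K e'))‖ ≤ 1 := by
          rw [Complex.norm_conj]; exact cm_le hg.cm _
        have a3 : ‖cL g K M * conj (cL g K M)‖ ≤ 1 := by
          rw [norm_mul, Complex.norm_conj]
          exact mul_le_one₀ (hcLQ K M).1 (norm_nonneg _) (hcLQ K M).1
        refine mul_le_one₀ (mul_le_one₀ (mul_le_one₀ a1 (norm_nonneg _) a2) (norm_nonneg _) a3)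
          (norm_nonneg _) ?_
        refine bx_le _ _ _ _ _ fun a n => ?_
        rw [norm_mul, norm_mul, Complex.norm_conj, Complex.norm_conj]
        exact mul_le_one₀ (mul_le_one₀ (cm_le hf n) (norm_nonneg _) (pow_le _ t)) (norm_nonneg _)
          (cm_le hg.cm a)
      have e1 : avg (fun e e' => CX f w K e e' M) =
          avg (fun e e' => CX f w K e e' M - f (kp w K e) * UX f g t w K e' M) +
          avg (fun e e' => f (kp w K e) * UX f g t w K e' M) := by
        rw [← avg_add]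
        congr 1
        funext e e'
        ring
      rw [e1]
      refine (norm_add_le _ _).trans ?_
      have e2 := avg_norm hK1 (fun e e' => CX f w K e e' M - f (kp w K e) * UX f g t w K e' M)
        (3 * δ + δ) fun e e' => (hMX M (le_trans (le_max_left _ _) hM) e e').trans
          (by linarith [heT cX hcX hXC])
      have e3 : ‖avg (fun (e : Fin (w + 1) → Fin K) e' => f (kp w K e) * UX f g t w K e' M)‖ ≤
          δ := by
        rw [avg_mul, norm_mul]
        calc _ ≤ δ * 1 := mul_le_mul hk (mean_norm hK1 _ 1 hU) (norm_nonneg _) hδ0.le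
          _ = δ := mul_one _
      linarith
    · have hU : ∀ e' : Fin (K + 1) → Fin K, ‖UZ f g t w K e' M‖ ≤ 1 := by
        intro e'
        unfold UZ BF
        rw [norm_mul, norm_mul]
        have a1 : ‖conj (f (2 * w.factorial))‖ ≤ 1 := by
          rw [Complex.norm_conj]; exact cm_le hf (2 * w.factorial)
        have a3 : ‖cQ g K M * conj (cL g K M)‖ ≤ 1 := by
          rw [norm_mul, Complex.norm_conj]
          exact mul_le_one₀ (hcLQ K M).2 (norm_nonneg _) (hcLQ K M).1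
        refine mul_le_one₀ (mul_le_one₀ a1 (norm_nonneg _) a3)
          (norm_nonneg _) ?_
        refine bx_le _ _ _ _ _ fun a n => ?_
        rw [norm_mul, norm_mul, Complex.norm_conj]
        exact mul_le_one₀ (mul_le_one₀ (cm_le hf n) (norm_nonneg _) (pow_le _ t)) (norm_nonneg _)
          (gP_le hg.cm _ _ _)
      have e1 : avg (fun e e' => CZ f w K e e' M) =
          avg (fun e e' => CZ f w K e e' M - conj (f (kp w K e)) * UZ f g t w K e' M) +
          avg (fun e e' => conj (f (kp w K e)) * UZ f g t w K e' M) := by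
        rw [← avg_add]
        congr 1
        funext e e'
        ring
      rw [e1]
      refine (norm_add_le _ _).trans ?_
      have e2 := avg_norm hK1
        (fun e e' => CZ f w K e e' M - conj (f (kp w K e)) * UZ f g t w K e' M)
        (3 * δ + δ) fun e e' => (hMZ M (le_trans (le_max_right _ _) hM) e e').trans
          (by linarith [heT cZ hcZ hZC])
      have hk' : ‖(∑ e : Fin (w + 1) → Fin K, conj (f (kp w K e))) / (K : ℂ) ^ (w + 1)‖ ≤ δ := by
        have : (∑ e : Fin (w + 1) → Fin K, conj (f (kp w K e))) / (K : ℂ) ^ (w + 1) =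
            conj ((∑ e : Fin (w + 1) → Fin K, f (kp w K e)) / (K : ℂ) ^ (w + 1)) := by
          rw [map_div₀, map_sum, map_pow, Complex.conj_natCast]
        rw [this, Complex.norm_conj]
        exact hk
      have e3 : ‖avg (fun (e : Fin (w + 1) → Fin K) e' =>
          conj (f (kp w K e)) * UZ f g t w K e' M)‖ ≤ δ := by
        rw [avg_mul, norm_mul]
        calc _ ≤ δ * 1 := mul_le_mul hk' (mean_norm hK1 _ 1 hU) (norm_nonneg _) hδ0.le
          _ = δ := mul_one _
      linarith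
  -- the part CY
  have hYpart : ∀ᶠ K : ℕ in atTop, ∃ M0 : ℕ, ∀ M ≥ M0,
      -(7 * δ) ≤ (avg (fun (e : Fin (w + 1) → Fin K) e' => CY f w K e e' M)).re := by
    rcases hcase with ⟨p1, hp1, hwp1, hgp1⟩ | h1
    · have hg1 : 0 < ‖1 - g p1‖ := by
        rw [norm_pos_iff, sub_ne_zero]; exact fun h => hgp1 h.symm
      filter_upwards [eventually_ge_atTop w, eventually_ge_atTop p1, hever,
        hevc (C * (1 + |t|)), hevc (2 / ‖1 - g p1‖)] with K hwK hpK h1 h2 h3
      have hK1 : 1 ≤ K := by omega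
      have hK0 : (0 : ℝ) < K := by exact_mod_cast hK1
      obtain ⟨MY, hMY⟩ := hY f g t q hd w K hw2 hwK hqw δ hδ0
      obtain ⟨MV, hMV⟩ := hV g hg w K hw2 hwK δ hδ0
      have heT : cY * eT g t w K ≤ 3 * δ := by
        have h4 : cY * eT g t w K ≤ C * eT g t w K := by
          refine mul_le_mul_of_nonneg_right hYC ?_
          unfold eT
          have := her0 K
          positivity
        refine h4.trans ?_
        have h5 : C * eT g t w K =
            C * er g K + C * (1 / (w : ℝ)) + (C * (1 + |t|)) * ((K : ℝ))⁻¹ := by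
          unfold eT; ring
        rw [h5]; linarith
      have hk : ‖(∑ e' : Fin (K + 1) → Fin K, g (kk w K e')) / (K : ℂ) ^ (K + 1)‖ ≤ δ := by
        refine ((hKp g hg.cm w K p1 hK1 hp1 hgp1).2 hwp1 hpK).trans ?_
        have : 2 / (K * ‖1 - g p1‖) = (2 / ‖1 - g p1‖) * ((K : ℝ))⁻¹ := by
          field_simp
        rw [this]; exact h3
      refine ⟨max MY MV, fun M hM => ?_⟩
      let e0 : Fin (K + 1) → Fin K := fun _ => ⟨0, by omega⟩
      have hVle : ‖VY g w K e0 M‖ ≤ 1 := by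
        unfold VY BF
        rw [norm_mul]
        have a3 : ‖cL g K M * conj (cQ g K M)‖ ≤ 1 := by
          rw [norm_mul, Complex.norm_conj]
          exact mul_le_one₀ (hcLQ K M).1 (norm_nonneg _) (hcLQ K M).2
        refine mul_le_one₀ a3 (norm_nonneg _) ?_
        refine bx_le _ _ _ _ _ fun a n => ?_
        rw [norm_mul, Complex.norm_conj]
        exact mul_le_one₀ (cm_le hg.cm a) (norm_nonneg _) (gP_le hg.cm _ _ _)
      have e1 : avg (fun (e : Fin (w + 1) → Fin K) e' => CY f w K e e' M) =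
          avg (fun (e : Fin (w + 1) → Fin K) e' =>
            CY f w K e e' M - g (kk w K e') * VY g w K e0 M) +
          avg (fun (e : Fin (w + 1) → Fin K) e' => 1 * (g (kk w K e') * VY g w K e0 M)) := by
        rw [← avg_add]
        congr 1
        funext e e'
        ring
      have e2 := avg_norm hK1
        (fun (e : Fin (w + 1) → Fin K) e' => CY f w K e e' M - g (kk w K e') * VY g w K e0 M)
        (6 * δ) fun e e' => by
          have b1 := (hMY M (le_trans (le_max_left _ _) hM) e e').1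
          have b2 := hMV M (le_trans (le_max_right _ _) hM) e' e0
          have b3 : CY f w K e e' M - g (kk w K e') * VY g w K e0 M =
              (CY f w K e e' M - g (kk w K e') * VY g w K e' M) +
              g (kk w K e') * (VY g w K e' M - VY g w K e0 M) := by ring
          rw [b3]
          refine (norm_add_le _ _).trans ?_
          rw [norm_mul]
          have b4 : ‖g (kk w K e')‖ * ‖VY g w K e' M - VY g w K e0 M‖ ≤
              1 * ‖VY g w K e' M - VY g w K e0 M‖ :=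
            mul_le_mul_of_nonneg_right (cm_le hg.cm _) (norm_nonneg _)
          have b5 : cV * er g K ≤ C * er g K := mul_le_mul_of_nonneg_right hVC (her0 K)
          linarith
      have e3 : ‖avg (fun (e : Fin (w + 1) → Fin K) e' =>
          1 * (g (kk w K e') * VY g w K e0 M))‖ ≤ δ := by
        have c1 := avg_mul (w := w) (K := K) (fun _ => 1)
          (fun e' => g (kk w K e') * VY g w K e0 M)
        rw [c1, norm_mul]
        have c2 : ‖(∑ e : Fin (w + 1) → Fin K, (1 : ℂ)) / (K : ℂ) ^ (w + 1)‖ ≤ 1 :=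
          mean_norm hK1 _ 1 fun _ => by simp
        have c3 : ‖(∑ e' : Fin (K + 1) → Fin K, g (kk w K e') * VY g w K e0 M) /
            (K : ℂ) ^ (K + 1)‖ ≤ δ := by
          rw [← Finset.sum_mul, mul_div_right_comm, norm_mul]
          calc _ ≤ δ * 1 := mul_le_mul hk hVle (norm_nonneg _) hδ0.le
            _ = δ := mul_one _
        calc _ ≤ 1 * δ := mul_le_mul c2 c3 (norm_nonneg _) zero_le_one
          _ = δ := one_mul _
      have e4 : ‖avg (fun (e : Fin (w + 1) → Fin K) e' => CY f w K e e' M)‖ ≤ 7 * δ := by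
        rw [e1]
        refine (norm_add_le _ _).trans ?_
        linarith
      have e5 := Complex.abs_re_le_norm (avg (fun (e : Fin (w + 1) → Fin K) e' => CY f w K e e' M))
      have e6 := neg_abs_le (avg (fun (e : Fin (w + 1) → Fin K) e' => CY f w K e e' M)).re
      linarith
    · filter_upwards [eventually_ge_atTop w, hevc (C * (1 + |t|))] with K hwK h2
      have hK1 : 1 ≤ K := by omega
      have hK0 : (0 : ℝ) < K := by exact_mod_cast hK1
      obtain ⟨MY, hMY⟩ := hY f g t q hd w K hw2 hwK hqw δ hδ0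
      refine ⟨MY, fun M hM => ?_⟩
      refine avg_re hK1 _ _ fun e e' => ?_
      have b1 := (hMY M hM e e').2 h1
      have b2 : cY * ((1 + |t|) / K) ≤ (C * (1 + |t|)) * ((K : ℝ))⁻¹ := by
        have : (C * (1 + |t|)) * ((K : ℝ))⁻¹ = C * ((1 + |t|) / K) := by
          rw [div_eq_mul_inv]; ring
        rw [this]
        exact mul_le_mul_of_nonneg_right hYC (by positivity)
      linarith
  -- conclusion
  have hall : ∀ᶠ K : ℕ in atTop, ∃ M0 : ℕ, ∀ M ≥ M0, -ε ≤ (Av w K M (pc f)).re := by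
    filter_upwards [eventually_ge_atTop w, hever, hevc (C * (1 + |t|)),
      hevc (2 / ‖1 - f p0‖), hYpart] with K hwK h1 h2 h3 ⟨M1, hM1⟩
    obtain ⟨M2, hM2⟩ := hmain K hwK h1 h2 h3
    refine ⟨max M1 M2, fun M hM => ?_⟩
    obtain ⟨bX, bZ⟩ := hM2 M (le_trans (le_max_right _ _) hM)
    have bY := hM1 M (le_trans (le_max_left _ _) hM)
    have e1 : Av w K M (pc f) = avg (fun (e : Fin (w + 1) → Fin K) e' => CX f w K e e' M) +
        avg (fun (e : Fin (w + 1) → Fin K) e' => CY f w K e e' M) +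
        avg (fun (e : Fin (w + 1) → Fin K) e' => CZ f w K e e' M) := by
      rw [hAv, ← avg_add, ← avg_add]
      rfl
    rw [e1, Complex.add_re, Complex.add_re]
    have c1 := Complex.abs_re_le_norm
      (avg (fun (e : Fin (w + 1) → Fin K) e' => CX f w K e e' M))
    have c2 := neg_abs_le (avg (fun (e : Fin (w + 1) → Fin K) e' => CX f w K e e' M)).re
    have c3 := Complex.abs_re_le_norm
      (avg (fun (e : Fin (w + 1) → Fin K) e' => CZ f w K e e' M))
    have c4 := neg_abs_le (avg (fun (e : Fin (w + 1) → Fin K) e' => CZ f w K e e' M)).re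
    have c5 : ε = 40 * δ := by rw [hδ]; ring
    linarith
  obtain ⟨K0, hK0⟩ := eventually_atTop.mp hall
  exact ⟨K0, hK0⟩

end Pool.Agent.F0f91f8.HD
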