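import Pool.Agent.Work.MP_0f91f8_co.HD.StmtsD

/-!
# Half density, module D, item DGc: common prime factors of `a` and `n`
-/

set_option autoImplicit false

namespace Pool.Agent.F0f91f8.HD

open Filter Topology ComplexConjugate
open scoped BigOperators

namespace IDGc

theorem cnt (p L : ℕ) (S : Finset ℕ) (hS : S ⊆ Finset.Icc 1 L)
    (hc : ∀ x ∈ S, ∀ y ∈ S, x ≡ y [MOD p]) : (S.card : ℝ) ≤ (L : ℝ) / p + 1 := by
  have h1 : S.card ≤ (Finset.range (L / p + 1)).card := by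
    refine Finset.card_le_card_of_injOn (fun x => x / p) ?_ ?_
    · intro x hx
      have hx' := Finset.mem_Icc.1 (hS (Finset.mem_coe.1 hx))
      have h2 : x / p ≤ L / p := Nat.div_le_div_right hx'.2
      refine Finset.mem_coe.2 (Finset.mem_range.2 ?_)
      dsimp only
      omega
    · intro x hx y hy hxy
      have h2 : x / p = y / p := hxy
      have h3 : x % p = y % p := hc x (Finset.mem_coe.1 hx) y (Finset.mem_coe.1 hy)
      rw [← Nat.div_add_mod x p, ← Nat.div_add_mod y p, h2, h3]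
  rw [Finset.card_range] at h1
  have h2 : ((L / p : ℕ) : ℝ) ≤ (L : ℝ) / p := Nat.cast_div_le
  have h3 : (S.card : ℝ) ≤ ((L / p : ℕ) : ℝ) + 1 := by exact_mod_cast h1
  linarith

theorem pc2 (p L : ℕ) (P : ℕ → ℕ → Prop) [∀ a b, Decidable (P a b)]
    (h : ∀ v x y, P v x → P v y → x ≡ y [MOD p]) :
    ∑ x ∈ Finset.Icc 1 L ×ˢ Finset.Icc 1 L, (if P x.1 x.2 then (1 : ℝ) else 0) ≤
      (L : ℝ) * ((L : ℝ) / p + 1) := by
  rw [Finset.sum_product]
  have h1 : ∀ v ∈ Finset.Icc 1 L,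
      ∑ w ∈ Finset.Icc 1 L, (if P v w then (1 : ℝ) else 0) ≤ (L : ℝ) / p + 1 := by
    intro v _
    rw [Finset.sum_boole]
    refine cnt p L _ (Finset.filter_subset _ _) ?_
    intro x hx y hy
    exact h v x y (Finset.mem_filter.1 hx).2 (Finset.mem_filter.1 hy).2
  refine (Finset.sum_le_card_nsmul _ _ _ h1).trans (le_of_eq ?_)
  rw [nsmul_eq_mul, Nat.card_Icc, Nat.add_sub_cancel]

theorem cn (p M : ℕ) :
    ∑ x ∈ Finset.Icc 1 M ×ˢ Finset.Icc 1 M, (if p ∣ x.1 + x.2 then (1 : ℝ) else 0) ≤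
      (M : ℝ) * ((M : ℝ) / p + 1) := by
  refine pc2 p M (fun a b => p ∣ a + b) ?_
  intro v x y hx hy
  have h1 : v + x ≡ v + y [MOD p] :=
    (Nat.modEq_zero_iff_dvd.2 hx).trans (Nat.modEq_zero_iff_dvd.2 hy).symm
  exact Nat.ModEq.add_left_cancel' v h1

theorem ca (p L Q a₀ : ℕ) (hp : p.Prime) (hpQ : ¬ p ∣ Q) :
    ∑ x ∈ Finset.Icc 1 L ×ˢ Finset.Icc 1 L, (if p ∣ Q * (x.1 + x.2) + a₀ then (1 : ℝ) else 0) ≤
      (L : ℝ) * ((L : ℝ) / p + 1) := by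
  refine pc2 p L (fun a b => p ∣ Q * (a + b) + a₀) ?_
  intro v x y hx hy
  have h1 : Q * (v + x) + a₀ ≡ Q * (v + y) + a₀ [MOD p] :=
    (Nat.modEq_zero_iff_dvd.2 hx).trans (Nat.modEq_zero_iff_dvd.2 hy).symm
  have h2 : Q * (v + x) ≡ Q * (v + y) [MOD p] := Nat.ModEq.add_right_cancel' a₀ h1
  have h3 : v + x ≡ v + y [MOD p] :=
    Nat.ModEq.cancel_left_of_coprime ((Nat.Prime.coprime_iff_not_dvd hp).2 hpQ) h2
  exact Nat.ModEq.add_left_cancel' v h3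

theorem BR_eq (Q D a₀ M : ℕ) (G : ℕ → ℕ → ℝ) :
    BR Q D a₀ M G = (∑ x ∈ Finset.Icc 1 M ×ˢ Finset.Icc 1 M,
      ∑ y ∈ Finset.Icc 1 (D * M) ×ˢ Finset.Icc 1 (D * M),
        G (Q * (y.1 + y.2) + a₀) (x.1 + x.2)) / ((M : ℝ) ^ 2 * ((D * M : ℕ) : ℝ) ^ 2) := by
  unfold BR
  congr 1
  rw [Finset.sum_product]
  refine Finset.sum_congr rfl fun u _ => Finset.sum_congr rfl fun u' _ => ?_
  rw [Finset.sum_product]

theorem sqs (K B : ℕ) (hK : 1 ≤ K) (S : Finset ℕ) (hS : ∀ n ∈ S, K < n ∧ n ≤ B) :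
    ∑ n ∈ S, 1 / (n : ℝ) ^ 2 ≤ 1 / (K : ℝ) := by
  rcases le_or_gt K B with h | h
  · have h1 : ∑ n ∈ S, 1 / (n : ℝ) ^ 2 ≤ ∑ n ∈ Finset.Ioc K B, 1 / (n : ℝ) ^ 2 := by
      refine Finset.sum_le_sum_of_subset_of_nonneg ?_ (fun _ _ _ => by positivity)
      intro n hn
      exact Finset.mem_Ioc.2 (hS n hn)
    have h2 := sum_Ioc_inv_sq_le_sub (α := ℝ) (show K ≠ 0 by omega) h
    have h3 : (0 : ℝ) ≤ ((B : ℕ) : ℝ)⁻¹ := by positivity
    simp only [one_div] at h1 ⊢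
    linarith
  · have h0 : S = ∅ := by
      refine Finset.eq_empty_of_forall_notMem fun n hn => ?_
      have := hS n hn
      omega
    rw [h0, Finset.sum_empty]
    positivity

end IDGc

open IDGc in
theorem pr_DGc : StDGc := by
  classical
  intro K Q D hK hQ hD hKQ η hη
  refine ⟨⌈1 / η ^ 2⌉₊ + 1, ?_⟩
  intro M hM a₀ _
  have hM1 : 1 ≤ M := by omega
  have hM0 : (0 : ℝ) < M := by exact_mod_cast hM1
  have hL1 : M ≤ D * M := Nat.le_mul_of_pos_left M hD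
  have hLM : (M : ℝ) ≤ ((D * M : ℕ) : ℝ) := by exact_mod_cast hL1
  have hL0 : (0 : ℝ) < ((D * M : ℕ) : ℝ) := lt_of_lt_of_le hM0 hLM
  have hK0 : (0 : ℝ) < K := by exact_mod_cast hK
  have hden : 0 < (M : ℝ) ^ 2 * ((D * M : ℕ) : ℝ) ^ 2 := by positivity
  have hnQ : ∀ p : ℕ, p.Prime → K < p → ¬ p ∣ Q := fun p hp hKp hd => by
    have := hKQ p hp hd
    omega
  constructor
  · -- common prime factor
    rw [BR_eq, div_le_iff₀ hden]
    set PP : Finset ℕ := (Finset.Ioc K (2 * M)).filter Nat.Prime with hPP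
    have h1 : ∀ x ∈ Finset.Icc 1 M ×ˢ Finset.Icc 1 M,
        ∀ y ∈ Finset.Icc 1 (D * M) ×ˢ Finset.Icc 1 (D * M),
        iGc K (Q * (y.1 + y.2) + a₀) (x.1 + x.2) ≤
          ∑ p ∈ PP, (if p ∣ x.1 + x.2 then (1 : ℝ) else 0) *
            (if p ∣ Q * (y.1 + y.2) + a₀ then (1 : ℝ) else 0) := by
      intro x hx y _
      have hx' := Finset.mem_product.1 hx
      have hx1 := Finset.mem_Icc.1 hx'.1
      have hx2 := Finset.mem_Icc.1 hx'.2
      have hnn : ∀ p ∈ PP, (0 : ℝ) ≤ (if p ∣ x.1 + x.2 then (1 : ℝ) else 0) *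
            (if p ∣ Q * (y.1 + y.2) + a₀ then (1 : ℝ) else 0) := by
        intro p _
        split_ifs <;> norm_num
      unfold iGc
      split_ifs with hex
      · obtain ⟨p, hp, hKp, hpa, hpn⟩ := hex
        have hple : p ≤ x.1 + x.2 := Nat.le_of_dvd (by omega) hpn
        have hpP : p ∈ PP := Finset.mem_filter.2 ⟨Finset.mem_Ioc.2 ⟨hKp, by omega⟩, hp⟩
        refine le_trans (le_of_eq ?_) (Finset.single_le_sum hnn hpP)
        rw [if_pos hpn, if_pos hpa, mul_one]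
      · exact Finset.sum_nonneg hnn
    have h2 : ∑ x ∈ Finset.Icc 1 M ×ˢ Finset.Icc 1 M,
        ∑ y ∈ Finset.Icc 1 (D * M) ×ˢ Finset.Icc 1 (D * M),
        iGc K (Q * (y.1 + y.2) + a₀) (x.1 + x.2) ≤
        ∑ p ∈ PP, (∑ x ∈ Finset.Icc 1 M ×ˢ Finset.Icc 1 M,
            (if p ∣ x.1 + x.2 then (1 : ℝ) else 0)) *
          (∑ y ∈ Finset.Icc 1 (D * M) ×ˢ Finset.Icc 1 (D * M),
            (if p ∣ Q * (y.1 + y.2) + a₀ then (1 : ℝ) else 0)) := by
      refine (Finset.sum_le_sum fun x hx => Finset.sum_le_sum fun y hy => h1 x hx y hy).trans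
        (le_of_eq ?_)
      rw [Finset.sum_congr rfl fun x _ => Finset.sum_comm, Finset.sum_comm]
      refine Finset.sum_congr rfl fun p _ => ?_
      rw [Finset.sum_mul_sum]
    refine h2.trans ?_
    have h3 : ∀ p ∈ PP, (∑ x ∈ Finset.Icc 1 M ×ˢ Finset.Icc 1 M,
            (if p ∣ x.1 + x.2 then (1 : ℝ) else 0)) *
          (∑ y ∈ Finset.Icc 1 (D * M) ×ˢ Finset.Icc 1 (D * M),
            (if p ∣ Q * (y.1 + y.2) + a₀ then (1 : ℝ) else 0)) ≤
          (9 * ((M : ℝ) ^ 2 * ((D * M : ℕ) : ℝ) ^ 2)) * (1 / (p : ℝ) ^ 2) := by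
      intro p hp
      obtain ⟨hp1, hp2⟩ := Finset.mem_filter.1 hp
      obtain ⟨hp3, hp4⟩ := Finset.mem_Ioc.1 hp1
      have hp0 : (0 : ℝ) < p := by exact_mod_cast hp2.pos
      have hp5 : (p : ℝ) ≤ 2 * M := by exact_mod_cast hp4
      have hA := cn p M
      have hB := ca p (D * M) Q a₀ hp2 (hnQ p hp2 hp3)
      have hA' : (M : ℝ) * ((M : ℝ) / p + 1) ≤ 3 * (M : ℝ) ^ 2 / p := by
        have : (1 : ℝ) ≤ 2 * M / p := by rw [le_div_iff₀ hp0]; linarith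
        have h' : (M : ℝ) / p + 1 ≤ 3 * M / p := by
          calc (M : ℝ) / p + 1 ≤ M / p + 2 * M / p := by linarith
            _ = 3 * M / p := by ring
        calc (M : ℝ) * ((M : ℝ) / p + 1) ≤ M * (3 * M / p) :=
              mul_le_mul_of_nonneg_left h' hM0.le
          _ = _ := by ring
      have hB' : ((D * M : ℕ) : ℝ) * (((D * M : ℕ) : ℝ) / p + 1) ≤
          3 * ((D * M : ℕ) : ℝ) ^ 2 / p := by
        have : (1 : ℝ) ≤ 2 * ((D * M : ℕ) : ℝ) / p := by rw [le_div_iff₀ hp0]; linarith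
        have h' : ((D * M : ℕ) : ℝ) / p + 1 ≤ 3 * ((D * M : ℕ) : ℝ) / p := by
          calc ((D * M : ℕ) : ℝ) / p + 1 ≤ ((D * M : ℕ) : ℝ) / p + 2 * ((D * M : ℕ) : ℝ) / p := by
                linarith
            _ = 3 * ((D * M : ℕ) : ℝ) / p := by ring
        calc ((D * M : ℕ) : ℝ) * (((D * M : ℕ) : ℝ) / p + 1) ≤
              ((D * M : ℕ) : ℝ) * (3 * ((D * M : ℕ) : ℝ) / p) :=
              mul_le_mul_of_nonneg_left h' hL0.le
          _ = _ := by ring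
      have hBnn : (0 : ℝ) ≤ ∑ y ∈ Finset.Icc 1 (D * M) ×ˢ Finset.Icc 1 (D * M),
            (if p ∣ Q * (y.1 + y.2) + a₀ then (1 : ℝ) else 0) :=
        Finset.sum_nonneg fun _ _ => by split_ifs <;> norm_num
      refine (mul_le_mul (hA.trans hA') (hB.trans hB') hBnn (by positivity)).trans (le_of_eq ?_)
      field_simp
      ring
    refine (Finset.sum_le_sum h3).trans ?_
    rw [← Finset.mul_sum]
    have h4 := sqs K (2 * M) hK PP (fun n hn => by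
      exact Finset.mem_Ioc.1 (Finset.mem_filter.1 hn).1)
    have h5 := mul_le_mul_of_nonneg_left h4
      (show (0 : ℝ) ≤ 9 * ((M : ℝ) ^ 2 * ((D * M : ℕ) : ℝ) ^ 2) by positivity)
    refine h5.trans ?_
    have h6 : (9 : ℝ) * (1 / K) ≤ 10 / K + η := by
      have : (9 : ℝ) * (1 / K) ≤ 10 / K := by
        rw [mul_one_div]
        gcongr
        norm_num
      linarith
    calc 9 * ((M : ℝ) ^ 2 * ((D * M : ℕ) : ℝ) ^ 2) * (1 / (K : ℝ)) =
          (9 * (1 / K)) * ((M : ℝ) ^ 2 * ((D * M : ℕ) : ℝ) ^ 2) := by ring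
      _ ≤ (10 / K + η) * ((M : ℝ) ^ 2 * ((D * M : ℕ) : ℝ) ^ 2) :=
          mul_le_mul_of_nonneg_right h6 hden.le
  · -- primes dividing `a`
    rw [BR_eq, div_le_iff₀ hden]
    have h1 : ∀ y : ℕ × ℕ, ∑ p ∈ (pr4 K M).filter (fun p => p ∣ Q * (y.1 + y.2) + a₀),
        1 / (p : ℝ) = ∑ p ∈ pr4 K M, 1 / (p : ℝ) *
          (if p ∣ Q * (y.1 + y.2) + a₀ then (1 : ℝ) else 0) := by
      intro y
      rw [Finset.sum_filter]
      refine Finset.sum_congr rfl fun p _ => ?_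
      split_ifs <;> simp
    have h2 : ∑ x ∈ Finset.Icc 1 M ×ˢ Finset.Icc 1 M,
        ∑ y ∈ Finset.Icc 1 (D * M) ×ˢ Finset.Icc 1 (D * M),
        ∑ p ∈ (pr4 K M).filter (fun p => p ∣ Q * (y.1 + y.2) + a₀), 1 / (p : ℝ) =
        (M : ℝ) ^ 2 * ∑ p ∈ pr4 K M, 1 / (p : ℝ) *
          ∑ y ∈ Finset.Icc 1 (D * M) ×ˢ Finset.Icc 1 (D * M),
            (if p ∣ Q * (y.1 + y.2) + a₀ then (1 : ℝ) else 0) := by
      rw [Finset.sum_const, Finset.card_product, Nat.card_Icc, Nat.add_sub_cancel, nsmul_eq_mul,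
        Nat.cast_mul, ← pow_two, Finset.sum_congr rfl fun y _ => h1 y, Finset.sum_comm]
      congr 1
      refine Finset.sum_congr rfl fun p _ => ?_
      rw [Finset.mul_sum]
    rw [h2]
    have h3 : ∀ p ∈ pr4 K M, 1 / (p : ℝ) *
          ∑ y ∈ Finset.Icc 1 (D * M) ×ˢ Finset.Icc 1 (D * M),
            (if p ∣ Q * (y.1 + y.2) + a₀ then (1 : ℝ) else 0) ≤
          ((D * M : ℕ) : ℝ) ^ 2 * (1 / (p : ℝ) ^ 2) + ((D * M : ℕ) : ℝ) := by
      intro p hp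
      obtain ⟨-, hp2, hp3, -⟩ := Finset.mem_filter.1 hp
      have hp0 : (0 : ℝ) < p := by exact_mod_cast hp2.pos
      have hp1 : (1 : ℝ) ≤ p := by exact_mod_cast hp2.one_lt.le
      have hB := ca p (D * M) Q a₀ hp2 (hnQ p hp2 hp3)
      have h4 := mul_le_mul_of_nonneg_left hB (show (0 : ℝ) ≤ 1 / (p : ℝ) by positivity)
      refine h4.trans ?_
      have h5 : 1 / (p : ℝ) * (((D * M : ℕ) : ℝ) * (((D * M : ℕ) : ℝ) / p + 1)) =
          ((D * M : ℕ) : ℝ) ^ 2 * (1 / (p : ℝ) ^ 2) + ((D * M : ℕ) : ℝ) * (1 / p) := by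
        field_simp
      rw [h5]
      have h6 : 1 / (p : ℝ) ≤ 1 := by rw [div_le_one hp0]; exact hp1
      have h7 := mul_le_mul_of_nonneg_left h6 hL0.le
      linarith
    have h4 := Finset.sum_le_sum h3
    rw [Finset.sum_add_distrib, ← Finset.mul_sum, Finset.sum_const, nsmul_eq_mul] at h4
    have h5 := sqs K M hK (pr4 K M) (fun n hn => by
      obtain ⟨h', hp2, hp3, hp4⟩ := Finset.mem_filter.1 hn
      have := Finset.mem_range.1 h'
      exact ⟨hp3, by omega⟩)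
    have hcard : (pr4 K M).card ≤ Nat.sqrt M := by
      have hsub : pr4 K M ⊆ Finset.Icc 1 (Nat.sqrt M) := by
        intro p hp
        obtain ⟨-, hp2, -, hp4⟩ := Finset.mem_filter.1 hp
        refine Finset.mem_Icc.2 ⟨hp2.one_lt.le, Nat.le_sqrt.2 (le_trans ?_ hp4)⟩
        calc p * p = p ^ 2 := by ring
          _ ≤ p ^ 4 := Nat.pow_le_pow_right hp2.pos (by norm_num)
      have := Finset.card_le_card hsub
      rwa [Nat.card_Icc, Nat.add_sub_cancel] at this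
    have hcard2 : ((pr4 K M).card : ℝ) ≤ η * M := by
      have ha : ((pr4 K M).card : ℝ) ^ 2 ≤ M := by
        have hb : (pr4 K M).card ^ 2 ≤ M := by
          calc (pr4 K M).card ^ 2 ≤ (Nat.sqrt M) ^ 2 := Nat.pow_le_pow_left hcard 2
            _ ≤ M := by rw [pow_two]; exact Nat.sqrt_le M
        exact_mod_cast hb
      have hc : 1 / η ^ 2 ≤ M := by
        refine (Nat.le_ceil _).trans ?_
        exact_mod_cast (by omega : ⌈1 / η ^ 2⌉₊ ≤ M)
      have hd : 1 ≤ η ^ 2 * M := by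
        rw [div_le_iff₀ (by positivity)] at hc
        linarith
      have he : ((pr4 K M).card : ℝ) ^ 2 ≤ (η * M) ^ 2 := by
        calc ((pr4 K M).card : ℝ) ^ 2 ≤ M := ha
          _ = 1 * M := by ring
          _ ≤ (η ^ 2 * M) * M := mul_le_mul_of_nonneg_right hd hM0.le
          _ = (η * M) ^ 2 := by ring
      exact (pow_le_pow_iff_left₀ (by positivity) (by positivity) (by norm_num)).1 he
    have h6 : ((D * M : ℕ) : ℝ) ^ 2 * ∑ n ∈ pr4 K M, 1 / (n : ℝ) ^ 2 ≤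
        ((D * M : ℕ) : ℝ) ^ 2 * (1 / K) := mul_le_mul_of_nonneg_left h5 (by positivity)
    have h7 : ((pr4 K M).card : ℝ) * ((D * M : ℕ) : ℝ) ≤ η * ((D * M : ℕ) : ℝ) ^ 2 := by
      calc ((pr4 K M).card : ℝ) * ((D * M : ℕ) : ℝ) ≤ (η * M) * ((D * M : ℕ) : ℝ) :=
            mul_le_mul_of_nonneg_right hcard2 hL0.le
        _ ≤ (η * ((D * M : ℕ) : ℝ)) * ((D * M : ℕ) : ℝ) := by gcongr
        _ = _ := by ring
    have h8 : ∑ p ∈ pr4 K M, 1 / (p : ℝ) *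
          ∑ y ∈ Finset.Icc 1 (D * M) ×ˢ Finset.Icc 1 (D * M),
            (if p ∣ Q * (y.1 + y.2) + a₀ then (1 : ℝ) else 0) ≤
        (1 / K + η) * ((D * M : ℕ) : ℝ) ^ 2 := by
      refine h4.trans ?_
      linarith
    calc (M : ℝ) ^ 2 * ∑ p ∈ pr4 K M, 1 / (p : ℝ) *
          ∑ y ∈ Finset.Icc 1 (D * M) ×ˢ Finset.Icc 1 (D * M),
            (if p ∣ Q * (y.1 + y.2) + a₀ then (1 : ℝ) else 0) ≤
          (M : ℝ) ^ 2 * ((1 / K + η) * ((D * M : ℕ) : ℝ) ^ 2) :=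
          mul_le_mul_of_nonneg_left h8 (by positivity)
      _ = _ := by ring

end Pool.Agent.F0f91f8.HD
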