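import Pool.Agent.Work.MP_0f91f8_co.HD.StmtsD2

set_option autoImplicit false

namespace Pool.Agent.F0f91f8.HD

open Filter Topology ComplexConjugate
open scoped BigOperators

theorem pr_DL1 (hCt : StDCt) : StDL1 := by
  obtain ⟨h1, -, h3, h4, h5, -⟩ := hCt
  intro K α hK hα hp η hη
  obtain ⟨M0, hM0⟩ := h5 η hη
  refine ⟨M0, fun M hM β => ?_⟩
  rcases Nat.eq_zero_or_pos M with rfl | hMpos
  · simp only [Nat.cast_zero, div_zero]
    positivity
  have hMp : (0 : ℝ) < (M : ℝ) := by exact_mod_cast hMpos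
  have hcard := hM0 M hM K
  rw [div_le_iff₀ hMp]
  have key : ∀ u ∈ Finset.Icc 1 M, (if ∃ p ∈ pr4 K M, p ^ 2 ∣ α * u + β then (1 : ℝ) else 0) ≤
      ∑ p ∈ pr4 K M, (if p ^ 2 ∣ α * u + β then (1 : ℝ) else 0) := by
    intro u _
    split_ifs with h
    · obtain ⟨p, hpm, hpd⟩ := h
      have := Finset.single_le_sum (f := fun p => (if p ^ 2 ∣ α * u + β then (1 : ℝ) else 0))
        (fun i _ => by split_ifs <;> norm_num) hpm
      simpa [hpd] using this
    · exact Finset.sum_nonneg fun i _ => by split_ifs <;> norm_num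
  have step1 := Finset.sum_le_sum key
  rw [Finset.sum_comm] at step1
  have key2 : ∀ p ∈ pr4 K M, (∑ u ∈ Finset.Icc 1 M, (if p ^ 2 ∣ α * u + β then (1 : ℝ) else 0)) ≤
      (M : ℝ) * (1 / (p : ℝ) ^ 2) + 1 := by
    intro p hpm
    have hpm' := hpm
    simp only [pr4, Finset.mem_filter] at hpm'
    obtain ⟨-, hpp, hKp, -⟩ := hpm'
    have hcop : Nat.Coprime α (p ^ 2) := by
      apply Nat.Coprime.pow_right
      rw [Nat.coprime_comm, Nat.Prime.coprime_iff_not_dvd hpp]
      intro hd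
      have := hp p hpp hd
      omega
    obtain ⟨r, hr, hru⟩ := h4 (p ^ 2) α β (pow_pos hpp.pos 2) hcop
    have := h1 (p ^ 2) M 0 {r} (pow_pos hpp.pos 2)
    rw [Finset.card_singleton] at this
    have e : (∑ u ∈ Finset.Icc 1 M, (if p ^ 2 ∣ α * u + β then (1 : ℝ) else 0)) =
        ((((Finset.Icc 1 M).filter fun u => (u + 0) % (p ^ 2) ∈ ({r} : Finset ℕ)).card : ℝ)) := by
      rw [Finset.card_filter]
      push_cast
      refine Finset.sum_congr rfl fun u _ => ?_
      simp only [add_zero, Finset.mem_singleton, hru u]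
    rw [e]
    refine this.trans (le_of_eq ?_)
    push_cast
    ring
  have step2 := Finset.sum_le_sum key2
  rw [Finset.sum_add_distrib, ← Finset.mul_sum, Finset.sum_const, nsmul_eq_mul, mul_one] at step2
  have step3 := mul_le_mul_of_nonneg_left (h3 K M hK) hMp.le
  have hc2 : ((pr4 K M).card : ℝ) ≤ ((pr4 K M).card : ℝ) ^ 2 := by
    rcases Nat.eq_zero_or_pos (pr4 K M).card with h0 | h0
    · rw [h0]; norm_num
    · have : (1 : ℝ) ≤ ((pr4 K M).card : ℝ) := by exact_mod_cast h0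
      nlinarith
  linarith [step1, step2, step3, hcard, hc2]

end Pool.Agent.F0f91f8.HD
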