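import Pool.Agent.Work.MP_0f91f8_co.HD.StmtsD2

/-!
# Half density, module D, item DL2
-/

set_option autoImplicit false

namespace Pool.Agent.F0f91f8.HD

open Filter Topology ComplexConjugate
open scoped BigOperators

namespace IDL2

theorem count (hCt : StDCt) (M α β p : ℕ) (hp : 0 < p) (hc : Nat.Coprime α p) :
    (((Finset.Icc 1 M).filter fun u => p ∣ α * u + β).card : ℝ) ≤ (M : ℝ) / p + 1 := by
  obtain ⟨r, _, hr⟩ := hCt.2.2.2.1 p α β hp hc
  have h1 := hCt.1 p M 0 {r} hp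
  rw [Finset.card_singleton] at h1
  have h2 : ((Finset.Icc 1 M).filter fun u => p ∣ α * u + β) =
      ((Finset.Icc 1 M).filter fun u => (u + 0) % p ∈ ({r} : Finset ℕ)) := by
    apply Finset.filter_congr
    intro u _
    rw [hr u, Finset.mem_singleton, add_zero]
  rw [h2]
  simpa using h1

end IDL2

theorem pr_DL2 (hCt : StDCt) (hTl : StDTl) : StDL2 := by
  intro g hg K α hK hα hαK η hη
  obtain ⟨M1, hM1⟩ := hCt.2.2.2.2.1 (η / 4) (by positivity)
  refine ⟨max M1 1, fun M hM β => ?_⟩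
  have hM2 : M1 ≤ M := le_trans (le_max_left _ _) hM
  have hM3 : 1 ≤ M := le_trans (le_max_right _ _) hM
  have hMr : (0 : ℝ) < M := by exact_mod_cast hM3
  rw [div_le_iff₀ hMr]
  have hmem : ∀ p ∈ pr4 K M, p.Prime ∧ K < p := by
    intro p hp
    rw [pr4, Finset.mem_filter] at hp
    exact ⟨hp.2.1, hp.2.2.1⟩
  have h1 : ∑ u ∈ Finset.Icc 1 M, ∑ p ∈ (pr4 K M).filter (fun p => p ∣ α * u + β),
      ‖g p - 1‖ ^ 2 = ∑ p ∈ pr4 K M, ‖g p - 1‖ ^ 2 *
        (((Finset.Icc 1 M).filter fun u => p ∣ α * u + β).card : ℝ) := by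
    simp_rw [Finset.sum_filter]
    rw [Finset.sum_comm]
    refine Finset.sum_congr rfl fun p _ => ?_
    rw [← Finset.sum_filter, Finset.sum_const, nsmul_eq_mul, mul_comm]
  rw [h1]
  have h2 : ∀ p ∈ pr4 K M, ‖g p - 1‖ ^ 2 *
      (((Finset.Icc 1 M).filter fun u => p ∣ α * u + β).card : ℝ) ≤
      M * (‖1 - g p‖ ^ 2 / (p : ℝ)) + 4 := by
    intro p hp
    obtain ⟨hpp, hKp⟩ := hmem p hp
    have hc : Nat.Coprime α p := by
      rw [Nat.coprime_comm, hpp.coprime_iff_not_dvd]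
      intro h
      have := hαK p hpp h
      omega
    have h3 := IDL2.count hCt M α β p hpp.pos hc
    have h4 : ‖g p - 1‖ ≤ 2 := by
      have h5 := norm_sub_le (g p) 1
      rw [hg.cm.2.2 p hpp.pos, norm_one] at h5
      linarith
    have h6 : ‖g p - 1‖ ^ 2 ≤ 4 := by nlinarith [norm_nonneg (g p - 1)]
    have h7 : 0 ≤ ‖g p - 1‖ ^ 2 := by positivity
    calc ‖g p - 1‖ ^ 2 * (((Finset.Icc 1 M).filter fun u => p ∣ α * u + β).card : ℝ)
        ≤ ‖g p - 1‖ ^ 2 * ((M : ℝ) / p + 1) := mul_le_mul_of_nonneg_left h3 h7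
      _ = M * (‖1 - g p‖ ^ 2 / (p : ℝ)) + ‖g p - 1‖ ^ 2 := by
          rw [norm_sub_rev (1 : ℂ) (g p)]
          ring
      _ ≤ _ := by linarith
  refine (Finset.sum_le_sum h2).trans ?_
  rw [Finset.sum_add_distrib, ← Finset.mul_sum, Finset.sum_const, nsmul_eq_mul]
  have h8 := (hTl g hg).2.2.2.2.1 K (pr4 K M) hmem
  have h9 := hM1 M hM2 K
  have h10 : ((pr4 K M).card : ℝ) ≤ ((pr4 K M).card : ℝ) ^ 2 := by
    have : (pr4 K M).card ≤ (pr4 K M).card ^ 2 := Nat.le_self_pow (by norm_num) _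
    exact_mod_cast this
  have h11 : (M : ℝ) * ∑ p ∈ pr4 K M, ‖1 - g p‖ ^ 2 / (p : ℝ) ≤ M * tl g K :=
    mul_le_mul_of_nonneg_left h8 hMr.le
  nlinarith

end Pool.Agent.F0f91f8.HD
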