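import Pool.Agent.Work.MP_0f91f8_co.HD.StmtsD2

/-!
# Half density, item DL3: Turan-Kubilius for a linear form
-/

set_option autoImplicit false

namespace Pool.Agent.F0f91f8.HD

open Filter Topology ComplexConjugate
open scoped BigOperators

namespace IDL3

theorem re_le (g : ℕ → ℂ) (hg : CM g) (p : ℕ) (hp : 0 < p) : (g p - 1).re ≤ 0 := by
  have h1 := Complex.re_le_norm (g p)
  rw [hg.2.2 p hp] at h1
  simp only [Complex.sub_re, Complex.one_re]
  linarith

theorem norm_le_two (g : ℕ → ℂ) (hg : CM g) (p : ℕ) (hp : 0 < p) : ‖g p - 1‖ ≤ 2 := by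
  have h1 := norm_sub_le (g p) 1
  rw [hg.2.2 p hp, norm_one] at h1
  linarith

end IDL3

open IDL3 in
theorem pr_DL3 (hTk : StDTk) (hEx : StDEx) (hTl : StDTl) (hCt : StDCt) : StDL3 := by
  intro g hg K α hK hα hpα η hη
  obtain ⟨hE1, -, -⟩ := hEx
  obtain ⟨-, -, -, t4, t5, -, -⟩ := hTl g hg
  obtain ⟨-, -, -, c4, c5, c6⟩ := hCt
  obtain ⟨M0, hM0⟩ := c5 (η / 48) (by positivity)
  refine ⟨max M0 1, fun M hM β => ?_⟩
  have hM1 : 1 ≤ M := (le_max_right _ _).trans hM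
  have hM2 : M0 ≤ M := (le_max_left _ _).trans hM
  have hMr : (0 : ℝ) < M := by exact_mod_cast hM1
  have hpr : ∀ p ∈ pr4 K M, p.Prime ∧ K < p := by
    intro p hp
    unfold pr4 at hp
    rw [Finset.mem_filter] at hp
    exact ⟨hp.2.1, hp.2.2.1⟩
  -- residues
  have hex : ∀ p : ℕ, ∃ r : ℕ, p ∈ pr4 K M → r < p ∧ ∀ u : ℕ, p ∣ α * u + β ↔ u % p = r := by
    intro p
    by_cases hp : p ∈ pr4 K M
    · obtain ⟨h1, h2⟩ := hpr p hp
      have hco : Nat.Coprime α p := by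
        rw [Nat.coprime_comm, Nat.Prime.coprime_iff_not_dvd h1]
        intro hd
        exact absurd (hpα p h1 hd) (not_le.2 h2)
      obtain ⟨r, hr, h⟩ := c4 p α β h1.pos hco
      exact ⟨r, fun _ => ⟨hr, h⟩⟩
    · exact ⟨0, fun h => absurd h hp⟩
  choose r hr using hex
  have hTK := hTk (pr4 K M) (fun p => {r p}) (fun p => g p - 1) M (fun p hp => (hpr p hp).1)
    (fun p hp => ⟨by
      intro x hx
      rw [Finset.mem_singleton] at hx
      rw [hx, Finset.mem_range]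
      exact (hr p hp).1, by simp⟩)
    (fun p hp => norm_le_two g hg.cm p (hpr p hp).1.pos)
  -- pointwise bound
  have hpt : ∀ u : ℕ,
      ‖Complex.exp (∑ p ∈ (pr4 K M).filter (fun p => p ∣ α * u + β), (g p - 1)) - cL g K M‖ ≤
      ‖(∑ p ∈ pr4 K M, if u % p ∈ ({r p} : Finset ℕ) then g p - 1 else 0) -
        ∑ p ∈ pr4 K M, ((({r p} : Finset ℕ).card : ℕ) : ℂ) * (g p - 1) / p‖ := by
    intro u
    have e1 : ∑ p ∈ (pr4 K M).filter (fun p => p ∣ α * u + β), (g p - 1) =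
        ∑ p ∈ pr4 K M, if u % p ∈ ({r p} : Finset ℕ) then g p - 1 else 0 := by
      rw [Finset.sum_filter]
      refine Finset.sum_congr rfl fun p hp => ?_
      have := (hr p hp).2 u
      simp only [Finset.mem_singleton]
      by_cases h : u % p = r p
      · rw [if_pos h, if_pos (this.2 h)]
      · rw [if_neg h, if_neg (fun h' => h (this.1 h'))]
    have e2 : ∑ p ∈ pr4 K M, ((({r p} : Finset ℕ).card : ℕ) : ℂ) * (g p - 1) / p =
        ∑ p ∈ pr4 K M, (g p - 1) / p := by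
      refine Finset.sum_congr rfl fun p _ => ?_
      rw [Finset.card_singleton, Nat.cast_one, one_mul]
    rw [← e1, e2]
    unfold cL
    refine hE1 _ _ ?_ ?_
    · rw [Complex.re_sum]
      refine Finset.sum_nonpos fun p hp => ?_
      exact re_le g hg.cm p (hpr p (Finset.mem_filter.1 hp).1).1.pos
    · rw [Complex.re_sum]
      refine Finset.sum_nonpos fun p hp => ?_
      rw [Complex.div_natCast_re]
      exact div_nonpos_of_nonpos_of_nonneg (re_le g hg.cm p (hpr p hp).1.pos) (Nat.cast_nonneg p)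
  refine (c6 M (fun u => ‖Complex.exp (∑ p ∈ (pr4 K M).filter (fun p => p ∣ α * u + β),
    (g p - 1)) - cL g K M‖) (fun u => norm_nonneg _)).trans ?_
  refine Real.sqrt_le_sqrt ?_
  rw [div_le_iff₀ hMr]
  have h1 : ∑ u ∈ Finset.Icc 1 M,
      ‖Complex.exp (∑ p ∈ (pr4 K M).filter (fun p => p ∣ α * u + β), (g p - 1)) - cL g K M‖ ^ 2 ≤
      ∑ u ∈ Finset.Icc 1 M, ‖(∑ p ∈ pr4 K M, if u % p ∈ ({r p} : Finset ℕ) then g p - 1 else 0) -
        ∑ p ∈ pr4 K M, ((({r p} : Finset ℕ).card : ℕ) : ℂ) * (g p - 1) / p‖ ^ 2 :=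
    Finset.sum_le_sum fun u _ => pow_le_pow_left₀ (norm_nonneg _) (hpt u) 2
  have h2 : ∑ p ∈ pr4 K M, ((({r p} : Finset ℕ).card : ℕ) : ℝ) * ‖g p - 1‖ ^ 2 / p ≤ tl g K := by
    refine le_trans (le_of_eq ?_) (t5 K (pr4 K M) hpr)
    refine Finset.sum_congr rfl fun p _ => ?_
    rw [Finset.card_singleton, Nat.cast_one, one_mul, norm_sub_rev]
  have h3 := hM0 M hM2 K
  have h4 : 2 * (M : ℝ) * (∑ p ∈ pr4 K M,
      ((({r p} : Finset ℕ).card : ℕ) : ℝ) * ‖g p - 1‖ ^ 2 / p) ≤ 2 * M * tl g K :=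
    mul_le_mul_of_nonneg_left h2 (by positivity)
  calc _ ≤ _ := h1
    _ ≤ _ := hTK
    _ ≤ 2 * M * tl g K + 48 * (η / 48 * M) := by linarith
    _ = (2 * tl g K + η) * M := by ring

end Pool.Agent.F0f91f8.HD
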