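import Pool.Agent.Work.MP_0f91f8_co.HD.StmtsD2

/-! Item [0f91f8 HD-D DL4] (helper96): the large primes do not matter. -/

set_option autoImplicit false

namespace Pool.Agent.F0f91f8.HD

open Filter Topology ComplexConjugate
open scoped BigOperators

theorem pr_DL4 (hCt : StDCt) (hTl : StDTl) : StDL4 := by
  intro g hg K α C0 hK hα hαK η hη
  obtain ⟨hc1, -, -, hc4, -, hc6⟩ := hCt
  obtain ⟨ht1, -, ht3, -, ht5, -, -⟩ := hTl g hg
  have hcpos : (0 : ℝ) < 1 + α + C0 := by positivity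
  have hev : ∀ᶠ L : ℕ in atTop, tl g L < η ^ 2 / (1 + α + C0) :=
    ht3.eventually_lt_const (by positivity)
  obtain ⟨L, hL⟩ := hev.exists
  have hL' : (1 + α + C0) * tl g L ≤ η ^ 2 := by
    have := (lt_div_iff₀ hcpos).mp hL
    linarith
  refine ⟨max (L ^ 4) 1, ?_⟩
  intro M hM β hβ
  have hM1 : 1 ≤ M := le_trans (le_max_right _ _) hM
  have hML : L ^ 4 ≤ M := le_trans (le_max_left _ _) hM
  have hMpos : (0 : ℝ) < M := by exact_mod_cast hM1
  set a : ℕ → ℝ := fun p => ‖1 - g p‖ ^ 2 with ha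
  have ha0 : ∀ p, 0 ≤ a p := fun p => by positivity
  set T : Finset ℕ := (Finset.range ((α + C0) * M + 1)).filter
    (fun p => p.Prime ∧ K < p ∧ M < p ^ 4) with hT
  have hTp : ∀ p ∈ T, p.Prime ∧ K < p ∧ M < p ^ 4 ∧ p ≤ (α + C0) * M := by
    intro p hp
    have h := Finset.mem_filter.mp hp
    have h2 := Finset.mem_range.mp h.1
    exact ⟨h.2.1, h.2.2.1, h.2.2.2, by omega⟩
  have h6 := hc6 M (fun u => Real.sqrt
      (∑ p ∈ (α * u + β).primeFactors.filter (fun p => K < p ∧ M < p ^ 4), ‖1 - g p‖ ^ 2))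
      (fun u => Real.sqrt_nonneg _)
  refine le_trans h6 ?_
  rw [Real.sqrt_le_left hη.le]
  rw [div_le_iff₀ hMpos]
  have hstep1 : ∑ u ∈ Finset.Icc 1 M, Real.sqrt
      (∑ p ∈ (α * u + β).primeFactors.filter (fun p => K < p ∧ M < p ^ 4), ‖1 - g p‖ ^ 2) ^ 2 ≤
      ∑ u ∈ Finset.Icc 1 M, ∑ p ∈ T, if p ∣ α * u + β then a p else 0 := by
    apply Finset.sum_le_sum
    intro u hu
    rw [Real.sq_sqrt (Finset.sum_nonneg (fun p _ => by positivity)), ← Finset.sum_filter]
    apply Finset.sum_le_sum_of_subset_of_nonneg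
    · intro p hp
      have h1 := Finset.mem_filter.mp hp
      have hpr := Nat.prime_of_mem_primeFactors h1.1
      have hdv := Nat.dvd_of_mem_primeFactors h1.1
      have hu1 := (Finset.mem_Icc.mp hu)
      have hpos : 0 < α * u + β := by
        have : 0 < α * u := Nat.mul_pos hα hu1.1
        omega
      have hle := Nat.le_of_dvd hpos hdv
      have hle2 : α * u + β ≤ (α + C0) * M := by
        have h3 : α * u ≤ α * M := Nat.mul_le_mul_left _ hu1.2
        nlinarith
      refine Finset.mem_filter.mpr ⟨Finset.mem_filter.mpr ⟨Finset.mem_range.mpr ?_, hpr, h1.2.1,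
        h1.2.2⟩, hdv⟩
      omega
    · intro p _ _
      exact ha0 p
  refine le_trans hstep1 ?_
  rw [Finset.sum_comm]
  have hstep2 : ∀ p ∈ T, ∑ u ∈ Finset.Icc 1 M, (if p ∣ α * u + β then a p else 0) ≤
      (1 + α + C0) * M * (a p / (p : ℝ)) := by
    intro p hp
    obtain ⟨hpr, hKp, hMp, hple⟩ := hTp p hp
    have hppos : (0 : ℝ) < p := by exact_mod_cast hpr.pos
    have hcop : Nat.Coprime α p := by
      rw [Nat.coprime_comm]
      exact (hpr.coprime_iff_not_dvd).mpr (fun h => by have := hαK p hpr h; omega)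
    obtain ⟨r, hr, hru⟩ := hc4 p α β hpr.pos hcop
    have h1 := hc1 p M 0 {r} hpr.pos
    have h2 : ((Finset.Icc 1 M).filter fun u => (u + 0) % p ∈ ({r} : Finset ℕ)) =
        (Finset.Icc 1 M).filter fun u => p ∣ α * u + β := by
      apply Finset.filter_congr
      intro u _
      rw [hru u]
      simp
    rw [h2] at h1
    simp only [Finset.card_singleton, Nat.cast_one, one_mul] at h1
    rw [← Finset.sum_filter, Finset.sum_const, nsmul_eq_mul]
    have h3 : (M : ℝ) / p + 1 ≤ (1 + α + C0) * M / p := by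
      rw [div_add_one hppos.ne']
      apply div_le_div_of_nonneg_right _ hppos.le
      have h4 : (p : ℝ) ≤ (α + C0) * M := by exact_mod_cast hple
      nlinarith
    calc ((((Finset.Icc 1 M).filter fun u => p ∣ α * u + β).card : ℝ)) * a p ≤
        ((1 + α + C0) * M / p) * a p := mul_le_mul_of_nonneg_right (le_trans h1 h3) (ha0 p)
      _ = (1 + α + C0) * M * (a p / (p : ℝ)) := by ring
  refine le_trans (Finset.sum_le_sum hstep2) ?_
  rw [← Finset.mul_sum]
  have h7 : ∑ p ∈ T, a p / (p : ℝ) ≤ tl g L := by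
    apply ht5 L T
    intro p hp
    obtain ⟨hpr, hKp, hMp, hple⟩ := hTp p hp
    refine ⟨hpr, ?_⟩
    by_contra hcon
    push Not at hcon
    have : p ^ 4 ≤ L ^ 4 := Nat.pow_le_pow_left hcon 4
    omega
  calc (1 + α + C0) * M * ∑ p ∈ T, a p / (p : ℝ) ≤ (1 + α + C0) * M * tl g L :=
        mul_le_mul_of_nonneg_left h7 (by positivity)
    _ = ((1 + α + C0) * tl g L) * M := by ring
    _ ≤ η ^ 2 * M := mul_le_mul_of_nonneg_right hL' hMpos.le

end Pool.Agent.F0f91f8.HD
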