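import Pool.Agent.Work.MP_0f91f8_co.HD.StmtsD

/-!
# Half density, module D: item DLat (lattice points)
-/

set_option autoImplicit false

namespace Pool.Agent.F0f91f8.HD

open Filter Topology ComplexConjugate
open scoped BigOperators

namespace XDLat

lemma root (p : ℕ) [Fact p.Prime] : ∃ r : ZMod p, ∀ m n : ZMod p, m ^ 2 + n ^ 2 = 0 →
    (m = r * n ∨ m = -(r * n)) ∧ (r ^ 2 + 1) * n = 0 := by
  by_cases h : ∃ r : ZMod p, r ^ 2 = -1
  · obtain ⟨r, hr⟩ := h
    refine ⟨r, fun m n hmn => ⟨?_, ?_⟩⟩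
    · have h1 : (m - r * n) * (m + r * n) = 0 := by
        linear_combination hmn - n ^ 2 * hr
      rcases mul_eq_zero.1 h1 with h2 | h2
      · exact Or.inl (sub_eq_zero.1 h2)
      · exact Or.inr (eq_neg_of_add_eq_zero_left h2)
    · rw [hr]
      ring
  · refine ⟨0, fun m n hmn => ?_⟩
    have hn : n = 0 := by
      by_contra hn
      apply h
      refine ⟨m / n, ?_⟩
      rw [div_pow, div_eq_iff (pow_ne_zero 2 hn)]
      linear_combination hmn
    subst hn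
    have hm : m = 0 := by
      have : m ^ 2 = 0 := by simpa using hmn
      exact pow_eq_zero_iff (two_ne_zero) |>.1 this
    subst hm
    simp

lemma diff_le {a b s : ℕ} (h : a / s = b / s) (hs : 0 < s) :
    ((a : ℤ) - b) ^ 2 ≤ ((s : ℤ) - 1) ^ 2 := by
  have h1 := Nat.div_add_mod a s
  have h2 := Nat.div_add_mod b s
  have h3 := Nat.mod_lt a hs
  have h4 := Nat.mod_lt b hs
  rw [h] at h1
  have h5 : (a : ℤ) - b = (a % s : ℕ) - (b % s : ℕ) := by
    have e1 : ((s * (b / s) + a % s : ℕ) : ℤ) = a := by exact_mod_cast h1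
    have e2 : ((s * (b / s) + b % s : ℕ) : ℤ) = b := by exact_mod_cast h2
    push_cast at e1 e2 ⊢
    linarith
  rw [h5, sq_le_sq, abs_of_nonneg (show (0 : ℤ) ≤ (s : ℤ) - 1 by omega), abs_le]
  constructor <;> omega

lemma odd_case (p R : ℕ) (hp : p.Prime) (hodd : Odd p) (hle : p ≤ 2 * R ^ 2) :
    ((((Finset.Icc 1 R ×ˢ Finset.Icc 1 R).filter fun x => p ∣ x.1 ^ 2 + x.2 ^ 2).card : ℝ)) ≤
      100 * (R : ℝ) ^ 2 / p := by
  classical
  have : Fact p.Prime := ⟨hp⟩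
  have hR : 1 ≤ R := by
    rcases Nat.eq_zero_or_pos R with h | h
    · subst h
      have := hp.pos
      omega
    · exact h
  obtain ⟨t, ht⟩ : ∃ t, t = Nat.sqrt (p / 2) := ⟨_, rfl⟩
  have ht1 : 2 * t ^ 2 < p := by
    have h1 : t * t ≤ p / 2 := by rw [ht]; exact Nat.sqrt_le _
    obtain ⟨k, hk⟩ := hodd
    have h2 : p / 2 = k := by omega
    rw [h2] at h1
    nlinarith
  have ht2 : p < 2 * (t + 1) ^ 2 := by
    have h1 : p / 2 < (t + 1) * (t + 1) := by rw [ht]; exact Nat.lt_succ_sqrt _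
    have h2 : p < 2 * (p / 2) + 2 := by omega
    nlinarith
  have ht3 : t ≤ R := by
    have : t ^ 2 ≤ R ^ 2 := by omega
    exact (Nat.pow_le_pow_iff_left two_ne_zero).1 this
  obtain ⟨r, hr⟩ := root p
  have hcard : ((Finset.Icc 1 R ×ˢ Finset.Icc 1 R).filter
      fun x => p ∣ x.1 ^ 2 + x.2 ^ 2).card ≤
      ((Finset.range (R / (t + 1) + 1) ×ˢ Finset.range (R / (t + 1) + 1)) ×ˢ
        (Finset.univ : Finset Bool)).card := by
    refine Finset.card_le_card_of_injOn (fun x : ℕ × ℕ => ((x.1 / (t + 1), x.2 / (t + 1)),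
      decide ((x.1 : ZMod p) = r * (x.2 : ZMod p)))) ?_ ?_
    · intro x hx
      simp only [Finset.coe_filter, Finset.mem_product, Finset.mem_Icc, Set.mem_ofPred_eq] at hx
      simp only [Finset.coe_product, Finset.coe_range, Set.mem_prod, Set.mem_Iio,
        Finset.coe_univ, Set.mem_univ, and_true]
      exact ⟨Nat.lt_succ_of_le (Nat.div_le_div_right hx.1.1.2),
        Nat.lt_succ_of_le (Nat.div_le_div_right hx.1.2.2)⟩
    · intro x hx y hy hxy
      simp only [Finset.coe_filter, Finset.mem_product, Finset.mem_Icc, Set.mem_ofPred_eq] at hx hy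
      simp only [Prod.mk.injEq, decide_eq_decide] at hxy
      obtain ⟨⟨h1, h2⟩, h3⟩ := hxy
      have hx0 : (x.1 : ZMod p) ^ 2 + (x.2 : ZMod p) ^ 2 = 0 := by
        have := (ZMod.natCast_eq_zero_iff (x.1 ^ 2 + x.2 ^ 2) p).2 hx.2
        push_cast at this
        exact this
      have hy0 : (y.1 : ZMod p) ^ 2 + (y.2 : ZMod p) ^ 2 = 0 := by
        have := (ZMod.natCast_eq_zero_iff (y.1 ^ 2 + y.2 ^ 2) p).2 hy.2
        push_cast at this
        exact this
      obtain ⟨hx1, hx2⟩ := hr _ _ hx0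
      obtain ⟨hy1, hy2⟩ := hr _ _ hy0
      have hsq : ((x.1 : ZMod p) - y.1) ^ 2 = r ^ 2 * ((x.2 : ZMod p) - y.2) ^ 2 := by
        by_cases hc : (x.1 : ZMod p) = r * (x.2 : ZMod p)
        · rw [hc, h3.1 hc]
          ring
        · have hc' : ¬ (y.1 : ZMod p) = r * (y.2 : ZMod p) := fun h => hc (h3.2 h)
          rw [hx1.resolve_left hc, hy1.resolve_left hc']
          ring
      have hz : ((x.1 : ZMod p) - y.1) ^ 2 + ((x.2 : ZMod p) - y.2) ^ 2 = 0 := by
        rw [hsq]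
        linear_combination ((x.2 : ZMod p) - y.2) * (hx2 - hy2)
      have hdvd : (p : ℤ) ∣ ((x.1 : ℤ) - y.1) ^ 2 + ((x.2 : ℤ) - y.2) ^ 2 := by
        rw [← ZMod.intCast_zmod_eq_zero_iff_dvd]
        push_cast
        exact hz
      have hb1 := diff_le h1 (Nat.succ_pos t)
      have hb2 := diff_le h2 (Nat.succ_pos t)
      have hb3 : (2 : ℤ) * t ^ 2 < p := by exact_mod_cast ht1
      have hlt : ((x.1 : ℤ) - y.1) ^ 2 + ((x.2 : ℤ) - y.2) ^ 2 < p := by
        push_cast at hb1 hb2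
        nlinarith
      have h0 := Int.eq_zero_of_dvd_of_nonneg_of_lt (by positivity) hlt hdvd
      have n1 := sq_nonneg ((x.1 : ℤ) - y.1)
      have n2 := sq_nonneg ((x.2 : ℤ) - y.2)
      have e1 : ((x.1 : ℤ) - y.1) ^ 2 = 0 := by linarith
      have e2 : ((x.2 : ℤ) - y.2) ^ 2 = 0 := by linarith
      have e3 := (pow_eq_zero_iff two_ne_zero).1 e1
      have e4 := (pow_eq_zero_iff two_ne_zero).1 e2
      exact Prod.ext (by omega) (by omega)
  rw [Finset.card_product, Finset.card_product, Finset.card_range, Finset.card_univ,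
    Fintype.card_bool] at hcard
  have hp0 : (0 : ℝ) < p := by exact_mod_cast hp.pos
  have hs0 : (0 : ℝ) < (t : ℝ) + 1 := by positivity
  have h1 : (((Finset.Icc 1 R ×ˢ Finset.Icc 1 R).filter
      fun x => p ∣ x.1 ^ 2 + x.2 ^ 2).card : ℝ) ≤
      ((R / (t + 1) : ℕ) + 1 : ℝ) * ((R / (t + 1) : ℕ) + 1 : ℝ) * 2 := by
    exact_mod_cast hcard
  have h2 : ((R / (t + 1) : ℕ) : ℝ) ≤ R / ((t : ℝ) + 1) := by
    have := @Nat.cast_div_le ℝ _ _ _ R (t + 1)
    push_cast at this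
    exact this
  have h3 : (1 : ℝ) ≤ 2 * (R / ((t : ℝ) + 1)) := by
    rw [mul_div_assoc', le_div_iff₀ hs0, one_mul]
    have h4 : t + 1 ≤ 2 * R := by omega
    exact_mod_cast h4
  have h5 : 0 ≤ (R : ℝ) / ((t : ℝ) + 1) := by positivity
  have h6 : ((R / (t + 1) : ℕ) + 1 : ℝ) ≤ 3 * (R / ((t : ℝ) + 1)) := by linarith
  have h7 : (0 : ℝ) ≤ ((R / (t + 1) : ℕ) + 1 : ℝ) := by positivity
  have h8 : ((R / (t + 1) : ℕ) + 1 : ℝ) * ((R / (t + 1) : ℕ) + 1 : ℝ) * 2 ≤
      18 * (R / ((t : ℝ) + 1)) ^ 2 := by nlinarith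
  refine h1.trans (h8.trans ?_)
  have h9 : (p : ℝ) < 2 * ((t : ℝ) + 1) ^ 2 := by exact_mod_cast ht2
  rw [div_pow, mul_div_assoc', div_le_div_iff₀ (by positivity) hp0]
  have h10 : 0 ≤ (R : ℝ) ^ 2 := by positivity
  nlinarith [mul_le_mul_of_nonneg_left h9.le h10, mul_nonneg h10 (sq_nonneg ((t : ℝ) + 1))]

end XDLat

theorem pr_DLat : StDLat := by
  intro p R hp hle
  rcases hp.eq_two_or_odd' with h | h
  · subst h
    have h1 : ((Finset.Icc 1 R ×ˢ Finset.Icc 1 R).filter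
        fun x => 2 ∣ x.1 ^ 2 + x.2 ^ 2).card ≤ R * R := by
      refine (Finset.card_filter_le _ _).trans ?_
      rw [Finset.card_product, Nat.card_Icc]
      simp
    have h2 : (((Finset.Icc 1 R ×ˢ Finset.Icc 1 R).filter
        fun x => 2 ∣ x.1 ^ 2 + x.2 ^ 2).card : ℝ) ≤ (R : ℝ) * R := by exact_mod_cast h1
    refine h2.trans ?_
    push_cast
    nlinarith [sq_nonneg (R : ℝ)]
  · exact XDLat.odd_case p R hp h hle

end Pool.Agent.F0f91f8.HD
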