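import Pool.Agent.Work.MP_0f91f8_co.HD.StmtsD2

/-!
# Half density, module D, item DLin: concentration for one linear form
-/

set_option autoImplicit false

namespace Pool.Agent.F0f91f8.HD

open Filter Topology ComplexConjugate
open scoped BigOperators

namespace IDLin

lemma sqrt_add_le (x y : ℝ) (hx : 0 ≤ x) (hy : 0 ≤ y) :
    Real.sqrt (2 * x ^ 2 + y ^ 2) ≤ 2 * x + y := by
  apply Real.sqrt_le_iff.mpr
  constructor
  · positivity
  · nlinarith [mul_nonneg hx hy, sq_nonneg x]

end IDLin

theorem pr_DLin (hFc : StDFc) (hLs : StDLs) (hTl : StDTl) (hL1 : StDL1) (hL2 : StDL2)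
    (hL3 : StDL3) (hL4 : StDL4) : StDLin := by
  refine ⟨5, by norm_num, ?_⟩
  intro g hg K α C0 hK hα hpα η hη
  obtain ⟨htl0, -, -, -, -, hc1, htler⟩ := hTl g hg
  have her0 : 0 ≤ er g K := Real.sqrt_nonneg _
  obtain ⟨ht1, ht2⟩ := htler K hK
  by_cases her : er g K ≤ 1
  · set η' : ℝ := min (η / 30) ((η / 2) ^ 2) with hη'def
    have hη' : 0 < η' := by
      rw [hη'def]
      positivity
    have hη1 : η' ≤ η / 30 := min_le_left _ _
    have hη2 : η' ≤ (η / 2) ^ 2 := min_le_right _ _
    obtain ⟨M1, h1⟩ := hL1 K α hK hα hpα η' hη'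
    obtain ⟨M2, h2⟩ := hL2 g hg K α hK hα hpα η' hη'
    obtain ⟨M3, h3⟩ := hL3 g hg K α hK hα hpα η' hη'
    obtain ⟨M4, h4⟩ := hL4 g hg K α C0 hK hα hpα η' hη'
    refine ⟨max (max M1 M2) (max (max M3 M4) (α + C0 + 1)), ?_⟩
    intro M hM β hβ
    have hM1 : M1 ≤ M := le_trans (le_trans (le_max_left _ _) (le_max_left _ _)) hM
    have hM2 : M2 ≤ M := le_trans (le_trans (le_max_right _ _) (le_max_left _ _)) hM
    have hM3 : M3 ≤ M :=
      le_trans (le_trans (le_trans (le_max_left _ _) (le_max_left _ _)) (le_max_right _ _)) hM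
    have hM4 : M4 ≤ M :=
      le_trans (le_trans (le_trans (le_max_right _ _) (le_max_left _ _)) (le_max_right _ _)) hM
    have hM5 : α + C0 + 1 ≤ M := le_trans (le_trans (le_max_right _ _) (le_max_right _ _)) hM
    have k1 := h1 M hM1 β
    have k2 := h2 M hM2 β
    have k3 := h3 M hM3 β
    have k4 := h4 M hM4 β hβ
    have hMpos : (0 : ℝ) < M := by
      have : 0 < M := by omega
      exact_mod_cast this
    have hpt : ∀ u ∈ Finset.Icc 1 M, ‖gT g K (α * u + β) - cL g K M‖ ≤
        2 * (if ∃ p ∈ pr4 K M, p ^ 2 ∣ α * u + β then 1 else 0) +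
        (∑ p ∈ (pr4 K M).filter (fun p => p ∣ α * u + β), ‖g p - 1‖ ^ 2) +
        12 * Real.sqrt (∑ p ∈ (α * u + β).primeFactors.filter (fun p => K < p ∧ M < p ^ 4),
          ‖1 - g p‖ ^ 2) +
        ‖Complex.exp (∑ p ∈ (pr4 K M).filter (fun p => p ∣ α * u + β), (g p - 1)) -
          cL g K M‖ := by
      intro u hu
      rw [Finset.mem_Icc] at hu
      have hR1 : 1 ≤ α * u + β := by
        have : 1 ≤ α * u := Nat.mul_pos hα (by omega)
        omega
      have hR2 : α * u + β ≤ M ^ 3 := by
        have e1 : α * u ≤ α * M := Nat.mul_le_mul_left _ hu.2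
        have e2 : α * M + C0 * M ≤ M * M := by
          rw [← Nat.add_mul]
          exact Nat.mul_le_mul_right _ (by omega)
        have e3 : M * M ≤ M ^ 3 := by
          have : M ^ 3 = M * M * M := by ring
          rw [this]
          exact Nat.le_mul_of_pos_right _ (by omega)
        omega
      have h := hLs g hg.cm K M (α * u + β) (by omega) hR1 hR2
      have h' := norm_sub_le_norm_sub_add_norm_sub (gT g K (α * u + β))
        (Complex.exp (∑ p ∈ (pr4 K M).filter (fun p => p ∣ α * u + β), (g p - 1))) (cL g K M)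
      linarith
    have hsum := Finset.sum_le_sum hpt
    rw [Finset.sum_add_distrib, Finset.sum_add_distrib, Finset.sum_add_distrib,
      ← Finset.mul_sum, ← Finset.mul_sum] at hsum
    have hdiv := div_le_div_of_nonneg_right hsum hMpos.le
    rw [add_div, add_div, add_div, mul_div_assoc, mul_div_assoc] at hdiv
    have hsq : Real.sqrt (2 * tl g K + η') ≤ 2 * er g K + η / 2 := by
      refine le_trans (Real.sqrt_le_sqrt ?_) (IDLin.sqrt_add_le (er g K) (η / 2) her0 (by linarith))
      linarith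
    have her2 : er g K ^ 2 ≤ er g K := by nlinarith
    linarith
  · refine ⟨1, ?_⟩
    intro M hM β _
    have hMpos : (0 : ℝ) < M := by
      have : 0 < M := by omega
      exact_mod_cast this
    have hpt : ∀ u ∈ Finset.Icc 1 M, ‖gT g K (α * u + β) - cL g K M‖ ≤ 2 := by
      intro u hu
      rw [Finset.mem_Icc] at hu
      have hR1 : 0 < α * u + β := by
        have : 1 ≤ α * u := Nat.mul_pos hα (by omega)
        omega
      have hn1 : ‖gT g K (α * u + β)‖ = 1 := (hFc g hg.cm K K _ hR1 le_rfl).2.2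
      have h' := norm_sub_le (gT g K (α * u + β)) (cL g K M)
      have hn2 := (hc1 K M).1
      linarith
    have hsum := Finset.sum_le_sum hpt
    rw [Finset.sum_const, Nat.card_Icc, nsmul_eq_mul] at hsum
    rw [div_le_iff₀ hMpos]
    rw [not_le] at her
    have : ((M + 1 - 1 : ℕ) : ℝ) = M := by simp
    rw [this] at hsum
    nlinarith

end Pool.Agent.F0f91f8.HD
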