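import Pool.Agent.Work.MP_0f91f8_co.HD.StmtsD

set_option autoImplicit false

namespace Pool.Agent.F0f91f8.HD

open Filter Topology ComplexConjugate
open scoped BigOperators

namespace IDLm

theorem mv (A B C' D' : Finset ℕ) (G : ℕ → ℕ → ℕ → ℕ → ℝ) (X : ℝ)
    (h : ∀ u' ∈ B, ∀ v ∈ C', ∀ v' ∈ D', ∑ u ∈ A, G u u' v v' ≤ X) :
    ∑ u ∈ A, ∑ u' ∈ B, ∑ v ∈ C', ∑ v' ∈ D', G u u' v v' ≤
      (B.card : ℝ) * ((C'.card : ℝ) * ((D'.card : ℝ) * X)) := by
  rw [Finset.sum_comm, ← nsmul_eq_mul]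
  apply Finset.sum_le_card_nsmul
  intro u' hu'
  rw [Finset.sum_comm, ← nsmul_eq_mul]
  apply Finset.sum_le_card_nsmul
  intro v hv
  rw [Finset.sum_comm, ← nsmul_eq_mul]
  apply Finset.sum_le_card_nsmul
  intro v' hv'
  exact h u' hu' v hv v' hv'

theorem mv2 (A B C' D' : Finset ℕ) (G : ℕ → ℕ → ℝ) (X : ℝ)
    (h : ∀ v' ∈ D', ∑ v ∈ C', G v v' ≤ X) :
    ∑ _u ∈ A, ∑ _u' ∈ B, ∑ v ∈ C', ∑ v' ∈ D', G v v' ≤
      (A.card : ℝ) * ((B.card : ℝ) * ((D'.card : ℝ) * X)) := by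
  rw [← nsmul_eq_mul]
  apply Finset.sum_le_card_nsmul
  intro u _
  rw [← nsmul_eq_mul]
  apply Finset.sum_le_card_nsmul
  intro u' _
  rw [Finset.sum_comm, ← nsmul_eq_mul]
  apply Finset.sum_le_card_nsmul
  intro v' hv'
  exact h v' hv'

end IDLm

open IDLm

theorem pr_DLm (hLin : StDLin) (hcD : StDcD) : StDLm := by
  obtain ⟨C, hC, hL⟩ := hLin
  refine ⟨C, hC, ?_⟩
  intro g hg K κ k Q D hK hκ hk hQ hD hp η hη
  have hK1 : 1 ≤ K := by omega
  have hpκ : ∀ p : ℕ, p.Prime → p ∣ κ → p ≤ K := fun p h1 h2 => hp p h1 (Dvd.dvd.mul_right h2 Q)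
  have hpQ : ∀ p : ℕ, p.Prime → p ∣ Q → p ≤ K := fun p h1 h2 => hp p h1 (Dvd.dvd.mul_left h2 κ)
  have hp2 : ∀ p : ℕ, p.Prime → p ∣ 2 * κ → p ≤ K := by
    intro p h1 h2
    rcases (Nat.Prime.dvd_mul h1).mp h2 with h3 | h3
    · exact (Nat.le_of_dvd (by norm_num) h3).trans hK
    · exact hpκ p h1 h3
  obtain ⟨M1, hM1⟩ := hL g hg K κ (k * (2 * Q * D + Q) + 2 * κ) hK1 hκ hpκ η hη
  obtain ⟨M2, hM2⟩ := hL g hg K (2 * κ) (k * (2 * Q * D + Q) + 2 * κ) hK1 (by omega) hp2 η hη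
  obtain ⟨M3, hM3⟩ := hL g hg K Q (2 * Q) hK1 hQ hpQ (η / 2) (by positivity)
  have h4 := (Metric.tendsto_nhds.mp (hcD g hg K D hD)) (η / 2) (by positivity)
  obtain ⟨M4, hM4⟩ := eventually_atTop.mp h4
  refine ⟨M1 + M2 + M3 + M4 + 1, fun M hM a₀ ha₀ => ?_⟩
  have hMp : 1 ≤ M := by omega
  have hMr : (0 : ℝ) < M := by exact_mod_cast hMp
  have hDr : (0 : ℝ) < D := by exact_mod_cast hD
  have hDM : M ≤ D * M := Nat.le_mul_of_pos_left M hD
  have hDMp : 1 ≤ D * M := hMp.trans hDM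
  have hDMr : (0 : ℝ) < ((D * M : ℕ) : ℝ) := by exact_mod_cast hDMp
  have hden : (0 : ℝ) < (M : ℝ) ^ 2 * ((D * M : ℕ) : ℝ) ^ 2 := by positivity
  have ha : ∀ v ∈ Finset.Icc 1 (D * M), ∀ v' ∈ Finset.Icc 1 (D * M),
      k * (Q * (v + v') + a₀) ≤ k * (2 * Q * D + Q) * M := by
    intro v hv v' hv'
    rw [Finset.mem_Icc] at hv hv'
    calc k * (Q * (v + v') + a₀) ≤ k * (Q * (D * M + D * M) + Q * M) := by
          apply Nat.mul_le_mul_left
          apply Nat.add_le_add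
          · exact Nat.mul_le_mul_left Q (by omega)
          · exact ha₀.trans (Nat.le_mul_of_pos_right Q hMp)
      _ = k * (2 * Q * D + Q) * M := by ring
  refine ⟨?_, ?_, ?_⟩
  · -- the number `a`
    unfold BR
    rw [div_le_iff₀ hden]
    have hb : ∀ v' ∈ Finset.Icc 1 (D * M), ∑ v ∈ Finset.Icc 1 (D * M),
        ‖gT g K (Q * (v + v') + a₀) - cL g K M‖ ≤ (C * er g K + η) * ((D * M : ℕ) : ℝ) := by
      intro v' hv'
      rw [Finset.mem_Icc] at hv'
      have h5 := hM3 (D * M) (by omega) (Q * v' + a₀) (by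
        calc Q * v' + a₀ ≤ Q * (D * M) + Q * (D * M) := by
              apply Nat.add_le_add (Nat.mul_le_mul_left Q hv'.2)
              exact ha₀.trans (Nat.le_mul_of_pos_right Q hDMp)
          _ = 2 * Q * (D * M) := by ring)
      rw [div_le_iff₀ hDMr] at h5
      have h6 : ‖cL g K (D * M) - cL g K M‖ ≤ η / 2 := by
        have := hM4 M (by omega)
        rw [dist_zero_right] at this
        exact this.le
      have h7 : ∑ v ∈ Finset.Icc 1 (D * M), ‖gT g K (Q * (v + v') + a₀) - cL g K M‖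
          ≤ ∑ v ∈ Finset.Icc 1 (D * M),
            (‖gT g K (Q * v + (Q * v' + a₀)) - cL g K (D * M)‖ + η / 2) := by
        apply Finset.sum_le_sum
        intro v _
        have h8 : Q * (v + v') + a₀ = Q * v + (Q * v' + a₀) := by ring
        rw [h8]
        calc ‖gT g K (Q * v + (Q * v' + a₀)) - cL g K M‖
            = ‖(gT g K (Q * v + (Q * v' + a₀)) - cL g K (D * M))
                + (cL g K (D * M) - cL g K M)‖ := by
              congr 1
              ring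
          _ ≤ _ := (norm_add_le _ _).trans (by linarith)
      rw [Finset.sum_add_distrib, Finset.sum_const, Nat.card_Icc, nsmul_eq_mul,
        Nat.add_sub_cancel] at h7
      linarith
    have h9 := mv2 (Finset.Icc 1 M) (Finset.Icc 1 M) (Finset.Icc 1 (D * M))
      (Finset.Icc 1 (D * M)) (fun v v' => ‖gT g K (Q * (v + v') + a₀) - cL g K M‖) _ hb
    simp only [Nat.card_Icc, Nat.add_sub_cancel] at h9
    refine h9.trans (le_of_eq ?_)
    ring
  · unfold BR
    rw [div_le_iff₀ hden]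
    have hb : ∀ u' ∈ Finset.Icc 1 M, ∀ v ∈ Finset.Icc 1 (D * M), ∀ v' ∈ Finset.Icc 1 (D * M),
        ∑ u ∈ Finset.Icc 1 M,
          ‖gT g K (k * (Q * (v + v') + a₀) + κ * (u + u')) - cL g K M‖
          ≤ (C * er g K + η) * (M : ℝ) := by
      intro u' hu' v hv v' hv'
      rw [Finset.mem_Icc] at hu'
      have h5 := hM1 M (by omega) (k * (Q * (v + v') + a₀) + κ * u') (by
        calc k * (Q * (v + v') + a₀) + κ * u' ≤ k * (2 * Q * D + Q) * M + κ * M :=
              Nat.add_le_add (ha v hv v' hv') (Nat.mul_le_mul_left κ hu'.2)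
          _ ≤ (k * (2 * Q * D + Q) + 2 * κ) * M := by nlinarith)
      rw [div_le_iff₀ hMr] at h5
      refine le_trans (le_of_eq ?_) h5
      apply Finset.sum_congr rfl
      intro u _
      congr 3
      ring
    have h9 := mv (Finset.Icc 1 M) (Finset.Icc 1 M) (Finset.Icc 1 (D * M))
      (Finset.Icc 1 (D * M)) (fun u u' v v' =>
        ‖gT g K (k * (Q * (v + v') + a₀) + κ * (u + u')) - cL g K M‖) _ hb
    simp only [Nat.card_Icc, Nat.add_sub_cancel] at h9
    refine h9.trans (le_of_eq ?_)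
    ring
  · unfold BR
    rw [div_le_iff₀ hden]
    have hb : ∀ u' ∈ Finset.Icc 1 M, ∀ v ∈ Finset.Icc 1 (D * M), ∀ v' ∈ Finset.Icc 1 (D * M),
        ∑ u ∈ Finset.Icc 1 M,
          ‖gT g K (k * (Q * (v + v') + a₀) + 2 * (κ * (u + u'))) - cL g K M‖
          ≤ (C * er g K + η) * (M : ℝ) := by
      intro u' hu' v hv v' hv'
      rw [Finset.mem_Icc] at hu'
      have h5 := hM2 M (by omega) (k * (Q * (v + v') + a₀) + 2 * κ * u') (by
        calc k * (Q * (v + v') + a₀) + 2 * κ * u' ≤ k * (2 * Q * D + Q) * M + 2 * κ * M :=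
              Nat.add_le_add (ha v hv v' hv') (Nat.mul_le_mul_left (2 * κ) hu'.2)
          _ = (k * (2 * Q * D + Q) + 2 * κ) * M := by ring)
      rw [div_le_iff₀ hMr] at h5
      refine le_trans (le_of_eq ?_) h5
      apply Finset.sum_congr rfl
      intro u _
      congr 3
      ring
    have h9 := mv (Finset.Icc 1 M) (Finset.Icc 1 M) (Finset.Icc 1 (D * M))
      (Finset.Icc 1 (D * M)) (fun u u' v v' =>
        ‖gT g K (k * (Q * (v + v') + a₀) + 2 * (κ * (u + u'))) - cL g K M‖) _ hb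
    simp only [Nat.card_Icc, Nat.add_sub_cancel] at h9
    refine h9.trans (le_of_eq ?_)
    ring

end Pool.Agent.F0f91f8.HD
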