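import Pool.Agent.Work.MP_0f91f8_co.HD.StmtsD

/-! Item [0f91f8 HD-D DLs] (helper96): splitting of `gT g K R`. -/

set_option autoImplicit false

namespace Pool.Agent.F0f91f8.HD

open Filter Topology ComplexConjugate
open scoped BigOperators

namespace IDLs

theorem pow_sub_one_le (hEx : StDEx) (z : ℂ) (hz : ‖z‖ = 1) (n : ℕ) :
    ‖z ^ n - 1‖ ≤ n * ‖1 - z‖ := by
  have h := hEx.2.2 (Finset.range n) (fun _ => z) (fun _ => 1)
    (fun _ _ => by simp [hz]) (fun _ _ => by simp)
  simp only [Finset.prod_const, Finset.card_range, one_pow, Finset.sum_const, nsmul_eq_mul] at h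
  rw [norm_sub_rev 1 z]
  exact h

theorem norm_exp_le (S : Finset ℕ) (g : ℕ → ℂ) (hg : ∀ p ∈ S, ‖g p‖ = 1) :
    ‖Complex.exp (∑ p ∈ S, (g p - 1))‖ ≤ 1 := by
  rw [Complex.norm_exp]
  apply Real.exp_le_one_iff.mpr
  rw [Complex.re_sum]
  apply Finset.sum_nonpos
  intro p hp
  have h1 : (g p).re ≤ ‖g p‖ := Complex.re_le_norm _
  rw [hg p hp] at h1
  simp only [Complex.sub_re, Complex.one_re]
  linarith

/-- the number of large prime factors -/
theorem sum_fac_le (K M R : ℕ) (hM : 1 ≤ M) (hR : 1 ≤ R) (hRM : R ≤ M ^ 3) :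
    ∑ p ∈ R.primeFactors.filter (fun p => K < p ∧ M < p ^ 4), R.factorization p ≤ 12 := by
  rcases Nat.eq_or_lt_of_le hM with h1 | h1
  · have hR1 : R = 1 := by
      rw [← h1] at hRM
      simp at hRM
      omega
    subst hR1
    simp
  · have hd : ∏ p ∈ R.primeFactors.filter (fun p => K < p ∧ M < p ^ 4), p ^ R.factorization p ∣ R := by
      have h2 : ∏ p ∈ R.primeFactors, p ^ R.factorization p = R :=
        Nat.prod_factorization_pow_eq_self (by omega)
      calc ∏ p ∈ R.primeFactors.filter (fun p => K < p ∧ M < p ^ 4), p ^ R.factorization p ∣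
          ∏ p ∈ R.primeFactors, p ^ R.factorization p :=
            Finset.prod_dvd_prod_of_subset _ _ _ (Finset.filter_subset _ _)
        _ = R := h2
    have hle := Nat.le_of_dvd (by omega) hd
    have h3 : M ^ (∑ p ∈ R.primeFactors.filter (fun p => K < p ∧ M < p ^ 4), R.factorization p) ≤
        (∏ p ∈ R.primeFactors.filter (fun p => K < p ∧ M < p ^ 4), p ^ R.factorization p) ^ 4 := by
      rw [← Finset.prod_pow_eq_pow_sum, ← Finset.prod_pow]
      apply Finset.prod_le_prod'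
      intro p hp
      have hp2 := (Finset.mem_filter.mp hp).2.2
      calc M ^ R.factorization p ≤ (p ^ 4) ^ R.factorization p := Nat.pow_le_pow_left hp2.le _
        _ = (p ^ R.factorization p) ^ 4 := by rw [← pow_mul, ← pow_mul, mul_comm]
    have h4 : M ^ (∑ p ∈ R.primeFactors.filter (fun p => K < p ∧ M < p ^ 4), R.factorization p) ≤
        M ^ 12 := by
      calc _ ≤ _ := h3
        _ ≤ R ^ 4 := Nat.pow_le_pow_left hle 4
        _ ≤ (M ^ 3) ^ 4 := Nat.pow_le_pow_left hRM 4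
        _ = M ^ 12 := by rw [← pow_mul]
    exact (Nat.pow_le_pow_iff_right h1).mp h4

end IDLs

open IDLs in
theorem pr_DLs (hEx : StDEx) : StDLs := by
  intro g hg K M R hM hR hRM
  have hnorm : ∀ p : ℕ, p.Prime → ‖g p‖ = 1 := fun p hp => hg.2.2 p hp.pos
  set A : Finset ℕ := (pr4 K M).filter (fun p => p ∣ R) with hA
  set B : Finset ℕ := R.primeFactors.filter (fun p => K < p ∧ M < p ^ 4) with hB
  have hAp : ∀ p ∈ A, p.Prime := by
    intro p hp
    have := (Finset.mem_filter.mp (Finset.mem_filter.mp hp).1).2.1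
    exact this
  have hBp : ∀ p ∈ B, p.Prime := by
    intro p hp
    exact Nat.prime_of_mem_primeFactors (Finset.mem_filter.mp hp).1
  have hAB : R.primeFactors.filter (fun p => K < p) = A ∪ B := by
    ext p
    simp only [hA, hB, pr4, Finset.mem_filter, Finset.mem_union, Nat.mem_primeFactors,
      Finset.mem_range]
    constructor
    · rintro ⟨⟨h1, h2, h3⟩, h4⟩
      rcases le_or_gt (p ^ 4) M with h5 | h5
      · left
        refine ⟨⟨?_, h1, h4, h5⟩, h2⟩
        have h6 : p ≤ p ^ 4 := Nat.le_self_pow (by norm_num) p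
        omega
      · right
        exact ⟨⟨h1, h2, h3⟩, h4, h5⟩
    · rintro (⟨⟨_, h1, h4, h5⟩, h2⟩ | ⟨⟨h1, h2, h3⟩, h4, h5⟩)
      · exact ⟨⟨h1, h2, by omega⟩, h4⟩
      · exact ⟨⟨h1, h2, h3⟩, h4⟩
  have hdis : Disjoint A B := by
    rw [Finset.disjoint_left]
    intro p hp hq
    have h1 := (Finset.mem_filter.mp (Finset.mem_filter.mp hp).1).2.2.2
    have h2 := (Finset.mem_filter.mp hq).2.2
    omega
  have hgT : gT g K R = (∏ p ∈ A, g p ^ R.factorization p) * ∏ p ∈ B, g p ^ R.factorization p := by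
    unfold gT
    rw [hAB, Finset.prod_union hdis]
  set PA := ∏ p ∈ A, g p ^ R.factorization p with hPA
  set PB := ∏ p ∈ B, g p ^ R.factorization p with hPB
  set E := Complex.exp (∑ p ∈ A, (g p - 1)) with hE
  have hPA1 : ‖PA‖ = 1 := by
    rw [hPA, norm_prod]
    apply Finset.prod_eq_one
    intro p hp
    rw [norm_pow, hnorm p (hAp p hp), one_pow]
  have hE1 : ‖E‖ ≤ 1 := norm_exp_le A g (fun p hp => hnorm p (hAp p hp))
  -- the first product
  have h1 : ‖PA - E‖ ≤ 2 * (if ∃ p ∈ pr4 K M, p ^ 2 ∣ R then 1 else 0) +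
      ∑ p ∈ A, ‖g p - 1‖ ^ 2 := by
    split_ifs with hex
    · have h2 : ‖PA - E‖ ≤ ‖PA‖ + ‖E‖ := norm_sub_le _ _
      have h3 : 0 ≤ ∑ p ∈ A, ‖g p - 1‖ ^ 2 := Finset.sum_nonneg (fun p _ => by positivity)
      linarith
    · have h2 : PA = ∏ p ∈ A, g p := by
        rw [hPA]
        apply Finset.prod_congr rfl
        intro p hp
        have hp1 := Finset.mem_filter.mp hp
        have hpp := hAp p hp
        have h3 : R.factorization p = 1 := by
          have h4 : 1 ≤ R.factorization p :=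
            (hpp.dvd_iff_one_le_factorization (by omega)).mp hp1.2
          have h5 : ¬ 2 ≤ R.factorization p := by
            intro h6
            exact hex ⟨p, hp1.1, (hpp.pow_dvd_iff_le_factorization (by omega)).mpr h6⟩
          omega
        rw [h3, pow_one]
      rw [h2]
      have h3 := hEx.2.1 A g (fun p hp => hnorm p (hAp p hp))
      linarith
  -- the second product
  have h2 : ‖PB - 1‖ ≤ 12 * Real.sqrt (∑ p ∈ B, ‖1 - g p‖ ^ 2) := by
    have h3 := hEx.2.2 B (fun p => g p ^ R.factorization p) (fun _ => 1)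
      (fun p hp => by rw [norm_pow, hnorm p (hBp p hp), one_pow]) (fun _ _ => by simp)
    simp only [Finset.prod_const_one] at h3
    have h4 : ∑ p ∈ B, ‖g p ^ R.factorization p - 1‖ ≤
        ∑ p ∈ B, (R.factorization p : ℝ) * ‖1 - g p‖ :=
      Finset.sum_le_sum (fun p hp => pow_sub_one_le hEx (g p) (hnorm p (hBp p hp)) _)
    have hv : ∑ p ∈ B, R.factorization p ≤ 12 := sum_fac_le K M R hM hR hRM
    have h5 : (∑ p ∈ B, (R.factorization p : ℝ) * ‖1 - g p‖) ^ 2 ≤
        144 * ∑ p ∈ B, ‖1 - g p‖ ^ 2 := by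
      have h6 := Finset.sum_mul_sq_le_sq_mul_sq B (fun p => (R.factorization p : ℝ))
        (fun p => ‖1 - g p‖)
      have h7 : ∑ p ∈ B, (R.factorization p : ℝ) ^ 2 ≤ 144 := by
        have h8 : ∑ p ∈ B, (R.factorization p) ^ 2 ≤ (∑ p ∈ B, R.factorization p) ^ 2 := by
          rw [sq (∑ p ∈ B, R.factorization p), Finset.sum_mul]
          apply Finset.sum_le_sum
          intro p hp
          rw [sq]
          exact Nat.mul_le_mul_left _
            (Finset.single_le_sum (f := fun p => R.factorization p) (fun p _ => Nat.zero_le _) hp)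
        have h9 : ∑ p ∈ B, (R.factorization p) ^ 2 ≤ 144 :=
          le_trans h8 (by
            calc (∑ p ∈ B, R.factorization p) ^ 2 ≤ 12 ^ 2 := Nat.pow_le_pow_left hv 2
              _ = 144 := by norm_num)
        exact_mod_cast h9
      have h10 : 0 ≤ ∑ p ∈ B, ‖1 - g p‖ ^ 2 := Finset.sum_nonneg (fun p _ => by positivity)
      calc (∑ p ∈ B, (R.factorization p : ℝ) * ‖1 - g p‖) ^ 2
          ≤ (∑ p ∈ B, (R.factorization p : ℝ) ^ 2) * ∑ p ∈ B, ‖1 - g p‖ ^ 2 := h6
        _ ≤ 144 * ∑ p ∈ B, ‖1 - g p‖ ^ 2 := mul_le_mul_of_nonneg_right h7 h10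
    have h11 : ∑ p ∈ B, (R.factorization p : ℝ) * ‖1 - g p‖ ≤
        12 * Real.sqrt (∑ p ∈ B, ‖1 - g p‖ ^ 2) := by
      apply le_of_sq_le_sq _ (by positivity)
      rw [mul_pow, Real.sq_sqrt (Finset.sum_nonneg (fun p _ => by positivity))]
      linarith
    linarith
  have h3 : ‖gT g K R - E‖ ≤ ‖PB - 1‖ + ‖PA - E‖ := by
    rw [hgT]
    calc ‖PA * PB - E‖ = ‖PA * (PB - 1) + (PA - E)‖ := by ring_nf
      _ ≤ ‖PA * (PB - 1)‖ + ‖PA - E‖ := norm_add_le _ _
      _ = ‖PB - 1‖ + ‖PA - E‖ := by rw [norm_mul, hPA1, one_mul]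
  linarith

end Pool.Agent.F0f91f8.HD
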