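import Pool.Agent.Work.MP_0f91f8_co.HD.StmtsD

/-!
# Half density, module D, item DMd: congruences for the parameters of the family
-/

set_option autoImplicit false

namespace Pool.Agent.F0f91f8.HD

open Filter Topology ComplexConjugate
open scoped BigOperators

namespace IDMd

theorem ndvd {W x p : ℕ} (h : x % W = 1 % W) (hp : p.Prime) (hpW : p ∣ W) : ¬ p ∣ x := by
  intro hx
  have h1 : x ≡ 1 [MOD W] := h
  have h2 : x ≡ 1 [MOD p] := h1.of_dvd hpW
  have h3 : x ≡ 0 [MOD p] := (Nat.modEq_zero_iff_dvd).2 hx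
  have h4 : 1 ≡ 0 [MOD p] := h2.symm.trans h3
  exact hp.one_lt.ne' (Nat.dvd_one.1 ((Nat.modEq_zero_iff_dvd).1 h4))

theorem kk_pos (w K : ℕ) (e : Fin (K + 1) → Fin K) : 0 < kk w K e := by
  unfold kk
  refine Finset.prod_pos fun p _ => ?_
  split_ifs with h
  · exact pow_pos h.1.pos _
  · exact one_pos

theorem kp_pos (w K : ℕ) (e : Fin (w + 1) → Fin K) : 0 < kp w K e := by
  unfold kp
  refine Finset.prod_pos fun p _ => ?_
  split_ifs with h
  · exact pow_pos h.pos _
  · exact one_pos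

theorem kk_dvd {w K : ℕ} {e : Fin (K + 1) → Fin K} {p : ℕ} (hp : p.Prime) (h : p ∣ kk w K e) :
    w < p ∧ p ≤ K := by
  unfold kk at h
  obtain ⟨q, _, hq⟩ := (Prime.dvd_finset_prod_iff hp.prime _).1 h
  split_ifs at hq with h1
  · have h2 := (Nat.prime_dvd_prime_iff_eq hp h1.1).1 (hp.dvd_of_dvd_pow hq)
    have h3 := q.2
    rw [h2]
    exact ⟨h1.2, by omega⟩
  · exact absurd (Nat.dvd_one.1 hq) hp.one_lt.ne'

theorem kp_dvd {w K : ℕ} {e : Fin (w + 1) → Fin K} {p : ℕ} (hp : p.Prime) (h : p ∣ kp w K e) :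
    p ≤ w := by
  unfold kp at h
  obtain ⟨q, _, hq⟩ := (Prime.dvd_finset_prod_iff hp.prime _).1 h
  split_ifs at hq with h1
  · have h2 := (Nat.prime_dvd_prime_iff_eq hp h1).1 (hp.dvd_of_dvd_pow hq)
    have h3 := q.2
    omega
  · exact absurd (Nat.dvd_one.1 hq) hp.one_lt.ne'

theorem kk_cop (w K : ℕ) (e : Fin (K + 1) → Fin K) : Nat.Coprime (kk w K e) w.factorial := by
  refine Nat.Coprime.symm (Nat.coprime_of_dvd fun p hp h1 h2 => ?_)
  have h3 := (hp.dvd_factorial).1 h1
  have h4 := (kk_dvd hp h2).1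
  omega

theorem mod_main {W k : ℕ} (hW : 0 < W) (h : Nat.Coprime k W) (b : ℕ) :
    (k * (W * b + inv0 W k)) % W = 1 % W := by
  haveI : NeZero W := ⟨hW.ne'⟩
  rw [← ZMod.natCast_eq_natCast_iff']
  unfold inv0
  push_cast
  rw [ZMod.natCast_self, zero_mul, zero_add, ZMod.natCast_zmod_val, ZMod.coe_mul_inv_eq_one k h]

theorem mod_add {W x : ℕ} (h : x % W = 1 % W) (c : ℕ) : (x + W * c) % W = 1 % W := by
  rw [Nat.add_mul_mod_self_left, h]

end IDMd

open IDMd in
/-- Item DMd. -/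
theorem pr_DMd : StDMd := by
  intro w K e e' hw
  have hW : 0 < w.factorial := Nat.factorial_pos w
  have hcop := kk_cop w K e'
  refine ⟨hcop, kk_pos w K e', kp_pos w K e, ?_, ?_, ?_⟩
  · haveI : NeZero w.factorial := ⟨hW.ne'⟩
    unfold inv0
    exact (ZMod.val_lt _).le
  · intro p hp h
    rcases (hp.dvd_mul).1 h with h1 | h1
    · rcases (hp.dvd_mul).1 h1 with h2 | h2
      · rcases (hp.dvd_mul).1 h2 with h3 | h3
        · exact ((hp.dvd_factorial).1 h3).trans hw
        · exact (kp_dvd hp h3).trans hw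
      · exact (kk_dvd hp h2).2
    · exact ((hp.dvd_factorial).1 h1).trans hw
  · intro b n
    set W := w.factorial with hWd
    set k := kk w K e' with hk
    set κ := kp w K e with hκ
    set a := W * b + inv0 W k with ha
    have m1 : (k * a) % W = 1 % W := mod_main hW hcop b
    have m2 : (k * a + W * κ * n) % W = 1 % W := by
      rw [mul_assoc]
      exact mod_add m1 _
    have m3 : (k * a + 2 * (W * κ * n)) % W = 1 % W := by
      have h1 : 2 * (W * κ * n) = W * (2 * κ * n) := by ring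
      rw [h1]
      exact mod_add m1 _
    have m4 : tZ (W * κ) k a n % W = 1 % W := by
      unfold tZ
      have h1 : (k * a + W * κ * n) ^ 2 + (W * κ * n) ^ 2 =
          (k * a + W * κ * n) ^ 2 + W * (κ * n * (W * κ * n)) := by ring
      rw [h1]
      refine mod_add ?_ _
      have h2 : (k * a + W * κ * n) ≡ 1 [MOD W] := m2
      have h3 := h2.pow 2
      rw [one_pow] at h3
      exact h3
    refine ⟨m1, m2, m3, m4, fun p hp hpw => ?_⟩
    have hpW : p ∣ W := (hp.dvd_factorial).2 hpw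
    exact ⟨fun h => ndvd m1 hp hpW (h.mul_left k), ndvd m2 hp hpW, ndvd m3 hp hpW, ndvd m4 hp hpW⟩

end Pool.Agent.F0f91f8.HD
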