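import Pool.Agent.Work.MP_0f91f8_co.HD.StmtsD2

/-!
# Half density, module D, item DPX: pointwise approximation of `f(x) conj f(y)` (helper33)
-/

set_option autoImplicit false

namespace Pool.Agent.F0f91f8.HD

open Filter Topology ComplexConjugate
open scoped BigOperators

namespace IDPX

/-- the archimedean character -/
noncomputable def E (t : ℝ) (n : ℕ) : ℂ := (n : ℂ) ^ (t * Complex.I)

lemma norm_E (t : ℝ) {n : ℕ} (hn : 0 < n) : ‖E t n‖ = 1 := by
  unfold E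
  rw [Complex.norm_natCast_cpow_of_pos hn]
  simp

lemma norm_conj (z : ℂ) : ‖conj z‖ = ‖z‖ := RCLike.norm_conj z

/-- two factor replacement -/
lemma two (X Y G C : ℂ) (hY : ‖Y‖ ≤ 1) (hG : ‖G‖ ≤ 1) :
    ‖X * G - Y * C‖ ≤ ‖X - Y‖ + ‖G - C‖ := by
  have e : X * G - Y * C = (X - Y) * G + Y * (G - C) := by ring
  rw [e]
  refine (norm_add_le _ _).trans ?_
  rw [norm_mul, norm_mul]
  have h1 : ‖X - Y‖ * ‖G‖ ≤ ‖X - Y‖ * 1 := mul_le_mul_of_nonneg_left hG (norm_nonneg _)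
  have h2 : ‖Y‖ * ‖G - C‖ ≤ 1 * ‖G - C‖ := mul_le_mul_of_nonneg_right hY (norm_nonneg _)
  linarith

lemma triv {X Y : ℂ} (hX : ‖X‖ ≤ 1) (hY : ‖Y‖ ≤ 1) : ‖X - Y‖ ≤ 2 := by
  have := norm_sub_le X Y
  linarith

/-- the replacement of `X` by `Y` -/
lemma arch {X Y : ℂ} {r : ℝ} {P : Prop} [Decidable P] (hr : 0 ≤ r) (hX : ‖X‖ ≤ 1) (hY : ‖Y‖ ≤ 1)
    (h : ¬ P → ‖X - Y‖ ≤ r) : ‖X - Y‖ ≤ r + 2 * (if P then 1 else 0) := by
  by_cases hP : P
  · rw [if_pos hP]
    have := triv hX hY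
    linarith
  · rw [if_neg hP]
    have := h hP
    linarith

/-- data at a point -/
structure Dat (f g : ℕ → ℂ) (t : ℝ) (w K : ℕ) (e : Fin (w + 1) → Fin K) (e' : Fin (K + 1) → Fin K)
    (a n : ℕ) : Prop where
  k0 : 0 < kk w K e'
  p0 : 0 < kp w K e
  cp : ∀ p : ℕ, p.Prime → p ≤ w → ¬ p ∣ kk w K e'
  fa : f (kk w K e' * a) = E t (kk w K e' * a) * (g (kk w K e') * g a)
  fm : f (kk w K e' * a + w.factorial * kp w K e * n) =
    E t (kk w K e' * a + w.factorial * kp w K e * n) *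
      g (kk w K e' * a + w.factorial * kp w K e * n)
  fm' : f (kk w K e' * a + 2 * (w.factorial * kp w K e * n)) =
    E t (kk w K e' * a + 2 * (w.factorial * kp w K e * n)) *
      g (kk w K e' * a + 2 * (w.factorial * kp w K e * n))
  fz : f (tZ (w.factorial * kp w K e) (kk w K e') a n) =
    E t (tZ (w.factorial * kp w K e) (kk w K e') a n) *
      g (tZ (w.factorial * kp w K e) (kk w K e') a n)
  da : ∀ p : ℕ, p.Prime → p ≤ w → ¬ p ∣ a
  dm : ∀ p : ℕ, p.Prime → p ≤ w → ¬ p ∣ kk w K e' * a + w.factorial * kp w K e * n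
  dm' : ∀ p : ℕ, p.Prime → p ≤ w → ¬ p ∣ kk w K e' * a + 2 * (w.factorial * kp w K e * n)
  dz : ∀ p : ℕ, p.Prime → p ≤ w → ¬ p ∣ tZ (w.factorial * kp w K e) (kk w K e') a n

lemma mod_of_dvd {x q N : ℕ} (h : q ∣ N) (hx : x % N = 1 % N) : x % q = 1 % q := by
  have h1 : x % N % q = 1 % N % q := by rw [hx]
  rwa [Nat.mod_mod_of_dvd _ h, Nat.mod_mod_of_dvd _ h] at h1

lemma tZ_pos {κ k a n : ℕ} (hk : 0 < k) (ha : 0 < a) : 0 < tZ κ k a n := by
  unfold tZ
  have : 0 < k * a := Nat.mul_pos hk ha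
  positivity

lemma dat (hMd : StDMd) {f g : ℕ → ℂ} {t : ℝ} {q : ℕ} (hD : Dec f g t q) {w K : ℕ}
    (hwK : w ≤ K) (hq : q ∣ w.factorial) (e : Fin (w + 1) → Fin K) (e' : Fin (K + 1) → Fin K)
    {a b n : ℕ} (hab : a = w.factorial * b + inv0 w.factorial (kk w K e')) (ha : 0 < a) :
    Dat f g t w K e e' a n := by
  obtain ⟨h1, h2, h3, h4, h5, h6⟩ := hMd w K e e' hwK
  obtain ⟨c1, c2, c3, c4, c5⟩ := h6 b n
  rw [← hab] at c1 c2 c3 c4 c5
  have ka : 0 < kk w K e' * a := Nat.mul_pos h2 ha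
  refine ⟨h2, h3, ?_, ?_, ?_, ?_, ?_, fun p hp hpw => (c5 p hp hpw).1,
    fun p hp hpw => (c5 p hp hpw).2.1, fun p hp hpw => (c5 p hp hpw).2.2.1,
    fun p hp hpw => (c5 p hp hpw).2.2.2⟩
  · intro p hp hpw hd
    have h7 : p ∣ Nat.gcd (kk w K e') w.factorial :=
      Nat.dvd_gcd hd (hp.dvd_factorial.2 hpw)
    rw [h1] at h7
    exact hp.one_lt.ne' (Nat.dvd_one.1 h7)
  · rw [hD.eq _ ka (mod_of_dvd hq c1), hD.hg.cm.2.1]
    rfl
  · rw [hD.eq _ (by omega) (mod_of_dvd hq c2)]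
    rfl
  · rw [hD.eq _ (by omega) (mod_of_dvd hq c3)]
    rfl
  · rw [hD.eq _ (tZ_pos h2 ha) (mod_of_dvd hq c4)]
    rfl

lemma norm_le {g : ℕ → ℂ} (hg : CM g) {n : ℕ} (hn : 0 < n) : ‖g n‖ ≤ 1 := (hg.2.2 n hn).le

/-- the general replacement for the product of two values of `g` -/
lemma gg {G1 G2 P C1 C2 T1 T2 : ℂ} {r : ℝ} (hr : r = 0 ∨ r = 1) (hG1 : ‖G1‖ ≤ 1) (hG2 : ‖G2‖ ≤ 1)
    (hP : ‖P‖ ≤ 1) (hT1 : ‖T1‖ ≤ 1) (hC1 : ‖C1‖ ≤ 1) (hC2 : ‖C2‖ ≤ 1)
    (h : r = 0 → G1 * conj G2 = P * (T1 * conj T2)) :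
    ‖G1 * conj G2 - P * (C1 * conj C2)‖ ≤ 2 * r + ‖T1 - C1‖ + ‖T2 - C2‖ := by
  rcases hr with rfl | rfl
  · rw [h rfl]
    have e : P * (T1 * conj T2) - P * (C1 * conj C2) =
        P * ((T1 - C1) * conj C2 + T1 * conj (T2 - C2)) := by
      rw [map_sub]; ring
    rw [e, norm_mul]
    have h1 : ‖(T1 - C1) * conj C2 + T1 * conj (T2 - C2)‖ ≤ ‖T1 - C1‖ + ‖T2 - C2‖ := by
      refine (norm_add_le _ _).trans ?_
      rw [norm_mul, norm_mul, norm_conj, norm_conj]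
      have h1 : ‖T1 - C1‖ * ‖C2‖ ≤ ‖T1 - C1‖ * 1 := mul_le_mul_of_nonneg_left hC2 (norm_nonneg _)
      have h2 : ‖T1‖ * ‖T2 - C2‖ ≤ 1 * ‖T2 - C2‖ := mul_le_mul_of_nonneg_right hT1 (norm_nonneg _)
      linarith
    have h2 : ‖P‖ * ‖(T1 - C1) * conj C2 + T1 * conj (T2 - C2)‖ ≤
        1 * ‖(T1 - C1) * conj C2 + T1 * conj (T2 - C2)‖ :=
      mul_le_mul_of_nonneg_right hP (norm_nonneg _)
    linarith
  · have h1 : ‖G1 * conj G2‖ ≤ 1 := by
      rw [norm_mul, norm_conj]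
      exact mul_le_one₀ hG1 (norm_nonneg _) hG2
    have h2 : ‖P * (C1 * conj C2)‖ ≤ 1 := by
      rw [norm_mul, norm_mul, norm_conj]
      exact mul_le_one₀ hP (by positivity) (mul_le_one₀ hC1 (norm_nonneg _) hC2)
    have h3 := triv h1 h2
    have h4 := norm_nonneg (T1 - C1)
    have h5 := norm_nonneg (T2 - C2)
    linarith

lemma iPq01 (w n : ℕ) : iPq w n = 0 ∨ iPq w n = 1 := by
  unfold iPq
  split
  · exact Or.inr rfl
  · exact Or.inl rfl

lemma iPq0 {w n : ℕ} (h : iPq w n = 0) : ∀ p : ℕ, p.Prime → w < p → ¬ p ^ 2 ∣ n := by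
  intro p hp hw hd
  unfold iPq at h
  rw [if_pos ⟨p, hp, hw, hd⟩] at h
  exact one_ne_zero h

lemma mul_conj_one {z : ℂ} (h : ‖z‖ = 1) : z * conj z = 1 := by
  rw [Complex.mul_conj, Complex.normSq_eq_norm_sq, h]
  norm_num

/-- the values of `g` on a number without small prime factors -/
lemma gval (hFc : StDFc) {g : ℕ → ℂ} (hg : CM g) {w K n : ℕ} (hn : 0 < n) (hwK : w ≤ K)
    (hd : ∀ p : ℕ, p.Prime → p ≤ w → ¬ p ∣ n) : g n = gP g w K n * gT g K n := by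
  refine (hFc g hg w K n hn hwK).1 fun p hp hpn => ?_
  by_contra h
  exact hd p hp (not_lt.1 h) hpn

end IDPX

open IDPX in
theorem pr_DPX (hFc : StDFc) (hMd : StDMd) (hSp : StDSp) (hAr : StDAr) (hTl : StDTl) : StDPX := by
  intro f g t q hD w K hw hwK hq e e' M a b n hab ha hn
  have hd := dat hMd hD hwK hq e e' (n := n) hab ha
  obtain ⟨-, -, -, -, -, hc, -⟩ := hTl g hD.hg
  set κ := w.factorial * kp w K e with hκ
  set k := kk w K e' with hk
  have hκ0 : 0 < κ := Nat.mul_pos w.factorial_pos hd.p0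
  have hk0 : 0 < k := hd.k0
  have hka : 0 < k * a := Nat.mul_pos hk0 ha
  have hm : 0 < k * a + κ * n := by omega
  have hm' : 0 < k * a + 2 * (κ * n) := by omega
  have hf := hD.hf
  have hg := hD.hg.cm
  have hK : 1 ≤ K := by omega
  have ex : f (tX κ k a n) = f (2 * w.factorial) * f (kp w K e) * f n * f (k * a + κ * n) := by
    rw [← hf.2.1, ← hf.2.1, ← hf.2.1]
    congr 1
    unfold tX
    rw [hκ]
    ring
  have ey : f (tY κ k a n) = f (k * a) * f (k * a + 2 * (κ * n)) := by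
    rw [← hf.2.1]
    rfl
  have main := two
    (E t (k * a + κ * n) * conj (E t (k * a)) * conj (E t (k * a + 2 * (κ * n))))
    (conj (E t (k * a)))
    (g (k * a + κ * n) * conj (g (k * a + 2 * (κ * n))))
    (cL g K M * conj (cL g K M))
    (by rw [norm_conj]; exact (norm_E t hka).le)
    (by
      rw [norm_mul, norm_conj]
      exact mul_le_one₀ (norm_le hg (by omega)) (norm_nonneg _) (norm_le hg (by omega)))
  have h1 : ‖E t (k * a + κ * n) * conj (E t (k * a)) * conj (E t (k * a + 2 * (κ * n))) -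
      conj (E t (k * a))‖ ≤ 10 * |t| / K +
        2 * (if K * (κ * n) > 2 * (k * a) then 1 else 0) := by
    refine arch (by positivity) ?_ ?_ fun hP => ?_
    · rw [norm_mul, norm_mul, norm_conj, norm_conj, norm_E t hka, norm_E t (by omega),
        norm_E t (by omega)]
      norm_num
    · rw [norm_conj, norm_E t hka]
    · exact (hAr t K κ k a n hK hκ0 hk0 ha hn (not_lt.1 hP)).1
  have h2 := gg (G1 := g (k * a + κ * n)) (G2 := g (k * a + 2 * (κ * n))) (P := 1)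
    (C1 := cL g K M) (C2 := cL g K M) (T1 := gT g K (k * a + κ * n))
    (T2 := gT g K (k * a + 2 * (κ * n))) (iPq01 w n)
    (norm_le hg (by omega)) (norm_le hg (by omega)) (by norm_num)
    (hFc g hg w K (k * a + κ * n) (by omega) hwK).2.2.le (hc K M).1 (hc K M).1 (by
      intro h0
      obtain ⟨s1, s2, -⟩ := hSp g hg w K e e' hw hwK a n ha hn (iPq0 h0)
      rw [gval hFc hg hm hwK hd.dm, gval hFc hg hm' hwK hd.dm', s1, s2, map_mul]
      have h5 := mul_conj_one (hFc g hg w K n hn hwK).2.1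
      calc gP g w K n * gT g K (k * a + κ * n) *
            (conj (gP g w K n) * conj (gT g K (k * a + 2 * (κ * n)))) =
          (gP g w K n * conj (gP g w K n)) *
            (gT g K (k * a + κ * n) * conj (gT g K (k * a + 2 * (κ * n)))) := by ring
        _ = _ := by rw [h5])
  rw [one_mul] at h2
  have e1 : f (tX κ k a n) * conj (f (tY κ k a n)) -
      f (kp w K e) * (f (2 * w.factorial) * conj (g k) * (cL g K M * conj (cL g K M)) *
        (f n * conj (((k * a : ℕ) : ℂ) ^ (t * Complex.I)) * conj (g a))) =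
      (f (2 * w.factorial) * f (kp w K e) * f n * conj (g k) * conj (g a)) *
      (E t (k * a + κ * n) * conj (E t (k * a)) * conj (E t (k * a + 2 * (κ * n))) *
          (g (k * a + κ * n) * conj (g (k * a + 2 * (κ * n)))) -
        conj (E t (k * a)) * (cL g K M * conj (cL g K M))) := by
    rw [ex, ey, hd.fa, hd.fm, hd.fm', map_mul, map_mul, map_mul, map_mul]
    unfold E
    ring
  rw [e1, norm_mul]
  have e2 : ‖f (2 * w.factorial) * f (kp w K e) * f n * conj (g k) * conj (g a)‖ = 1 := by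
    rw [norm_mul, norm_mul, norm_mul, norm_mul, norm_conj, norm_conj,
      hf.2.2 _ (Nat.mul_pos two_pos w.factorial_pos), hf.2.2 _ hd.p0, hf.2.2 _ hn, hg.2.2 _ hk0,
      hg.2.2 _ ha]
    norm_num
  rw [e2, one_mul]
  linarith

end Pool.Agent.F0f91f8.HD
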