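import Pool.Agent.Work.MP_0f91f8_co.HD.I_DPX

/-!
# Half density, module D, item DPY: pointwise approximation of `f(y) conj f(z)` (helper33)
-/

set_option autoImplicit false

namespace Pool.Agent.F0f91f8.HD

open Filter Topology ComplexConjugate
open scoped BigOperators

namespace IDPY

open IDPX

lemma g_one {g : ℕ → ℂ} (hg : CM g) {w : ℕ} (h : ∀ p : ℕ, p.Prime → w < p → g p = 1) :
    ∀ n : ℕ, 0 < n → (∀ p : ℕ, p.Prime → p ≤ w → ¬ p ∣ n) → g n = 1 := by
  intro n
  induction n using Nat.strong_induction_on with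
  | _ n ih =>
    intro hn hd
    rcases Nat.lt_or_ge 1 n with h1 | h1
    · obtain ⟨p, hp, hpn⟩ := Nat.exists_prime_and_dvd h1.ne'
      obtain ⟨m, rfl⟩ := hpn
      have hm : 0 < m := Nat.pos_of_mul_pos_left hn
      rw [hg.2.1]
      have hw : w < p := by
        by_contra hc
        exact hd p hp (not_lt.1 hc) (dvd_mul_right p m)
      rw [h p hp hw, one_mul]
      refine ih m ?_ hm fun r hr hrw hrm => hd r hr hrw (hrm.mul_left p)
      exact lt_mul_of_one_lt_left hm hp.one_lt
    · have : n = 1 := by omega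
      subst this
      have h2 : g 1 ≠ 0 := by
        intro h0
        have := hg.2.2 1 one_pos
        rw [h0, norm_zero] at this
        exact zero_ne_one this
      have h3 : g 1 * g 1 = g 1 * 1 := by
        rw [mul_one, ← hg.2.1 1 1]
      exact mul_left_cancel₀ h2 h3

end IDPY

open IDPX IDPY in
theorem pr_DPY (hFc : StDFc) (hMd : StDMd) (hSp : StDSp) (hAr : StDAr) (hTl : StDTl) : StDPY := by
  intro f g t q hD w K hw hwK hq e e' M a b n hab ha hn
  have hd := dat hMd hD hwK hq e e' (n := n) hab ha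
  obtain ⟨-, -, -, -, -, hc, -⟩ := hTl g hD.hg
  set κ := w.factorial * kp w K e with hκ
  set k := kk w K e' with hk
  have hκ0 : 0 < κ := Nat.mul_pos w.factorial_pos hd.p0
  have hk0 : 0 < k := hd.k0
  have hka : 0 < k * a := Nat.mul_pos hk0 ha
  have hm' : 0 < k * a + 2 * (κ * n) := by omega
  have hz : 0 < tZ κ k a n := tZ_pos hk0 ha
  have hf := hD.hf
  have hg := hD.hg.cm
  have hK : 1 ≤ K := by omega
  have ey : f (tY κ k a n) = f (k * a) * f (k * a + 2 * (κ * n)) := by
    rw [← hf.2.1]
    rfl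
  have h1 : ‖E t (k * a) * E t (k * a + 2 * (κ * n)) * conj (E t (tZ κ k a n)) - 1‖ ≤
      10 * |t| / K + 2 * (if K * (κ * n) > 2 * (k * a) then 1 else 0) := by
    refine arch (by positivity) ?_ (by norm_num) fun hP => ?_
    · rw [norm_mul, norm_mul, norm_conj, norm_E t hz, norm_E t hm', norm_E t hka]
      norm_num
    · exact (hAr t K κ k a n hK hκ0 hk0 ha hn (not_lt.1 hP)).2.2
  refine ⟨?_, fun hg1 => ?_⟩
  · have main := two
      (E t (k * a) * E t (k * a + 2 * (κ * n)) * conj (E t (tZ κ k a n)))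
      1
      (g (k * a + 2 * (κ * n)) * conj (g (tZ κ k a n)))
      (conj (gP g w K n) * (cL g K M * conj (cQ g K M)))
      (by norm_num)
      (by
        rw [norm_mul, norm_conj]
        exact mul_le_one₀ (norm_le hg hm') (norm_nonneg _) (norm_le hg hz))
    have h2 := gg (G1 := g (k * a + 2 * (κ * n))) (G2 := g (tZ κ k a n))
      (P := conj (gP g w K n))
      (C1 := cL g K M) (C2 := cQ g K M) (T1 := gT g K (k * a + 2 * (κ * n)))
      (T2 := gT g K (tZ κ k a n)) (iPq01 w n)
      (norm_le hg hm') (norm_le hg hz)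
      (by rw [norm_conj]; exact (hFc g hg w K n hn hwK).2.1.le)
      (hFc g hg w K (k * a + 2 * (κ * n)) hm' hwK).2.2.le (hc K M).1 (hc K M).2 (by
        intro h0
        obtain ⟨-, s2, s3⟩ := hSp g hg w K e e' hw hwK a n ha hn (iPq0 h0)
        rw [gval hFc hg hz hwK hd.dz, gval hFc hg hm' hwK hd.dm', s2, s3, map_mul, map_pow]
        have h5 := mul_conj_one (hFc g hg w K n hn hwK).2.1
        calc gP g w K n * gT g K (k * a + 2 * (κ * n)) *
              (conj (gP g w K n) ^ 2 * conj (gT g K (tZ κ k a n))) =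
            (gP g w K n * conj (gP g w K n)) *
              (conj (gP g w K n) *
                (gT g K (k * a + 2 * (κ * n)) * conj (gT g K (tZ κ k a n)))) := by ring
          _ = _ := by rw [h5, one_mul])
    have e1 : f (tY κ k a n) * conj (f (tZ κ k a n)) -
        g k * (cL g K M * conj (cQ g K M) * (g a * conj (gP g w K n))) =
        (g k * g a) *
        (E t (k * a) * E t (k * a + 2 * (κ * n)) * conj (E t (tZ κ k a n)) *
            (g (k * a + 2 * (κ * n)) * conj (g (tZ κ k a n))) -
          1 * (conj (gP g w K n) * (cL g K M * conj (cQ g K M)))) := by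
      rw [ey, hd.fz, hd.fm', hd.fa, map_mul]
      ring
    rw [e1, norm_mul]
    have e2 : ‖g k * g a‖ = 1 := by
      rw [norm_mul, hg.2.2 _ hk0, hg.2.2 _ ha]
      norm_num
    rw [e2, one_mul]
    linarith
  · have g1 : g k = 1 := g_one hg hg1 k hk0 hd.cp
    have g2 : g a = 1 := g_one hg hg1 a ha hd.da
    have g3 : g (k * a + 2 * (κ * n)) = 1 := g_one hg hg1 _ hm' hd.dm'
    have g4 : g (tZ κ k a n) = 1 := g_one hg hg1 _ hz hd.dz
    have e1 : f (tY κ k a n) * conj (f (tZ κ k a n)) =
        1 + (E t (k * a) * E t (k * a + 2 * (κ * n)) * conj (E t (tZ κ k a n)) - 1) := by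
      rw [ey, hd.fz, hd.fm', hd.fa, g1, g2, g3, g4, map_mul, map_one]
      ring
    rw [e1, Complex.add_re, Complex.one_re]
    have h6 := Complex.abs_re_le_norm
      (E t (k * a) * E t (k * a + 2 * (κ * n)) * conj (E t (tZ κ k a n)) - 1)
    have h7 := neg_abs_le
      (E t (k * a) * E t (k * a + 2 * (κ * n)) * conj (E t (tZ κ k a n)) - 1).re
    linarith

end Pool.Agent.F0f91f8.HD
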