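import Pool.Agent.Work.MP_0f91f8_co.HD.I_DPX

/-!
# Half density, module D, item DPZ: pointwise approximation of `f(z) conj f(x)` (helper33)
-/

set_option autoImplicit false

namespace Pool.Agent.F0f91f8.HD

open Filter Topology ComplexConjugate
open scoped BigOperators

open IDPX in
theorem pr_DPZ (hFc : StDFc) (hMd : StDMd) (hSp : StDSp) (hAr : StDAr) (hTl : StDTl) : StDPZ := by
  intro f g t q hD w K hw hwK hq e e' M a b n hab ha hn
  have hd := dat hMd hD hwK hq e e' (n := n) hab ha
  obtain ⟨-, -, -, -, -, hc, -⟩ := hTl g hD.hg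
  set κ := w.factorial * kp w K e with hκ
  set k := kk w K e' with hk
  have hκ0 : 0 < κ := Nat.mul_pos w.factorial_pos hd.p0
  have hk0 : 0 < k := hd.k0
  have hka : 0 < k * a := Nat.mul_pos hk0 ha
  have hm : 0 < k * a + κ * n := by omega
  have hz : 0 < tZ κ k a n := tZ_pos hk0 ha
  have hf := hD.hf
  have hg := hD.hg.cm
  have hK : 1 ≤ K := by omega
  have ex : f (tX κ k a n) = f (2 * w.factorial) * f (kp w K e) * f n * f (k * a + κ * n) := by
    rw [← hf.2.1, ← hf.2.1, ← hf.2.1]
    congr 1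
    unfold tX
    rw [hκ]
    ring
  have main := two
    (E t (tZ κ k a n) * conj (E t (k * a + κ * n)))
    (E t (k * a))
    (g (tZ κ k a n) * conj (g (k * a + κ * n)))
    (gP g w K n * (cQ g K M * conj (cL g K M)))
    (norm_E t hka).le
    (by
      rw [norm_mul, norm_conj]
      exact mul_le_one₀ (norm_le hg hz) (norm_nonneg _) (norm_le hg hm))
  have h1 : ‖E t (tZ κ k a n) * conj (E t (k * a + κ * n)) - E t (k * a)‖ ≤ 10 * |t| / K +
        2 * (if K * (κ * n) > 2 * (k * a) then 1 else 0) := by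
    refine arch (by positivity) ?_ (norm_E t hka).le fun hP => ?_
    · rw [norm_mul, norm_conj, norm_E t hz, norm_E t hm]
      norm_num
    · exact (hAr t K κ k a n hK hκ0 hk0 ha hn (not_lt.1 hP)).2.1
  have h2 := gg (G1 := g (tZ κ k a n)) (G2 := g (k * a + κ * n)) (P := gP g w K n)
    (C1 := cQ g K M) (C2 := cL g K M) (T1 := gT g K (tZ κ k a n))
    (T2 := gT g K (k * a + κ * n)) (iPq01 w n)
    (norm_le hg hz) (norm_le hg hm) (hFc g hg w K n hn hwK).2.1.le
    (hFc g hg w K (tZ κ k a n) hz hwK).2.2.le (hc K M).2 (hc K M).1 (by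
      intro h0
      obtain ⟨s1, -, s3⟩ := hSp g hg w K e e' hw hwK a n ha hn (iPq0 h0)
      rw [gval hFc hg hz hwK hd.dz, gval hFc hg hm hwK hd.dm, s1, s3, map_mul]
      have h5 := mul_conj_one (hFc g hg w K n hn hwK).2.1
      calc gP g w K n ^ 2 * gT g K (tZ κ k a n) *
            (conj (gP g w K n) * conj (gT g K (k * a + κ * n))) =
          (gP g w K n * conj (gP g w K n)) *
            (gP g w K n * (gT g K (tZ κ k a n) * conj (gT g K (k * a + κ * n)))) := by ring
        _ = _ := by rw [h5, one_mul])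
  have e1 : f (tZ κ k a n) * conj (f (tX κ k a n)) -
      conj (f (kp w K e)) * (conj (f (2 * w.factorial)) * (cQ g K M * conj (cL g K M)) *
        (conj (f n) * ((k * a : ℕ) : ℂ) ^ (t * Complex.I) * gP g w K n)) =
      (conj (f (2 * w.factorial)) * conj (f (kp w K e)) * conj (f n)) *
      (E t (tZ κ k a n) * conj (E t (k * a + κ * n)) *
          (g (tZ κ k a n) * conj (g (k * a + κ * n))) -
        E t (k * a) * (gP g w K n * (cQ g K M * conj (cL g K M)))) := by
    rw [ex, hd.fz, hd.fm, map_mul, map_mul, map_mul, map_mul]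
    unfold E
    ring
  rw [e1, norm_mul]
  have e2 : ‖conj (f (2 * w.factorial)) * conj (f (kp w K e)) * conj (f n)‖ = 1 := by
    rw [norm_mul, norm_mul, norm_conj, norm_conj, norm_conj,
      hf.2.2 _ (Nat.mul_pos two_pos w.factorial_pos), hf.2.2 _ hd.p0, hf.2.2 _ hn]
    norm_num
  rw [e2, one_mul]
  linarith

end Pool.Agent.F0f91f8.HD
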