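import Pool.Agent.Work.MP_0f91f8_co.HD.StmtsD

/-!
# Half density, module D, item DPd: products
-/

set_option autoImplicit false

namespace Pool.Agent.F0f91f8.HD

open Filter Topology ComplexConjugate
open scoped BigOperators

theorem pr_DPd : StDPd := by
  intro Q D a₀ M F G
  unfold Bx EA EN
  have h : (∑ u ∈ Finset.Icc 1 M, ∑ u' ∈ Finset.Icc 1 M, ∑ v ∈ Finset.Icc 1 (D * M),
      ∑ v' ∈ Finset.Icc 1 (D * M), F (Q * (v + v') + a₀) * G (u + u')) =
      (∑ v ∈ Finset.Icc 1 (D * M), ∑ v' ∈ Finset.Icc 1 (D * M), F (Q * (v + v') + a₀)) *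
        ∑ u ∈ Finset.Icc 1 M, ∑ u' ∈ Finset.Icc 1 M, G (u + u') := by
    simp only [← Finset.sum_mul, ← Finset.mul_sum]
  rw [h, div_mul_div_comm, mul_comm ((M : ℂ) ^ 2)]

end Pool.Agent.F0f91f8.HD
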