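import Pool.Agent.Work.MP_0f91f8_co.HD.StmtsD

/-!
# Half density, module D, item DPe: the part of `g` in `(w, K]` has the same mean on all classes
-/

set_option autoImplicit false

namespace Pool.Agent.F0f91f8.HD

open Filter Topology ComplexConjugate
open scoped BigOperators

namespace IDPe

/-- the primes in `(w, K]` -/
def PP (w K : ℕ) : Finset ℕ := (Finset.range (K + 1)).filter fun p => p.Prime ∧ w < p

theorem mem_PP {w K p : ℕ} : p ∈ PP w K ↔ p ≤ K ∧ p.Prime ∧ w < p := by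
  unfold PP
  rw [Finset.mem_filter, Finset.mem_range]
  constructor
  · rintro ⟨h1, h2⟩
    exact ⟨by omega, h2⟩
  · rintro ⟨h1, h2⟩
    exact ⟨by omega, h2⟩

theorem gP_eq (g : ℕ → ℂ) (w K n : ℕ) : gP g w K n = ∏ p ∈ PP w K, g p ^ n.factorization p := by
  unfold gP
  apply Finset.prod_subset
  · intro p hp
    rw [Finset.mem_filter] at hp
    rw [mem_PP]
    exact ⟨hp.2.2, Nat.prime_of_mem_primeFactors hp.1, hp.2.1⟩
  · intro p hp hp'
    rw [mem_PP] at hp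
    rw [Finset.mem_filter] at hp'
    have h1 : p ∉ n.primeFactors := fun h => hp' ⟨h, hp.2.2, hp.1⟩
    rw [← Nat.support_factorization, Finsupp.notMem_support_iff] at h1
    rw [h1, pow_zero]

/-- the number of `j` with `1 ≤ j ≤ J`, `p^j ∣ x` -/
def ex (J p x : ℕ) : ℕ := ((Finset.Icc 1 J).filter fun j => p ^ j ∣ x).card

/-- the truncated part -/
noncomputable def HH (g : ℕ → ℂ) (w K J x : ℕ) : ℂ := ∏ p ∈ PP w K, g p ^ ex J p x

/-- the modulus -/
def NN (w K J : ℕ) : ℕ := ∏ p ∈ PP w K, p ^ J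

theorem NN_pos (w K J : ℕ) : 0 < NN w K J :=
  Finset.prod_pos fun _ hp => pow_pos (mem_PP.1 hp).2.1.pos _

theorem HH_congr (g : ℕ → ℂ) (w K J : ℕ) {x y : ℕ} (h : x ≡ y [MOD NN w K J]) :
    HH g w K J x = HH g w K J y := by
  unfold HH
  refine Finset.prod_congr rfl fun p hp => ?_
  congr 1
  unfold ex
  congr 1
  refine Finset.filter_congr fun j hj => ?_
  refine Nat.ModEq.dvd_iff h ?_
  refine dvd_trans (pow_dvd_pow p (Finset.mem_Icc.1 hj).2) ?_
  exact Finset.dvd_prod_of_mem (fun p => p ^ J) hp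

theorem ex_eq {J p x : ℕ} (hp : p.Prime) (hx : x ≠ 0) (h : ¬ p ^ J ∣ x) :
    ex J p x = x.factorization p := by
  unfold ex
  have h1 : x.factorization p < J := by
    by_contra hcon
    exact h ((hp.pow_dvd_iff_le_factorization hx).2 (not_lt.1 hcon))
  have h2 : (Finset.Icc 1 J).filter (fun j => p ^ j ∣ x) = Finset.Icc 1 (x.factorization p) := by
    ext j
    rw [Finset.mem_filter, Finset.mem_Icc, Finset.mem_Icc, hp.pow_dvd_iff_le_factorization hx]
    omega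
  rw [h2, Nat.card_Icc]
  omega

theorem norm_prod_pow {g : ℕ → ℂ} (hg : CM g) (w K : ℕ) (e : ℕ → ℕ) :
    ‖∏ p ∈ PP w K, g p ^ e p‖ = 1 := by
  rw [norm_prod]
  refine Finset.prod_eq_one fun p hp => ?_
  rw [norm_pow, hg.2.2 p (mem_PP.1 hp).2.1.pos, one_pow]

theorem diff_le {g : ℕ → ℂ} (hg : CM g) (w K J : ℕ) {x : ℕ} (hx : x ≠ 0) :
    ‖gP g w K x - HH g w K J x‖ ≤ ∑ p ∈ PP w K, (if p ^ J ∣ x then 2 else 0 : ℝ) := by
  by_cases h : ∃ p ∈ PP w K, p ^ J ∣ x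
  · obtain ⟨p, hp, hpx⟩ := h
    have h1 : ‖gP g w K x - HH g w K J x‖ ≤ 2 := by
      refine (norm_sub_le _ _).trans ?_
      rw [gP_eq, HH, norm_prod_pow hg, norm_prod_pow hg]
      norm_num
    refine h1.trans ?_
    have h2 := Finset.single_le_sum (f := fun p => (if p ^ J ∣ x then 2 else 0 : ℝ))
      (fun q _ => by split_ifs <;> norm_num) hp
    rwa [if_pos hpx] at h2
  · push Not at h
    have h1 : gP g w K x = HH g w K J x := by
      rw [gP_eq, HH]
      exact Finset.prod_congr rfl fun p hp => by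
        rw [ex_eq (mem_PP.1 hp).2.1 hx (h p hp)]
    rw [h1, sub_self, norm_zero]
    exact Finset.sum_nonneg fun q _ => by split_ifs <;> norm_num

/-- counting in one residue class -/
theorem count_le {Q m : ℕ} (hQ : Nat.Coprime m Q) (T c : ℕ) :
    ((Finset.Icc 1 T).filter fun v => m ∣ Q * v + c).card ≤ T / m + 1 := by
  rw [← Finset.card_range (T / m + 1)]
  refine Finset.card_le_card_of_injOn (fun v => v / m) ?_ ?_
  · intro v hv
    rw [Finset.mem_coe, Finset.mem_filter, Finset.mem_Icc] at hv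
    rw [Finset.mem_coe, Finset.mem_range]
    exact Nat.lt_succ_of_le (Nat.div_le_div_right hv.1.2)
  · intro v hv v' hv' h
    rw [Finset.mem_coe, Finset.mem_filter, Finset.mem_Icc] at hv hv'
    dsimp only at h
    have h1 : Q * v + c ≡ Q * v' + c [MOD m] :=
      ((Nat.modEq_zero_iff_dvd.2 hv.2).trans (Nat.modEq_zero_iff_dvd.2 hv'.2).symm)
    have h2 : Q * v ≡ Q * v' [MOD m] := Nat.ModEq.add_right_cancel' c h1
    have h3 : v ≡ v' [MOD m] := Nat.ModEq.cancel_left_of_coprime hQ h2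
    have h4 := Nat.div_add_mod v m
    have h5 := Nat.div_add_mod v' m
    rw [h] at h4
    have h6 : v % m = v' % m := h3
    rw [h6] at h4
    omega

/-- shifting a sum -/
theorem shift_le (F : ℕ → ℂ) (hF : ∀ n, ‖F n‖ ≤ 1) (T s : ℕ) :
    ‖∑ v ∈ Finset.Icc 1 T, F (v + s) - ∑ v ∈ Finset.Icc 1 T, F v‖ ≤ 2 * s := by
  induction s with
  | zero => simp
  | succ s ih =>
    have h1 : ∀ (G : ℕ → ℂ) (T : ℕ), ∑ v ∈ Finset.Icc 1 T, G (v + 1) - ∑ v ∈ Finset.Icc 1 T, G v =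
        G (T + 1) - G 1 := by
      intro G T
      induction T with
      | zero => simp
      | succ T ihT =>
        rw [Finset.sum_Icc_succ_top (by omega), Finset.sum_Icc_succ_top (by omega)]
        linear_combination ihT
    have h2 := h1 (fun v => F (v + s)) T
    have h3 : ∑ v ∈ Finset.Icc 1 T, F (v + (s + 1)) - ∑ v ∈ Finset.Icc 1 T, F v =
        (F (T + 1 + s) - F (1 + s)) +
          (∑ v ∈ Finset.Icc 1 T, F (v + s) - ∑ v ∈ Finset.Icc 1 T, F v) := by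
      rw [← h2]
      have h4 : ∀ v, v + (s + 1) = v + 1 + s := fun v => by ring
      simp_rw [h4]
      ring
    rw [h3]
    refine (norm_add_le _ _).trans ?_
    have h5 : ‖F (T + 1 + s) - F (1 + s)‖ ≤ 2 := by
      refine (norm_sub_le _ _).trans ?_
      linarith [hF (T + 1 + s), hF (1 + s)]
    push_cast
    linarith

theorem trunc_le {g : ℕ → ℂ} (hg : CM g) {w K Q : ℕ} (hQ : 0 < Q)
    (hQw : ∀ p : ℕ, p.Prime → p ∣ Q → p ≤ w) (J T a : ℕ) :
    ‖∑ v ∈ Finset.Icc 1 T, ∑ v' ∈ Finset.Icc 1 T, gP g w K (Q * (v + v') + a) -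
      ∑ v ∈ Finset.Icc 1 T, ∑ v' ∈ Finset.Icc 1 T, HH g w K J (Q * (v + v') + a)‖ ≤
      2 * ((K : ℝ) + 1) * (T * (T / 2 ^ J + 1)) := by
  rw [← Finset.sum_sub_distrib]
  have h1 : ∀ v ∈ Finset.Icc 1 T, ‖∑ v' ∈ Finset.Icc 1 T, gP g w K (Q * (v + v') + a) -
      ∑ v' ∈ Finset.Icc 1 T, HH g w K J (Q * (v + v') + a)‖ ≤
      2 * ((K : ℝ) + 1) * (T / 2 ^ J + 1) := by
    intro v hv
    rw [← Finset.sum_sub_distrib]
    refine (norm_sum_le _ _).trans ?_
    have h2 : ∀ v' ∈ Finset.Icc 1 T, ‖gP g w K (Q * (v + v') + a) -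
        HH g w K J (Q * (v + v') + a)‖ ≤
        ∑ p ∈ PP w K, (if p ^ J ∣ Q * v' + (Q * v + a) then 2 else 0 : ℝ) := by
      intro v' hv'
      have h3 : Q * (v + v') + a ≠ 0 := by
        have : 0 < Q * (v + v') := Nat.mul_pos hQ (by
          rw [Finset.mem_Icc] at hv
          omega)
        omega
      have h4 := diff_le hg w K J h3
      have h5 : Q * (v + v') + a = Q * v' + (Q * v + a) := by ring
      rwa [h5] at h4 ⊢
    refine (Finset.sum_le_sum h2).trans ?_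
    rw [Finset.sum_comm]
    have h6 : ∀ p ∈ PP w K, ∑ v' ∈ Finset.Icc 1 T,
        (if p ^ J ∣ Q * v' + (Q * v + a) then 2 else 0 : ℝ) ≤ 2 * ((T : ℝ) / 2 ^ J + 1) := by
      intro p hp
      obtain ⟨hpK, hpp, hpw⟩ := mem_PP.1 hp
      have hcop : Nat.Coprime (p ^ J) Q := by
        refine Nat.Coprime.pow_left J ?_
        rw [Nat.Prime.coprime_iff_not_dvd hpp]
        intro hd
        have := hQw p hpp hd
        omega
      have h7 := count_le hcop T (Q * v + a)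
      rw [← Finset.sum_filter, Finset.sum_const, nsmul_eq_mul, mul_comm]
      apply mul_le_mul_of_nonneg_left _ (by norm_num)
      have h8 : (((Finset.Icc 1 T).filter fun v' => p ^ J ∣ Q * v' + (Q * v + a)).card : ℝ) ≤
          ((T / p ^ J + 1 : ℕ) : ℝ) := by exact_mod_cast h7
      refine h8.trans ?_
      push_cast
      have h9 : ((T / p ^ J : ℕ) : ℝ) ≤ (T : ℝ) / ((p ^ J : ℕ) : ℝ) := Nat.cast_div_le
      have h10 : (T : ℝ) / ((p ^ J : ℕ) : ℝ) ≤ (T : ℝ) / 2 ^ J := by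
        apply div_le_div_of_nonneg_left (by positivity) (by positivity)
        push_cast
        exact pow_le_pow_left₀ (by norm_num) (by exact_mod_cast hpp.two_le) J
      linarith
    refine (Finset.sum_le_sum h6).trans ?_
    rw [Finset.sum_const, nsmul_eq_mul]
    have h11 : ((PP w K).card : ℝ) ≤ (K : ℝ) + 1 := by
      have : (PP w K).card ≤ K + 1 := by
        unfold PP
        exact (Finset.card_filter_le _ _).trans (by rw [Finset.card_range])
      exact_mod_cast this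
    have h12 : (0 : ℝ) ≤ 2 * ((T : ℝ) / 2 ^ J + 1) := by positivity
    nlinarith [mul_le_mul_of_nonneg_right h11 h12]
  refine (norm_sum_le _ _).trans ((Finset.sum_le_sum h1).trans ?_)
  rw [Finset.sum_const, Nat.card_Icc, nsmul_eq_mul]
  apply le_of_eq
  rw [Nat.add_sub_cancel]
  ring

theorem per_le {g : ℕ → ℂ} (hg : CM g) {w K Q : ℕ}
    (hQw : ∀ p : ℕ, p.Prime → p ∣ Q → p ≤ w) (J T a₀ a₁ : ℕ) :
    ‖∑ v ∈ Finset.Icc 1 T, ∑ v' ∈ Finset.Icc 1 T, HH g w K J (Q * (v + v') + a₁) -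
      ∑ v ∈ Finset.Icc 1 T, ∑ v' ∈ Finset.Icc 1 T, HH g w K J (Q * (v + v') + a₀)‖ ≤
      T * (2 * NN w K J) := by
  have hN := NN_pos w K J
  have : NeZero (NN w K J) := ⟨hN.ne'⟩
  have hcop : Nat.Coprime Q (NN w K J) := by
    unfold NN
    refine Nat.Coprime.prod_right fun p hp => ?_
    obtain ⟨hpK, hpp, hpw⟩ := mem_PP.1 hp
    refine Nat.Coprime.pow_right J ?_
    rw [Nat.coprime_comm, Nat.Prime.coprime_iff_not_dvd hpp]
    intro hd
    have := hQw p hpp hd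
    omega
  set u : ZMod (NN w K J) := (Q : ZMod (NN w K J))⁻¹ * ((a₁ : ZMod (NN w K J)) - a₀) with hu
  set s : ℕ := u.val with hs
  have hsN : s < NN w K J := ZMod.val_lt u
  have hsu : ((s : ℕ) : ZMod (NN w K J)) = u := ZMod.natCast_zmod_val u
  have hQu : (Q : ZMod (NN w K J)) * u = (a₁ : ZMod (NN w K J)) - a₀ := by
    rw [hu, ← mul_assoc, ZMod.coe_mul_inv_eq_one Q hcop, one_mul]
  have hcong : ∀ v v' : ℕ, Q * (v + s + v') + a₀ ≡ Q * (v + v') + a₁ [MOD NN w K J] := by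
    intro v v'
    rw [← ZMod.natCast_eq_natCast_iff]
    push_cast
    rw [hsu]
    linear_combination hQu
  rw [Finset.sum_comm (f := fun v v' => HH g w K J (Q * (v + v') + a₁)),
    Finset.sum_comm (f := fun v v' => HH g w K J (Q * (v + v') + a₀)), ← Finset.sum_sub_distrib]
  refine (norm_sum_le _ _).trans ?_
  have h1 : ∀ v' ∈ Finset.Icc 1 T, ‖∑ v ∈ Finset.Icc 1 T, HH g w K J (Q * (v + v') + a₁) -
      ∑ v ∈ Finset.Icc 1 T, HH g w K J (Q * (v + v') + a₀)‖ ≤ 2 * (NN w K J : ℝ) := by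
    intro v' _
    have h2 := shift_le (fun v => HH g w K J (Q * (v + v') + a₀))
      (fun v => by rw [HH, norm_prod_pow hg]) T s
    have h3 : ∑ v ∈ Finset.Icc 1 T, HH g w K J (Q * (v + s + v') + a₀) =
        ∑ v ∈ Finset.Icc 1 T, HH g w K J (Q * (v + v') + a₁) :=
      Finset.sum_congr rfl fun v _ => HH_congr g w K J (hcong v v')
    rw [h3] at h2
    refine h2.trans ?_
    have h4 : (s : ℝ) ≤ NN w K J := by exact_mod_cast hsN.le
    linarith
  refine (Finset.sum_le_sum h1).trans ?_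
  rw [Finset.sum_const, Nat.card_Icc, nsmul_eq_mul, Nat.add_sub_cancel]

end IDPe

open IDPe in
theorem pr_DPe : StDPe := by
  intro g hg w K Q D hQ hD hQw η hη
  obtain ⟨J, hJ⟩ : ∃ J : ℕ, 16 * ((K : ℝ) + 1) / η ≤ 2 ^ J := by
    obtain ⟨J, hJ⟩ := pow_unbounded_of_one_lt (16 * ((K : ℝ) + 1) / η) (one_lt_two)
    exact ⟨J, hJ.le⟩
  obtain ⟨M0, hM0⟩ := exists_nat_ge
    (16 * ((K : ℝ) + 1) / η + 4 * (NN w K J : ℝ) / η + 1)
  refine ⟨M0, ?_⟩
  intro M hM a₀ _ a₁ _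
  set T : ℕ := D * M with hT
  have hMr : (M0 : ℝ) ≤ M := by exact_mod_cast hM
  have hMT : (M : ℝ) ≤ T := by
    rw [hT]
    exact_mod_cast Nat.le_mul_of_pos_left M hD
  have h16 : 0 < 16 * ((K : ℝ) + 1) / η := by positivity
  have hNr : 0 ≤ 4 * (NN w K J : ℝ) / η := by positivity
  have hT1 : 16 * ((K : ℝ) + 1) / η ≤ T := by linarith
  have hT2 : 4 * (NN w K J : ℝ) / η ≤ T := by linarith
  have hTpos : (0 : ℝ) < T := by linarith
  have hT1' : 16 * ((K : ℝ) + 1) ≤ T * η := by rwa [div_le_iff₀ hη] at hT1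
  have hT2' : 4 * (NN w K J : ℝ) ≤ T * η := by rwa [div_le_iff₀ hη] at hT2
  have hJ' : 16 * ((K : ℝ) + 1) ≤ 2 ^ J * η := by rwa [div_le_iff₀ hη] at hJ
  unfold EA
  rw [← hT, ← sub_div, norm_div, norm_pow]
  have hTn : ‖((T : ℕ) : ℂ)‖ = T := by simp
  rw [hTn, div_le_iff₀ (by positivity)]
  have hA := trunc_le hg (K := K) hQ hQw J T a₀
  have hB := trunc_le hg (K := K) hQ hQw J T a₁
  have hC := per_le hg (K := K) hQw J T a₁ a₀
  set S0 := ∑ v ∈ Finset.Icc 1 T, ∑ v' ∈ Finset.Icc 1 T, gP g w K (Q * (v + v') + a₀) with hS0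
  set S1 := ∑ v ∈ Finset.Icc 1 T, ∑ v' ∈ Finset.Icc 1 T, gP g w K (Q * (v + v') + a₁) with hS1
  set R0 := ∑ v ∈ Finset.Icc 1 T, ∑ v' ∈ Finset.Icc 1 T, HH g w K J (Q * (v + v') + a₀) with hR0
  set R1 := ∑ v ∈ Finset.Icc 1 T, ∑ v' ∈ Finset.Icc 1 T, HH g w K J (Q * (v + v') + a₁) with hR1
  have h1 : ‖S0 - S1‖ ≤ ‖S0 - R0‖ + ‖R0 - R1‖ + ‖S1 - R1‖ := by
    have : S0 - S1 = (S0 - R0) + (R0 - R1) - (S1 - R1) := by ring
    rw [this]
    refine (norm_sub_le _ _).trans ?_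
    have := norm_add_le (S0 - R0) (R0 - R1)
    linarith
  have h2 : 2 * ((K : ℝ) + 1) * (T * (T / 2 ^ J + 1)) ≤ η * T ^ 2 / 4 := by
    have h3 : 2 * ((K : ℝ) + 1) * (T * (T / 2 ^ J)) ≤ η * T ^ 2 / 8 := by
      have h4 : (0 : ℝ) < 2 ^ J := by positivity
      have h5 : 2 * ((K : ℝ) + 1) * (T * (T / 2 ^ J)) = 2 * ((K : ℝ) + 1) * T ^ 2 / 2 ^ J := by
        ring
      rw [h5, div_le_iff₀ h4]
      have h6 : 0 ≤ (T : ℝ) ^ 2 := by positivity
      nlinarith [mul_le_mul_of_nonneg_left hJ' h6]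
    have h7 : 2 * ((K : ℝ) + 1) * (T * 1) ≤ η * T ^ 2 / 8 := by
      nlinarith [mul_le_mul_of_nonneg_left hT1' hTpos.le]
    have h8 : 2 * ((K : ℝ) + 1) * (T * (T / 2 ^ J + 1)) =
        2 * ((K : ℝ) + 1) * (T * (T / 2 ^ J)) + 2 * ((K : ℝ) + 1) * (T * 1) := by ring
    rw [h8]
    linarith
  have h9 : (T : ℝ) * (2 * NN w K J) ≤ η * T ^ 2 / 2 := by
    nlinarith [mul_le_mul_of_nonneg_left hT2' hTpos.le]
  linarith

end Pool.Agent.F0f91f8.HD
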