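import Pool.Agent.Work.MP_0f91f8_co.HD.StmtsD

/-!
# [0f91f8 HD-D DPq]: squares of large primes are rare divisors
-/

set_option autoImplicit false

namespace Pool.Agent.F0f91f8.HD

open Filter Topology ComplexConjugate
open scoped BigOperators

namespace IDPq

lemma cnt (m c M : ℕ) (hm : 0 < m) :
    (((Finset.Icc 1 M).filter (fun u => m ∣ u + c)).card : ℝ) ≤ (M : ℝ) / m + 1 := by
  classical
  have h1 : ((Finset.Icc 1 M).filter (fun u => m ∣ u + c)).card ≤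
      ((Finset.Ioc c (M + c)).filter (fun x => m ∣ x)).card := by
    refine Finset.card_le_card_of_injOn (fun u => u + c) ?_ ?_
    · intro u hu
      have hu' := Finset.mem_filter.1 (Finset.mem_coe.1 hu)
      have h2 := Finset.mem_Icc.1 hu'.1
      refine Finset.mem_coe.2 (Finset.mem_filter.2 ⟨Finset.mem_Ioc.2 ⟨?_, ?_⟩, hu'.2⟩)
      · show c < u + c
        omega
      · show u + c ≤ M + c
        omega
    · intro u _ v _ h
      exact Nat.add_right_cancel h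
  have h2 : ((Finset.Ioc 0 c).filter (fun x => m ∣ x)).card +
      ((Finset.Ioc c (M + c)).filter (fun x => m ∣ x)).card =
      ((Finset.Ioc 0 (M + c)).filter (fun x => m ∣ x)).card := by
    rw [← Finset.card_union_of_disjoint, ← Finset.filter_union,
      Finset.Ioc_union_Ioc_eq_Ioc (Nat.zero_le c) (by omega)]
    apply Finset.disjoint_filter_filter
    rw [Finset.disjoint_left]
    intro x hx hy
    rw [Finset.mem_Ioc] at hx hy
    omega
  rw [Nat.Ioc_filter_dvd_card_eq_div, Nat.Ioc_filter_dvd_card_eq_div] at h2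
  have hmr : (0 : ℝ) < m := by exact_mod_cast hm
  have h3 : (((M + c) / m : ℕ) : ℝ) ≤ ((M + c : ℕ) : ℝ) / m := Nat.cast_div_le
  have h4 : (c : ℝ) / m < ((c / m : ℕ) : ℝ) + 1 := by
    rw [div_lt_iff₀ hmr]
    have : c < (c / m + 1) * m := by
      have := Nat.lt_div_mul_add (a := c) hm
      rw [add_mul, one_mul]; exact this
    exact_mod_cast this
  have h5 : (((c / m : ℕ) : ℝ)) + (((Finset.Ioc c (M + c)).filter (fun x => m ∣ x)).card : ℝ) =
      (((M + c) / m : ℕ) : ℝ) := by exact_mod_cast h2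
  have h6 : (((Finset.Icc 1 M).filter (fun u => m ∣ u + c)).card : ℝ) ≤
      (((Finset.Ioc c (M + c)).filter (fun x => m ∣ x)).card : ℝ) := by exact_mod_cast h1
  have h7 : ((M + c : ℕ) : ℝ) / m = (M : ℝ) / m + (c : ℝ) / m := by push_cast; ring
  linarith

lemma ind_le (w M n : ℕ) (hn0 : 0 < n) (hn : n ≤ 2 * M) :
    iPq w n ≤ ∑ p ∈ Finset.Ioc w (Nat.sqrt (2 * M)), if p ^ 2 ∣ n then (1 : ℝ) else 0 := by
  classical
  have h0 : ∀ p ∈ Finset.Ioc w (Nat.sqrt (2 * M)), (0 : ℝ) ≤ if p ^ 2 ∣ n then (1 : ℝ) else 0 := by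
    intro p _
    split_ifs <;> norm_num
  unfold iPq
  split_ifs with h
  · obtain ⟨p, hp, hw, hd⟩ := h
    have hps : p ≤ Nat.sqrt (2 * M) := by
      rw [Nat.le_sqrt']
      exact (Nat.le_of_dvd hn0 hd).trans hn
    have h1 := Finset.single_le_sum h0 (Finset.mem_Ioc.2 ⟨hw, hps⟩)
    rw [if_pos hd] at h1
    exact h1
  · exact Finset.sum_nonneg h0

lemma sum_inv (w s : ℕ) (hw : 1 ≤ w) :
    ∑ p ∈ Finset.Ioc w s, ((p : ℝ) ^ 2)⁻¹ ≤ 1 / (w : ℝ) := by
  rcases Nat.lt_or_ge s w with h | h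
  · rw [Finset.Ioc_eq_empty (by omega), Finset.sum_empty]
    positivity
  · have h1 := sum_Ioc_inv_sq_le_sub (α := ℝ) (k := w) (n := s) (by omega) h
    have h2 : (0 : ℝ) ≤ (s : ℝ)⁻¹ := by positivity
    rw [one_div]
    linarith

lemma dbl (w M : ℕ) (hw : 1 ≤ w) :
    ∑ u ∈ Finset.Icc 1 M, ∑ u' ∈ Finset.Icc 1 M, iPq w (u + u') ≤
      (M : ℝ) * ((M : ℝ) * (1 / (w : ℝ)) + (Nat.sqrt (2 * M) : ℝ)) := by
  classical
  rw [Finset.sum_comm]
  have key : ∀ u' ∈ Finset.Icc 1 M, ∑ u ∈ Finset.Icc 1 M, iPq w (u + u') ≤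
      (M : ℝ) * (1 / (w : ℝ)) + (Nat.sqrt (2 * M) : ℝ) := by
    intro u' hu'
    rw [Finset.mem_Icc] at hu'
    calc ∑ u ∈ Finset.Icc 1 M, iPq w (u + u')
        ≤ ∑ u ∈ Finset.Icc 1 M, ∑ p ∈ Finset.Ioc w (Nat.sqrt (2 * M)),
          (if p ^ 2 ∣ u + u' then (1 : ℝ) else 0) := by
          apply Finset.sum_le_sum
          intro u hu
          rw [Finset.mem_Icc] at hu
          exact ind_le w M (u + u') (by omega) (by omega)
      _ = ∑ p ∈ Finset.Ioc w (Nat.sqrt (2 * M)), ∑ u ∈ Finset.Icc 1 M,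
          (if p ^ 2 ∣ u + u' then (1 : ℝ) else 0) := Finset.sum_comm
      _ ≤ ∑ p ∈ Finset.Ioc w (Nat.sqrt (2 * M)), ((M : ℝ) * ((p : ℝ) ^ 2)⁻¹ + 1) := by
          apply Finset.sum_le_sum
          intro p hp
          rw [Finset.mem_Ioc] at hp
          rw [← Finset.sum_filter, Finset.sum_const, nsmul_eq_mul, mul_one]
          have h1 := cnt (p ^ 2) u' M (by have : 0 < p := by omega
                                          positivity)
          rw [Nat.cast_pow, div_eq_mul_inv] at h1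
          exact h1
      _ = (M : ℝ) * ∑ p ∈ Finset.Ioc w (Nat.sqrt (2 * M)), ((p : ℝ) ^ 2)⁻¹ +
          ((Nat.sqrt (2 * M) - w : ℕ) : ℝ) := by
          rw [Finset.sum_add_distrib, ← Finset.mul_sum, Finset.sum_const, nsmul_eq_mul, mul_one,
            Nat.card_Ioc]
      _ ≤ (M : ℝ) * (1 / (w : ℝ)) + (Nat.sqrt (2 * M) : ℝ) := by
          have h2 : ((Nat.sqrt (2 * M) - w : ℕ) : ℝ) ≤ (Nat.sqrt (2 * M) : ℝ) := by
            exact_mod_cast Nat.sub_le _ _
          have h3 := mul_le_mul_of_nonneg_left (sum_inv w (Nat.sqrt (2 * M)) hw)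
            (Nat.cast_nonneg (α := ℝ) M)
          linarith
  refine (Finset.sum_le_sum key).trans (le_of_eq ?_)
  rw [Finset.sum_const, nsmul_eq_mul, Nat.card_Icc, Nat.add_sub_cancel]

end IDPq

open IDPq in
theorem pr_DPq : StDPq := by
  classical
  intro w hw η hη
  refine ⟨max 1 ⌈2 / η ^ 2⌉₊, ?_⟩
  intro M hM Q D a₀ hD
  have hM1 : 1 ≤ M := le_trans (le_max_left _ _) hM
  have hMη : 2 / η ^ 2 ≤ (M : ℝ) :=
    (Nat.le_ceil _).trans (by exact_mod_cast le_trans (le_max_right _ _) hM)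
  have hMr : (0 : ℝ) < M := by exact_mod_cast hM1
  have hDr : (0 : ℝ) < D := by exact_mod_cast hD
  have hs : (Nat.sqrt (2 * M) : ℝ) ≤ η * M := by
    have h1 : (Nat.sqrt (2 * M) : ℝ) ^ 2 ≤ 2 * M := by
      exact_mod_cast Nat.sqrt_le' (2 * M)
    have h2 : 2 ≤ η ^ 2 * M := by
      rw [div_le_iff₀ (by positivity)] at hMη
      linarith
    have h3 : (Nat.sqrt (2 * M) : ℝ) ^ 2 ≤ (η * M) ^ 2 := by nlinarith
    exact le_of_sq_le_sq h3 (by positivity)
  unfold BR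
  simp only [Finset.sum_const, Nat.card_Icc, Nat.add_sub_cancel, nsmul_eq_mul, ← Finset.mul_sum]
  have h4 := dbl w M hw
  have h5 : (((D * M : ℕ) : ℝ) * (((D * M : ℕ) : ℝ) *
      ∑ u ∈ Finset.Icc 1 M, ∑ u' ∈ Finset.Icc 1 M, iPq w (u + u'))) /
      ((M : ℝ) ^ 2 * ((D * M : ℕ) : ℝ) ^ 2) =
      (∑ u ∈ Finset.Icc 1 M, ∑ u' ∈ Finset.Icc 1 M, iPq w (u + u')) / (M : ℝ) ^ 2 := by
    push_cast
    field_simp
  rw [h5, div_le_iff₀ (by positivity)]
  refine h4.trans ?_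
  have h6 : (M : ℝ) * ((M : ℝ) * (1 / (w : ℝ)) + (Nat.sqrt (2 * M) : ℝ)) ≤
      (M : ℝ) * ((M : ℝ) * (1 / (w : ℝ)) + η * M) := by
    apply mul_le_mul_of_nonneg_left _ hMr.le
    linarith
  refine h6.trans (le_of_eq ?_)
  ring

end Pool.Agent.F0f91f8.HD
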