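import Pool.Agent.Work.MP_0f91f8_co.HD.StmtsD

/-!
# Half density, module D, second file: parts of `StDLin`, `StDQd`, `StDXm`, `StDZm`, `StDYm`
(captains helper7, helper83)

Item `X`: statement `StX`, file `HD/I_X.lean`, theorem `pr_X`, hypotheses named in the docstring.
Items DLin, DQd, DXm, DZm, DYm (statements in `HD/StmtsD.lean`) import this file and take the
statements below as hypotheses.
-/

set_option autoImplicit false

namespace Pool.Agent.F0f91f8.HD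

open Filter Topology ComplexConjugate
open scoped BigOperators

/-- [DCt] (EASY) counting. (i) at most `|S| (M/m + 1)` of the `u ≤ M` have `(u + c) % m ∈ S`. (ii) all elements of
`pr4 K M` lie in `[1, p]` with `p` the largest element, `p⁴ ≤ M`. (iii) `∑_(n > K) 1/n² ≤ 1/K`. (iv) a linear
congruence with invertible coefficient. (v) from (ii): `|pr4|² ≤ √M ≤ η M` for large `M`. (vi) mean of
square roots (Cauchy-Schwarz), `x ≥ 0`. -/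
def StDCt : Prop :=
  (∀ (m M c : ℕ) (S : Finset ℕ), 0 < m →
    ((((Finset.Icc 1 M).filter fun u => (u + c) % m ∈ S).card : ℝ)) ≤ S.card * ((M : ℝ) / m + 1)) ∧
  (∀ K M : ℕ, (pr4 K M).card ^ 4 ≤ M) ∧
  (∀ K M : ℕ, 1 ≤ K → ∑ p ∈ pr4 K M, 1 / (p : ℝ) ^ 2 ≤ 1 / (K : ℝ)) ∧
  (∀ m α β : ℕ, 0 < m → Nat.Coprime α m → ∃ r < m, ∀ u : ℕ, m ∣ α * u + β ↔ u % m = r) ∧
  (∀ η : ℝ, 0 < η → ∃ M0 : ℕ, ∀ M ≥ M0, ∀ K : ℕ, ((pr4 K M).card : ℝ) ^ 2 ≤ η * M) ∧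
  (∀ (M : ℕ) (x : ℕ → ℝ), (∀ u, 0 ≤ x u) →
    (∑ u ∈ Finset.Icc 1 M, x u) / (M : ℝ) ≤ Real.sqrt ((∑ u ∈ Finset.Icc 1 M, x u ^ 2) / (M : ℝ)))

/-! ## Linear forms `R = α u + β`, `1 ≤ u ≤ M`, all prime factors of `α` are `≤ K` -/

/-- [DL1] (EASY) squares: for `p ∈ pr4` the condition `p² ∣ α u + β` is one residue class modulo `p²`
(`α` invertible), at most `M/p² + 1` values of `u`; sum over `p ∈ pr4`: at most `M/K + |pr4|`, and
`|pr4| ≤ |pr4|² ≤ η M`. (hCt : StDCt) -/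
def StDL1 : Prop := ∀ K α : ℕ, 1 ≤ K → 0 < α → (∀ p : ℕ, p.Prime → p ∣ α → p ≤ K) →
  ∀ η : ℝ, 0 < η → ∃ M0 : ℕ, ∀ M ≥ M0, ∀ β : ℕ,
    (∑ u ∈ Finset.Icc 1 M, if ∃ p ∈ pr4 K M, p ^ 2 ∣ α * u + β then (1 : ℝ) else 0) / (M : ℝ) ≤
      1 / (K : ℝ) + η

/-- [DL2] (EASY) exchange the sums: `∑_(p ∈ pr4) |g p - 1|² (M/p + 1)`, divided by `M`; `|g p - 1|² ≤ 4`,
so at most `tl g K + 4 |pr4|/M`. (hCt : StDCt) (hTl : StDTl) -/
def StDL2 : Prop := ∀ g : ℕ → ℂ, G1 g → ∀ K α : ℕ, 1 ≤ K → 0 < α →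
  (∀ p : ℕ, p.Prime → p ∣ α → p ≤ K) → ∀ η : ℝ, 0 < η → ∃ M0 : ℕ, ∀ M ≥ M0, ∀ β : ℕ,
    (∑ u ∈ Finset.Icc 1 M, ∑ p ∈ (pr4 K M).filter (fun p => p ∣ α * u + β), ‖g p - 1‖ ^ 2) /
      (M : ℝ) ≤ tl g K + η

/-- [DL3] (EASY-MEDIUM) Turan-Kubilius: (i) of `StDEx` (both exponents have real part `≤ 0`) bounds the norm by
`|∑_(p ∈ pr4, p ∣ R) (g p - 1) - ∑_(p ∈ pr4) (g p - 1)/p|`; (vi) of `StDCt`, then `StDTk` with `P0 = pr4 K M`,
`S p = {r_p}` ((iv) of `StDCt`), `θ p = g p - 1`: the mean square is at most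
`2 ∑ |g p - 1|²/p + 48 |pr4|²/M ≤ 2 tl g K + η` ((v) of `StDCt`). (hTk hEx hTl hCt) -/
def StDL3 : Prop := ∀ g : ℕ → ℂ, G1 g → ∀ K α : ℕ, 1 ≤ K → 0 < α →
  (∀ p : ℕ, p.Prime → p ∣ α → p ≤ K) → ∀ η : ℝ, 0 < η → ∃ M0 : ℕ, ∀ M ≥ M0, ∀ β : ℕ,
    (∑ u ∈ Finset.Icc 1 M,
      ‖Complex.exp (∑ p ∈ (pr4 K M).filter (fun p => p ∣ α * u + β), (g p - 1)) - cL g K M‖) /
      (M : ℝ) ≤ Real.sqrt (2 * tl g K + η)

/-- [DL4] (EASY-MEDIUM) the large primes do not matter. (vi) of `StDCt` reduces to the mean of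
`∑_(p ∣ R, p > K, p⁴ > M) |1 - g p|²` (with `η²` in place of `η`). Choose `L` with
`(1 + α + C0) tl g L ≤ η²` and `M ≥ L⁴`, so all `p` in question are `> L`; they are `≤ R ≤ (α + C0) M` and do
not divide `α`. Exchange the sums: for one prime the number of `u` is `≤ M/p + 1`, divided by `M`:
`1/p + 1/M ≤ (1 + α + C0)/p`. (hCt : StDCt) (hTl : StDTl) -/
def StDL4 : Prop := ∀ g : ℕ → ℂ, G1 g → ∀ K α C0 : ℕ, 1 ≤ K → 0 < α →
  (∀ p : ℕ, p.Prime → p ∣ α → p ≤ K) → ∀ η : ℝ, 0 < η → ∃ M0 : ℕ, ∀ M ≥ M0, ∀ β ≤ C0 * M,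
    (∑ u ∈ Finset.Icc 1 M, Real.sqrt
      (∑ p ∈ (α * u + β).primeFactors.filter (fun p => K < p ∧ M < p ^ 4), ‖1 - g p‖ ^ 2)) /
      (M : ℝ) ≤ η

/-! ## The norm form `z = tZ κ k a n`, all prime factors of `κ k Q` are `≤ K`, `2 ≤ K` -/

/-- [DQ1] (EASY) squares of primes not dividing `a`: fix `u', v, v'` (so `a`); for `p ∈ pr4`, `p ∤ a` (`p` odd,
`p ∤ κ k`) the second set of `StDRt` and (i) of `StDCt` with `c = u'`, `m = p²`: at most `2 (M/p² + 1)` values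
of `u`. Sum over `p ∈ pr4`: `≤ 2 M/K + 2 |pr4|`. (hRt : StDRt) (hCt : StDCt) -/
def StDQ1 : Prop := ∀ K κ k Q D : ℕ, 2 ≤ K → 0 < κ → 0 < k → 0 < Q → 0 < D →
  (∀ p : ℕ, p.Prime → p ∣ κ * k * Q → p ≤ K) → ∀ η : ℝ, 0 < η → ∃ M0 : ℕ, ∀ M ≥ M0, ∀ a₀ ≤ Q,
    (BR Q D a₀ M fun a n => if ∃ p ∈ pr4 K M, ¬ p ∣ a ∧ p ^ 2 ∣ tZ κ k a n then 1 else 0) ≤
      2 / (K : ℝ) + η

/-- [DQ2] (EASY) fix `u', v, v'`; exchange the sums over `u` and `p`; for one prime at most `2 (M/p + 1)`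
values of `u` (first set of `StDRt`, (i) of `StDCt`); total at most `2 tl g K + 8 |pr4|/M`.
(hRt : StDRt) (hCt : StDCt) (hTl : StDTl) -/
def StDQ2 : Prop := ∀ g : ℕ → ℂ, G1 g → ∀ K κ k Q D : ℕ, 2 ≤ K → 0 < κ → 0 < k → 0 < Q → 0 < D →
  (∀ p : ℕ, p.Prime → p ∣ κ * k * Q → p ≤ K) → ∀ η : ℝ, 0 < η → ∃ M0 : ℕ, ∀ M ≥ M0, ∀ a₀ ≤ Q,
    (BR Q D a₀ M fun a n =>
      ∑ p ∈ (pr4 K M).filter (fun p => ¬ p ∣ a ∧ p ∣ tZ κ k a n), ‖g p - 1‖ ^ 2) ≤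
      2 * tl g K + η

/-- [DQ3] (EASY-MEDIUM) Turan-Kubilius for the norm form. Fix `u', v, v'` (so `a`), `P0` = the primes of
`pr4 K M` not dividing `a`; `p ∣ z ↔ (u + u') % p ∈ S p` (`StDRt`), the residues of `u` form a set of the same
cardinality `ρ = 2` (`p ≡ 1` mod `4`) or `0`. `StDTk` and (vi) of `StDCt`: the average over `u` of
`|∑_(p ∈ P0, p ∣ z) (g p - 1) - ∑_(p ∈ P0, p ≡ 1 (4)) 2 (g p - 1)/p|` is
`≤ (4 tl g K + 48 |pr4|²/M)^(1/2)`. The second sum differs from the exponent of `cQ g K M` by at most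
`∑_(p ∈ pr4, p ∣ a) 4/p`, whose average is `≤ 4/K + 4 η'` (`StDGc`). (i) of `StDEx` for both steps.
(hTk hEx hTl hCt hRt hGc hBx) -/
def StDQ3 : Prop := ∀ g : ℕ → ℂ, G1 g → ∀ K κ k Q D : ℕ, 2 ≤ K → 0 < κ → 0 < k → 0 < Q → 0 < D →
  (∀ p : ℕ, p.Prime → p ∣ κ * k * Q → p ≤ K) → ∀ η : ℝ, 0 < η → ∃ M0 : ℕ, ∀ M ≥ M0, ∀ a₀ ≤ Q,
    (BR Q D a₀ M fun a n =>
      ‖Complex.exp (∑ p ∈ (pr4 K M).filter (fun p => ¬ p ∣ a ∧ p ∣ tZ κ k a n), (g p - 1)) -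
        cQ g K M‖) ≤ Real.sqrt (4 * tl g K + η) + 4 / (K : ℝ) + η

/-- [DQ4] (EASY-MEDIUM) large primes: Cauchy-Schwarz for `BR` (`BR √x ≤ √(BR x)` for `x ≥ 0`), exchange the sums;
`C0` from `StDZp`; choose `L` with `C0 tl g L ≤ η²`, `M ≥ L⁴`, so all primes in question are `> L`; they
are at most `C0 M²` (a finite range), and `Pr(p ∣ z) ≤ C0/p`: the average is
`≤ ∑_(p > L) |1 - g p|² C0/p ≤ C0 tl g L`. (hZp : StDZp) (hTl : StDTl) (hBx : StDBx) -/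
def StDQ4 : Prop := ∀ g : ℕ → ℂ, G1 g → ∀ K κ k Q D : ℕ, 2 ≤ K → 0 < κ → 0 < k → 0 < Q → 0 < D →
  ∀ η : ℝ, 0 < η → ∃ M0 : ℕ, ∀ M ≥ M0, ∀ a₀ ≤ Q,
    (BR Q D a₀ M fun a n => Real.sqrt
      (∑ p ∈ (tZ κ k a n).primeFactors.filter (fun p => K < p ∧ M < p ^ 4), ‖1 - g p‖ ^ 2)) ≤ η

/-! ## Pointwise approximations: `a = w! b + inv0`, `κ = w! k'` -/

/-- [DPX] (EASY-MEDIUM) Write `κ = w! k'`, `k = kk w K e'`, `m = k a + κ n`, `m' = k a + 2 κ n`, `c = cL g K M`.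
`f(x) conj f(y) = f(2 w!) f(k') f(n) f(m) conj f(k a) conj f(m')` (`x = 2 w! k' n m`, `y = k a m'`), and `m, k a, m'`
are `≡ 1` modulo `q` (`StDMd`, `q ∣ w!`), so each value is `(..)^(it) g(..)`. Archimedean factors: `StDAr` if
`K κ n ≤ 2 k a`, trivial bound `2` if not. `g m conj g m' = gT m conj gT m'` if `iPq w n = 0` (`StDFc`, `StDSp`, `|gP| = 1`),
trivial bound `2` if not; replace `gT m`, `gT m'` by `c` (all moduli `≤ 1`). `g(k a) = g(k) g(a)`.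
(hFc : StDFc) (hMd : StDMd) (hSp : StDSp) (hAr : StDAr) (hTl : StDTl) -/
def StDPX : Prop := ∀ (f g : ℕ → ℂ) (t : ℝ) (q : ℕ), Dec f g t q →
  ∀ w K : ℕ, 2 ≤ w → w ≤ K → q ∣ w.factorial →
  ∀ (e : Fin (w + 1) → Fin K) (e' : Fin (K + 1) → Fin K) (M a b n : ℕ),
    a = w.factorial * b + inv0 w.factorial (kk w K e') → 0 < a → 0 < n →
    ‖f (tX (w.factorial * kp w K e) (kk w K e') a n) *
        conj (f (tY (w.factorial * kp w K e) (kk w K e') a n)) -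
      f (kp w K e) * (f (2 * w.factorial) * conj (g (kk w K e')) * (cL g K M * conj (cL g K M)) *
        (f n * conj (((kk w K e' * a : ℕ) : ℂ) ^ (t * Complex.I)) * conj (g a)))‖ ≤
      10 * |t| / K +
      2 * (if K * (w.factorial * kp w K e * n) > 2 * (kk w K e' * a) then 1 else 0) +
      2 * iPq w n +
      ‖gT g K (kk w K e' * a + w.factorial * kp w K e * n) - cL g K M‖ +
      ‖gT g K (kk w K e' * a + 2 * (w.factorial * kp w K e * n)) - cL g K M‖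

/-- [DPZ] (EASY-MEDIUM) as `StDPX`: `f(z) conj f(x) = conj (f(2 w!) f(k') f(n)) z^(it) conj (m^(it)) g(z) conj g(m)`;
`g(z) conj g(m) = gP(n)² conj (gP(n)) gT(z) conj gT(m) = gP(n) gT(z) conj gT(m)` if `iPq w n = 0`.
(hFc hMd hSp hAr hTl) -/
def StDPZ : Prop := ∀ (f g : ℕ → ℂ) (t : ℝ) (q : ℕ), Dec f g t q →
  ∀ w K : ℕ, 2 ≤ w → w ≤ K → q ∣ w.factorial →
  ∀ (e : Fin (w + 1) → Fin K) (e' : Fin (K + 1) → Fin K) (M a b n : ℕ),
    a = w.factorial * b + inv0 w.factorial (kk w K e') → 0 < a → 0 < n →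
    ‖f (tZ (w.factorial * kp w K e) (kk w K e') a n) *
        conj (f (tX (w.factorial * kp w K e) (kk w K e') a n)) -
      conj (f (kp w K e)) * (conj (f (2 * w.factorial)) * (cQ g K M * conj (cL g K M)) *
        (conj (f n) * ((kk w K e' * a : ℕ) : ℂ) ^ (t * Complex.I) * gP g w K n))‖ ≤
      10 * |t| / K +
      2 * (if K * (w.factorial * kp w K e * n) > 2 * (kk w K e' * a) then 1 else 0) +
      2 * iPq w n +
      ‖gT g K (tZ (w.factorial * kp w K e) (kk w K e') a n) - cQ g K M‖ +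
      ‖gT g K (kk w K e' * a + w.factorial * kp w K e * n) - cL g K M‖

/-- [DPY] (EASY-MEDIUM) as `StDPX`: `f(y) conj f(z) = (k a)^(it) m'^(it) conj (z^(it)) g(k) g(a) g(m') conj g(z)`, and
`g(m') conj g(z) = gP(n) conj (gP(n)²) gT(m') conj gT(z) = conj (gP(n)) gT(m') conj gT(z)` if `iPq w n = 0`. Second
clause: if `g p = 1` for the primes `p > w` then `g` is `1` on all `n ≥ 1` without prime factors `≤ w`, in
particular on `k`, `a`, `m'`, `z` (`StDMd`), so the product is the archimedean factor.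
(hFc hMd hSp hAr hTl) -/
def StDPY : Prop := ∀ (f g : ℕ → ℂ) (t : ℝ) (q : ℕ), Dec f g t q →
  ∀ w K : ℕ, 2 ≤ w → w ≤ K → q ∣ w.factorial →
  ∀ (e : Fin (w + 1) → Fin K) (e' : Fin (K + 1) → Fin K) (M a b n : ℕ),
    a = w.factorial * b + inv0 w.factorial (kk w K e') → 0 < a → 0 < n →
    ‖f (tY (w.factorial * kp w K e) (kk w K e') a n) *
        conj (f (tZ (w.factorial * kp w K e) (kk w K e') a n)) -
      g (kk w K e') * (cL g K M * conj (cQ g K M) * (g a * conj (gP g w K n)))‖ ≤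
      10 * |t| / K +
      2 * (if K * (w.factorial * kp w K e * n) > 2 * (kk w K e' * a) then 1 else 0) +
      2 * iPq w n +
      ‖gT g K (kk w K e' * a + 2 * (w.factorial * kp w K e * n)) - cL g K M‖ +
      ‖gT g K (tZ (w.factorial * kp w K e) (kk w K e') a n) - cQ g K M‖ ∧
    ((∀ p : ℕ, p.Prime → w < p → g p = 1) →
      1 - 10 * |t| / K -
        2 * (if K * (w.factorial * kp w K e * n) > 2 * (kk w K e' * a) then 1 else 0) ≤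
      (f (tY (w.factorial * kp w K e) (kk w K e') a n) *
        conj (f (tZ (w.factorial * kp w K e) (kk w K e') a n))).re)

/-! ## The items whose statements are in `HD/StmtsD.lean`

[DLin] (EASY-MEDIUM, now) `StDLin` from `StDLs` (with `R = α u + β ≤ M³` for large `M`), averaged over `u`, and
`StDL1`, `StDL2`, `StDL3`, `StDL4`: the total is `≤ 2 (1/K + η) + (tl + η) + 12 η + √(2 tl + η)`; with `tl, 1/K ≤ er²`:
if `er ≤ 1` then `er² ≤ er`, and if `er > 1` use that all values are `≤ 2`. (hLs hTl hL1 hL2 hL3 hL4)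

[DQd] (EASY-MEDIUM, now) `StDQd`: pointwise, `|gT z - cQ| ≤ 2 iGc K a n + 2 [∃ p ∈ pr4, p ∤ a, p² ∣ z]
+ ∑_(p ∈ pr4, p ∤ a, p ∣ z) |g p - 1|² + 12 (large primes) + |exp (∑_(p ∈ pr4, p ∤ a, p ∣ z)) - cQ|` by `StDLs`
(`z ≤ C0 M² ≤ M³`, `StDZp`): if `iGc K a n = 0` then no prime `p > K` divides both `z` and `a`
(`p ∣ a` and `p ∣ z` give `p ∣ 2 (κ n)²`, so `p ∣ n`). Then `StDGc`, `StDQ1`, `StDQ2`, `StDQ4`, `StDQ3`.
(hLs hTl hZp hGc hQ1 hQ2 hQ3 hQ4 hBx; also hEx for `|exp| ≤ 1`)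

[DXm] (EASY-MEDIUM, now) `StDXm`: `CX - f(k') UX` is the `BF` average of the difference in `StDPX`
(`b = v + v'`; linearity, `StDBx`), so it is at most `10 |t|/K + 2 · (1/K) (StDSz) + 2 (1/w + η) (StDPq)`
`+ 2 (C er g K + η) (StDLm)`. (hPX hBx hSz hPq hLm hMd); there are finitely many `e`, `e'`, so a
common `M0` exists. [DZm], [DYm] in the same way with `StDPZ`, `StDPY`, `StDQd`.
-/

end Pool.Agent.F0f91f8.HD
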