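import Pool.Agent.Work.MP_0f91f8_co.HD.StmtsD2

/-!
# Item DQd of the block HD, module D (helper32): concentration on the norm form
-/

set_option autoImplicit false

namespace Pool.Agent.F0f91f8.HD

open Filter Topology ComplexConjugate
open scoped BigOperators

namespace IDQd

/-- monotonicity of `BR` on the values which really occur -/
theorem BR_mono (Q D a₀ M : ℕ) (F G : ℕ → ℕ → ℝ)
    (h : ∀ u ∈ Finset.Icc 1 M, ∀ u' ∈ Finset.Icc 1 M, ∀ v ∈ Finset.Icc 1 (D * M),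
      ∀ v' ∈ Finset.Icc 1 (D * M),
      F (Q * (v + v') + a₀) (u + u') ≤ G (Q * (v + v') + a₀) (u + u')) :
    BR Q D a₀ M F ≤ BR Q D a₀ M G := by
  unfold BR
  apply div_le_div_of_nonneg_right _ (by positivity)
  exact Finset.sum_le_sum fun u hu => Finset.sum_le_sum fun u' hu' =>
    Finset.sum_le_sum fun v hv => Finset.sum_le_sum fun v' hv' => h u hu u' hu' v hv v' hv'

/-- linearity of `BR` in the shape which is used -/
theorem BR_lin (hBx : StDBx) (Q D a₀ M : ℕ)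
    (F₁ F₂ F₃ F₄ F₅ : ℕ → ℕ → ℝ) :
    (BR Q D a₀ M fun a n => 2 * F₁ a n + 2 * F₂ a n + F₃ a n + 12 * F₄ a n + F₅ a n) =
      2 * BR Q D a₀ M F₁ + 2 * BR Q D a₀ M F₂ + BR Q D a₀ M F₃ + 12 * BR Q D a₀ M F₄ +
        BR Q D a₀ M F₅ := by
  obtain ⟨-, -, -, -, hadd, hmul, -⟩ := hBx Q D a₀ M
  have e1 := hadd (fun a n => 2 * F₁ a n + 2 * F₂ a n + F₃ a n + 12 * F₄ a n) F₅
  have e2 := hadd (fun a n => 2 * F₁ a n + 2 * F₂ a n + F₃ a n) (fun a n => 12 * F₄ a n)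
  have e3 := hadd (fun a n => 2 * F₁ a n + 2 * F₂ a n) F₃
  have e4 := hadd (fun a n => 2 * F₁ a n) (fun a n => 2 * F₂ a n)
  have m1 := hmul 2 F₁
  have m2 := hmul 2 F₂
  have m4 := hmul 12 F₄
  linarith

theorem norm_gT (g : ℕ → ℂ) (hg : CM g) (K n : ℕ) : ‖gT g K n‖ = 1 := by
  unfold gT
  rw [norm_prod]
  apply Finset.prod_eq_one
  intro p hp
  rw [norm_pow, hg.2.2 p (Nat.pos_of_mem_primeFactors (Finset.mem_filter.1 hp).1), one_pow]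

theorem iGc_cases (K a n : ℕ) : iGc K a n = 1 ∨
    (iGc K a n = 0 ∧ ∀ p : ℕ, p.Prime → K < p → p ∣ a → ¬ p ∣ n) := by
  classical
  unfold iGc
  by_cases h : ∃ p : ℕ, p.Prime ∧ K < p ∧ p ∣ a ∧ p ∣ n
  · left; rw [if_pos h]
  · right
    refine ⟨by rw [if_neg h], fun p hp hK ha hn => h ⟨p, hp, hK, ha, hn⟩⟩

theorem notdvd (K κ k a n p : ℕ) (hK : 2 ≤ K) (hp : p.Prime) (hKp : K < p)
    (hκ : ∀ q : ℕ, q.Prime → q ∣ κ → q ≤ K)
    (h : ∀ p : ℕ, p.Prime → K < p → p ∣ a → ¬ p ∣ n) (hz : p ∣ tZ κ k a n) : ¬ p ∣ a := by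
  intro ha
  obtain ⟨a', rfl⟩ := ha
  have h1 : tZ κ k (p * a') n = p * (k * a' * (k * (p * a')) + 2 * (k * a') * (κ * n)) +
      2 * (κ * n) ^ 2 := by unfold tZ; ring
  rw [h1] at hz
  have h2 : p ∣ 2 * (κ * n) ^ 2 := (Nat.dvd_add_right (dvd_mul_right _ _)).1 hz
  rcases (Nat.Prime.dvd_mul hp).1 h2 with h3 | h3
  · have := Nat.le_of_dvd (by norm_num) h3; omega
  · have h4 := hp.dvd_of_dvd_pow h3
    rcases (Nat.Prime.dvd_mul hp).1 h4 with h5 | h5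
    · have := hκ p hp h5; omega
    · exact h p hp hKp (dvd_mul_right _ _) h5

/-- the pointwise bound -/
theorem point (hLs : StDLs) (hTl : StDTl) (g : ℕ → ℂ) (hg : G1 g) (K κ k M a n : ℕ)
    (hK : 2 ≤ K) (hκ : 0 < κ) (hn : 0 < n)
    (hp : ∀ q : ℕ, q.Prime → q ∣ κ → q ≤ K) (hM : 1 ≤ M) (hz : tZ κ k a n ≤ M ^ 3) :
    ‖gT g K (tZ κ k a n) - cQ g K M‖ ≤
      2 * iGc K a n +
      2 * (if ∃ p ∈ pr4 K M, ¬ p ∣ a ∧ p ^ 2 ∣ tZ κ k a n then 1 else 0) +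
      (∑ p ∈ (pr4 K M).filter (fun p => ¬ p ∣ a ∧ p ∣ tZ κ k a n), ‖g p - 1‖ ^ 2) +
      12 * Real.sqrt
        (∑ p ∈ (tZ κ k a n).primeFactors.filter (fun p => K < p ∧ M < p ^ 4), ‖1 - g p‖ ^ 2) +
      ‖Complex.exp (∑ p ∈ (pr4 K M).filter (fun p => ¬ p ∣ a ∧ p ∣ tZ κ k a n), (g p - 1)) -
        cQ g K M‖ := by
  have hs : 0 ≤ ∑ p ∈ (pr4 K M).filter (fun p => ¬ p ∣ a ∧ p ∣ tZ κ k a n), ‖g p - 1‖ ^ 2 :=
    Finset.sum_nonneg fun p _ => by positivity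
  have hq := Real.sqrt_nonneg
    (∑ p ∈ (tZ κ k a n).primeFactors.filter (fun p => K < p ∧ M < p ^ 4), ‖1 - g p‖ ^ 2)
  have he := norm_nonneg (Complex.exp (∑ p ∈ (pr4 K M).filter
    (fun p => ¬ p ∣ a ∧ p ∣ tZ κ k a n), (g p - 1)) - cQ g K M)
  have hi : (0 : ℝ) ≤ (if ∃ p ∈ pr4 K M, ¬ p ∣ a ∧ p ^ 2 ∣ tZ κ k a n then 1 else 0) := by
    split_ifs <;> norm_num
  rcases iGc_cases K a n with h1 | ⟨h0, h1⟩
  · have h2 : ‖gT g K (tZ κ k a n) - cQ g K M‖ ≤ 2 := by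
      refine (norm_sub_le _ _).trans ?_
      have := ((hTl g hg).2.2.2.2.2.1 K M).2
      rw [norm_gT g hg.cm]
      linarith
    rw [h1]
    linarith
  · have hnd : ∀ p ∈ pr4 K M, p ∣ tZ κ k a n → ¬ p ∣ a := by
      intro p hpm hpz
      rw [pr4, Finset.mem_filter] at hpm
      exact notdvd K κ k a n p hK hpm.2.1 hpm.2.2.1 hp h1 hpz
    have hfil : (pr4 K M).filter (fun p => p ∣ tZ κ k a n) =
        (pr4 K M).filter (fun p => ¬ p ∣ a ∧ p ∣ tZ κ k a n) :=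
      Finset.filter_congr fun p hpm => ⟨fun h => ⟨hnd p hpm h, h⟩, fun h => h.2⟩
    have hzpos : 1 ≤ tZ κ k a n := by
      have h5 : 0 < κ * n := Nat.mul_pos hκ hn
      have h6 : 0 < (κ * n) ^ 2 := pow_pos h5 2
      unfold tZ
      omega
    have hls := hLs g hg.cm K M (tZ κ k a n) hM hzpos hz
    rw [hfil] at hls
    have hind : (if ∃ p ∈ pr4 K M, p ^ 2 ∣ tZ κ k a n then (1 : ℝ) else 0) ≤
        (if ∃ p ∈ pr4 K M, ¬ p ∣ a ∧ p ^ 2 ∣ tZ κ k a n then 1 else 0) := by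
      by_cases h2 : ∃ p ∈ pr4 K M, p ^ 2 ∣ tZ κ k a n
      · obtain ⟨p, hpm, hpd⟩ := h2
        rw [if_pos ⟨p, hpm, hpd⟩, if_pos ⟨p, hpm, hnd p hpm (dvd_trans (dvd_pow_self p two_ne_zero) hpd), hpd⟩]
      · rw [if_neg h2]; exact hi
    have htri := norm_sub_le_norm_sub_add_norm_sub (gT g K (tZ κ k a n))
      (Complex.exp (∑ p ∈ (pr4 K M).filter (fun p => ¬ p ∣ a ∧ p ∣ tZ κ k a n), (g p - 1)))
      (cQ g K M)
    rw [h0]
    linarith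

theorem final (E T k' η η' : ℝ) (hE : 0 ≤ E) (hE1 : E ≤ 1) (hT : T ≤ E ^ 2)
    (hk : k' ≤ E ^ 2) (hη' : 0 < η') (h2 : 17 * η' + Real.sqrt η' ≤ η) :
    2 * (10 * k' + η') + 2 * (2 * k' + η') + (2 * T + η') + 12 * η' +
      (Real.sqrt (4 * T + η') + 4 * k' + η') ≤ 32 * E + η + η' := by
  have h3 : E ^ 2 ≤ E := by nlinarith
  have h4 : Real.sqrt (4 * T + η') ≤ 2 * E + Real.sqrt η' := by
    rw [Real.sqrt_le_left (by positivity)]
    have := Real.sq_sqrt hη'.le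
    nlinarith [mul_nonneg hE (Real.sqrt_nonneg η')]
  nlinarith

theorem eta (η : ℝ) (hη : 0 < η) : ∃ η' : ℝ, 0 < η' ∧ η' ≤ η / 2 ∧
    17 * η' + Real.sqrt η' ≤ η / 2 := by
  refine ⟨min (η / 100) ((η / 10) ^ 2), by positivity, ?_, ?_⟩
  · have := min_le_left (η / 100) ((η / 10) ^ 2); linarith
  · have h1 := min_le_left (η / 100) ((η / 10) ^ 2)
    have h2 : Real.sqrt (min (η / 100) ((η / 10) ^ 2)) ≤ η / 10 := by
      rw [Real.sqrt_le_left (by positivity)]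
      exact min_le_right _ _
    linarith

end IDQd

/-- concentration of a function at finite distance from `1` on the norm form -/
theorem pr_DQd (hBx : StDBx) (hLs : StDLs) (hTl : StDTl) (hZp : StDZp) (hGc : StDGc)
    (hQ1 : StDQ1) (hQ2 : StDQ2) (hQ3 : StDQ3) (hQ4 : StDQ4) : StDQd := by
  refine ⟨32, by norm_num, ?_⟩
  intro g hg K κ k Q D hK hκ hk hQ hD hpr η hη
  have htl := hTl g hg
  have hE0 : 0 ≤ er g K := Real.sqrt_nonneg _
  by_cases hE1 : er g K ≤ 1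
  · obtain ⟨η', hη', hη1, hη2⟩ := IDQd.eta η hη
    obtain ⟨C0, hC0, hZ⟩ := hZp Q D κ k hQ hD hκ hk
    obtain ⟨M1, hM1⟩ := hGc K Q D (by omega) hQ hD
      (fun p hp hd => hpr p hp (dvd_mul_of_dvd_right hd _)) η' hη'
    obtain ⟨M2, hM2⟩ := hQ1 K κ k Q D hK hκ hk hQ hD hpr η' hη'
    obtain ⟨M3, hM3⟩ := hQ2 g hg K κ k Q D hK hκ hk hQ hD hpr η' hη'
    obtain ⟨M4, hM4⟩ := hQ4 g hg K κ k Q D hK hκ hk hQ hD η' hη'
    obtain ⟨M5, hM5⟩ := hQ3 g hg K κ k Q D hK hκ hk hQ hD hpr η' hη'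
    obtain ⟨M6, hM6⟩ := exists_nat_ge C0
    refine ⟨M1 + M2 + M3 + M4 + M5 + M6 + 1, fun M hM a₀ ha₀ => ?_⟩
    have hM0 : 1 ≤ M := by omega
    have hCM : C0 ≤ M := hM6.trans (by exact_mod_cast (by omega : M6 ≤ M))
    have hmono := IDQd.BR_mono Q D a₀ M
      (fun a n => ‖gT g K (tZ κ k a n) - cQ g K M‖)
      (fun a n => 2 * iGc K a n +
        2 * (if ∃ p ∈ pr4 K M, ¬ p ∣ a ∧ p ^ 2 ∣ tZ κ k a n then 1 else 0) +
        (∑ p ∈ (pr4 K M).filter (fun p => ¬ p ∣ a ∧ p ∣ tZ κ k a n), ‖g p - 1‖ ^ 2) +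
        12 * Real.sqrt
          (∑ p ∈ (tZ κ k a n).primeFactors.filter (fun p => K < p ∧ M < p ^ 4), ‖1 - g p‖ ^ 2) +
        ‖Complex.exp (∑ p ∈ (pr4 K M).filter (fun p => ¬ p ∣ a ∧ p ∣ tZ κ k a n), (g p - 1)) -
          cQ g K M‖)
      (by
        intro u hu u' hu' v hv v' hv'
        have hz := (hZ M hM0 a₀ ha₀).2 u hu u' hu' v hv v' hv'
        rw [Finset.mem_Icc] at hu
        refine IDQd.point hLs hTl g hg K κ k M _ _ hK hκ (by omega)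
          (fun q hq hd => hpr q hq (dvd_mul_of_dvd_left (dvd_mul_of_dvd_left hd _) _)) hM0 ?_
        have h3 : C0 * (M : ℝ) ^ 2 ≤ (M : ℝ) ^ 3 := by
          have : (0 : ℝ) ≤ (M : ℝ) ^ 2 := by positivity
          nlinarith
        exact_mod_cast hz.trans h3)
    refine hmono.trans ?_
    rw [IDQd.BR_lin hBx]
    have b1 := (hM1 M (by omega) a₀ ha₀).1
    have b2 := hM2 M (by omega) a₀ ha₀
    have b3 := hM3 M (by omega) a₀ ha₀
    have b4 := hM4 M (by omega) a₀ ha₀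
    have b5 := hM5 M (by omega) a₀ ha₀
    have hb := htl.2.2.2.2.2.2 K (by omega)
    have hfin := IDQd.final (er g K) (tl g K) (1 / (K : ℝ)) (η / 2) η' hE0 hE1 hb.1
      hb.2 hη' hη2
    have e1 : 10 / (K : ℝ) = 10 * (1 / (K : ℝ)) := by ring
    have e2 : 2 / (K : ℝ) = 2 * (1 / (K : ℝ)) := by ring
    have e3 : 4 / (K : ℝ) = 4 * (1 / (K : ℝ)) := by ring
    rw [e1] at b1
    rw [e2] at b2
    rw [e3] at b5
    linarith
  · push Not at hE1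
    refine ⟨1, fun M hM a₀ ha₀ => ?_⟩
    have hmono := IDQd.BR_mono Q D a₀ M
      (fun a n => ‖gT g K (tZ κ k a n) - cQ g K M‖) (fun _ _ => 2 * 1)
      (by
        intro u hu u' hu' v hv v' hv'
        refine (norm_sub_le _ _).trans ?_
        have := (htl.2.2.2.2.2.1 K M).2
        rw [IDQd.norm_gT g hg.cm]
        linarith)
    refine hmono.trans ?_
    obtain ⟨-, -, -, -, -, hmul, hone⟩ := hBx Q D a₀ M
    have h := hmul 2 (fun _ _ => 1)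
    rw [(hone hD hM).2] at h
    rw [h]
    linarith

end Pool.Agent.F0f91f8.HD
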