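import Pool.Agent.Work.MP_0f91f8_co.HD.StmtsD

/-!
# Half density, module D, item DRt: roots of the norm form
-/

set_option autoImplicit false

namespace Pool.Agent.F0f91f8.HD

namespace IDRt

theorem cast_tZ (R : Type) [CommRing R] (κ k a n : ℕ) :
    ((tZ κ k a n : ℕ) : R) = ((k : R) * a + κ * n) ^ 2 + ((κ : R) * n) ^ 2 := by
  unfold tZ
  push_cast
  ring

section
variable {p κ k a : ℕ} (hp : p.Prime)

include hp

theorem hB (h : ¬ p ∣ κ * k * a) : (κ : ZMod p) ≠ 0 := by
  intro h0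
  exact h (Dvd.dvd.mul_right (Dvd.dvd.mul_right ((ZMod.natCast_eq_zero_iff _ _).1 h0) k) a)

theorem hA (h : ¬ p ∣ κ * k * a) : (k : ZMod p) * a ≠ 0 := by
  intro h0
  have h1 : p ∣ k * a := (ZMod.natCast_eq_zero_iff (k * a) p).1 (by push_cast; exact h0)
  exact h (by rw [mul_assoc]; exact h1.mul_left κ)

theorem h2' (h2 : p ≠ 2) : (2 : ZMod p) ≠ 0 := by
  have h1 : ((2 : ℕ) : ZMod p) ≠ 0 := by
    rw [Ne, ZMod.natCast_eq_zero_iff]
    intro h
    exact h2 ((Nat.prime_dvd_prime_iff_eq hp Nat.prime_two).1 h)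
  exact_mod_cast h1

theorem part1 (h2 : p ≠ 2) (h : ¬ p ∣ κ * k * a) :
    ∃ S : Finset ℕ, S ⊆ Finset.range p ∧ (S.card = if p % 4 = 1 then 2 else 0) ∧
      ∀ n : ℕ, p ∣ tZ κ k a n ↔ n % p ∈ S := by
  haveI : Fact p.Prime := ⟨hp⟩
  have hB := hB hp h
  have hA := hA hp h
  have h2' := h2' hp h2
  have hz : ∀ n : ℕ, p ∣ tZ κ k a n ↔
      ((k : ZMod p) * a + κ * n) ^ 2 + ((κ : ZMod p) * n) ^ 2 = 0 := by
    intro n
    rw [← ZMod.natCast_eq_zero_iff, cast_tZ]
  by_cases h4 : p % 4 = 1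
  · obtain ⟨i, hi⟩ : IsSquare (-1 : ZMod p) := ZMod.exists_sq_eq_neg_one_iff.2 (by omega)
    have h12 : (1 - i) * (1 + i) = 2 := by linear_combination hi
    have hi1 : 1 - i ≠ 0 := by
      intro h0
      rw [h0, zero_mul] at h12
      exact h2' h12.symm
    have hi2 : 1 + i ≠ 0 := by
      intro h0
      rw [h0, mul_zero] at h12
      exact h2' h12.symm
    have key : ∀ x : ZMod p, ((k : ZMod p) * a + κ * x) ^ 2 + ((κ : ZMod p) * x) ^ 2 = 0 ↔
        x = -((k : ZMod p) * a) / ((1 - i) * κ) ∨ x = -((k : ZMod p) * a) / ((1 + i) * κ) := by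
      intro x
      have h5 : ((k : ZMod p) * a + κ * x) ^ 2 + ((κ : ZMod p) * x) ^ 2 =
          ((k : ZMod p) * a + (1 - i) * κ * x) * ((k : ZMod p) * a + (1 + i) * κ * x) := by
        linear_combination (-((κ : ZMod p) * x) ^ 2) * h12
      rw [h5, mul_eq_zero, eq_div_iff (mul_ne_zero hi1 hB), eq_div_iff (mul_ne_zero hi2 hB)]
      constructor
      · rintro (h6 | h6)
        · left
          linear_combination h6
        · right
          linear_combination h6
      · rintro (h6 | h6)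
        · left
          linear_combination h6
        · right
          linear_combination h6
    have hne : -((k : ZMod p) * a) / ((1 - i) * κ) ≠ -((k : ZMod p) * a) / ((1 + i) * κ) := by
      intro h5
      rw [div_eq_div_iff (mul_ne_zero hi1 hB) (mul_ne_zero hi2 hB)] at h5
      have h6 : ((k : ZMod p) * a) * (κ * (2 * i)) = 0 := by linear_combination -h5
      have hi0 : i = 0 := by
        rcases mul_eq_zero.1 h6 with h7 | h7
        · exact absurd h7 hA
        · rcases mul_eq_zero.1 h7 with h8 | h8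
          · exact absurd h8 hB
          · rcases mul_eq_zero.1 h8 with h9 | h9
            · exact absurd h9 h2'
            · exact h9
      rw [hi0, zero_mul] at hi
      exact one_ne_zero (neg_eq_zero.1 hi)
    refine ⟨{(-((k : ZMod p) * a) / ((1 - i) * κ)).val, (-((k : ZMod p) * a) / ((1 + i) * κ)).val},
      ?_, ?_, ?_⟩
    · intro x hx
      rw [Finset.mem_insert, Finset.mem_singleton] at hx
      rw [Finset.mem_range]
      rcases hx with rfl | rfl
      · exact ZMod.val_lt _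
      · exact ZMod.val_lt _
    · rw [if_pos h4]
      exact Finset.card_pair fun h5 => hne (ZMod.val_injective p h5)
    · intro n
      rw [hz, key, Finset.mem_insert, Finset.mem_singleton, ← ZMod.val_natCast]
      constructor
      · rintro (h5 | h5)
        · left
          rw [← h5]
        · right
          rw [← h5]
      · rintro (h5 | h5)
        · left
          exact ZMod.val_injective p h5
        · right
          exact ZMod.val_injective p h5
  · have h43 : p % 4 = 3 := by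
      have h5 := hp.eq_two_or_odd
      omega
    refine ⟨∅, Finset.empty_subset _, ?_, ?_⟩
    · rw [if_neg h4, Finset.card_empty]
    · intro n
      constructor
      · intro hd
        exfalso
        have h5 := (hz n).1 hd
        by_cases hn : (κ : ZMod p) * n = 0
        · rw [hn, add_zero, zero_pow two_ne_zero, add_zero] at h5
          exact hA (pow_eq_zero_iff two_ne_zero |>.1 h5)
        · have h6 : IsSquare (-1 : ZMod p) := by
            refine ⟨((k : ZMod p) * a + κ * n) / (κ * n), ?_⟩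
            have h7 : ((k : ZMod p) * a + κ * n) / (κ * n) * (((k : ZMod p) * a + κ * n) / (κ * n)) =
                ((k : ZMod p) * a + κ * n) ^ 2 / (κ * n) ^ 2 := by ring
            rw [h7, eq_div_iff (pow_ne_zero 2 hn)]
            linear_combination -h5
          exact ZMod.exists_sq_eq_neg_one_iff.1 h6 h43
      · intro hd
        exact absurd hd (Finset.notMem_empty _)

theorem inj (h2 : p ≠ 2) (h : ¬ p ∣ κ * k * a) {r s : ℕ} (hr : p ^ 2 ∣ tZ κ k a r)
    (hs : p ^ 2 ∣ tZ κ k a s) (hrs : r % p = s % p) : r ≡ s [MOD p ^ 2] := by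
  haveI : Fact p.Prime := ⟨hp⟩
  have hB := hB hp h
  have hA := hA hp h
  have h2' := h2' hp h2
  have hrs' : (r : ZMod p) = s := (ZMod.natCast_eq_natCast_iff' r s p).2 hrs
  have hw : ¬ p ∣ 2 * κ ^ 2 * (s + r) + 2 * (k * a) * κ := by
    intro h0
    have h1 := (ZMod.natCast_eq_zero_iff _ _).2 h0
    push_cast at h1
    rw [← hrs'] at h1
    have h3 : (2 * κ : ZMod p) * (2 * κ * r + k * a) = 0 := by linear_combination h1
    have h4 : (2 * κ * r + k * a : ZMod p) = 0 := by
      rcases mul_eq_zero.1 h3 with h5 | h5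
      · exact absurd h5 (mul_ne_zero h2' hB)
      · exact h5
    have h5 : ((tZ κ k a r : ℕ) : ZMod p) = 0 :=
      (ZMod.natCast_eq_zero_iff _ _).2 ((dvd_pow_self p two_ne_zero).trans hr)
    rw [cast_tZ] at h5
    have h6 : ((k : ZMod p) * a) ^ 2 = 0 := by
      linear_combination 2 * h5 - (2 * κ * r + k * a) * h4
    exact hA (pow_eq_zero_iff two_ne_zero |>.1 h6)
  have hco : IsCoprime ((p : ℤ) ^ 2) ((2 * κ ^ 2 * (s + r) + 2 * (k * a) * κ : ℕ) : ℤ) :=
    IsCoprime.pow_left (Nat.isCoprime_iff_coprime.2 ((Nat.Prime.coprime_iff_not_dvd hp).2 hw))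
  have hr' : (p : ℤ) ^ 2 ∣ ((tZ κ k a r : ℕ) : ℤ) := by exact_mod_cast hr
  have hs' : (p : ℤ) ^ 2 ∣ ((tZ κ k a s : ℕ) : ℤ) := by exact_mod_cast hs
  have hd := dvd_sub hs' hr'
  rw [cast_tZ, cast_tZ] at hd
  have he : ((k : ℤ) * a + κ * s) ^ 2 + ((κ : ℤ) * s) ^ 2 -
      (((k : ℤ) * a + κ * r) ^ 2 + ((κ : ℤ) * r) ^ 2) =
      ((2 * κ ^ 2 * (s + r) + 2 * (k * a) * κ : ℕ) : ℤ) * ((s : ℤ) - r) := by
    push_cast
    ring
  rw [he] at hd
  have hd2 := hco.dvd_of_dvd_mul_left hd
  rw [Nat.modEq_iff_dvd]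
  push_cast
  exact hd2

end

end IDRt

open IDRt

/-- Item DRt. -/
theorem pr_DRt : StDRt := by
  intro p κ k a hp h2 h
  obtain ⟨S, hS1, hS2, hS3⟩ := part1 hp h2 h
  refine ⟨⟨S, hS1, hS2, hS3⟩, (Finset.range (p ^ 2)).filter (fun r => p ^ 2 ∣ tZ κ k a r), ?_, ?_⟩
  · have hc : S.card ≤ 2 := by
      rw [hS2]
      split_ifs <;> omega
    refine le_trans ?_ hc
    refine Finset.card_le_card_of_injOn (fun r => r % p) ?_ ?_
    · intro r hr
      have hr' := (Finset.mem_filter.1 (Finset.mem_coe.1 hr)).2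
      exact (hS3 r).1 ((dvd_pow_self p two_ne_zero).trans hr')
    · intro r hr s hs hrs
      have hr' := Finset.mem_filter.1 (Finset.mem_coe.1 hr)
      have hs' := Finset.mem_filter.1 (Finset.mem_coe.1 hs)
      exact Nat.ModEq.eq_of_lt_of_lt (inj hp h2 h hr'.2 hs'.2 hrs) (Finset.mem_range.1 hr'.1)
        (Finset.mem_range.1 hs'.1)
  · intro n hn
    rw [Finset.mem_filter, Finset.mem_range]
    refine ⟨Nat.mod_lt _ (pow_pos hp.pos 2), ?_⟩
    rw [← ZMod.natCast_eq_zero_iff, cast_tZ] at hn ⊢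
    rw [ZMod.natCast_mod]
    exact hn

end Pool.Agent.F0f91f8.HD
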