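import Pool.Agent.Work.MP_0f91f8_co.HD.StmtsD

/-!
# Half density, module D: item DSp (the primes between `w` and `K`)
-/

set_option autoImplicit false

namespace Pool.Agent.F0f91f8.HD

open Filter Topology ComplexConjugate
open scoped BigOperators

namespace XDSp

/-- `gP` as a product over all primes in the range. -/
lemma gP_eq (g : ℕ → ℂ) (A B n : ℕ) : gP g A B n =
    ∏ p ∈ (Finset.range (B + 1)).filter (fun p => p.Prime ∧ A < p), g p ^ n.factorization p := by
  unfold gP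
  refine Finset.prod_subset ?_ ?_
  · intro p hp
    rw [Finset.mem_filter, Nat.mem_primeFactors] at hp
    rw [Finset.mem_filter, Finset.mem_range]
    exact ⟨by omega, hp.1.1, hp.2.1⟩
  · intro p hp hp'
    rw [Finset.mem_filter, Finset.mem_range] at hp
    have h0 : n.factorization p = 0 := by
      by_contra h
      apply hp'
      rw [Finset.mem_filter, ← Nat.support_factorization, Finsupp.mem_support_iff]
      exact ⟨h, hp.2.2, by omega⟩
    rw [h0, pow_zero]

lemma fac_of {p m ν c : ℕ} (hp : p.Prime) (h : m = p ^ ν * c) (hc : ¬ p ∣ c) :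
    m.factorization p = ν := by
  have hc0 : c ≠ 0 := by
    rintro rfl
    exact hc (dvd_zero p)
  rw [h, Nat.factorization_mul (pow_ne_zero _ hp.ne_zero) hc0, Nat.factorization_pow]
  simp [hp.factorization_self, Nat.factorization_eq_zero_of_not_dvd hc]

lemma vals {p k κ a n : ℕ} (hp : p.Prime) (hp2 : 2 < p) (hk : p ^ 2 ∣ k) (hκ : ¬ p ∣ κ)
    (hn : 0 < n) (hpn : ¬ p ^ 2 ∣ n) :
    (k * a + κ * n).factorization p = n.factorization p ∧
    (k * a + 2 * (κ * n)).factorization p = n.factorization p ∧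
    (tZ κ k a n).factorization p = 2 * n.factorization p := by
  obtain ⟨k2, rfl⟩ := hk
  obtain ⟨ν, n', b, hn', hnn, hkb⟩ : ∃ ν n' b : ℕ, ¬ p ∣ n' ∧ n = p ^ ν * n' ∧
      p ^ 2 * k2 * a = p ^ ν * (p * b) := by
    by_cases h : p ∣ n
    · obtain ⟨n', rfl⟩ := h
      refine ⟨1, n', k2 * a, fun hd => hpn ?_, by rw [pow_one], by ring⟩
      rw [pow_two]
      exact Nat.mul_dvd_mul_left p hd
    · exact ⟨0, n, p * k2 * a, h, by rw [pow_zero, one_mul], by ring⟩
  have hν : n.factorization p = ν := fac_of hp hnn hn'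
  have hc : ¬ p ∣ κ * n' := fun h => (hp.dvd_mul.1 h).elim hκ hn'
  have h2 : ¬ p ∣ 2 := fun h => by
    have := Nat.le_of_dvd two_pos h
    omega
  have hc2 : ¬ p ∣ 2 * (κ * n') := fun h => (hp.dvd_mul.1 h).elim h2 hc
  have hc3 : ¬ p ∣ 2 * (κ * n') ^ 2 := fun h =>
    (hp.dvd_mul.1 h).elim h2 fun h => hc (hp.dvd_of_dvd_pow h)
  rw [hν]
  refine ⟨fac_of hp (c := p * b + κ * n') ?_ ?_, fac_of hp (c := p * b + 2 * (κ * n')) ?_ ?_,
    fac_of hp (c := (p * b + κ * n') ^ 2 + (κ * n') ^ 2) ?_ ?_⟩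
  · rw [hkb, hnn]
    ring
  · rw [Nat.dvd_add_right (dvd_mul_right p b)]
    exact hc
  · rw [hkb, hnn]
    ring
  · rw [Nat.dvd_add_right (dvd_mul_right p b)]
    exact hc2
  · unfold tZ
    rw [hkb, hnn, pow_mul']
    ring
  · have e : (p * b + κ * n') ^ 2 + (κ * n') ^ 2 =
        p * (b * (p * b + 2 * (κ * n'))) + 2 * (κ * n') ^ 2 := by ring
    rw [e, Nat.dvd_add_right (dvd_mul_right p _)]
    exact hc3

lemma sq_dvd_kk {w K : ℕ} (e' : Fin (K + 1) → Fin K) {p : ℕ} (hp : p.Prime) (hw : w < p)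
    (hK : p ≤ K) : p ^ 2 ∣ kk w K e' := by
  unfold kk
  have h1 : (if ((⟨p, by omega⟩ : Fin (K + 1)) : ℕ).Prime ∧ w < ((⟨p, by omega⟩ : Fin (K + 1)) : ℕ)
      then ((⟨p, by omega⟩ : Fin (K + 1)) : ℕ) ^ ((e' ⟨p, by omega⟩ : ℕ) + 2) else 1) =
      p ^ ((e' ⟨p, by omega⟩ : ℕ) + 2) := if_pos ⟨hp, hw⟩
  have h2 := Finset.dvd_prod_of_mem (fun q : Fin (K + 1) =>
    if (q : ℕ).Prime ∧ w < (q : ℕ) then (q : ℕ) ^ ((e' q : ℕ) + 2) else 1)
    (Finset.mem_univ (⟨p, by omega⟩ : Fin (K + 1)))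
  refine dvd_trans ?_ h2
  rw [h1]
  exact pow_dvd_pow _ (by omega)

lemma not_dvd_kp {w K : ℕ} (e : Fin (w + 1) → Fin K) {p : ℕ} (hp : p.Prime) (hw : w < p) :
    ¬ p ∣ w.factorial * kp w K e := by
  intro h
  rcases hp.dvd_mul.1 h with h | h
  · have := (hp.dvd_factorial).1 h
    omega
  · unfold kp at h
    obtain ⟨q, -, hq⟩ := (Prime.dvd_finsetProd_iff hp.prime _).1 h
    split_ifs at hq with hq2
    · have h3 := hp.dvd_of_dvd_pow hq
      rw [Nat.prime_dvd_prime_iff_eq hp hq2] at h3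
      have := q.2
      omega
    · exact hp.one_lt.ne' (Nat.dvd_one.1 hq)

end XDSp

open XDSp in
theorem pr_DSp : StDSp := by
  intro g _ w K e e' hw hK a n ha hn hpn
  have hv : ∀ p ∈ (Finset.range (K + 1)).filter (fun p => p.Prime ∧ w < p),
      (kk w K e' * a + w.factorial * kp w K e * n).factorization p = n.factorization p ∧
      (kk w K e' * a + 2 * (w.factorial * kp w K e * n)).factorization p = n.factorization p ∧
      (tZ (w.factorial * kp w K e) (kk w K e') a n).factorization p =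
        2 * n.factorization p := by
    intro p hp
    rw [Finset.mem_filter, Finset.mem_range] at hp
    exact vals hp.2.1 (by omega) (sq_dvd_kk e' hp.2.1 hp.2.2 (by omega))
      (not_dvd_kp e hp.2.1 hp.2.2) hn (hpn p hp.2.1 hp.2.2)
  refine ⟨?_, ?_, ?_⟩
  · rw [gP_eq, gP_eq]
    exact Finset.prod_congr rfl fun p hp => by rw [(hv p hp).1]
  · rw [gP_eq, gP_eq]
    exact Finset.prod_congr rfl fun p hp => by rw [(hv p hp).2.1]
  · rw [gP_eq, gP_eq, ← Finset.prod_pow]
    exact Finset.prod_congr rfl fun p hp => by rw [(hv p hp).2.2, mul_comm, pow_mul]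

end Pool.Agent.F0f91f8.HD
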