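import Pool.Agent.Work.MP_0f91f8_co.HD.StmtsD

/-!
# Half density, module D: item DSz (sizes)
-/

set_option autoImplicit false

namespace Pool.Agent.F0f91f8.HD

open Filter Topology ComplexConjugate
open scoped BigOperators

namespace XDSz

/-- the product of the primes up to `w` is at most `w!` -/
lemma kp_le (w K : ℕ) (e : Fin (w + 1) → Fin K) : kp w K e ≤ w.factorial ^ K := by
  have h1 : kp w K e ≤ ∏ p : Fin (w + 1), (if (p : ℕ).Prime then (p : ℕ) else 1) ^ K := by
    unfold kp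
    refine Finset.prod_le_prod' fun p _ => ?_
    split_ifs with h
    · exact Nat.pow_le_pow_right h.pos (e p).2.le
    · rw [one_pow]
  refine h1.trans ?_
  rw [Finset.prod_pow]
  refine Nat.pow_le_pow_left ?_ K
  rw [Fin.prod_univ_eq_prod_range (fun p => if p.Prime then p else 1) (w + 1)]
  rw [← Finset.prod_range_add_one_eq_factorial, Finset.prod_range_succ']
  have h0 : (if Nat.Prime 0 then 0 else 1) = 1 := if_neg Nat.not_prime_zero
  rw [h0, mul_one]
  refine Finset.prod_le_prod' fun p _ => ?_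
  split_ifs
  · exact le_rfl
  · omega

lemma key (w K : ℕ) (e : Fin (w + 1) → Fin K) :
    K ^ 2 * (w.factorial * kp w K e) ≤ DD w K := by
  unfold DD
  calc K ^ 2 * (w.factorial * kp w K e) ≤ K ^ 2 * (w.factorial * w.factorial ^ K) :=
        Nat.mul_le_mul_left _ (Nat.mul_le_mul_left _ (kp_le w K e))
    _ = _ := by ring

/-- the event is contained in `K v < D M` -/
lemma imp {w K k M a₀ : ℕ} (e : Fin (w + 1) → Fin K) (hK : 1 ≤ K) (hk : 0 < k)
    {u u' v v' : ℕ} (hu : u ≤ M) (hu' : u' ≤ M)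
    (h : K * (w.factorial * kp w K e * (u + u')) > 2 * (k * (w.factorial * (v + v') + a₀))) :
    K * v < DD w K * M := by
  by_contra hc
  push Not at hc
  have h1 := key w K e
  have hw : 1 ≤ w.factorial := w.factorial_pos
  have h2 : K * (w.factorial * kp w K e * (u + u')) * K ≤ 2 * (DD w K * M) := by
    calc K * (w.factorial * kp w K e * (u + u')) * K =
        K ^ 2 * (w.factorial * kp w K e) * (u + u') := by ring
      _ ≤ DD w K * (2 * M) := Nat.mul_le_mul h1 (by omega)
      _ = _ := by ring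
  have h3 : 2 * (DD w K * M) ≤ 2 * (k * (w.factorial * (v + v') + a₀)) * K := by
    calc 2 * (DD w K * M) ≤ 2 * (K * v) := Nat.mul_le_mul_left 2 hc
      _ ≤ 2 * (K * (k * (w.factorial * (v + v') + a₀))) := by
        refine Nat.mul_le_mul_left 2 (Nat.mul_le_mul_left K ?_)
        calc v ≤ 1 * (1 * (v + v') + a₀) := by omega
          _ ≤ k * (w.factorial * (v + v') + a₀) :=
            Nat.mul_le_mul hk (Nat.add_le_add_right (Nat.mul_le_mul_right _ hw) _)
      _ = _ := by ring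
  have h4 := h2.trans h3
  have h5 := Nat.le_of_mul_le_mul_right h4 hK
  omega

/-- the number of `v` with `K v < L` -/
lemma cnt (K L : ℕ) (hK : 1 ≤ K) :
    (K : ℝ) * ∑ v ∈ Finset.Icc 1 L, (if K * v < L then (1 : ℝ) else 0) ≤ L := by
  rw [← Finset.sum_filter, Finset.sum_const, nsmul_eq_mul, mul_one]
  have h : K * ((Finset.Icc 1 L).filter fun v => K * v < L).card ≤ L := by
    have hs : ((Finset.Icc 1 L).filter fun v => K * v < L) ⊆ Finset.Icc 1 (L / K) := by
      intro v hv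
      rw [Finset.mem_filter, Finset.mem_Icc] at hv
      rw [Finset.mem_Icc]
      refine ⟨hv.1.1, ?_⟩
      rw [Nat.le_div_iff_mul_le hK, mul_comm]
      exact hv.2.le
    have h1 := Finset.card_le_card hs
    rw [Nat.card_Icc, Nat.add_sub_cancel] at h1
    calc K * _ ≤ K * (L / K) := Nat.mul_le_mul_left K h1
      _ ≤ L := Nat.mul_div_le L K
  exact_mod_cast h

end XDSz

open XDSz in
theorem pr_DSz : StDSz := by
  intro w K e k M a₀ hK hM hk
  have hD : 0 < DD w K := by
    unfold DD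
    have := w.factorial_pos
    positivity
  have hDM : (0 : ℝ) < ((DD w K * M : ℕ) : ℝ) := by
    exact_mod_cast Nat.mul_pos hD hM
  have hM0 : (0 : ℝ) < (M : ℝ) := by exact_mod_cast hM
  have hK0 : (0 : ℝ) < (K : ℝ) := by exact_mod_cast hK
  have hsum : ∑ u ∈ Finset.Icc 1 M, ∑ u' ∈ Finset.Icc 1 M, ∑ v ∈ Finset.Icc 1 (DD w K * M),
      ∑ v' ∈ Finset.Icc 1 (DD w K * M),
        (if K * (w.factorial * kp w K e * (u + u')) > 2 * (k * (w.factorial * (v + v') + a₀))
          then (1 : ℝ) else 0) ≤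
      ∑ u ∈ Finset.Icc 1 M, ∑ u' ∈ Finset.Icc 1 M, ∑ v ∈ Finset.Icc 1 (DD w K * M),
      ∑ v' ∈ Finset.Icc 1 (DD w K * M), (if K * v < DD w K * M then (1 : ℝ) else 0) := by
    refine Finset.sum_le_sum fun u hu => Finset.sum_le_sum fun u' hu' =>
      Finset.sum_le_sum fun v _ => Finset.sum_le_sum fun v' _ => ?_
    by_cases h : K * (w.factorial * kp w K e * (u + u')) >
        2 * (k * (w.factorial * (v + v') + a₀))
    · rw [if_pos h, if_pos (imp e hK hk (Finset.mem_Icc.1 hu).2 (Finset.mem_Icc.1 hu').2 h)]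
    · rw [if_neg h]
      split_ifs
      · exact zero_le_one
      · exact le_rfl
  have heq : ∑ u ∈ Finset.Icc 1 M, ∑ u' ∈ Finset.Icc 1 M, ∑ v ∈ Finset.Icc 1 (DD w K * M),
      ∑ v' ∈ Finset.Icc 1 (DD w K * M), (if K * v < DD w K * M then (1 : ℝ) else 0) =
      (M : ℝ) ^ 2 * (((DD w K * M : ℕ) : ℝ) * ∑ v ∈ Finset.Icc 1 (DD w K * M),
        (if K * v < DD w K * M then (1 : ℝ) else 0)) := by
    simp only [Finset.sum_const, Nat.card_Icc, Nat.add_sub_cancel, nsmul_eq_mul]
    rw [← Finset.mul_sum]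
    ring
  unfold BR
  rw [div_le_div_iff₀ (by positivity) hK0, one_mul]
  have hc := cnt K (DD w K * M) hK
  calc _ ≤ (M : ℝ) ^ 2 * (((DD w K * M : ℕ) : ℝ) * ∑ v ∈ Finset.Icc 1 (DD w K * M),
        (if K * v < DD w K * M then (1 : ℝ) else 0)) * K :=
        mul_le_mul_of_nonneg_right (hsum.trans heq.le) hK0.le
    _ = (M : ℝ) ^ 2 * ((DD w K * M : ℕ) : ℝ) * ((K : ℝ) * ∑ v ∈ Finset.Icc 1 (DD w K * M),
        (if K * v < DD w K * M then (1 : ℝ) else 0)) := by ring
    _ ≤ (M : ℝ) ^ 2 * ((DD w K * M : ℕ) : ℝ) * ((DD w K * M : ℕ) : ℝ) :=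
        mul_le_mul_of_nonneg_left hc (by positivity)
    _ = _ := by ring

end Pool.Agent.F0f91f8.HD
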