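import Pool.Agent.Work.MP_0f91f8_co.HD.StmtsD

/-!
# Half density, item DTk: the inequality of Turan and Kubilius for residue classes
-/

set_option autoImplicit false

namespace Pool.Agent.F0f91f8.HD

open Filter Topology ComplexConjugate
open scoped BigOperators

namespace IDTk

/-- count of one residue class in `[1, M]` -/
theorem count_one (m r M : ℕ) (hm : 0 < m) (hr : r < m) :
    |((((Finset.Icc 1 M).filter fun u => u % m = r).card : ℝ)) - (M : ℝ) / m| ≤ 1 := by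
  have hset : (Finset.Icc 1 M).filter (fun u => u % m = r) =
      (Finset.Ioc 0 M).filter (fun u => u ≡ r [MOD m]) := by
    ext u
    simp only [Finset.mem_filter, Finset.mem_Icc, Finset.mem_Ioc, Nat.ModEq, Nat.mod_eq_of_lt hr]
    constructor
    · rintro ⟨⟨h1, h2⟩, h3⟩; exact ⟨⟨by omega, h2⟩, h3⟩
    · rintro ⟨⟨h1, h2⟩, h3⟩; exact ⟨⟨by omega, h2⟩, h3⟩
  rw [hset]
  have h := Nat.Ioc_filter_modEq_card 0 M hm r
  have hm' : (0 : ℝ) < m := by exact_mod_cast hm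
  have hz : (((((Finset.Ioc 0 M).filter (fun u => u ≡ r [MOD m])).card : ℤ)) : ℝ) =
      ((max (⌊(((M : ℕ) : ℚ) - ((r : ℕ) : ℚ)) / ((m : ℕ) : ℚ)⌋ -
        ⌊(((0 : ℕ) : ℚ) - ((r : ℕ) : ℚ)) / ((m : ℕ) : ℚ)⌋) 0 : ℤ) : ℝ) := by
    exact_mod_cast congrArg (fun z : ℤ => (z : ℝ)) h
  have hcast : ((((Finset.Ioc 0 M).filter (fun u => u ≡ r [MOD m])).card : ℝ)) =
      (((((Finset.Ioc 0 M).filter (fun u => u ≡ r [MOD m])).card : ℤ)) : ℝ) := by push_cast; rfl
  rw [hcast, hz]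
  set x : ℚ := (((M : ℕ) : ℚ) - ((r : ℕ) : ℚ)) / ((m : ℕ) : ℚ) with hx
  set y : ℚ := (((0 : ℕ) : ℚ) - ((r : ℕ) : ℚ)) / ((m : ℕ) : ℚ) with hy
  have hxy : x - y = (M : ℚ) / m := by
    rw [hx, hy]; push_cast; ring
  have h1 : (⌊x⌋ : ℚ) ≤ x := Int.floor_le x
  have h2 : x < ⌊x⌋ + 1 := Int.lt_floor_add_one x
  have h3 : (⌊y⌋ : ℚ) ≤ y := Int.floor_le y
  have h4 : y < ⌊y⌋ + 1 := Int.lt_floor_add_one y
  have hle : y ≤ x := by
    have : (0 : ℚ) ≤ (M : ℚ) / m := by positivity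
    linarith
  have hfl : ⌊y⌋ ≤ ⌊x⌋ := Int.floor_le_floor hle
  have hmax : max (⌊x⌋ - ⌊y⌋) 0 = ⌊x⌋ - ⌊y⌋ := max_eq_left (by linarith)
  rw [hmax]
  have hq : |(((⌊x⌋ - ⌊y⌋ : ℤ)) : ℚ) - (M : ℚ) / m| ≤ 1 := by
    rw [← hxy, abs_le]
    push_cast
    constructor <;> linarith
  have := (Rat.cast_le (K := ℝ)).2 hq
  push_cast at this ⊢
  exact this

theorem count_set (m M : ℕ) (T : Finset ℕ) (hm : 0 < m) (hT : T ⊆ Finset.range m) :
    |((((Finset.Icc 1 M).filter fun u => u % m ∈ T).card : ℝ)) - (M : ℝ) * T.card / m| ≤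
      T.card := by
  have h1 : (((Finset.Icc 1 M).filter fun u => u % m ∈ T).card : ℝ) =
      ∑ r ∈ T, ((((Finset.Icc 1 M).filter fun u => u % m = r).card : ℝ)) := by
    rw [← Nat.cast_sum]
    congr 1
    rw [Finset.card_eq_sum_card_fiberwise (f := fun u => u % m) (t := T)]
    · refine Finset.sum_congr rfl fun r hr => ?_
      rw [Finset.filter_filter]
      congr 1
      ext u
      simp only [Finset.mem_filter]
      constructor
      · rintro ⟨h, _, h3⟩; exact ⟨h, h3⟩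
      · rintro ⟨h, h3⟩; exact ⟨h, by rw [h3]; exact hr, h3⟩
    · intro u hu
      simp only [Finset.coe_filter, Set.mem_setOf_eq] at hu
      exact hu.2
  have h2 : (M : ℝ) * T.card / m = ∑ r ∈ T, (M : ℝ) / m := by
    rw [Finset.sum_const, nsmul_eq_mul]; ring
  rw [h1, h2, ← Finset.sum_sub_distrib]
  refine (Finset.abs_sum_le_sum_abs _ _).trans ?_
  have : (T.card : ℝ) = ∑ r ∈ T, (1 : ℝ) := by simp
  rw [this]
  exact Finset.sum_le_sum fun r hr => count_one m r M hm (Finset.mem_range.1 (hT hr))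

/-- Chinese remainder for sets of residues -/
theorem crt (p q : ℕ) (hp : 0 < p) (hq : 0 < q) (hco : Nat.Coprime p q) (S T : Finset ℕ)
    (hS : S ⊆ Finset.range p) (hT : T ⊆ Finset.range q) :
    ((Finset.range (p * q)).filter fun r => r % p ∈ S ∧ r % q ∈ T).card = S.card * T.card := by
  rw [← Finset.card_product]
  refine Finset.card_nbij' (fun r => (r % p, r % q))
    (fun x => (Nat.chineseRemainder hco x.1 x.2 : ℕ)) ?_ ?_ ?_ ?_
  · intro r hr
    simp only [Finset.coe_filter, Finset.mem_range, Set.mem_setOf_eq] at hr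
    simp only [Finset.coe_product, Set.mem_prod, Finset.mem_coe]
    exact hr.2
  · rintro ⟨a, b⟩ hx
    simp only [Finset.coe_product, Set.mem_prod, Finset.mem_coe] at hx
    simp only [Finset.coe_filter, Finset.mem_range, Set.mem_setOf_eq]
    have ha := Finset.mem_range.1 (hS hx.1)
    have hb := Finset.mem_range.1 (hT hx.2)
    have h := (Nat.chineseRemainder hco a b).2
    refine ⟨Nat.chineseRemainder_lt_mul hco a b (by omega) (by omega), ?_, ?_⟩
    · rw [h.1, Nat.mod_eq_of_lt ha]; exact hx.1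
    · rw [h.2, Nat.mod_eq_of_lt hb]; exact hx.2
  · intro r hr
    simp only [Finset.coe_filter, Finset.mem_range, Set.mem_setOf_eq] at hr
    have h := (Nat.chineseRemainder hco (r % p) (r % q)).2
    have h1 : (Nat.chineseRemainder hco (r % p) (r % q) : ℕ) ≡ r [MOD p * q] :=
      (Nat.modEq_and_modEq_iff_modEq_mul hco).1
        ⟨h.1.trans (Nat.mod_modEq r p), h.2.trans (Nat.mod_modEq r q)⟩
    have hlt := Nat.chineseRemainder_lt_mul hco (r % p) (r % q) (by omega) (by omega)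
    exact Nat.ModEq.eq_of_lt_of_lt h1 hlt hr.1
  · rintro ⟨a, b⟩ hx
    simp only [Finset.coe_product, Set.mem_prod, Finset.mem_coe] at hx
    have ha := Finset.mem_range.1 (hS hx.1)
    have hb := Finset.mem_range.1 (hT hx.2)
    have h := (Nat.chineseRemainder hco a b).2
    refine Prod.ext ?_ ?_
    · change (Nat.chineseRemainder hco a b : ℕ) % p = a
      rw [h.1, Nat.mod_eq_of_lt ha]
    · change (Nat.chineseRemainder hco a b : ℕ) % q = b
      rw [h.2, Nat.mod_eq_of_lt hb]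

/-- centred indicator -/
noncomputable def J (S : ℕ → Finset ℕ) (p u : ℕ) : ℝ :=
  (if u % p ∈ S p then 1 else 0) - ((S p).card : ℝ) / p

theorem sum_ind (M m : ℕ) (T : Finset ℕ) :
    ∑ u ∈ Finset.Icc 1 M, (if u % m ∈ T then (1 : ℝ) else 0) =
      (((Finset.Icc 1 M).filter fun u => u % m ∈ T).card : ℝ) := by
  rw [Finset.sum_ite, Finset.sum_const_zero, add_zero, Finset.sum_const, nsmul_eq_mul, mul_one]

theorem diag (S : ℕ → Finset ℕ) (M p : ℕ) (hp : p.Prime) (hS : S p ⊆ Finset.range p) :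
    ∑ u ∈ Finset.Icc 1 M, J S p u * J S p u ≤ M * (((S p).card : ℝ) / p) + (S p).card := by
  have hp0 : (0 : ℝ) < p := by exact_mod_cast hp.pos
  have hcard : (S p).card ≤ p := by
    have := Finset.card_le_card hS
    rwa [Finset.card_range] at this
  set d : ℝ := ((S p).card : ℝ) / p with hd
  have hd0 : 0 ≤ d := by positivity
  have hd1 : d ≤ 1 := by
    rw [hd, div_le_one hp0]; exact_mod_cast hcard
  have hN := count_set p M (S p) hp.pos hS
  set N : ℝ := (((Finset.Icc 1 M).filter fun u => u % p ∈ S p).card : ℝ) with hNd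
  have hsum : ∑ u ∈ Finset.Icc 1 M, J S p u * J S p u = N * (1 - 2 * d) + M * d ^ 2 := by
    have h1 : ∀ u, J S p u * J S p u =
        (if u % p ∈ S p then (1 : ℝ) else 0) * (1 - 2 * d) + d ^ 2 := by
      intro u
      unfold J
      rw [← hd]
      split_ifs <;> ring
    simp_rw [h1]
    rw [Finset.sum_add_distrib, ← Finset.sum_mul, sum_ind, Finset.sum_const, Nat.card_Icc,
      nsmul_eq_mul]
    simp [hNd]
  rw [hsum]
  have hMd : (M : ℝ) * (S p).card / p = M * d := by rw [hd]; ring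
  rw [hMd, abs_le] at hN
  have hρ : (0 : ℝ) ≤ (S p).card := by positivity
  have h2 : |1 - 2 * d| ≤ 1 := by rw [abs_le]; constructor <;> linarith
  have h3 : (N - M * d) * (1 - 2 * d) ≤ (S p).card := by
    have : |(N - M * d) * (1 - 2 * d)| ≤ (S p).card * 1 := by
      rw [abs_mul]
      exact mul_le_mul (abs_le.2 ⟨by linarith, by linarith⟩) h2 (abs_nonneg _) hρ
    have := le_abs_self ((N - M * d) * (1 - 2 * d))
    linarith
  have hM : (0 : ℝ) ≤ M := by positivity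
  nlinarith [mul_nonneg hM (mul_nonneg hd0 hd0)]

theorem offdiag (S : ℕ → Finset ℕ) (M p q : ℕ) (hp : p.Prime) (hq : q.Prime) (hpq : p ≠ q)
    (hS : S p ⊆ Finset.range p) (hT : S q ⊆ Finset.range q) :
    |∑ u ∈ Finset.Icc 1 M, J S p u * J S q u| ≤ 2 * (((S p).card : ℝ) * (S q).card) := by
  have hp0 : (0 : ℝ) < p := by exact_mod_cast hp.pos
  have hq0 : (0 : ℝ) < q := by exact_mod_cast hq.pos
  have hco : Nat.Coprime p q := (Nat.coprime_primes hp hq).2 hpq
  set T : Finset ℕ := (Finset.range (p * q)).filter fun r => r % p ∈ S p ∧ r % q ∈ S q with hTd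
  have hTc : T.card = (S p).card * (S q).card := crt p q hp.pos hq.pos hco _ _ hS hT
  have hTr : T ⊆ Finset.range (p * q) := Finset.filter_subset _ _
  have hpp := count_set p M (S p) hp.pos hS
  have hqq := count_set q M (S q) hq.pos hT
  have hpq' := count_set (p * q) M T (Nat.mul_pos hp.pos hq.pos) hTr
  set Np : ℝ := (((Finset.Icc 1 M).filter fun u => u % p ∈ S p).card : ℝ) with hNp
  set Nq : ℝ := (((Finset.Icc 1 M).filter fun u => u % q ∈ S q).card : ℝ) with hNq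
  set Npq : ℝ := (((Finset.Icc 1 M).filter fun u => u % (p * q) ∈ T).card : ℝ) with hNpq
  set a : ℝ := ((S p).card : ℝ) with ha
  set b : ℝ := ((S q).card : ℝ) with hb
  have hmem : ∀ u : ℕ, (u % (p * q) ∈ T ↔ u % p ∈ S p ∧ u % q ∈ S q) := by
    intro u
    rw [hTd, Finset.mem_filter, Finset.mem_range]
    have h1 : u % (p * q) % p = u % p := Nat.mod_mul_right_mod u p q
    have h2 : u % (p * q) % q = u % q := Nat.mod_mul_left_mod u p q
    rw [h1, h2]
    exact ⟨fun h => h.2, fun h => ⟨Nat.mod_lt _ (Nat.mul_pos hp.pos hq.pos), h⟩⟩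
  have hsum : ∑ u ∈ Finset.Icc 1 M, J S p u * J S q u =
      Npq - (b / q) * Np - (a / p) * Nq + M * ((a / p) * (b / q)) := by
    have h1 : ∀ u, J S p u * J S q u =
        (if u % (p * q) ∈ T then (1 : ℝ) else 0) - (b / q) * (if u % p ∈ S p then (1 : ℝ) else 0) -
          (a / p) * (if u % q ∈ S q then (1 : ℝ) else 0) + (a / p) * (b / q) := by
      intro u
      unfold J
      rw [← ha, ← hb]
      by_cases h1 : u % p ∈ S p
      · by_cases h2 : u % q ∈ S q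
        · rw [if_pos h1, if_pos h2, if_pos ((hmem u).2 ⟨h1, h2⟩)]; ring
        · rw [if_pos h1, if_neg h2, if_neg (fun h => h2 ((hmem u).1 h).2)]; ring
      · by_cases h2 : u % q ∈ S q
        · rw [if_neg h1, if_pos h2, if_neg (fun h => h1 ((hmem u).1 h).1)]; ring
        · rw [if_neg h1, if_neg h2, if_neg (fun h => h1 ((hmem u).1 h).1)]; ring
    simp_rw [h1]
    rw [Finset.sum_add_distrib, Finset.sum_sub_distrib, Finset.sum_sub_distrib, ← Finset.mul_sum,
      ← Finset.mul_sum, sum_ind, sum_ind, sum_ind, Finset.sum_const, Nat.card_Icc, nsmul_eq_mul]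
    simp [hNp, hNq, hNpq]
  rw [hsum]
  have ha0 : 0 ≤ a := by positivity
  have hb0 : 0 ≤ b := by positivity
  have e1 : (M : ℝ) * T.card / ((p * q : ℕ) : ℝ) = M * ((a / p) * (b / q)) := by
    rw [hTc]; push_cast; rw [← ha, ← hb]; field_simp
  have e2 : (T.card : ℝ) = a * b := by rw [hTc]; push_cast; rfl
  rw [e1, e2] at hpq'
  have e3 : (M : ℝ) * a / p = M * (a / p) := by ring
  have e4 : (M : ℝ) * b / q = M * (b / q) := by ring
  rw [e3] at hpp
  rw [e4] at hqq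
  have hp2 : (2 : ℝ) ≤ p := by exact_mod_cast hp.two_le
  have hq2 : (2 : ℝ) ≤ q := by exact_mod_cast hq.two_le
  have key : Npq - (b / q) * Np - (a / p) * Nq + M * ((a / p) * (b / q)) =
      (Npq - M * ((a / p) * (b / q))) - (b / q) * (Np - M * (a / p)) -
        (a / p) * (Nq - M * (b / q)) := by ring
  rw [key]
  have hbq : 0 ≤ b / q := by positivity
  have hap : 0 ≤ a / p := by positivity
  have k1 : |(b / q) * (Np - M * (a / p))| ≤ (b / q) * a := by
    rw [abs_mul, abs_of_nonneg hbq]; exact mul_le_mul_of_nonneg_left hpp hbq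
  have k2 : |(a / p) * (Nq - M * (b / q))| ≤ (a / p) * b := by
    rw [abs_mul, abs_of_nonneg hap]; exact mul_le_mul_of_nonneg_left hqq hap
  have k3 : (b / q) * a ≤ a * b / 2 := by
    rw [div_mul_eq_mul_div, div_le_div_iff₀ hq0 (by norm_num)]
    nlinarith [mul_nonneg ha0 hb0]
  have k4 : (a / p) * b ≤ a * b / 2 := by
    rw [div_mul_eq_mul_div, div_le_div_iff₀ hp0 (by norm_num)]
    nlinarith [mul_nonneg ha0 hb0]
  have t1 := abs_sub (Npq - M * ((a / p) * (b / q)) - (b / q) * (Np - M * (a / p)))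
    ((a / p) * (Nq - M * (b / q)))
  have t2 := abs_sub (Npq - M * ((a / p) * (b / q))) ((b / q) * (Np - M * (a / p)))
  linarith

theorem sq_expand (P0 : Finset ℕ) (θ : ℕ → ℂ) (j : ℕ → ℝ) :
    ((‖∑ p ∈ P0, θ p * (j p : ℂ)‖ ^ 2 : ℝ) : ℂ) =
      ∑ p ∈ P0, ∑ q ∈ P0, θ p * conj (θ q) * ((j p * j q : ℝ) : ℂ) := by
  rw [Complex.ofReal_pow, ← Complex.mul_conj' , map_sum, Finset.sum_mul_sum]
  refine Finset.sum_congr rfl fun p _ => Finset.sum_congr rfl fun q _ => ?_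
  rw [map_mul, Complex.conj_ofReal]
  push_cast
  ring

end IDTk

open IDTk in
theorem pr_DTk : StDTk := by
  intro P0 S θ M hP hS hθ
  have hrew : ∀ u, (∑ p ∈ P0, if u % p ∈ S p then θ p else 0) -
      ∑ p ∈ P0, ((S p).card : ℂ) * θ p / p = ∑ p ∈ P0, θ p * ((J S p u : ℝ) : ℂ) := by
    intro u
    rw [← Finset.sum_sub_distrib]
    refine Finset.sum_congr rfl fun p _ => ?_
    unfold J
    split_ifs <;> push_cast <;> ring
  simp_rw [hrew]
  have h1 : ((∑ u ∈ Finset.Icc 1 M, ‖∑ p ∈ P0, θ p * ((J S p u : ℝ) : ℂ)‖ ^ 2 : ℝ) : ℂ) =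
      ∑ p ∈ P0, ∑ q ∈ P0, θ p * conj (θ q) *
        ((∑ u ∈ Finset.Icc 1 M, J S p u * J S q u : ℝ) : ℂ) := by
    rw [Complex.ofReal_sum]
    simp_rw [sq_expand]
    rw [Finset.sum_comm]
    refine Finset.sum_congr rfl fun p _ => ?_
    rw [Finset.sum_comm]
    refine Finset.sum_congr rfl fun q _ => ?_
    rw [Complex.ofReal_sum, Finset.mul_sum]
  have h2 : ∑ u ∈ Finset.Icc 1 M, ‖∑ p ∈ P0, θ p * ((J S p u : ℝ) : ℂ)‖ ^ 2 ≤
      ∑ p ∈ P0, ∑ q ∈ P0, ‖θ p‖ * ‖θ q‖ * |∑ u ∈ Finset.Icc 1 M, J S p u * J S q u| := by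
    have h3 : ∑ u ∈ Finset.Icc 1 M, ‖∑ p ∈ P0, θ p * ((J S p u : ℝ) : ℂ)‖ ^ 2 =
        ‖((∑ u ∈ Finset.Icc 1 M, ‖∑ p ∈ P0, θ p * ((J S p u : ℝ) : ℂ)‖ ^ 2 : ℝ) : ℂ)‖ := by
      rw [Complex.norm_real, Real.norm_of_nonneg]
      exact Finset.sum_nonneg fun _ _ => by positivity
    rw [h3, h1]
    refine (norm_sum_le _ _).trans (Finset.sum_le_sum fun p _ => ?_)
    refine (norm_sum_le _ _).trans (Finset.sum_le_sum fun q _ => ?_)
    rw [norm_mul, norm_mul, RCLike.norm_conj, Complex.norm_real, Real.norm_eq_abs]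
  refine h2.trans ?_
  -- bound of one entry
  have h3 : ∀ p ∈ P0, ∀ q ∈ P0, ‖θ p‖ * ‖θ q‖ * |∑ u ∈ Finset.Icc 1 M, J S p u * J S q u| ≤
      (if p = q then 2 * M * (((S p).card : ℝ) * ‖θ p‖ ^ 2 / p) + 8 else 0) + 32 := by
    intro p hp q hq
    have hc2 : ((S p).card : ℝ) ≤ 2 := by exact_mod_cast (hS p hp).2
    have hd2 : ((S q).card : ℝ) ≤ 2 := by exact_mod_cast (hS q hq).2
    have hc0 : (0 : ℝ) ≤ (S p).card := by positivity
    have hd0 : (0 : ℝ) ≤ (S q).card := by positivity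
    have hp0 : (0 : ℝ) < p := by exact_mod_cast (hP p hp).pos
    by_cases hpq : p = q
    · subst hpq
      rw [if_pos rfl]
      have hdg := diag S M p (hP p hp) (hS p hp).1
      have hnn : 0 ≤ ∑ u ∈ Finset.Icc 1 M, J S p u * J S p u :=
        Finset.sum_nonneg fun u _ => mul_self_nonneg _
      rw [abs_of_nonneg hnn]
      have hθ2 : ‖θ p‖ * ‖θ p‖ ≤ 4 := by
        nlinarith [hθ p hp, norm_nonneg (θ p)]
      have e0 : 0 ≤ ‖θ p‖ * ‖θ p‖ := mul_self_nonneg _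
      have e1 : ‖θ p‖ * ‖θ p‖ * ∑ u ∈ Finset.Icc 1 M, J S p u * J S p u ≤
          ‖θ p‖ * ‖θ p‖ * (M * (((S p).card : ℝ) / p) + (S p).card) :=
        mul_le_mul_of_nonneg_left hdg e0
      have e2 : ‖θ p‖ * ‖θ p‖ * (M * (((S p).card : ℝ) / p)) =
          M * (((S p).card : ℝ) * ‖θ p‖ ^ 2 / p) := by ring
      have e3 : 0 ≤ M * (((S p).card : ℝ) * ‖θ p‖ ^ 2 / p) := by positivity
      have e4 : ‖θ p‖ * ‖θ p‖ * ((S p).card : ℝ) ≤ 4 * 2 :=
        mul_le_mul hθ2 hc2 hc0 (by norm_num)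
      have e5 : ‖θ p‖ * ‖θ p‖ * (M * (((S p).card : ℝ) / p) + (S p).card) =
          M * (((S p).card : ℝ) * ‖θ p‖ ^ 2 / p) + ‖θ p‖ * ‖θ p‖ * ((S p).card : ℝ) := by
        rw [mul_add, e2]
      linarith
    · rw [if_neg hpq, zero_add]
      have hod := offdiag S M p q (hP p hp) (hP q hq) hpq (hS p hp).1 (hS q hq).1
      have e1 : ‖θ p‖ * ‖θ q‖ ≤ 2 * 2 :=
        mul_le_mul (hθ p hp) (hθ q hq) (norm_nonneg _) (by norm_num)
      have e2 : ((S p).card : ℝ) * (S q).card ≤ 2 * 2 := mul_le_mul hc2 hd2 hd0 (by norm_num)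
      calc ‖θ p‖ * ‖θ q‖ * |∑ u ∈ Finset.Icc 1 M, J S p u * J S q u|
          ≤ (2 * 2) * (2 * (((S p).card : ℝ) * (S q).card)) :=
            mul_le_mul e1 hod (abs_nonneg _) (by norm_num)
        _ ≤ 32 := by linarith
  have h4 : ∑ p ∈ P0, ∑ q ∈ P0, ‖θ p‖ * ‖θ q‖ * |∑ u ∈ Finset.Icc 1 M, J S p u * J S q u| ≤
      ∑ p ∈ P0, ∑ q ∈ P0,
        ((if p = q then 2 * M * (((S p).card : ℝ) * ‖θ p‖ ^ 2 / p) + 8 else 0) + 32) :=
    Finset.sum_le_sum fun p hp => Finset.sum_le_sum fun q hq => h3 p hp q hq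
  refine h4.trans ?_
  have h5 : ∑ p ∈ P0, ∑ q ∈ P0,
        ((if p = q then 2 * M * (((S p).card : ℝ) * ‖θ p‖ ^ 2 / p) + 8 else 0) + 32) =
      2 * M * (∑ p ∈ P0, ((S p).card : ℝ) * ‖θ p‖ ^ 2 / p) + 8 * P0.card +
        32 * (P0.card : ℝ) ^ 2 := by
    simp_rw [Finset.sum_add_distrib, Finset.sum_const, nsmul_eq_mul]
    have : ∀ p ∈ P0, ∑ q ∈ P0,
        (if p = q then 2 * (M : ℝ) * (((S p).card : ℝ) * ‖θ p‖ ^ 2 / p) + 8 else 0) =
        2 * (M : ℝ) * (((S p).card : ℝ) * ‖θ p‖ ^ 2 / p) + 8 := by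
      intro p hp
      rw [Finset.sum_ite_eq, if_pos hp]
    rw [Finset.sum_congr rfl this, Finset.sum_add_distrib, ← Finset.mul_sum, Finset.sum_const,
      nsmul_eq_mul]
    ring
  rw [h5]
  have h6 : (P0.card : ℝ) ≤ (P0.card : ℝ) ^ 2 := by
    have : P0.card ≤ P0.card ^ 2 := Nat.le_self_pow (by norm_num) _
    exact_mod_cast this
  linarith

end Pool.Agent.F0f91f8.HD
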