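import Pool.Agent.Work.MP_0f91f8_co.HD.StmtsD

/-!
# Half density, module D, item DTl: the tail of the distance
-/

set_option autoImplicit false

namespace Pool.Agent.F0f91f8.HD

open Filter Topology ComplexConjugate
open scoped BigOperators

namespace IDTl

/-- the term of the tail -/
noncomputable def tm (g : ℕ → ℂ) (K : ℕ) (p : Nat.Primes) : ℝ :=
  if K < (p : ℕ) then ‖1 - g p‖ ^ 2 / ((p : ℕ) : ℝ) else 0

theorem tm_nonneg (g : ℕ → ℂ) (K : ℕ) (p : Nat.Primes) : 0 ≤ tm g K p := by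
  unfold tm
  split_ifs
  · positivity
  · exact le_refl _

theorem tm_le (g : ℕ → ℂ) (K : ℕ) (p : Nat.Primes) :
    tm g K p ≤ ‖1 - g p‖ ^ 2 / ((p : ℕ) : ℝ) := by
  unfold tm
  split_ifs
  · exact le_refl _
  · positivity

theorem tm_sum {g : ℕ → ℂ} (hg : G1 g) (K : ℕ) : Summable (tm g K) :=
  Summable.of_nonneg_of_le (tm_nonneg g K) (tm_le g K) hg.sm

theorem tm_anti (g : ℕ → ℂ) {K L : ℕ} (h : K ≤ L) (p : Nat.Primes) : tm g L p ≤ tm g K p := by
  unfold tm
  split_ifs with h1 h2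
  · exact le_refl _
  · omega
  · positivity
  · exact le_refl _

theorem tl_eq (g : ℕ → ℂ) (K : ℕ) : tl g K = ∑' p, tm g K p := rfl

theorem tl_nonneg (g : ℕ → ℂ) (K : ℕ) : 0 ≤ tl g K := tsum_nonneg (tm_nonneg g K)

theorem tl_tendsto {g : ℕ → ℂ} (hg : G1 g) : Tendsto (tl g) atTop (𝓝 0) := by
  have h : Tendsto (fun K => ∑' p, tm g K p) atTop (𝓝 (∑' _ : Nat.Primes, (0 : ℝ))) := by
    refine tendsto_tsum_of_dominated_convergence hg.sm (fun p => ?_)
      (Eventually.of_forall fun K p => ?_)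
    · refine tendsto_const_nhds.congr' ?_
      filter_upwards [eventually_ge_atTop (p : ℕ)] with K hK
      unfold tm
      rw [if_neg (by omega)]
    · rw [Real.norm_of_nonneg (tm_nonneg g K p)]
      exact tm_le g K p
  rw [tsum_zero] at h
  exact h

theorem re_le {g : ℕ → ℂ} (hg : CM g) (p : ℕ) : (g p - 1).re ≤ 0 := by
  have h : ‖g p‖ ≤ 1 := by
    rcases Nat.eq_zero_or_pos p with h0 | h0
    · rw [h0, hg.1, norm_zero]
      exact zero_le_one
    · rw [hg.2.2 p h0]
  have h2 := Complex.re_le_norm (g p)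
  rw [Complex.sub_re, Complex.one_re]
  linarith

end IDTl

theorem pr_DTl : StDTl := by
  intro g hg
  refine ⟨IDTl.tl_nonneg g, fun K L hKL => ?_, IDTl.tl_tendsto hg, ?_, ?_, ?_, ?_⟩
  · exact Summable.tsum_le_tsum (IDTl.tm_anti g hKL) (IDTl.tm_sum hg L) (IDTl.tm_sum hg K)
  · have h1 : Tendsto (fun K : ℕ => tl g K + 1 / (K : ℝ)) atTop (𝓝 (0 + 0)) :=
      (IDTl.tl_tendsto hg).add tendsto_one_div_atTop_nhds_zero_nat
    rw [add_zero] at h1
    have h2 := h1.sqrt
    rw [Real.sqrt_zero] at h2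
    exact h2
  · intro K S hS
    have h1 : ∑ p ∈ S, ‖1 - g p‖ ^ 2 / (p : ℝ) =
        ∑ p ∈ S.subtype Nat.Prime, IDTl.tm g K (p : Nat.Primes) := by
      rw [← Finset.sum_subtype_of_mem (fun p => ‖1 - g p‖ ^ 2 / (p : ℝ)) (fun p hp => (hS p hp).1)]
      refine Finset.sum_congr rfl fun p hp => ?_
      unfold IDTl.tm
      rw [if_pos (hS p (Finset.mem_subtype.1 hp)).2]
    rw [h1]
    have h2 : ∀ T : Finset Nat.Primes, ∑ p ∈ T, IDTl.tm g K p ≤ ∑' p : Nat.Primes, IDTl.tm g K p :=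
      fun T => (IDTl.tm_sum hg K).sum_le_tsum T fun p _ => IDTl.tm_nonneg g K p
    exact h2 (S.subtype Nat.Prime)
  · intro K M
    constructor
    · unfold cL
      rw [Complex.norm_exp, Real.exp_le_one_iff, Complex.re_sum]
      refine Finset.sum_nonpos fun p _ => ?_
      rw [Complex.div_natCast_re]
      exact div_nonpos_of_nonpos_of_nonneg (IDTl.re_le hg.cm p) (Nat.cast_nonneg _)
    · unfold cQ
      rw [Complex.norm_exp, Real.exp_le_one_iff, Complex.re_sum]
      refine Finset.sum_nonpos fun p _ => ?_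
      rw [Complex.div_natCast_re]
      refine div_nonpos_of_nonpos_of_nonneg ?_ (Nat.cast_nonneg _)
      have h := IDTl.re_le hg.cm p
      have h2 : (2 * (g p - 1)).re = 2 * (g p - 1).re := by
        simp
      rw [h2]
      linarith
  · intro K hK
    have h0 := IDTl.tl_nonneg g K
    have hK0 : (0 : ℝ) < K := by exact_mod_cast hK
    have h1 : er g K ^ 2 = tl g K + 1 / (K : ℝ) := by
      unfold er
      exact Real.sq_sqrt (by positivity)
    rw [h1]
    constructor
    · have : 0 < 1 / (K : ℝ) := by positivity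
      linarith
    · linarith

end Pool.Agent.F0f91f8.HD
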