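import Pool.Agent.Work.MP_0f91f8_co.HD.StmtsD

/-!
# Half density, module D, item DVe: `VY` does not depend on the class
-/

set_option autoImplicit false

namespace Pool.Agent.F0f91f8.HD

open Filter Topology ComplexConjugate
open scoped BigOperators

namespace IDVe

theorem BR_const (Q D a₀ M : ℕ) (hM : 0 < M) (H : ℕ → ℝ) :
    (BR Q D a₀ M fun a _ => H a) =
      (∑ v ∈ Finset.Icc 1 (D * M), ∑ v' ∈ Finset.Icc 1 (D * M), H (Q * (v + v') + a₀)) /
        ((D * M : ℕ) : ℝ) ^ 2 := by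
  unfold BR
  simp only [Finset.sum_const, Nat.card_Icc, Nat.add_sub_cancel, nsmul_eq_mul]
  have hMr : (M : ℝ) ≠ 0 := by exact_mod_cast hM.ne'
  rw [← mul_assoc, ← pow_two, mul_div_mul_left _ _ (pow_ne_zero 2 hMr)]

theorem EA_sub_le (Q D a₀ M : ℕ) (hM : 0 < M) (F G : ℕ → ℂ) :
    ‖EA Q D a₀ M F - EA Q D a₀ M G‖ ≤ BR Q D a₀ M fun a _ => ‖F a - G a‖ := by
  rw [BR_const Q D a₀ M hM]
  unfold EA
  rw [← sub_div, norm_div, norm_pow, ← Finset.sum_sub_distrib]
  have h1 : ‖((D * M : ℕ) : ℂ)‖ = ((D * M : ℕ) : ℝ) := by simp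
  rw [h1]
  apply div_le_div_of_nonneg_right _ (by positivity)
  refine (norm_sum_le _ _).trans (Finset.sum_le_sum fun v _ => ?_)
  rw [← Finset.sum_sub_distrib]
  exact norm_sum_le _ _

theorem EA_mul (Q D a₀ M : ℕ) (c : ℂ) (F : ℕ → ℂ) :
    (EA Q D a₀ M fun a => c * F a) = c * EA Q D a₀ M F := by
  unfold EA
  simp_rw [← Finset.mul_sum]
  rw [mul_div_assoc]

theorem EA_congr (Q D a₀ M : ℕ) {F G : ℕ → ℂ}
    (h : ∀ b, 0 < b → F (Q * b + a₀) = G (Q * b + a₀)) :
    EA Q D a₀ M F = EA Q D a₀ M G := by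
  unfold EA
  congr 1
  refine Finset.sum_congr rfl fun v hv => Finset.sum_congr rfl fun v' _ => ?_
  rw [Finset.mem_Icc] at hv
  exact h _ (by omega)

theorem EN_le (M : ℕ) (F : ℕ → ℂ) (hF : ∀ n, 0 < n → ‖F n‖ ≤ 1) : ‖EN M F‖ ≤ 1 := by
  unfold EN
  rw [norm_div, norm_pow]
  have h1 : ‖((M : ℕ) : ℂ)‖ = (M : ℝ) := by simp
  rw [h1]
  apply div_le_one_of_le₀ _ (by positivity)
  refine (norm_sum_le _ _).trans ?_
  have h2 : ∀ u ∈ Finset.Icc 1 M, ‖∑ u' ∈ Finset.Icc 1 M, F (u + u')‖ ≤ M := by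
    intro u hu
    rw [Finset.mem_Icc] at hu
    refine (norm_sum_le _ _).trans ?_
    refine (Finset.sum_le_sum fun u' _ => hF (u + u') (by omega)).trans ?_
    rw [Finset.sum_const, Nat.card_Icc, nsmul_eq_mul, Nat.add_sub_cancel, mul_one]
  refine (Finset.sum_le_sum h2).trans ?_
  rw [Finset.sum_const, Nat.card_Icc, nsmul_eq_mul, Nat.add_sub_cancel, pow_two]

end IDVe

open IDVe in
theorem pr_DVe (hPd : StDPd) (hTl : StDTl) (hLm : StDLm) (hFc : StDFc) (hMd : StDMd)
    (hPe : StDPe) : StDVe := by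
  obtain ⟨C, hC, hLm⟩ := hLm
  refine ⟨2 * C, by positivity, ?_⟩
  intro g hg w K hw hwK η hη
  have hK : 0 < K := by omega
  have hw! : 0 < w.factorial := Nat.factorial_pos w
  have hDD : 0 < DD w K := by
    unfold DD
    positivity
  have hpw : ∀ p : ℕ, p.Prime → p ∣ w.factorial → p ≤ w := fun p hp h =>
    (hp.dvd_factorial).1 h
  obtain ⟨M1, hM1⟩ := hLm g hg K 1 1 w.factorial (DD w K) (by omega) one_pos one_pos hw! hDD
    (fun p hp h => by
      rw [one_mul] at h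
      exact (hpw p hp h).trans hwK) (η / 4) (by positivity)
  obtain ⟨M2, hM2⟩ := hPe g hg.cm w K w.factorial (DD w K) hw! hDD hpw (η / 4) (by positivity)
  refine ⟨max 1 (max M1 M2), ?_⟩
  intro M hM e' e''
  have hMpos : 0 < M := lt_of_lt_of_le one_pos ((le_max_left _ _).trans hM)
  have hMM1 : M1 ≤ M := ((le_max_left M1 M2).trans (le_max_right 1 _)).trans hM
  have hMM2 : M2 ≤ M := ((le_max_right M1 M2).trans (le_max_right 1 _)).trans hM
  obtain ⟨-, -, -, -, -, hcc, -⟩ := hTl g hg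
  obtain ⟨hcL, hcQ⟩ := hcc K M
  set e : Fin (w + 1) → Fin K := fun _ => ⟨0, hK⟩ with he
  -- the value of `VY`
  have hV : ∀ e₁ : Fin (K + 1) → Fin K, VY g w K e₁ M = cL g K M * conj (cQ g K M) *
      (EA w.factorial (DD w K) (inv0 w.factorial (kk w K e₁)) M g *
        EN M fun n => conj (gP g w K n)) := by
    intro e₁
    unfold VY BF
    rw [hPd]
  have hEN : ‖EN M fun n => conj (gP g w K n)‖ ≤ 1 := by
    refine EN_le M _ fun n hn => ?_
    rw [RCLike.norm_conj]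
    exact (hFc g hg.cm w K n hn hwK).2.1.le
  -- the average of `g`
  have hE : ∀ e₁ : Fin (K + 1) → Fin K,
      inv0 w.factorial (kk w K e₁) ≤ w.factorial ∧
      ‖EA w.factorial (DD w K) (inv0 w.factorial (kk w K e₁)) M g -
        cL g K M * EA w.factorial (DD w K) (inv0 w.factorial (kk w K e₁)) M (gP g w K)‖ ≤
        C * er g K + η / 4 := by
    intro e₁
    obtain ⟨-, -, -, hinv, -, hb⟩ := hMd w K e e₁ hwK
    refine ⟨hinv, ?_⟩
    obtain ⟨h1, -⟩ := hM1 M hMM1 _ hinv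
    set a₀ := inv0 w.factorial (kk w K e₁) with ha₀
    have h2 : EA w.factorial (DD w K) a₀ M g =
        EA w.factorial (DD w K) a₀ M fun a => gP g w K a * gT g K a := by
      refine EA_congr _ _ _ _ fun b hb' => ?_
      have hpos : 0 < w.factorial * b + a₀ := by
        have := Nat.mul_pos hw! hb'
        omega
      refine (hFc g hg.cm w K _ hpos hwK).1 fun p hp hpd => ?_
      by_contra hcon
      exact ((hb b 0).2.2.2.2 p hp (not_lt.1 hcon)).1 hpd
    rw [h2, ← EA_mul]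
    refine (EA_sub_le _ _ _ _ hMpos _ _).trans (le_trans ?_ h1)
    rw [BR_const _ _ _ _ hMpos, BR_const _ _ _ _ hMpos]
    apply div_le_div_of_nonneg_right _ (by positivity)
    refine Finset.sum_le_sum fun v hv => Finset.sum_le_sum fun v' _ => ?_
    rw [Finset.mem_Icc] at hv
    have hpos : 0 < w.factorial * (v + v') + a₀ := by
      have := Nat.mul_pos hw! (show 0 < v + v' by omega)
      omega
    have h3 := (hFc g hg.cm w K _ hpos hwK).2.1
    have h4 : gP g w K (w.factorial * (v + v') + a₀) * gT g K (w.factorial * (v + v') + a₀) -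
        cL g K M * gP g w K (w.factorial * (v + v') + a₀) =
        gP g w K (w.factorial * (v + v') + a₀) *
          (gT g K (w.factorial * (v + v') + a₀) - cL g K M) := by ring
    rw [h4, norm_mul, h3, one_mul]
  obtain ⟨hi1, hE1⟩ := hE e'
  obtain ⟨hi2, hE2⟩ := hE e''
  have hP := hM2 M hMM2 _ hi1 _ hi2
  set A1 := EA w.factorial (DD w K) (inv0 w.factorial (kk w K e')) M g with hA1
  set A2 := EA w.factorial (DD w K) (inv0 w.factorial (kk w K e'')) M g with hA2
  set B1 := EA w.factorial (DD w K) (inv0 w.factorial (kk w K e')) M (gP g w K) with hB1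
  set B2 := EA w.factorial (DD w K) (inv0 w.factorial (kk w K e'')) M (gP g w K) with hB2
  rw [hV e', hV e'', ← hA1, ← hA2, ← mul_sub, ← sub_mul, norm_mul, norm_mul, norm_mul]
  have h5 : ‖A1 - A2‖ ≤ 2 * C * er g K + η := by
    have h6 : A1 - A2 = (A1 - cL g K M * B1) + cL g K M * (B1 - B2) - (A2 - cL g K M * B2) := by
      ring
    rw [h6]
    have h7 : ‖cL g K M * (B1 - B2)‖ ≤ η / 4 := by
      rw [norm_mul]
      exact (mul_le_of_le_one_left (norm_nonneg _) hcL).trans hP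
    refine (norm_sub_le _ _).trans ?_
    have h8 := norm_add_le (A1 - cL g K M * B1) (cL g K M * (B1 - B2))
    linarith
  have h9 : ‖cL g K M‖ * ‖conj (cQ g K M)‖ ≤ 1 := by
    rw [RCLike.norm_conj]
    exact mul_le_one₀ hcL (norm_nonneg _) hcQ
  have h10 : ‖A1 - A2‖ * ‖EN M fun n => conj (gP g w K n)‖ ≤ ‖A1 - A2‖ :=
    mul_le_of_le_one_right (norm_nonneg _) hEN
  calc ‖cL g K M‖ * ‖conj (cQ g K M)‖ * (‖A1 - A2‖ * ‖EN M fun n => conj (gP g w K n)‖)
      ≤ 1 * ‖A1 - A2‖ := mul_le_mul h9 h10 (by positivity) zero_le_one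
    _ ≤ 2 * C * er g K + η := by rw [one_mul]; exact h5

end Pool.Agent.F0f91f8.HD
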