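import Pool.Agent.Work.MP_0f91f8_co.HD.StmtsD2

/-!
# Item DXm of the block HD, module D (helper32): the correlation `x, y`
-/

set_option autoImplicit false

namespace Pool.Agent.F0f91f8.HD

open Filter Topology ComplexConjugate
open scoped BigOperators

namespace IDXm

/-- monotonicity of `BR` on the values which really occur -/
theorem BR_mono (Q D a₀ M : ℕ) (F G : ℕ → ℕ → ℝ)
    (h : ∀ b n : ℕ, 0 < b → 0 < n → F (Q * b + a₀) n ≤ G (Q * b + a₀) n) :
    BR Q D a₀ M F ≤ BR Q D a₀ M G := by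
  unfold BR
  apply div_le_div_of_nonneg_right _ (by positivity)
  refine Finset.sum_le_sum fun u hu => Finset.sum_le_sum fun u' hu' =>
    Finset.sum_le_sum fun v hv => Finset.sum_le_sum fun v' hv' => ?_
  rw [Finset.mem_Icc] at hu hu' hv hv'
  apply h
  · omega
  · omega

/-- linearity of `BR` in the shape which is used -/
theorem BR_lin (hBx : StDBx) (Q D a₀ M : ℕ) (hD : 0 < D) (hM : 0 < M) (c : ℝ)
    (F₁ F₂ F₃ F₄ : ℕ → ℕ → ℝ) :
    (BR Q D a₀ M fun a n => c + 2 * F₁ a n + 2 * F₂ a n + F₃ a n + F₄ a n) =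
      c + 2 * BR Q D a₀ M F₁ + 2 * BR Q D a₀ M F₂ + BR Q D a₀ M F₃ + BR Q D a₀ M F₄ := by
  obtain ⟨-, -, -, -, hadd, hmul, hone⟩ := hBx Q D a₀ M
  have h1 : (BR Q D a₀ M fun _ _ => c) = c := by
    have h := hmul c (fun _ _ => 1)
    rw [(hone hD hM).2] at h
    simpa using h
  have e1 := hadd (fun a n => c + 2 * F₁ a n + 2 * F₂ a n + F₃ a n) F₄
  have e2 := hadd (fun a n => c + 2 * F₁ a n + 2 * F₂ a n) F₃
  have e3 := hadd (fun a n => c + 2 * F₁ a n) (fun a n => 2 * F₂ a n)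
  have e4 := hadd (fun _ _ => c) (fun a n => 2 * F₁ a n)
  have m1 := hmul 2 F₁
  have m2 := hmul 2 F₂
  linarith

/-- the family bound: averaging the pointwise bound -/
theorem avg (hBx : StDBx) (w K M : ℕ) (hD : 0 < DD w K) (hM : 0 < M)
    (e' : Fin (K + 1) → Fin K) (F G : ℕ → ℕ → ℂ) (c : ℂ) (A s p x y : ℝ)
    (F₁ F₂ F₃ F₄ : ℕ → ℕ → ℝ)
    (hpt : ∀ b n : ℕ, 0 < b → 0 < n →
      ‖F (w.factorial * b + inv0 w.factorial (kk w K e')) n -
        c * G (w.factorial * b + inv0 w.factorial (kk w K e')) n‖ ≤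
      A + 2 * F₁ (w.factorial * b + inv0 w.factorial (kk w K e')) n +
        2 * F₂ (w.factorial * b + inv0 w.factorial (kk w K e')) n +
        F₃ (w.factorial * b + inv0 w.factorial (kk w K e')) n +
        F₄ (w.factorial * b + inv0 w.factorial (kk w K e')) n)
    (h₁ : BR w.factorial (DD w K) (inv0 w.factorial (kk w K e')) M F₁ ≤ s)
    (h₂ : BR w.factorial (DD w K) (inv0 w.factorial (kk w K e')) M F₂ ≤ p)
    (h₃ : BR w.factorial (DD w K) (inv0 w.factorial (kk w K e')) M F₃ ≤ x)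
    (h₄ : BR w.factorial (DD w K) (inv0 w.factorial (kk w K e')) M F₄ ≤ y) :
    ‖BF w K e' M F - c * BF w K e' M G‖ ≤ A + 2 * s + 2 * p + x + y := by
  unfold BF
  set Q := w.factorial
  set D := DD w K
  set a₀ := inv0 Q (kk w K e')
  obtain ⟨hadd, hmul, hnorm, -, -, -, -⟩ := hBx Q D a₀ M
  have h0 : Bx Q D a₀ M F - c * Bx Q D a₀ M G =
      Bx Q D a₀ M (fun a n => F a n - c * G a n) := by
    have h1 := hadd F (fun a n => (-c) * G a n)
    have h2 := hmul (-c) G
    rw [h2] at h1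
    have h3 : (fun a n => F a n + -c * G a n) = (fun a n => F a n - c * G a n) := by
      funext a n; ring
    rw [h3] at h1
    rw [h1]; ring
  rw [h0]
  refine (hnorm _).trans ?_
  refine (BR_mono Q D a₀ M _ (fun a n => A + 2 * F₁ a n + 2 * F₂ a n + F₃ a n + F₄ a n)
    (fun b n hb hn => hpt b n hb hn)).trans ?_
  rw [BR_lin hBx Q D a₀ M hD hM]
  linarith

theorem DD_pos (w K : ℕ) (hK : 0 < K) : 0 < DD w K := by
  unfold DD
  have := Nat.factorial_pos w
  positivity

/-- `CX` for one pair `e, e'` -/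
theorem one (hBx : StDBx) (hSz : StDSz) (hMd : StDMd) (hPX : StDPX)
    (f g : ℕ → ℂ) (t : ℝ) (q : ℕ) (hdec : Dec f g t q) (w K : ℕ) (hw : 2 ≤ w) (hwK : w ≤ K)
    (hq : q ∣ w.factorial) (M : ℕ) (hM : 0 < M) (e : Fin (w + 1) → Fin K)
    (e' : Fin (K + 1) → Fin K) (p x : ℝ)
    (hp : (BR w.factorial (DD w K) (inv0 w.factorial (kk w K e')) M fun _ n => iPq w n) ≤ p)
    (h₃ : (BR w.factorial (DD w K) (inv0 w.factorial (kk w K e')) M fun a n =>
      ‖gT g K (kk w K e' * a + w.factorial * kp w K e * n) - cL g K M‖) ≤ x)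
    (h₄ : (BR w.factorial (DD w K) (inv0 w.factorial (kk w K e')) M fun a n =>
      ‖gT g K (kk w K e' * a + 2 * (w.factorial * kp w K e * n)) - cL g K M‖) ≤ x) :
    ‖CX f w K e e' M - f (kp w K e) * UX f g t w K e' M‖ ≤
      10 * |t| / K + 2 * (1 / (K : ℝ)) + 2 * p + x + x := by
  obtain ⟨-, hkk, -⟩ := hMd w K e e' hwK
  have hK : 0 < K := by omega
  have hrew : CX f w K e e' M - f (kp w K e) * UX f g t w K e' M =
      BF w K e' M (fun a n => f (tX (w.factorial * kp w K e) (kk w K e') a n) *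
        conj (f (tY (w.factorial * kp w K e) (kk w K e') a n))) -
      (f (kp w K e) * (f (2 * w.factorial) * conj (g (kk w K e')) *
        (cL g K M * conj (cL g K M)))) *
      BF w K e' M (fun a n => f n * conj (((kk w K e' * a : ℕ) : ℂ) ^ (t * Complex.I)) *
        conj (g a)) := by
    unfold CX UX; ring
  rw [hrew]
  refine avg hBx w K M (DD_pos w K hK) hM e' _ _ _ (10 * |t| / K) (1 / (K : ℝ)) p x x
    (fun a n => if K * (w.factorial * kp w K e * n) > 2 * (kk w K e' * a) then 1 else 0)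
    (fun _ n => iPq w n)
    (fun a n => ‖gT g K (kk w K e' * a + w.factorial * kp w K e * n) - cL g K M‖)
    (fun a n => ‖gT g K (kk w K e' * a + 2 * (w.factorial * kp w K e * n)) - cL g K M‖)
    ?_ ?_ hp h₃ h₄
  · intro b n hb hn
    have h := hPX f g t q hdec w K hw hwK hq e e' M
      (w.factorial * b + inv0 w.factorial (kk w K e')) b n rfl
      (by have := Nat.mul_pos (Nat.factorial_pos w) hb; omega) hn
    refine le_trans (le_of_eq ?_) h
    congr 1
    ring
  · exact hSz w K e (kk w K e') M (inv0 w.factorial (kk w K e')) (by omega) hM hkk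

/-- a common threshold for finitely many parameters -/
theorem common {ι : Type*} [Finite ι] (P : ι → ℕ → Prop)
    (h : ∀ i, ∃ M0 : ℕ, ∀ M ≥ M0, P i M) : ∃ M0 : ℕ, ∀ M ≥ M0, ∀ i, P i M := by
  choose N hN using h
  obtain ⟨B, hB⟩ := (Set.finite_range N).bddAbove
  exact ⟨B, fun M hM i => hN i M (le_trans (hB ⟨i, rfl⟩) hM)⟩

theorem final (t E w K C η : ℝ) (hE : 0 ≤ E) (hw : 0 < w) (hK : 0 < K) (hC : 0 < C)
    (ht : 0 ≤ t) :
    10 * t / K + 2 * (1 / K) + 2 * (1 / w + η / 4) + (C * E + η / 4) + (C * E + η / 4) ≤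
      (12 + 2 * C) * (E + 1 / w + (1 + t) / K) + η := by
  have h1 : 0 ≤ 1 / w := by positivity
  have h2 : 0 ≤ 1 / K := by positivity
  have h3 : 0 ≤ t / K := by positivity
  have e1 : 10 * t / K = 10 * (t / K) := by ring
  have e2 : (1 + t) / K = 1 / K + t / K := by ring
  rw [e1, e2]
  nlinarith [mul_nonneg hC.le h1, mul_nonneg hC.le h2, mul_nonneg hC.le h3, mul_nonneg hC.le hE]

end IDXm

/-- the correlation `x, y` of a pretentious function, main term and error -/
theorem pr_DXm (hBx : StDBx) (hSz : StDSz) (hPq : StDPq) (hLm : StDLm) (hMd : StDMd)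
    (hPX : StDPX) : StDXm := by
  obtain ⟨C, hC, hLm⟩ := hLm
  refine ⟨12 + 2 * C, by positivity, ?_⟩
  intro f g t q hdec w K hw hwK hq η hη
  have hK : 0 < K := by omega
  have hw0 : 0 < w := by omega
  obtain ⟨M1, hM1⟩ := hPq w (by omega) (η / 4) (by positivity)
  have hpar : ∀ i : (Fin (w + 1) → Fin K) × (Fin (K + 1) → Fin K), ∃ M0 : ℕ, ∀ M ≥ M0,
      (BR w.factorial (DD w K) (inv0 w.factorial (kk w K i.2)) M fun a n =>
        ‖gT g K (kk w K i.2 * a + w.factorial * kp w K i.1 * n) - cL g K M‖) ≤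
          C * er g K + η / 4 ∧
      (BR w.factorial (DD w K) (inv0 w.factorial (kk w K i.2)) M fun a n =>
        ‖gT g K (kk w K i.2 * a + 2 * (w.factorial * kp w K i.1 * n)) - cL g K M‖) ≤
          C * er g K + η / 4 := by
    rintro ⟨e, e'⟩
    obtain ⟨-, hkk, hkp, hinv, hpr, -⟩ := hMd w K e e' hwK
    obtain ⟨M2, hM2⟩ := hLm g hdec.hg K (w.factorial * kp w K e) (kk w K e') w.factorial
      (DD w K) (by omega) (Nat.mul_pos (Nat.factorial_pos w) hkp) hkk (Nat.factorial_pos w)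
      (IDXm.DD_pos w K hK)
      (fun p hp hdvd => hpr p hp (by
        rcases (Nat.Prime.dvd_mul hp).1 hdvd with h | h
        · exact dvd_mul_of_dvd_left (dvd_mul_of_dvd_left h _) _
        · exact dvd_mul_of_dvd_right h _)) (η / 4) (by positivity)
    exact ⟨M2, fun M hM => (hM2 M hM _ hinv).2⟩
  obtain ⟨M3, hM3⟩ := IDXm.common _ hpar
  refine ⟨max (max M1 M3) 1, fun M hM e e' => ?_⟩
  have ha : M1 ≤ M := le_trans (le_trans (le_max_left _ _) (le_max_left _ _)) hM
  have hb : M3 ≤ M := le_trans (le_trans (le_max_right _ _) (le_max_left _ _)) hM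
  have hc : 0 < M := le_trans (le_max_right _ _) hM
  obtain ⟨h3, h4⟩ := hM3 M hb (e, e')
  refine (IDXm.one hBx hSz hMd hPX f g t q hdec w K hw hwK hq M hc e e' _ _
    (hM1 M ha _ _ _ (IDXm.DD_pos w K hK)) h3 h4).trans ?_
  unfold eT
  exact IDXm.final |t| (er g K) w K C η (Real.sqrt_nonneg _) (by exact_mod_cast hw0)
    (by exact_mod_cast hK) hC (abs_nonneg t)

end Pool.Agent.F0f91f8.HD
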