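import Pool.Agent.Work.MP_0f91f8_co.HD.StmtsD

/-!
# Half density, module D, item DZp: the probability that `p` divides the norm form
-/

set_option autoImplicit false

namespace Pool.Agent.F0f91f8.HD

open Filter Topology ComplexConjugate
open scoped BigOperators

namespace IDZp

/-- The sum over `u, v` for fixed `u', v'`. -/
theorem fixed_le (hLat : StDLat) {Q D κ k : ℕ} (hQ : 0 < Q) (hκ : 0 < κ) (hk : 0 < k)
    (hD : 0 < D) {M a₀ p : ℕ} (hM : 1 ≤ M) (ha : a₀ ≤ Q) (hp : p.Prime)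
    {u' v' : ℕ} (hu' : u' ∈ Finset.Icc 1 M) (hv' : v' ∈ Finset.Icc 1 (D * M)) :
    ∑ u ∈ Finset.Icc 1 M, ∑ v ∈ Finset.Icc 1 (D * M),
      (if p ∣ tZ κ k (Q * (v + v') + a₀) (u + u') then (1 : ℝ) else 0) ≤
      100 * (((3 * k * Q * D + 2 * κ : ℕ) : ℝ) * M) ^ 2 / p := by
  set C1 : ℕ := 3 * k * Q * D + 2 * κ with hC1
  set R : ℕ := C1 * M with hR
  have hbd : ∀ u ∈ Finset.Icc 1 M, ∀ v ∈ Finset.Icc 1 (D * M),
      k * (Q * (v + v') + a₀) + κ * (u + u') ∈ Finset.Icc 1 R ∧ κ * (u + u') ∈ Finset.Icc 1 R := by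
    intro u hu v hv
    rw [Finset.mem_Icc] at hu hv hu' hv'
    have h1 : Q * (v + v') + a₀ ≤ 3 * Q * D * M := by
      have h2 : Q * (v + v') ≤ Q * (2 * (D * M)) := Nat.mul_le_mul_left Q (by omega)
      have h3 : Q ≤ Q * (D * M) := Nat.le_mul_of_pos_right Q (Nat.mul_pos hD hM)
      have h4 : 3 * Q * D * M = Q * (2 * (D * M)) + Q * (D * M) := by ring
      omega
    have h5 : k * (Q * (v + v') + a₀) ≤ k * (3 * Q * D * M) := Nat.mul_le_mul_left k h1
    have h6 : κ * (u + u') ≤ κ * (2 * M) := Nat.mul_le_mul_left κ (by omega)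
    have h7 : R = k * (3 * Q * D * M) + κ * (2 * M) := by
      rw [hR, hC1]
      ring
    have h8 : 0 < κ * (u + u') := Nat.mul_pos hκ (by omega)
    rw [Finset.mem_Icc, Finset.mem_Icc]
    omega
  by_cases hpR : p ≤ 2 * R ^ 2
  · have hL := hLat p R hp hpR
    have h1 : ∑ u ∈ Finset.Icc 1 M, ∑ v ∈ Finset.Icc 1 (D * M),
        (if p ∣ tZ κ k (Q * (v + v') + a₀) (u + u') then (1 : ℝ) else 0) =
        (((Finset.Icc 1 M ×ˢ Finset.Icc 1 (D * M)).filter
          fun x => p ∣ tZ κ k (Q * (x.2 + v') + a₀) (x.1 + u')).card : ℝ) := by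
      rw [← Finset.sum_product' (f := fun u v =>
        (if p ∣ tZ κ k (Q * (v + v') + a₀) (u + u') then (1 : ℝ) else 0)), Finset.sum_boole]
    have h2 : (((Finset.Icc 1 M ×ˢ Finset.Icc 1 (D * M)).filter
          fun x => p ∣ tZ κ k (Q * (x.2 + v') + a₀) (x.1 + u')).card) ≤
        (((Finset.Icc 1 R ×ˢ Finset.Icc 1 R).filter fun x => p ∣ x.1 ^ 2 + x.2 ^ 2).card) := by
      refine Finset.card_le_card_of_injOn (fun x =>
        (k * (Q * (x.2 + v') + a₀) + κ * (x.1 + u'), κ * (x.1 + u'))) ?_ ?_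
      · intro x hx
        rw [Finset.mem_coe, Finset.mem_filter, Finset.mem_product] at hx
        rw [Finset.mem_coe, Finset.mem_filter, Finset.mem_product]
        have h3 := hbd x.1 hx.1.1 x.2 hx.1.2
        exact ⟨h3, hx.2⟩
      · intro x hx y hy h
        simp only [Prod.mk.injEq] at h
        obtain ⟨h3, h4⟩ := h
        have h5 : x.1 + u' = y.1 + u' := Nat.eq_of_mul_eq_mul_left hκ h4
        have h6 : k * (Q * (x.2 + v') + a₀) = k * (Q * (y.2 + v') + a₀) := by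
          rw [h4] at h3
          exact Nat.add_right_cancel h3
        have h7 := Nat.eq_of_mul_eq_mul_left hk h6
        have h8 : x.2 + v' = y.2 + v' :=
          Nat.eq_of_mul_eq_mul_left hQ (Nat.add_right_cancel h7)
        exact Prod.ext (by omega) (by omega)
    rw [h1]
    have h9 : ((((Finset.Icc 1 M ×ˢ Finset.Icc 1 (D * M)).filter
          fun x => p ∣ tZ κ k (Q * (x.2 + v') + a₀) (x.1 + u')).card : ℕ) : ℝ) ≤
        ((((Finset.Icc 1 R ×ˢ Finset.Icc 1 R).filter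
          fun x => p ∣ x.1 ^ 2 + x.2 ^ 2).card : ℕ) : ℝ) := by exact_mod_cast h2
    refine h9.trans (hL.trans ?_)
    rw [hR]
    push_cast
    exact le_refl _
  · have h1 : ∀ u ∈ Finset.Icc 1 M, ∀ v ∈ Finset.Icc 1 (D * M),
        (if p ∣ tZ κ k (Q * (v + v') + a₀) (u + u') then (1 : ℝ) else 0) = 0 := by
      intro u hu v hv
      obtain ⟨h2, h3⟩ := hbd u hu v hv
      rw [Finset.mem_Icc] at h2 h3
      rw [if_neg]
      intro hd
      have h4 : 0 < tZ κ k (Q * (v + v') + a₀) (u + u') := by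
        unfold tZ
        have : 0 < (κ * (u + u')) ^ 2 := by
          have : 0 < κ * (u + u') := by omega
          positivity
        omega
      have h5 := Nat.le_of_dvd h4 hd
      have h6 : tZ κ k (Q * (v + v') + a₀) (u + u') ≤ R ^ 2 + R ^ 2 := by
        unfold tZ
        exact Nat.add_le_add (Nat.pow_le_pow_left h2.2 2) (Nat.pow_le_pow_left h3.2 2)
      omega
    rw [Finset.sum_eq_zero fun u hu => Finset.sum_eq_zero fun v hv => h1 u hu v hv]
    positivity

end IDZp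

open IDZp in
theorem pr_DZp (hLat : StDLat) : StDZp := by
  intro Q D κ k hQ hD hκ hk
  set C1 : ℕ := 3 * k * Q * D + 2 * κ with hC1
  have hC1pos : 0 < C1 := by omega
  have hC1r : (0 : ℝ) < C1 := by exact_mod_cast hC1pos
  refine ⟨100 * (C1 : ℝ) ^ 2, by positivity, ?_⟩
  intro M hM a₀ ha
  have hMr : (0 : ℝ) < M := by exact_mod_cast (show 0 < M by omega)
  have hDr : (0 : ℝ) < D := by exact_mod_cast hD
  have hD1 : (1 : ℝ) ≤ D := by exact_mod_cast hD
  refine ⟨?_, ?_⟩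
  · intro p hp
    have hpr : (0 : ℝ) < p := by exact_mod_cast hp.pos
    unfold BR
    rw [div_le_iff₀ (by push_cast; positivity)]
    have h1 : ∑ u ∈ Finset.Icc 1 M, ∑ u' ∈ Finset.Icc 1 M, ∑ v ∈ Finset.Icc 1 (D * M),
        ∑ v' ∈ Finset.Icc 1 (D * M),
          (if p ∣ tZ κ k (Q * (v + v') + a₀) (u + u') then (1 : ℝ) else 0) =
        ∑ u' ∈ Finset.Icc 1 M, ∑ v' ∈ Finset.Icc 1 (D * M), ∑ u ∈ Finset.Icc 1 M,
          ∑ v ∈ Finset.Icc 1 (D * M),
          (if p ∣ tZ κ k (Q * (v + v') + a₀) (u + u') then (1 : ℝ) else 0) := by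
      rw [Finset.sum_comm]
      refine Finset.sum_congr rfl fun u' _ => ?_
      rw [Finset.sum_congr rfl fun u _ => Finset.sum_comm]
      rw [Finset.sum_comm]
    rw [h1]
    refine (Finset.sum_le_sum fun u' hu' => Finset.sum_le_sum fun v' hv' =>
      fixed_le hLat hQ hκ hk hD hM ha hp hu' hv').trans ?_
    rw [← hC1]
    simp only [Finset.sum_const, Nat.card_Icc, Nat.add_sub_cancel, nsmul_eq_mul]
    push_cast
    have h2 : (M : ℝ) * (D * M * (100 * (C1 * M) ^ 2 / p)) =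
        100 * (C1 : ℝ) ^ 2 / p * (M ^ 2 * (D * M) ^ 2) / D := by
      field_simp
    rw [h2]
    apply div_le_self (by positivity) hD1
  · intro u hu u' hu' v hv v' hv'
    rw [Finset.mem_Icc] at hu hv hu' hv'
    have h1 : Q * (v + v') + a₀ ≤ 3 * Q * D * M := by
      have h2 : Q * (v + v') ≤ Q * (2 * (D * M)) := Nat.mul_le_mul_left Q (by omega)
      have h3 : Q ≤ Q * (D * M) := Nat.le_mul_of_pos_right Q (Nat.mul_pos hD hM)
      have h4 : 3 * Q * D * M = Q * (2 * (D * M)) + Q * (D * M) := by ring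
      omega
    have h5 : k * (Q * (v + v') + a₀) ≤ k * (3 * Q * D * M) := Nat.mul_le_mul_left k h1
    have h6 : κ * (u + u') ≤ κ * (2 * M) := Nat.mul_le_mul_left κ (by omega)
    have h7 : C1 * M = k * (3 * Q * D * M) + κ * (2 * M) := by
      rw [hC1]
      ring
    have h8 : tZ κ k (Q * (v + v') + a₀) (u + u') ≤ (C1 * M) ^ 2 + (C1 * M) ^ 2 := by
      unfold tZ
      exact Nat.add_le_add (Nat.pow_le_pow_left (by omega) 2) (Nat.pow_le_pow_left (by omega) 2)
    have h9 : ((tZ κ k (Q * (v + v') + a₀) (u + u') : ℕ) : ℝ) ≤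
        (((C1 * M) ^ 2 + (C1 * M) ^ 2 : ℕ) : ℝ) := by exact_mod_cast h8
    refine h9.trans ?_
    push_cast
    nlinarith [sq_nonneg ((C1 : ℝ) * M)]

end Pool.Agent.F0f91f8.HD
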