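import Pool.Agent.Work.MP_0f91f8_co.HD.StmtsD

/-! Half density, module D: item DcD (helper83). -/

set_option autoImplicit false

namespace Pool.Agent.F0f91f8.HD

open Filter Topology ComplexConjugate
open scoped BigOperators

namespace DcD

theorem re_le {z : ℂ} (h : ‖z‖ = 1) (p : ℕ) : ((z - 1) / (p : ℂ)).re ≤ 0 := by
  have h1 : ((p : ℂ)) = (((p : ℝ)) : ℂ) := by push_cast; rfl
  rw [h1, Complex.div_ofReal_re, Complex.sub_re, Complex.one_re]
  refine div_nonpos_of_nonpos_of_nonneg ?_ (Nat.cast_nonneg _)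
  have := Complex.re_le_norm z
  rw [h] at this
  linarith

end DcD

open DcD in
theorem pr_DcD (hEx : StDEx) (hTl : StDTl) : StDcD := by
  intro g hg K D hD
  obtain ⟨htl0, -, htl, -, hsum, -, -⟩ := hTl g hg
  have hD1 : (1 : ℝ) ≤ D := by exact_mod_cast hD
  rw [Metric.tendsto_atTop]
  intro ε hε
  have hε2 : 0 < ε ^ 2 / (D + 1) := by positivity
  obtain ⟨L, hL⟩ := (htl.eventually (gt_mem_nhds hε2)).exists
  refine ⟨max (L ^ 4) 1, fun M hM => ?_⟩
  have hML : L ^ 4 ≤ M := le_trans (le_max_left _ _) hM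
  have hM1 : 1 ≤ M := le_trans (le_max_right _ _) hM
  rw [dist_zero_right]
  have hmem : ∀ {N p : ℕ}, p ∈ pr4 K N ↔ p.Prime ∧ K < p ∧ p ^ 4 ≤ N := by
    intro N p
    unfold pr4
    rw [Finset.mem_filter, Finset.mem_range]
    constructor
    · exact fun h => h.2
    · intro h
      refine ⟨?_, h⟩
      have : p ≤ p ^ 4 := Nat.le_self_pow (by norm_num) p
      omega
  have hsub : pr4 K M ⊆ pr4 K (D * M) := by
    intro p hp
    rw [hmem] at hp ⊢
    exact ⟨hp.1, hp.2.1, hp.2.2.trans (Nat.le_mul_of_pos_left M hD)⟩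
  set S := pr4 K (D * M) \ pr4 K M with hS
  have hSm : ∀ p ∈ S, p.Prime ∧ K < p ∧ M < p ^ 4 ∧ p ^ 4 ≤ D * M := by
    intro p hp
    rw [hS, Finset.mem_sdiff, hmem, hmem] at hp
    obtain ⟨⟨h1, h2, h3⟩, h4⟩ := hp
    refine ⟨h1, h2, ?_, h3⟩
    by_contra h5
    exact h4 ⟨h1, h2, not_lt.mp h5⟩
  have hneg : ∀ N : ℕ, (∑ p ∈ pr4 K N, (g p - 1) / (p : ℂ)).re ≤ 0 := by
    intro N
    rw [Complex.re_sum]
    refine Finset.sum_nonpos fun p hp => ?_
    rw [hmem] at hp
    exact re_le (hg.cm.2.2 p hp.1.pos) p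
  have h1 : ‖cL g K (D * M) - cL g K M‖ ≤ ∑ p ∈ S, ‖g p - 1‖ / p := by
    unfold cL
    refine (hEx.1 _ _ (hneg _) (hneg _)).trans ?_
    rw [← Finset.sum_sdiff hsub, add_sub_cancel_right]
    refine (norm_sum_le _ _).trans (le_of_eq ?_)
    refine Finset.sum_congr rfl fun p _ => ?_
    rw [norm_div, Complex.norm_natCast]
  have h2 : (∑ p ∈ S, ‖g p - 1‖ / (p : ℝ)) ^ 2 ≤
      (∑ p ∈ S, ‖1 - g p‖ ^ 2 / (p : ℝ)) * ∑ p ∈ S, 1 / (p : ℝ) := by
    refine Finset.sum_sq_le_sum_mul_sum_of_sq_eq_mul _ (fun p _ => by positivity)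
      (fun p _ => by positivity) fun p _ => ?_
    rw [norm_sub_rev, div_pow]
    ring
  have h3 : ∑ p ∈ S, ‖1 - g p‖ ^ 2 / (p : ℝ) ≤ tl g L := by
    refine hsum L S fun p hp => ?_
    obtain ⟨a1, a2, a3, a4⟩ := hSm p hp
    refine ⟨a1, ?_⟩
    by_contra h
    have : p ^ 4 ≤ L ^ 4 := Nat.pow_le_pow_left (not_lt.mp h) 4
    omega
  have h4 : ∑ p ∈ S, 1 / (p : ℝ) ≤ D := by
    rcases S.eq_empty_or_nonempty with he | hne
    · rw [he, Finset.sum_empty]; exact Nat.cast_nonneg _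
    · set n0 := S.min' hne with hn0
      have hn0S : n0 ∈ S := S.min'_mem hne
      obtain ⟨b1, b2, b3, b4⟩ := hSm n0 hn0S
      have hn0pos : 0 < n0 := b1.pos
      have hn0R : (0 : ℝ) < n0 := by exact_mod_cast hn0pos
      have hsubI : S ⊆ Finset.Icc n0 (D * n0) := by
        intro p hp
        obtain ⟨a1, a2, a3, a4⟩ := hSm p hp
        rw [Finset.mem_Icc]
        refine ⟨S.min'_le p hp, ?_⟩
        have h5 : p ^ 4 ≤ (D * n0) ^ 4 := by
          rw [mul_pow]
          refine a4.trans (Nat.mul_le_mul ?_ b3.le)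
          exact Nat.le_self_pow (by norm_num) D
        exact (Nat.pow_le_pow_iff_left (by norm_num)).mp h5
      have hcard : S.card ≤ D * n0 := by
        refine (Finset.card_le_card hsubI).trans ?_
        rw [Nat.card_Icc]
        omega
      calc ∑ p ∈ S, 1 / (p : ℝ) ≤ ∑ p ∈ S, 1 / (n0 : ℝ) := by
            refine Finset.sum_le_sum fun p hp => ?_
            refine one_div_le_one_div_of_le hn0R ?_
            exact_mod_cast S.min'_le p hp
        _ = (S.card : ℝ) * (1 / n0) := by rw [Finset.sum_const, nsmul_eq_mul]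
        _ ≤ ((D * n0 : ℕ) : ℝ) * (1 / n0) := by
            refine mul_le_mul_of_nonneg_right ?_ (by positivity)
            exact_mod_cast hcard
        _ = D := by push_cast; field_simp
  have h5 : (∑ p ∈ S, ‖g p - 1‖ / (p : ℝ)) ^ 2 < ε ^ 2 := by
    calc _ ≤ tl g L * D := h2.trans (mul_le_mul h3 h4 (Finset.sum_nonneg fun p _ => by positivity)
          (htl0 L))
      _ ≤ ε ^ 2 / (D + 1) * D := mul_le_mul_of_nonneg_right hL.le (Nat.cast_nonneg _)
      _ < ε ^ 2 := by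
          rw [div_mul_eq_mul_div, div_lt_iff₀ (by positivity)]
          have : 0 < ε ^ 2 := by positivity
          nlinarith
  exact lt_of_le_of_lt h1 (lt_of_pow_lt_pow_left₀ 2 hε.le h5)

end Pool.Agent.F0f91f8.HD
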