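import Pool.Agent.Work.MP_0f91f8_co.HD.I_DAr
import Pool.Agent.Work.MP_0f91f8_co.HD.I_DAv
import Pool.Agent.Work.MP_0f91f8_co.HD.I_DBx
import Pool.Agent.Work.MP_0f91f8_co.HD.I_DCt
import Pool.Agent.Work.MP_0f91f8_co.HD.I_DDe
import Pool.Agent.Work.MP_0f91f8_co.HD.I_DEx
import Pool.Agent.Work.MP_0f91f8_co.HD.I_DFc
import Pool.Agent.Work.MP_0f91f8_co.HD.I_DFi
import Pool.Agent.Work.MP_0f91f8_co.HD.I_DGc
import Pool.Agent.Work.MP_0f91f8_co.HD.I_DKp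
import Pool.Agent.Work.MP_0f91f8_co.HD.I_DL1
import Pool.Agent.Work.MP_0f91f8_co.HD.I_DL2
import Pool.Agent.Work.MP_0f91f8_co.HD.I_DL3
import Pool.Agent.Work.MP_0f91f8_co.HD.I_DL4
import Pool.Agent.Work.MP_0f91f8_co.HD.I_DLat
import Pool.Agent.Work.MP_0f91f8_co.HD.I_DLin
import Pool.Agent.Work.MP_0f91f8_co.HD.I_DLm
import Pool.Agent.Work.MP_0f91f8_co.HD.I_DLs
import Pool.Agent.Work.MP_0f91f8_co.HD.I_DMd
import Pool.Agent.Work.MP_0f91f8_co.HD.I_DOn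
import Pool.Agent.Work.MP_0f91f8_co.HD.I_DPX
import Pool.Agent.Work.MP_0f91f8_co.HD.I_DPY
import Pool.Agent.Work.MP_0f91f8_co.HD.I_DPZ
import Pool.Agent.Work.MP_0f91f8_co.HD.I_DPd
import Pool.Agent.Work.MP_0f91f8_co.HD.I_DPe
import Pool.Agent.Work.MP_0f91f8_co.HD.I_DPq
import Pool.Agent.Work.MP_0f91f8_co.HD.I_DQ1
import Pool.Agent.Work.MP_0f91f8_co.HD.I_DQ2
import Pool.Agent.Work.MP_0f91f8_co.HD.I_DQ3
import Pool.Agent.Work.MP_0f91f8_co.HD.I_DQ4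
import Pool.Agent.Work.MP_0f91f8_co.HD.I_DQd
import Pool.Agent.Work.MP_0f91f8_co.HD.I_DRt
import Pool.Agent.Work.MP_0f91f8_co.HD.I_DSp
import Pool.Agent.Work.MP_0f91f8_co.HD.I_DSz
import Pool.Agent.Work.MP_0f91f8_co.HD.I_DTk
import Pool.Agent.Work.MP_0f91f8_co.HD.I_DTl
import Pool.Agent.Work.MP_0f91f8_co.HD.I_DVe
import Pool.Agent.Work.MP_0f91f8_co.HD.I_DXm
import Pool.Agent.Work.MP_0f91f8_co.HD.I_DYm
import Pool.Agent.Work.MP_0f91f8_co.HD.I_DZm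
import Pool.Agent.Work.MP_0f91f8_co.HD.I_DZp
import Pool.Agent.Work.MP_0f91f8_co.HD.I_DcD

/-!
# Half density, module D: composition
-/

set_option autoImplicit false

namespace Pool.Agent.F0f91f8.HD

theorem all_DLs : StDLs := pr_DLs pr_DEx

theorem all_DLin : StDLin :=
  pr_DLin pr_DFc all_DLs pr_DTl (pr_DL1 pr_DCt) (pr_DL2 pr_DCt pr_DTl)
    (pr_DL3 pr_DTk pr_DEx pr_DTl pr_DCt) (pr_DL4 pr_DCt pr_DTl)

theorem all_DLm : StDLm := pr_DLm all_DLin (pr_DcD pr_DEx pr_DTl)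

theorem all_DZp : StDZp := pr_DZp pr_DLat

theorem all_DQd : StDQd :=
  pr_DQd pr_DBx all_DLs pr_DTl all_DZp pr_DGc (pr_DQ1 pr_DRt pr_DCt) (pr_DQ2 pr_DRt pr_DCt pr_DTl)
    (pr_DQ3 pr_DTk pr_DEx pr_DTl pr_DCt pr_DRt pr_DGc pr_DBx) (pr_DQ4 all_DZp pr_DTl pr_DBx)

theorem all_DXm : StDXm :=
  pr_DXm pr_DBx pr_DSz pr_DPq all_DLm pr_DMd (pr_DPX pr_DFc pr_DMd pr_DSp pr_DAr pr_DTl)

theorem all_DZm : StDZm :=
  pr_DZm (pr_DPZ pr_DFc pr_DMd pr_DSp pr_DAr pr_DTl) pr_DBx pr_DSz pr_DPq all_DLm all_DQd pr_DMd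

theorem all_DYm : StDYm :=
  pr_DYm (pr_DPY pr_DFc pr_DMd pr_DSp pr_DAr pr_DTl) pr_DBx pr_DSz pr_DPq all_DLm all_DQd pr_DMd

theorem all_DVe : StDVe := pr_DVe pr_DPd pr_DTl all_DLm pr_DFc pr_DMd pr_DPe

/-- MODULE D -/
theorem pr_PWPret : PWPret :=
  pr_DFi (pr_DAv pr_DBx) pr_DTl all_DXm all_DZm all_DYm all_DVe pr_DKp pr_DDe pr_DOn

end Pool.Agent.F0f91f8.HD
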