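import Pool.Agent.Work.MP_0f91f8_co.HD.StmtsC
import Pool.Agent.Work.MP_a8fbd7_nt.ZF.Stmts

set_option autoImplicit false

namespace Pool.Agent.F0f91f8.HD

open Filter Topology ComplexConjugate MeasureTheory
open scoped BigOperators

namespace XBL

theorem card_blk (a b : ℕ) (hab : a ≤ b) :
    (((Finset.Ioc a b).filter Nat.Prime).card : ℝ) =
      (Nat.primeCounting b : ℝ) - (Nat.primeCounting a : ℝ) := by
  have h1 : ∀ n : ℕ, Nat.primeCounting n = ((Finset.Ioc 0 n).filter Nat.Prime).card := by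
    intro n
    rw [Nat.primeCounting, Nat.primeCounting', Nat.count_eq_card_filter_range]
    congr 1
    ext p
    simp only [Finset.mem_filter, Finset.mem_range, Finset.mem_Ioc]
    constructor
    · rintro ⟨h, hp⟩
      exact ⟨⟨hp.pos, by omega⟩, hp⟩
    · rintro ⟨⟨_, h⟩, hp⟩
      exact ⟨by omega, hp⟩
  have h2 : (Finset.Ioc 0 b).filter Nat.Prime =
      (Finset.Ioc 0 a).filter Nat.Prime ∪ (Finset.Ioc a b).filter Nat.Prime := by
    rw [← Finset.filter_union, Finset.Ioc_union_Ioc_eq_Ioc (Nat.zero_le a) hab]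
  have h3 : Disjoint ((Finset.Ioc 0 a).filter Nat.Prime) ((Finset.Ioc a b).filter Nat.Prime) := by
    rw [Finset.disjoint_left]
    intro p hp hq
    simp only [Finset.mem_filter, Finset.mem_Ioc] at hp hq
    omega
  have h4 : Nat.primeCounting b = Nat.primeCounting a + ((Finset.Ioc a b).filter Nat.Prime).card := by
    rw [h1 b, h1 a, h2, Finset.card_union_of_disjoint h3]
  rw [h4]
  push_cast
  ring

theorem int_lower (a b : ℝ) (ha : 2 ≤ a) (hab : a ≤ b) :
    (b - a) / Real.log b ≤ (∫ u in (2 : ℝ)..b, 1 / Real.log u) - ∫ u in (2 : ℝ)..a, 1 / Real.log u := by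
  have hcont : ∀ x y : ℝ, 2 ≤ x → x ≤ y →
      IntervalIntegrable (fun u : ℝ => 1 / Real.log u) volume x y := by
    intro x y hx hxy
    apply ContinuousOn.intervalIntegrable
    rw [Set.uIcc_of_le hxy]
    apply ContinuousOn.div continuousOn_const
    · apply Real.continuousOn_log.mono
      intro u hu
      simp only [Set.mem_compl_iff, Set.mem_singleton_iff]
      have := hu.1
      linarith
    · intro u hu
      have := hu.1
      exact (Real.log_pos (by linarith)).ne'
  have h1 : (∫ u in (2 : ℝ)..b, 1 / Real.log u) - ∫ u in (2 : ℝ)..a, 1 / Real.log u =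
      ∫ u in a..b, 1 / Real.log u := by
    rw [sub_eq_iff_eq_add, add_comm]
    exact (intervalIntegral.integral_add_adjacent_intervals (hcont 2 a le_rfl ha)
      (hcont a b ha hab)).symm
  rw [h1]
  have h2 : (b - a) / Real.log b = ∫ _u in a..b, 1 / Real.log b := by
    rw [intervalIntegral.integral_const, smul_eq_mul]
    ring
  rw [h2]
  apply intervalIntegral.integral_mono_on hab
  · exact intervalIntegrable_const
  · exact hcont a b ha hab
  · intro u hu
    have hu1 : 2 ≤ u := le_trans ha hu.1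
    apply one_div_le_one_div_of_le (Real.log_pos (by linarith))
    exact Real.log_le_log (by linarith) hu.2

end XBL

theorem pr_BL (hP : Pool.Agent.Work.MP_a8fbd7_nt.ZF.StPnt) : S_BL := by
  intro η hη
  obtain ⟨C, hC1, hC⟩ := hP 2 (by norm_num)
  have he : 0 < 1 - Real.exp (-η) := by
    have : Real.exp (-η) < 1 := by
      have := Real.exp_lt_exp.mpr (show -η < 0 by linarith)
      rwa [Real.exp_zero] at this
    linarith
  refine ⟨(1 - Real.exp (-η)) / (4 * η), by positivity,
    max (⌈1 / η⌉₊ + 1) (⌈8 * C / (η * (1 - Real.exp (-η)))⌉₊ + 1), ?_⟩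
  intro j hj
  have hj1 : 1 / η ≤ (j : ℝ) := by
    have h1 : (⌈1 / η⌉₊ : ℝ) ≤ j := by
      have : ⌈1 / η⌉₊ + 1 ≤ j := le_trans (le_max_left _ _) hj
      exact_mod_cast (by omega : ⌈1 / η⌉₊ ≤ j)
    exact le_trans (Nat.le_ceil _) h1
  have hj2 : 8 * C / (η * (1 - Real.exp (-η))) ≤ (j : ℝ) := by
    have h1 : (⌈8 * C / (η * (1 - Real.exp (-η)))⌉₊ : ℝ) ≤ j := by
      have : ⌈8 * C / (η * (1 - Real.exp (-η)))⌉₊ + 1 ≤ j := le_trans (le_max_right _ _) hj
      exact_mod_cast (by omega : ⌈8 * C / (η * (1 - Real.exp (-η)))⌉₊ ≤ j)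
    exact le_trans (Nat.le_ceil _) h1
  have hj3 : (1 : ℝ) ≤ j := by
    have : 1 ≤ j := by
      have := le_trans (le_max_left _ _) hj
      omega
    exact_mod_cast this
  have hj0 : (0 : ℝ) < j := by linarith
  have hjη : 1 ≤ j * η := by
    rw [div_le_iff₀ hη] at hj1
    exact hj1
  set y : ℝ := Real.exp ((j + 1) * η) with hy
  set y' : ℝ := Real.exp (j * η) with hy'
  have hy'2 : 2 ≤ y' := by
    have : Real.exp 1 ≤ y' := Real.exp_le_exp.mpr hjη
    have h2 : (2 : ℝ) ≤ Real.exp 1 := by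
      have := Real.add_one_le_exp (1 : ℝ)
      linarith
    linarith
  have hyy : y' ≤ y := Real.exp_le_exp.mpr (by nlinarith)
  have hy2 : 2 ≤ y := le_trans hy'2 hyy
  have hy0 : 0 < y := by linarith
  have hlog : Real.log y = (j + 1) * η := by rw [hy, Real.log_exp]
  have hlog' : Real.log y' = j * η := by rw [hy', Real.log_exp]
  have hratio : y' = y * Real.exp (-η) := by
    rw [hy, hy', ← Real.exp_add]
    congr 1
    ring
  have hcard := XBL.card_blk ⌊y'⌋₊ ⌊y⌋₊ (Nat.floor_mono hyy)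
  have h1 := abs_le.mp (hC y hy2)
  have h2 := abs_le.mp (hC y' hy'2)
  have h3 := XBL.int_lower y' y hy'2 hyy
  have hsum : (((Finset.Ioc ⌊y'⌋₊ ⌊y⌋₊).filter Nat.Prime).card : ℝ) / y ≤
      ∑ p ∈ Blk η j, (1 : ℝ) / p := by
    have : ((((Finset.Ioc ⌊y'⌋₊ ⌊y⌋₊).filter Nat.Prime).card : ℝ)) / y =
        ∑ _p ∈ Blk η j, (1 : ℝ) / y := by
      rw [Finset.sum_const, nsmul_eq_mul]
      simp only [Blk]
      rw [← hy, ← hy']
      ring
    rw [this]
    apply Finset.sum_le_sum
    intro p hp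
    simp only [Blk, Finset.mem_filter, Finset.mem_Ioc] at hp
    have hp0 : (0 : ℝ) < p := by exact_mod_cast hp.2.pos
    apply one_div_le_one_div_of_le hp0
    have : (p : ℝ) ≤ (⌊y⌋₊ : ℝ) := Nat.cast_le.mpr hp.1.2
    exact le_trans this (Nat.floor_le hy0.le)
  refine le_trans ?_ hsum
  rw [hcard, le_div_iff₀ hy0]
  have hb : ∀ z : ℝ, 1 ≤ z → C * y / z ^ (2 : ℝ) = C * y / z ^ 2 := by
    intro z _
    norm_num
  have e1 : C * y / Real.log y ^ (2 : ℝ) ≤ C * y / (j * η) ^ 2 := by
    rw [show Real.log y ^ (2 : ℝ) = Real.log y ^ 2 by norm_num, hlog]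
    apply div_le_div_of_nonneg_left (by positivity) (by positivity)
    apply pow_le_pow_left₀ (by positivity)
    nlinarith
  have e2 : C * y' / Real.log y' ^ (2 : ℝ) ≤ C * y / (j * η) ^ 2 := by
    rw [show Real.log y' ^ (2 : ℝ) = Real.log y' ^ 2 by norm_num, hlog']
    apply div_le_div_of_nonneg_right _ (by positivity)
    apply mul_le_mul_of_nonneg_left hyy (by linarith)
  have e3 : (y - y') / Real.log y ≥ y * (1 - Real.exp (-η)) / (2 * (j * η)) := by
    rw [hlog, hratio]
    rw [ge_iff_le, show y - y * Real.exp (-η) = y * (1 - Real.exp (-η)) by ring]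
    apply div_le_div_of_nonneg_left (by positivity) (by positivity)
    nlinarith
  have key : (1 - Real.exp (-η)) / (4 * η) / j * y ≤
      y * (1 - Real.exp (-η)) / (2 * (j * η)) - 2 * (C * y / (j * η) ^ 2) := by
    have h5 : 2 * (C * y / (j * η) ^ 2) ≤ y * (1 - Real.exp (-η)) / (4 * (j * η)) := by
      rw [div_le_iff₀ (by positivity)] at hj2
      rw [← mul_div_assoc, div_le_div_iff₀ (by positivity) (by positivity)]
      have : 2 * (C * y) * (4 * (j * η)) = (8 * C) * (y * (j * η)) := by ring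
      rw [this]
      have h6 : (8 * C) * (y * (j * η)) ≤ (j * (η * (1 - Real.exp (-η)))) * (y * (j * η)) := by
        apply mul_le_mul_of_nonneg_right hj2 (by positivity)
      refine le_trans h6 (le_of_eq ?_)
      ring
    have h7 : (1 - Real.exp (-η)) / (4 * η) / j * y = y * (1 - Real.exp (-η)) / (4 * (j * η)) := by
      field_simp
    have h8 : y * (1 - Real.exp (-η)) / (2 * (j * η)) =
        2 * (y * (1 - Real.exp (-η)) / (4 * (j * η))) := by
      field_simp
      norm_num
    rw [h7, h8]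
    linarith
  linarith [h1.1, h1.2, h2.1, h2.2]

end Pool.Agent.F0f91f8.HD
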