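import Pool.Agent.Work.MP_0f91f8_co.HD.StmtsC

set_option autoImplicit false

namespace Pool.Agent.F0f91f8.HD

open Filter Topology ComplexConjugate
open scoped BigOperators

namespace XC1

/-- a finite union of frequently -/
lemma freq_fin {ι : Type*} [Finite ι] {α : Type*} {l : Filter α} {P : ι → α → Prop}
    (h : ∃ᶠ x in l, ∃ i, P i x) : ∃ i, ∃ᶠ x in l, P i x := by
  by_contra hne
  push Not at hne
  have h1 : ∀ i, ∀ᶠ x in l, ¬ P i x := hne
  have h2 : ∀ᶠ x in l, ∀ i, ¬ P i x := eventually_all.mpr h1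
  exact h (h2.mono fun x hx ⟨i, hi⟩ => hx i hi)

/-- reduction of the class to a unit class -/
lemma class_sum (f : ℕ → ℂ) (hf : ∀ m n : ℕ, f (m * n) = f m * f n) (q a d q' a' : ℕ) (hd : 0 < d)
    (hq : q = d * q') (ha : a = d * a') (N : ℕ) :
    ∑ n ∈ (Finset.Icc 1 N).filter (fun n => n % q = a % q), f n =
      f d * ∑ m ∈ (Finset.Icc 1 (N / d)).filter (fun m => m % q' = a' % q'), f m := by
  rw [Finset.mul_sum]
  symm
  refine Finset.sum_bij (fun m _ => d * m) ?_ ?_ ?_ ?_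
  · intro m hm
    rw [Finset.mem_filter, Finset.mem_Icc] at hm ⊢
    obtain ⟨⟨h1, h2⟩, h3⟩ := hm
    refine ⟨⟨Nat.mul_pos hd h1, ?_⟩, ?_⟩
    · have := (Nat.le_div_iff_mul_le hd).mp h2
      linarith [Nat.mul_comm d m]
    · rw [hq, ha, Nat.mul_mod_mul_left, Nat.mul_mod_mul_left, h3]
  · intro x _ y _ h
    exact Nat.eq_of_mul_eq_mul_left hd h
  · intro n hn
    rw [Finset.mem_filter, Finset.mem_Icc] at hn
    obtain ⟨⟨h1, h2⟩, h3⟩ := hn
    have hdn : d ∣ n := by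
      have e1 : n ≡ a [MOD q] := h3
      have e2 : n ≡ a [MOD d] := e1.of_dvd ⟨q', hq⟩
      have e3 : a ≡ 0 [MOD d] := by
        rw [Nat.modEq_zero_iff_dvd]
        exact ⟨a', ha⟩
      exact (Nat.modEq_zero_iff_dvd).mp (e2.trans e3)
    obtain ⟨m, rfl⟩ := hdn
    refine ⟨m, ?_, rfl⟩
    rw [Finset.mem_filter, Finset.mem_Icc]
    refine ⟨⟨?_, ?_⟩, ?_⟩
    · by_contra hm
      have : m = 0 := by omega
      subst this
      omega
    · rw [Nat.le_div_iff_mul_le hd]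
      linarith [Nat.mul_comm d m]
    · rw [hq, ha, Nat.mul_mod_mul_left, Nat.mul_mod_mul_left] at h3
      exact Nat.eq_of_mul_eq_mul_left hd h3
  · intro m _
    rw [hf]

/-- orthogonality -/
lemma orth (f : ℕ → ℂ) (q' a' : ℕ) [NeZero q'] (hu : IsUnit (a' : ZMod q')) (M : ℕ) :
    (q'.totient : ℂ) * ∑ m ∈ (Finset.Icc 1 M).filter (fun m => m % q' = a' % q'), f m =
      ∑ χ : DirichletCharacter ℂ q', χ (a' : ZMod q')⁻¹ *
        ∑ m ∈ Finset.Icc 1 M, f m * χ (m : ZMod q') := by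
  rw [Finset.sum_filter, Finset.mul_sum]
  have h1 : ∀ χ : DirichletCharacter ℂ q', χ (a' : ZMod q')⁻¹ *
        ∑ m ∈ Finset.Icc 1 M, f m * χ (m : ZMod q') =
      ∑ m ∈ Finset.Icc 1 M, f m * (χ (a' : ZMod q')⁻¹ * χ (m : ZMod q')) := by
    intro χ
    rw [Finset.mul_sum]
    exact Finset.sum_congr rfl fun m _ => by ring
  rw [Finset.sum_congr rfl fun χ _ => h1 χ, Finset.sum_comm]
  refine Finset.sum_congr rfl fun m _ => ?_
  rw [← Finset.mul_sum]
  rw [DirichletCharacter.sum_char_inv_mul_char_eq ℂ hu]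
  have h2 : ((a' : ZMod q') = (m : ZMod q')) ↔ m % q' = a' % q' := by
    rw [ZMod.natCast_eq_natCast_iff']
    exact eq_comm
  by_cases h : m % q' = a' % q'
  · rw [if_pos h, if_pos (h2.mpr h)]
    ring
  · rw [if_neg h, if_neg (fun h' => h (h2.mp h'))]
    ring

end XC1

open XC1 in
theorem pr_C1 : S_C1 := by
  intro f hf hA
  unfold Aper at hA
  push Not at hA
  obtain ⟨q, a, hq, hnt⟩ := hA
  -- the constant and the frequency
  have hfr : ∃ ε : ℝ, 0 < ε ∧ ∃ᶠ N : ℕ in atTop, ε * N ≤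
      ‖∑ n ∈ (Finset.Icc 1 N).filter (fun n => n % q = a % q), f n‖ := by
    by_contra hcon
    push Not at hcon
    apply hnt
    rw [Metric.tendsto_atTop']
    intro ε hε
    have h1 := hcon ε hε
    obtain ⟨N₀, hN₀⟩ := (h1.and (eventually_gt_atTop 0)).exists_forall_of_atTop
    refine ⟨N₀, fun N hN => ?_⟩
    obtain ⟨h2, h3⟩ := hN₀ N hN.le
    have hN0 : (0 : ℝ) < N := by exact_mod_cast h3
    rw [dist_zero_right, norm_div, Complex.norm_natCast, div_lt_iff₀ hN0]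
    exact h2
  obtain ⟨ε, hε, hfr⟩ := hfr
  -- gcd
  set d := Nat.gcd a q with hd
  have hd0 : 0 < d := Nat.gcd_pos_of_pos_right a hq
  obtain ⟨a', ha'⟩ : d ∣ a := Nat.gcd_dvd_left a q
  obtain ⟨q', hq'⟩ : d ∣ q := Nat.gcd_dvd_right a q
  have hq'0 : 0 < q' := by
    rcases Nat.eq_zero_or_pos q' with h | h
    · rw [h, mul_zero] at hq'
      omega
    · exact h
  have hcop : Nat.Coprime a' q' := by
    have h1 : a / d = a' := by rw [ha']; exact Nat.mul_div_cancel_left a' hd0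
    have h2 : q / d = q' := by
      conv_lhs => rw [hq']
      exact Nat.mul_div_cancel_left q' hd0
    rw [← h1, ← h2]
    exact Nat.coprime_div_gcd_div_gcd hd0
  have : NeZero q' := ⟨hq'0.ne'⟩
  have hu : IsUnit (a' : ZMod q') := (ZMod.isUnit_iff_coprime a' q').mpr hcop
  have hfd : ‖f d‖ = 1 := hf.2.2 d hd0
  have hex : ∀ N : ℕ, ε * N ≤ ‖∑ n ∈ (Finset.Icc 1 N).filter (fun n => n % q = a % q), f n‖ →
      ∃ χ : DirichletCharacter ℂ q', ε * N ≤ ‖∑ m ∈ Finset.Icc 1 (N / d), f m * χ (m : ZMod q')‖ := by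
    intro N hN
    by_contra hcon
    push Not at hcon
    rw [class_sum f hf.2.1 q a d q' a' hd0 hq' ha' N, norm_mul, hfd, one_mul] at hN
    have htot : 0 < q'.totient := Nat.totient_pos.mpr hq'0
    have h1 := orth f q' a' hu (N / d)
    have h2 : (q'.totient : ℝ) * ‖∑ m ∈ (Finset.Icc 1 (N / d)).filter
        (fun m => m % q' = a' % q'), f m‖ ≤ ∑ χ : DirichletCharacter ℂ q',
          ‖∑ m ∈ Finset.Icc 1 (N / d), f m * χ (m : ZMod q')‖ := by
      rw [← Complex.norm_natCast, ← norm_mul, h1]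
      refine (norm_sum_le _ _).trans (Finset.sum_le_sum fun χ _ => ?_)
      rw [norm_mul]
      calc _ ≤ 1 * _ := mul_le_mul_of_nonneg_right (DirichletCharacter.norm_le_one χ _) (norm_nonneg _)
        _ = _ := one_mul _
    have h3 : ∑ χ : DirichletCharacter ℂ q',
        ‖∑ m ∈ Finset.Icc 1 (N / d), f m * χ (m : ZMod q')‖ <
        ∑ χ : DirichletCharacter ℂ q', ε * N :=
      Finset.sum_lt_sum_of_nonempty Finset.univ_nonempty fun χ _ => hcon χ
    have hcard : Fintype.card (DirichletCharacter ℂ q') = q'.totient := by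
      rw [← Nat.card_eq_fintype_card]
      exact DirichletCharacter.card_eq_totient_of_hasEnoughRootsOfUnity ℂ q'
    rw [Finset.sum_const, Finset.card_univ, hcard, nsmul_eq_mul] at h3
    have h4 : (q'.totient : ℝ) * (ε * N) ≤ (q'.totient : ℝ) * ‖∑ m ∈ (Finset.Icc 1 (N / d)).filter
        (fun m => m % q' = a' % q'), f m‖ := mul_le_mul_of_nonneg_left hN (Nat.cast_nonneg _)
    linarith
  have hfr2 : ∃ᶠ N : ℕ in atTop, ∃ χ : DirichletCharacter ℂ q',
      ε * N ≤ ‖∑ m ∈ Finset.Icc 1 (N / d), f m * χ (m : ZMod q')‖ := hfr.mono hex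
  obtain ⟨χ, hχ⟩ := freq_fin hfr2
  refine ⟨q', ⟨hq'0.ne'⟩, χ, ε, hε, ?_⟩
  rw [Filter.frequently_atTop] at hχ ⊢
  intro M₀
  obtain ⟨N, hN1, hN2⟩ := hχ (d * (M₀ + 1))
  have hM : M₀ + 1 ≤ N / d := by
    rw [Nat.le_div_iff_mul_le hd0]
    linarith [Nat.mul_comm d (M₀ + 1)]
  refine ⟨N / d, by omega, ?_⟩
  unfold Mx
  rw [Nat.floor_natCast, norm_div, Complex.norm_real, Real.norm_eq_abs, Nat.abs_cast]
  have hM0 : (0 : ℝ) < ((N / d : ℕ) : ℝ) := by
    have : 0 < N / d := by omega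
    exact_mod_cast this
  rw [le_div_iff₀ hM0]
  refine le_trans ?_ hN2
  have : ((N / d : ℕ) : ℝ) ≤ N := by exact_mod_cast Nat.div_le_self N d
  exact mul_le_mul_of_nonneg_left this hε.le

end Pool.Agent.F0f91f8.HD
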