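import Pool.Agent.Work.MP_0f91f8_co.HD.StmtsC

set_option autoImplicit false

namespace Pool.Agent.F0f91f8.HD

open Filter Topology ComplexConjugate
open scoped BigOperators

namespace XC2

/-- the matrix -/
noncomputable def aa (p n : ℕ) : ℝ := ((if p ∣ n then (p : ℝ) else 0) - 1) / Real.sqrt p

lemma sum_dvd (t X : ℕ) : ∑ n ∈ Finset.Icc 1 X, (if t ∣ n then (1 : ℝ) else 0) = ((X / t : ℕ) : ℝ) := by
  rw [Finset.sum_ite, Finset.sum_const_zero, add_zero, Finset.sum_const, nsmul_eq_mul, mul_one]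
  congr 1
  have : Finset.Icc 1 X = Finset.Ioc 0 X := rfl
  rw [this, Nat.Ioc_filter_dvd_card_eq_div]

lemma div_bd (t X : ℕ) (ht : 0 < t) :
    (t : ℝ) * ((X / t : ℕ) : ℝ) ≤ X ∧ (X : ℝ) ≤ (t : ℝ) * ((X / t : ℕ) : ℝ) + t := by
  constructor
  · exact_mod_cast Nat.mul_div_le X t
  · have := Nat.lt_mul_div_succ X ht
    have h2 : X ≤ t * (X / t) + t := by
      have : t * (X / t + 1) = t * (X / t) + t := by ring
      omega
    exact_mod_cast h2

lemma G_diag (p X : ℕ) (hp : p.Prime) :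
    ∑ n ∈ Finset.Icc 1 X, aa p n * aa p n ≤ X + 1 := by
  have hp0 : (0 : ℝ) < p := by exact_mod_cast hp.pos
  have hsq : Real.sqrt p * Real.sqrt p = p := Real.mul_self_sqrt hp0.le
  have hs : 0 < Real.sqrt p := Real.sqrt_pos.mpr hp0
  have h1 : ∀ n, aa p n * aa p n = (((p : ℝ) ^ 2 - 2 * p) * (if p ∣ n then (1 : ℝ) else 0) + 1) / p := by
    intro n
    unfold aa
    rw [div_mul_div_comm, hsq]
    congr 1
    split_ifs
    · ring
    · ring
  rw [Finset.sum_congr rfl fun n _ => h1 n, ← Finset.sum_div, Finset.sum_add_distrib,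
    ← Finset.mul_sum, sum_dvd]
  simp only [Finset.sum_const, Nat.card_Icc, Nat.add_sub_cancel, nsmul_eq_mul, mul_one]
  rw [div_le_iff₀ hp0]
  obtain ⟨h2, h3⟩ := div_bd p X hp.pos
  set k : ℝ := ((X / p : ℕ) : ℝ)
  have hk : 0 ≤ k := by positivity
  have hp1 : (1 : ℝ) ≤ p := by exact_mod_cast hp.one_le
  nlinarith [mul_le_mul_of_nonneg_left h2 hp0.le]

lemma G_off (p q X : ℕ) (hp : p.Prime) (hq : q.Prime) (hpq : p ≠ q) :
    |∑ n ∈ Finset.Icc 1 X, aa p n * aa q n| ≤ 3 * p * q := by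
  have hp0 : (0 : ℝ) < p := by exact_mod_cast hp.pos
  have hq0 : (0 : ℝ) < q := by exact_mod_cast hq.pos
  have hp1 : (1 : ℝ) ≤ p := by exact_mod_cast hp.one_le
  have hq1 : (1 : ℝ) ≤ q := by exact_mod_cast hq.one_le
  have hs1 : 1 ≤ Real.sqrt p := Real.one_le_sqrt.mpr hp1
  have hs2 : 1 ≤ Real.sqrt q := Real.one_le_sqrt.mpr hq1
  have hcop : Nat.Coprime p q := (Nat.coprime_primes hp hq).mpr hpq
  have h1 : ∀ n, aa p n * aa q n = ((p : ℝ) * q * (if p * q ∣ n then (1 : ℝ) else 0)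
      - p * (if p ∣ n then (1 : ℝ) else 0) - q * (if q ∣ n then (1 : ℝ) else 0) + 1) /
      (Real.sqrt p * Real.sqrt q) := by
    intro n
    unfold aa
    rw [div_mul_div_comm]
    congr 1
    have hd : p * q ∣ n ↔ p ∣ n ∧ q ∣ n := by
      constructor
      · intro h
        exact ⟨dvd_trans (dvd_mul_right p q) h, dvd_trans (dvd_mul_left q p) h⟩
      · intro h
        exact hcop.mul_dvd_of_dvd_of_dvd h.1 h.2
    by_cases h1 : p ∣ n <;> by_cases h2 : q ∣ n <;> simp [hd, h1, h2] <;> ring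
  rw [Finset.sum_congr rfl fun n _ => h1 n, ← Finset.sum_div]
  have h4 : ∑ n ∈ Finset.Icc 1 X, ((p : ℝ) * q * (if p * q ∣ n then (1 : ℝ) else 0)
      - p * (if p ∣ n then (1 : ℝ) else 0) - q * (if q ∣ n then (1 : ℝ) else 0) + 1) =
      (p : ℝ) * q * ((X / (p * q) : ℕ) : ℝ) - p * ((X / p : ℕ) : ℝ) - q * ((X / q : ℕ) : ℝ) + X := by
    rw [Finset.sum_add_distrib, Finset.sum_sub_distrib, Finset.sum_sub_distrib,
      ← Finset.mul_sum, ← Finset.mul_sum, ← Finset.mul_sum, sum_dvd, sum_dvd, sum_dvd]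
    simp
  rw [h4]
  obtain ⟨a1, a2⟩ := div_bd p X hp.pos
  obtain ⟨b1, b2⟩ := div_bd q X hq.pos
  obtain ⟨c1, c2⟩ := div_bd (p * q) X (Nat.mul_pos hp.pos hq.pos)
  push_cast at c1 c2
  have hN : |(p : ℝ) * q * ((X / (p * q) : ℕ) : ℝ) - p * ((X / p : ℕ) : ℝ) - q * ((X / q : ℕ) : ℝ) + X|
      ≤ 3 * p * q := by
    rw [abs_le]
    constructor
    · nlinarith
    · nlinarith
  rw [abs_div, abs_of_pos (show (0 : ℝ) < Real.sqrt p * Real.sqrt q by positivity)]
  rw [div_le_iff₀ (by positivity)]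
  have hss : 1 ≤ Real.sqrt p * Real.sqrt q := by nlinarith
  calc _ ≤ 3 * (p : ℝ) * q := hN
    _ = 3 * (p : ℝ) * q * 1 := by ring
    _ ≤ _ := mul_le_mul_of_nonneg_left hss (by positivity)

/-- the constant -/
noncomputable def CC (P : Finset ℕ) : ℝ := 1 + 3 * (∑ p ∈ P, (p : ℝ)) ^ 2 * P.card

lemma CC_nonneg (P : Finset ℕ) : 0 ≤ CC P := by
  unfold CC; positivity

/-- the large sieve for real coefficients -/
lemma real_bd (P : Finset ℕ) (hP : ∀ p ∈ P, p.Prime) (X : ℕ) (r : ℕ → ℝ) :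
    ∑ n ∈ Finset.Icc 1 X, (∑ p ∈ P, r p * aa p n) ^ 2 ≤ (X + CC P) * ∑ p ∈ P, r p ^ 2 := by
  have h1 : ∑ n ∈ Finset.Icc 1 X, (∑ p ∈ P, r p * aa p n) ^ 2 =
      ∑ p ∈ P, ∑ q ∈ P, r p * r q * ∑ n ∈ Finset.Icc 1 X, aa p n * aa q n := by
    calc _ = ∑ n ∈ Finset.Icc 1 X, ∑ p ∈ P, ∑ q ∈ P, r p * r q * (aa p n * aa q n) := by
          refine Finset.sum_congr rfl fun n _ => ?_
          rw [sq, Finset.sum_mul_sum]
          refine Finset.sum_congr rfl fun p _ => Finset.sum_congr rfl fun q _ => by ring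
      _ = _ := by
          rw [Finset.sum_comm]
          refine Finset.sum_congr rfl fun p _ => ?_
          rw [Finset.sum_comm]
          refine Finset.sum_congr rfl fun q _ => ?_
          rw [Finset.mul_sum]
  rw [h1]
  set K : ℝ := ∑ p ∈ P, (p : ℝ) with hK
  have hpK : ∀ p ∈ P, (p : ℝ) ≤ K := fun p hp =>
    Finset.single_le_sum (f := fun p : ℕ => (p : ℝ)) (fun i _ => Nat.cast_nonneg i) hp
  have hK0 : 0 ≤ K := Finset.sum_nonneg fun i _ => Nat.cast_nonneg i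
  have h2 : ∀ p ∈ P, ∀ q ∈ P, r p * r q * ∑ n ∈ Finset.Icc 1 X, aa p n * aa q n ≤
      (if p = q then ((X : ℝ) + 1) * r p ^ 2 else 0) + 3 * K ^ 2 * (|r p| * |r q|) := by
    intro p hp q hq
    by_cases hpq : p = q
    · subst hpq
      rw [if_pos rfl]
      have := G_diag p X (hP p hp)
      have h3 : 0 ≤ 3 * K ^ 2 * (|r p| * |r p|) := by positivity
      have h4 : r p * r p * ∑ n ∈ Finset.Icc 1 X, aa p n * aa p n ≤ r p * r p * (X + 1) :=
        mul_le_mul_of_nonneg_left this (mul_self_nonneg _)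
      nlinarith
    · rw [if_neg hpq, zero_add]
      have := G_off p q X (hP p hp) (hP q hq) hpq
      calc _ ≤ |r p * r q * ∑ n ∈ Finset.Icc 1 X, aa p n * aa q n| := le_abs_self _
        _ = (|r p| * |r q|) * |∑ n ∈ Finset.Icc 1 X, aa p n * aa q n| := by
            rw [abs_mul, abs_mul]
        _ ≤ (|r p| * |r q|) * (3 * K ^ 2) := by
            refine mul_le_mul_of_nonneg_left (this.trans ?_) (by positivity)
            have h5 : (p : ℝ) * q ≤ K * K :=
              mul_le_mul (hpK p hp) (hpK q hq) (Nat.cast_nonneg q) hK0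
            nlinarith
        _ = _ := by ring
  calc _ ≤ ∑ p ∈ P, ∑ q ∈ P, ((if p = q then ((X : ℝ) + 1) * r p ^ 2 else 0) +
        3 * K ^ 2 * (|r p| * |r q|)) :=
        Finset.sum_le_sum fun p hp => Finset.sum_le_sum fun q hq => h2 p hp q hq
    _ = (X + 1) * ∑ p ∈ P, r p ^ 2 + 3 * K ^ 2 * (∑ p ∈ P, |r p|) ^ 2 := by
        simp_rw [Finset.sum_add_distrib]
        congr 1
        · rw [Finset.mul_sum]
          refine Finset.sum_congr rfl fun p hp => ?_
          rw [Finset.sum_ite_eq, if_pos hp]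
        · rw [sq (∑ p ∈ P, |r p|), Finset.sum_mul_sum, Finset.mul_sum]
          refine Finset.sum_congr rfl fun p _ => ?_
          rw [Finset.mul_sum]
    _ ≤ (X + 1) * ∑ p ∈ P, r p ^ 2 + 3 * K ^ 2 * (P.card * ∑ p ∈ P, r p ^ 2) := by
        have h6 : (∑ p ∈ P, |r p|) ^ 2 ≤ P.card * ∑ p ∈ P, |r p| ^ 2 :=
          sq_sum_le_card_mul_sum_sq
        simp only [sq_abs] at h6
        have := mul_le_mul_of_nonneg_left h6 (show (0 : ℝ) ≤ 3 * K ^ 2 by positivity)
        linarith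
    _ = _ := by
        unfold CC
        rw [← hK]
        ring

/-- the large sieve for complex coefficients -/
lemma cplx_bd (P : Finset ℕ) (hP : ∀ p ∈ P, p.Prime) (X : ℕ) (c : ℕ → ℂ) :
    ∑ n ∈ Finset.Icc 1 X, ‖∑ p ∈ P, c p * (aa p n : ℂ)‖ ^ 2 ≤ (X + CC P) * ∑ p ∈ P, ‖c p‖ ^ 2 := by
  have h1 : ∀ n, ‖∑ p ∈ P, c p * (aa p n : ℂ)‖ ^ 2 =
      (∑ p ∈ P, (c p).re * aa p n) ^ 2 + (∑ p ∈ P, (c p).im * aa p n) ^ 2 := by
    intro n
    rw [← Complex.normSq_eq_norm_sq, Complex.normSq_apply, Complex.re_sum, Complex.im_sum]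
    simp only [Complex.re_mul_ofReal, Complex.im_mul_ofReal]
    ring
  have h2 : ∀ p, ‖c p‖ ^ 2 = (c p).re ^ 2 + (c p).im ^ 2 := by
    intro p
    rw [← Complex.normSq_eq_norm_sq, Complex.normSq_apply]
    ring
  rw [Finset.sum_congr rfl fun n _ => h1 n, Finset.sum_add_distrib,
    Finset.sum_congr rfl fun p _ => h2 p, Finset.sum_add_distrib, mul_add]
  exact add_le_add (real_bd P hP X _) (real_bd P hP X _)

/-- multiples of `p` -/
lemma sum_mult (F : ℕ → ℂ) (hF : ∀ m n : ℕ, F (m * n) = F m * F n) (p X : ℕ) (hp : 0 < p) :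
    ∑ n ∈ Finset.Icc 1 X, F n * (if p ∣ n then (p : ℂ) else 0) =
      p * (F p * ∑ m ∈ Finset.Icc 1 (X / p), F m) := by
  have h1 : ∑ n ∈ Finset.Icc 1 X, F n * (if p ∣ n then (p : ℂ) else 0) =
      ∑ n ∈ (Finset.Icc 1 X).filter (fun n => p ∣ n), F n * (p : ℂ) := by
    rw [Finset.sum_filter]
    refine Finset.sum_congr rfl fun n _ => ?_
    split_ifs <;> simp
  rw [h1, Finset.mul_sum, Finset.mul_sum]
  symm
  refine Finset.sum_bij (fun m _ => p * m) ?_ ?_ ?_ ?_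
  · intro m hm
    rw [Finset.mem_Icc] at hm
    rw [Finset.mem_filter, Finset.mem_Icc]
    refine ⟨⟨Nat.mul_pos hp hm.1, ?_⟩, dvd_mul_right p m⟩
    have := (Nat.le_div_iff_mul_le hp).mp hm.2
    linarith [Nat.mul_comm p m]
  · intro a _ b _ h
    exact Nat.eq_of_mul_eq_mul_left hp h
  · intro n hn
    rw [Finset.mem_filter, Finset.mem_Icc] at hn
    obtain ⟨⟨h2, h3⟩, m, rfl⟩ := hn
    refine ⟨m, ?_, rfl⟩
    rw [Finset.mem_Icc]
    constructor
    · exact Nat.pos_of_mul_pos_left h2 |> fun h => h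
    · rw [Nat.le_div_iff_mul_le hp]
      linarith [Nat.mul_comm p m]
  · intro m _
    rw [hF]
    ring

end XC2

open XC2 in
theorem pr_C2 : S_C2 := by
  intro F hF P hP ε hε
  obtain ⟨hF1, hFm, hFb⟩ := hF
  have hev : ∀ᶠ x : ℝ in atTop, CC P / x ≤ ε := by
    have : Tendsto (fun x : ℝ => CC P / x) atTop (𝓝 0) := tendsto_const_nhds.div_atTop tendsto_id
    exact this.eventually_le_const hε
  filter_upwards [hev, eventually_ge_atTop (1 : ℝ)] with x hx1 hx
  have hx0 : 0 < x := by linarith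
  set X := ⌊x⌋₊ with hX
  have hXx : (X : ℝ) ≤ x := Nat.floor_le hx0.le
  set c : ℕ → ℂ := fun p => (Mx F x - F p * Mx F (x / p)) / (Real.sqrt p : ℂ) with hc
  have hS : ∑ p ∈ P, (1 : ℝ) / p * ‖Mx F x - F p * Mx F (x / p)‖ ^ 2 = ∑ p ∈ P, ‖c p‖ ^ 2 := by
    refine Finset.sum_congr rfl fun p hp => ?_
    have hp0 : (0 : ℝ) < p := by exact_mod_cast (hP p hp).pos
    simp only [hc]
    rw [norm_div, Complex.norm_real, Real.norm_eq_abs, abs_of_nonneg (Real.sqrt_nonneg _), div_pow,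
      Real.sq_sqrt hp0.le]
    ring
  rw [hS]
  set S : ℝ := ∑ p ∈ P, ‖c p‖ ^ 2 with hSdef
  have hS0 : 0 ≤ S := Finset.sum_nonneg fun p _ => by positivity
  -- the identity for `x * c p`
  have hid : ∀ p ∈ P, (x : ℂ) * c p = -∑ n ∈ Finset.Icc 1 X, F n * (aa p n : ℂ) := by
    intro p hp
    have hpp := hP p hp
    have hp0 : (0 : ℝ) < p := by exact_mod_cast hpp.pos
    have hs0 : (Real.sqrt p : ℂ) ≠ 0 := by
      exact_mod_cast (Real.sqrt_pos.mpr hp0).ne'
    have hpc : (p : ℂ) ≠ 0 := by exact_mod_cast hpp.ne_zero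
    have hxc : (x : ℂ) ≠ 0 := by exact_mod_cast hx0.ne'
    have h1 : ∑ n ∈ Finset.Icc 1 X, F n * (aa p n : ℂ) =
        (p * (F p * ∑ m ∈ Finset.Icc 1 (X / p), F m) - ∑ n ∈ Finset.Icc 1 X, F n) /
          (Real.sqrt p : ℂ) := by
      rw [← sum_mult F hFm p X hpp.pos, ← Finset.sum_sub_distrib, Finset.sum_div]
      refine Finset.sum_congr rfl fun n _ => ?_
      unfold aa
      push_cast
      split_ifs
      · push_cast; ring
      · push_cast; ring
    rw [h1]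
    have hfl : ⌊x / p⌋₊ = X / p := by rw [Nat.floor_div_natCast]
    simp only [hc, Mx]
    rw [hfl, ← hX]
    push_cast
    field_simp
    ring
  -- the duality
  have hdual : S * x ≤ ∑ n ∈ Finset.Icc 1 X, ‖∑ p ∈ P, conj (c p) * (aa p n : ℂ)‖ := by
    have h1 : ((S * x : ℝ) : ℂ) = -∑ n ∈ Finset.Icc 1 X, F n * ∑ p ∈ P, conj (c p) * (aa p n : ℂ) := by
      calc ((S * x : ℝ) : ℂ) = ∑ p ∈ P, conj (c p) * ((x : ℂ) * c p) := by
            rw [hSdef]
            push_cast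
            rw [Finset.sum_mul]
            refine Finset.sum_congr rfl fun p _ => ?_
            have := Complex.conj_mul' (c p)
            rw [← this]
            ring
        _ = ∑ p ∈ P, conj (c p) * (-∑ n ∈ Finset.Icc 1 X, F n * (aa p n : ℂ)) :=
            Finset.sum_congr rfl fun p hp => by rw [hid p hp]
        _ = _ := by
            simp_rw [mul_neg, Finset.sum_neg_distrib, Finset.mul_sum]
            congr 1
            rw [Finset.sum_comm]
            refine Finset.sum_congr rfl fun n _ => Finset.sum_congr rfl fun p _ => by ring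
    have h2 : S * x = ‖((S * x : ℝ) : ℂ)‖ := by
      rw [Complex.norm_real, Real.norm_eq_abs, abs_of_nonneg (mul_nonneg hS0 hx0.le)]
    rw [h2, h1, norm_neg]
    refine (norm_sum_le _ _).trans (Finset.sum_le_sum fun n _ => ?_)
    rw [norm_mul]
    calc _ ≤ 1 * ‖∑ p ∈ P, conj (c p) * (aa p n : ℂ)‖ :=
          mul_le_mul_of_nonneg_right (hFb n) (norm_nonneg _)
      _ = _ := one_mul _
  have hbd := cplx_bd P hP X (fun p => conj (c p))
  simp only [RCLike.norm_conj] at hbd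
  have hcs : (∑ n ∈ Finset.Icc 1 X, ‖∑ p ∈ P, conj (c p) * (aa p n : ℂ)‖) ^ 2 ≤
      X * ∑ n ∈ Finset.Icc 1 X, ‖∑ p ∈ P, conj (c p) * (aa p n : ℂ)‖ ^ 2 := by
    have := sq_sum_le_card_mul_sum_sq (s := Finset.Icc 1 X)
      (f := fun n => ‖∑ p ∈ P, conj (c p) * (aa p n : ℂ)‖)
    simpa using this
  have h3 : (S * x) ^ 2 ≤ x * ((x + CC P) * S) := by
    calc (S * x) ^ 2 ≤ (∑ n ∈ Finset.Icc 1 X, ‖∑ p ∈ P, conj (c p) * (aa p n : ℂ)‖) ^ 2 :=
          pow_le_pow_left₀ (mul_nonneg hS0 hx0.le) hdual 2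
      _ ≤ X * ((X + CC P) * S) := hcs.trans (mul_le_mul_of_nonneg_left hbd (Nat.cast_nonneg X))
      _ ≤ x * ((x + CC P) * S) := by
          refine mul_le_mul hXx ?_ ?_ hx0.le
          · exact mul_le_mul_of_nonneg_right (by linarith) hS0
          · exact mul_nonneg (add_nonneg (Nat.cast_nonneg X) (CC_nonneg P)) hS0
  rcases eq_or_lt_of_le hS0 with h0 | h0
  · rw [← h0]; linarith
  · have h4 : S * x ≤ x + CC P := by
      have : (S * x) * (S * x) ≤ (x + CC P) * (S * x) := by nlinarith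
      exact le_of_mul_le_mul_right this (mul_pos h0 hx0)
    have h5 : S ≤ 1 + CC P / x := by
      rw [← sub_le_iff_le_add', le_div_iff₀ hx0]
      nlinarith
    linarith

end Pool.Agent.F0f91f8.HD
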