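import Pool.Agent.Work.MP_0f91f8_co.HD.StmtsC

set_option autoImplicit false

namespace Pool.Agent.F0f91f8.HD

open Filter Topology ComplexConjugate
open scoped BigOperators

namespace XC3

lemma norm_sum_le_floor (F : ℕ → ℂ) (hF : ∀ n, ‖F n‖ ≤ 1) (X : ℕ) :
    ‖∑ n ∈ Finset.Icc 1 X, F n‖ ≤ X := by
  calc _ ≤ ∑ n ∈ Finset.Icc 1 X, ‖F n‖ := norm_sum_le _ _
    _ ≤ ∑ n ∈ Finset.Icc 1 X, (1 : ℝ) := Finset.sum_le_sum fun n _ => hF n
    _ = X := by simp

lemma norm_Mx_le (F : ℕ → ℂ) (hF : ∀ n, ‖F n‖ ≤ 1) (x : ℝ) (hx : 0 ≤ x) : ‖Mx F x‖ ≤ 1 := by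
  unfold Mx
  rw [norm_div, Complex.norm_real, Real.norm_eq_abs, abs_of_nonneg hx]
  refine div_le_one_of_le₀ ?_ hx
  exact (norm_sum_le_floor F hF _).trans (Nat.floor_le hx)

lemma Mx_diff (F : ℕ → ℂ) (hF : ∀ n, ‖F n‖ ≤ 1) (x y : ℝ) (hy : 0 < y) (hxy : y ≤ x) :
    ‖Mx F x - Mx F y‖ ≤ 2 * (1 - y / x) + 1 / x := by
  have hx : 0 < x := lt_of_lt_of_le hy hxy
  set A := ∑ n ∈ Finset.Icc 1 ⌊x⌋₊, F n with hA
  set B := ∑ n ∈ Finset.Icc 1 ⌊y⌋₊, F n with hB
  have hfl : ⌊y⌋₊ ≤ ⌊x⌋₊ := Nat.floor_le_floor hxy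
  have hAB : ‖A - B‖ ≤ x - y + 1 := by
    have h1 : A - B = ∑ n ∈ Finset.Ioc ⌊y⌋₊ ⌊x⌋₊, F n := by
      have hd : Finset.Icc 1 ⌊x⌋₊ = Finset.Icc 1 ⌊y⌋₊ ∪ Finset.Ioc ⌊y⌋₊ ⌊x⌋₊ := by
        ext n
        simp only [Finset.mem_union, Finset.mem_Icc, Finset.mem_Ioc]
        omega
      have hdj : Disjoint (Finset.Icc 1 ⌊y⌋₊) (Finset.Ioc ⌊y⌋₊ ⌊x⌋₊) := by
        rw [Finset.disjoint_left]
        intro n hn hn'
        rw [Finset.mem_Icc] at hn
        rw [Finset.mem_Ioc] at hn'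
        omega
      rw [hA, hd, Finset.sum_union hdj, hB]
      ring
    rw [h1]
    calc _ ≤ ∑ n ∈ Finset.Ioc ⌊y⌋₊ ⌊x⌋₊, ‖F n‖ := norm_sum_le _ _
      _ ≤ ∑ n ∈ Finset.Ioc ⌊y⌋₊ ⌊x⌋₊, (1 : ℝ) := Finset.sum_le_sum fun n _ => hF n
      _ = ((⌊x⌋₊ - ⌊y⌋₊ : ℕ) : ℝ) := by simp
      _ = (⌊x⌋₊ : ℝ) - ⌊y⌋₊ := by rw [Nat.cast_sub hfl]
      _ ≤ x - y + 1 := by
          have h2 := Nat.floor_le hx.le
          have h3 := Nat.lt_floor_add_one y
          linarith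
  have hB1 : ‖B‖ ≤ y := (norm_sum_le_floor F hF _).trans (Nat.floor_le hy.le)
  have hid : Mx F x - Mx F y = (A - B) / (x : ℂ) - B * ((1 / y - 1 / x : ℝ) : ℂ) := by
    unfold Mx
    rw [← hA, ← hB]
    have hxc : (x : ℂ) ≠ 0 := by exact_mod_cast hx.ne'
    have hyc : (y : ℂ) ≠ 0 := by exact_mod_cast hy.ne'
    push_cast
    field_simp
    ring
  rw [hid]
  refine (norm_sub_le _ _).trans ?_
  have h4 : ‖(A - B) / (x : ℂ)‖ ≤ (x - y + 1) / x := by
    rw [norm_div, Complex.norm_real, Real.norm_eq_abs, abs_of_pos hx]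
    gcongr
  have h5 : ‖B * ((1 / y - 1 / x : ℝ) : ℂ)‖ ≤ y * (1 / y - 1 / x) := by
    have h6 : 0 ≤ 1 / y - 1 / x := by
      rw [sub_nonneg]
      exact one_div_le_one_div_of_le hy hxy
    rw [norm_mul, Complex.norm_real, Real.norm_eq_abs, abs_of_nonneg h6]
    gcongr
  calc _ ≤ (x - y + 1) / x + y * (1 / y - 1 / x) := add_le_add h4 h5
    _ = _ := by
        field_simp
        ring

end XC3

open XC3 in
theorem pr_C3 (hC2 : S_C2) : S_C3 := by
  intro F hF m₀ hm₀ hfreq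
  have hFb := hF.2.2
  -- the ultrafilter
  have hne : NeBot (atTop ⊓ 𝓟 {N : ℕ | m₀ ≤ ‖Mx F (N : ℝ)‖}) := by
    rw [← frequently_mem_iff_neBot]
    exact hfreq
  set U : Ultrafilter ℕ := Ultrafilter.of (atTop ⊓ 𝓟 {N : ℕ | m₀ ≤ ‖Mx F (N : ℝ)‖}) with hU
  have hUle : (U : Filter ℕ) ≤ atTop ⊓ 𝓟 {N : ℕ | m₀ ≤ ‖Mx F (N : ℝ)‖} := Ultrafilter.of_le _
  have hUtop : (U : Filter ℕ) ≤ atTop := hUle.trans inf_le_left
  have hUmem : ∀ᶠ N : ℕ in (U : Filter ℕ), m₀ ≤ ‖Mx F (N : ℝ)‖ := by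
    have : {N : ℕ | m₀ ≤ ‖Mx F (N : ℝ)‖} ∈ (U : Filter ℕ) :=
      hUle.trans inf_le_right (mem_principal_self _)
    exact this
  have hlim : ∀ v : ℝ, ∃ z : ℂ, ‖z‖ ≤ 1 ∧
      Tendsto (fun N : ℕ => Mx F ((N : ℝ) * Real.exp (-v))) (U : Filter ℕ) (𝓝 z) := by
    intro v
    have hc : IsCompact (Metric.closedBall (0 : ℂ) 1) := isCompact_closedBall 0 1
    have h1 : ((U.map (fun N : ℕ => Mx F ((N : ℝ) * Real.exp (-v))) : Ultrafilter ℂ) : Filter ℂ) ≤
        𝓟 (Metric.closedBall (0 : ℂ) 1) := by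
      rw [le_principal_iff, Ultrafilter.coe_map, mem_map]
      refine Filter.univ_mem' fun N => ?_
      simp only [Set.mem_preimage, Metric.mem_closedBall, dist_zero_right]
      exact norm_Mx_le F hFb _ (by positivity)
    obtain ⟨z, hz, hz2⟩ := isCompact_iff_ultrafilter_le_nhds.mp hc _ h1
    refine ⟨z, by simpa using hz, ?_⟩
    rw [Ultrafilter.coe_map] at hz2
    exact hz2
  choose m hm1 hm2 using hlim
  refine ⟨m, ?_, hm1, ?_, ?_⟩
  · have h1 := (hm2 0).norm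
    simp only [neg_zero, Real.exp_zero, mul_one] at h1
    exact ge_of_tendsto h1 hUmem
  · -- Lipschitz
    have key : ∀ v w : ℝ, v ≤ w → ‖m v - m w‖ ≤ 2 * (w - v) := by
      intro v w hvw
      have h1 : Tendsto (fun N : ℕ => ‖Mx F ((N : ℝ) * Real.exp (-v)) - Mx F ((N : ℝ) * Real.exp (-w))‖)
          (U : Filter ℕ) (𝓝 ‖m v - m w‖) := ((hm2 v).sub (hm2 w)).norm
      have h2 : Tendsto (fun N : ℕ => 2 * (w - v) + 1 / ((N : ℝ) * Real.exp (-v)))
          (U : Filter ℕ) (𝓝 (2 * (w - v) + 0)) := by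
        refine Tendsto.add tendsto_const_nhds ?_
        have : Tendsto (fun N : ℕ => 1 / ((N : ℝ) * Real.exp (-v))) atTop (𝓝 0) := by
          refine tendsto_const_nhds.div_atTop ?_
          exact Tendsto.atTop_mul_const (Real.exp_pos _) tendsto_natCast_atTop_atTop
        exact this.mono_left hUtop
      rw [add_zero] at h2
      refine le_of_tendsto_of_tendsto h1 h2 ?_
      have h3 : ∀ᶠ N : ℕ in (U : Filter ℕ), 1 ≤ N := hUtop (eventually_ge_atTop 1)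
      filter_upwards [h3] with N hN
      have hN0 : (0 : ℝ) < N := by exact_mod_cast hN
      have hev : 0 < Real.exp (-v) := Real.exp_pos _
      have hew : 0 < Real.exp (-w) := Real.exp_pos _
      have hle : (N : ℝ) * Real.exp (-w) ≤ N * Real.exp (-v) := by
        apply mul_le_mul_of_nonneg_left _ hN0.le
        exact Real.exp_le_exp.mpr (by linarith)
      refine (Mx_diff F hFb _ _ (by positivity) hle).trans ?_
      have hq : (N : ℝ) * Real.exp (-w) / (N * Real.exp (-v)) = Real.exp (-(w - v)) := by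
        rw [mul_div_mul_left _ _ hN0.ne', ← Real.exp_sub]
        congr 1
        ring
      rw [hq]
      have := Real.add_one_le_exp (-(w - v))
      linarith
    intro v w
    rcases le_total v w with h | h
    · rw [abs_of_nonpos (by linarith), neg_sub]
      exact key v w h
    · rw [abs_of_nonneg (by linarith), norm_sub_rev]
      exact key w v h
  · -- the inequality
    intro v P hP
    refine le_of_forall_pos_le_add fun ε hε => ?_
    have h1 := hC2 F hF P hP ε hε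
    have htop : Tendsto (fun N : ℕ => (N : ℝ) * Real.exp (-v)) (U : Filter ℕ) atTop := by
      have : Tendsto (fun N : ℕ => (N : ℝ) * Real.exp (-v)) atTop atTop :=
        Tendsto.atTop_mul_const (Real.exp_pos _) tendsto_natCast_atTop_atTop
      exact this.mono_left hUtop
    have h2 := htop.eventually h1
    have h3 : Tendsto (fun N : ℕ => ∑ p ∈ P, (1 : ℝ) / p *
        ‖Mx F ((N : ℝ) * Real.exp (-v)) - F p * Mx F ((N : ℝ) * Real.exp (-v) / p)‖ ^ 2)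
        (U : Filter ℕ) (𝓝 (∑ p ∈ P, (1 : ℝ) / p * ‖m v - F p * m (v + Real.log p)‖ ^ 2)) := by
      refine tendsto_finsetSum _ fun p hp => ?_
      refine Tendsto.mul tendsto_const_nhds ?_
      refine Tendsto.pow ?_ 2
      refine Tendsto.norm ?_
      refine (hm2 v).sub (Tendsto.mul tendsto_const_nhds ?_)
      have hp0 : (0 : ℝ) < p := by exact_mod_cast (hP p hp).pos
      have h4 : ∀ N : ℕ, (N : ℝ) * Real.exp (-v) / p = (N : ℝ) * Real.exp (-(v + Real.log p)) := by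
        intro N
        rw [neg_add, Real.exp_add, Real.exp_neg (Real.log p), Real.exp_log hp0]
        ring
      simp_rw [h4]
      exact hm2 _
    exact le_of_tendsto h3 h2

end Pool.Agent.F0f91f8.HD
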