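import Pool.Agent.Work.MP_0f91f8_co.HD.StmtsC

/-!
# Item C4a of the block HD-C (MP_0f91f8_co): the functional equation of the limit function
-/

set_option autoImplicit false

namespace Pool.Agent.F0f91f8.HD

open Filter Topology ComplexConjugate
open scoped BigOperators

namespace XC4a

/-- bad primes with respect to a finite set of test points -/
def Bad (F : ℕ → ℂ) (m : ℝ → ℂ) (V : Finset ℝ) (ε : ℝ) (p : ℕ) : Prop :=
  ∃ v ∈ V, ε < ‖m v - F p * m (v + Real.log p)‖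

theorem sum_bad {F : ℕ → ℂ} {m : ℝ → ℂ} (h : DTK F m) (V : Finset ℝ) {ε : ℝ} (hε : 0 < ε)
    (P : Finset ℕ) (hP : ∀ p ∈ P, p.Prime) (hB : ∀ p ∈ P, Bad F m V ε p) :
    ∑ p ∈ P, (1 : ℝ) / p ≤ V.card / ε ^ 2 := by
  have h1 : ∑ p ∈ P, (1 : ℝ) / p * ε ^ 2 ≤ ∑ _v ∈ V, (1 : ℝ) := by
    calc ∑ p ∈ P, (1 : ℝ) / p * ε ^ 2
        ≤ ∑ p ∈ P, (1 : ℝ) / p * ∑ v ∈ V, ‖m v - F p * m (v + Real.log p)‖ ^ 2 := by
          refine Finset.sum_le_sum fun p hp => ?_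
          refine mul_le_mul_of_nonneg_left ?_ (by positivity)
          obtain ⟨v, hv, hlt⟩ := hB p hp
          refine le_trans ?_ (Finset.single_le_sum
            (f := fun v => ‖m v - F p * m (v + Real.log p)‖ ^ 2) (fun v _ => by positivity) hv)
          exact pow_le_pow_left₀ hε.le hlt.le 2
      _ = ∑ v ∈ V, ∑ p ∈ P, (1 : ℝ) / p * ‖m v - F p * m (v + Real.log p)‖ ^ 2 := by
          simp_rw [Finset.mul_sum]
          exact Finset.sum_comm
      _ ≤ ∑ _v ∈ V, (1 : ℝ) := Finset.sum_le_sum fun v _ => h v P hP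
  rw [← Finset.sum_mul, Finset.sum_const, nsmul_eq_mul, mul_one] at h1
  rwa [le_div_iff₀ (by positivity)]

theorem blk_disj {η : ℝ} (hη : 0 < η) {i j : ℕ} (hij : i < j) :
    Disjoint (Blk η i) (Blk η j) := by
  rw [Finset.disjoint_left]
  intro p hp hq
  simp only [Blk, Finset.mem_filter, Finset.mem_Ioc] at hp hq
  have h1 : ⌊Real.exp (((i : ℝ) + 1) * η)⌋₊ ≤ ⌊Real.exp ((j : ℝ) * η)⌋₊ := by
    refine Nat.floor_le_floor (Real.exp_le_exp.2 (mul_le_mul_of_nonneg_right ?_ hη.le))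
    exact_mod_cast hij
  omega

theorem no_bound {c : ℝ} (hc : 0 < c) {β : ℕ → ℝ} (hsum : Summable β) (s T : ℕ)
    (hcomp : ∀ j ≥ T, c / ((j + s : ℕ) : ℝ) ≤ β j + β (j + s)) : False := by
  have hsum1 : Summable fun j => β (j + s) := (summable_nat_add_iff s).2 hsum
  have hsum2 : Summable fun j => β j + β (j + s) := hsum.add hsum1
  have hsum3 : Summable fun j => β (j + T) + β (j + T + s) :=
    (summable_nat_add_iff (f := fun j => β j + β (j + s)) T).2 hsum2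
  have h6 : Summable fun j : ℕ => c / (((j + T) + s : ℕ) : ℝ) :=
    Summable.of_nonneg_of_le (fun j => by positivity) (fun j => hcomp (j + T) (by omega)) hsum3
  have h7 : Summable fun j : ℕ => c / ((j : ℕ) : ℝ) := by
    rw [← summable_nat_add_iff (T + s)]
    refine h6.congr fun j => ?_
    rw [add_assoc]
  have h8 : Summable fun j : ℕ => (1 : ℝ) / (j : ℝ) := by
    refine (h7.mul_left c⁻¹).congr fun j => ?_
    rw [div_eq_mul_inv, div_eq_mul_inv, ← mul_assoc, inv_mul_cancel₀ hc.ne']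
  exact Real.not_summable_one_div_natCast h8

theorem sum_beta {F : ℕ → ℂ} {m : ℝ → ℂ} (h : DTK F m) (V : Finset ℝ) {ε η : ℝ}
    (hε : 0 < ε) (hη : 0 < η) (D : ℕ → Finset ℕ) (hD1 : ∀ j, D j ⊆ Blk η j)
    (hD2 : ∀ j, ∀ p ∈ D j, Bad F m V ε p) : Summable fun j => ∑ p ∈ D j, (1 : ℝ) / p := by
  classical
  refine summable_of_sum_range_le (c := V.card / ε ^ 2)
    (fun j => Finset.sum_nonneg fun p _ => by positivity) fun n => ?_
  rw [← Finset.sum_biUnion]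
  · refine sum_bad h V hε _ ?_ ?_
    · intro p hp
      rw [Finset.mem_biUnion] at hp
      obtain ⟨j, -, hp⟩ := hp
      exact (Finset.mem_filter.1 (hD1 j hp)).2
    · intro p hp
      rw [Finset.mem_biUnion] at hp
      obtain ⟨j, -, hp⟩ := hp
      exact hD2 j p hp
  · intro i _ j _ hij
    rcases lt_or_gt_of_ne hij with h1 | h1
    · exact Finset.disjoint_of_subset_left (hD1 i) (Finset.disjoint_of_subset_right (hD1 j)
        (blk_disj hη h1))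
    · exact (Finset.disjoint_of_subset_left (hD1 j) (Finset.disjoint_of_subset_right (hD1 i)
        (blk_disj hη h1))).symm

theorem exists_good (hBL : S_BL) {F : ℕ → ℂ} {m : ℝ → ℂ} (h : DTK F m) (V : Finset ℝ) {ε η : ℝ}
    (hε : 0 < ε) (hη : 0 < η) (s J : ℕ) :
    ∃ j ≥ J, (∃ p ∈ Blk η j, ¬ Bad F m V ε p) ∧ ∃ p ∈ Blk η (j + s), ¬ Bad F m V ε p := by
  classical
  obtain ⟨c, hc, j₀, hj₀⟩ := hBL η hη
  by_contra hcon
  obtain ⟨D, hD⟩ : ∃ D : ℕ → Finset ℕ, ∀ j, D j = (Blk η j).filter (Bad F m V ε) :=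
    ⟨_, fun _ => rfl⟩
  obtain ⟨β, hβ⟩ : ∃ β : ℕ → ℝ, ∀ j, β j = ∑ p ∈ D j, (1 : ℝ) / p := ⟨_, fun _ => rfl⟩
  have hβ0 : ∀ j, 0 ≤ β j := fun j => by
    rw [hβ j]
    exact Finset.sum_nonneg fun p _ => by positivity
  have hsum : Summable β := by
    refine (sum_beta h V hε hη D (fun j => ?_) (fun j p hp => ?_)).congr fun j => (hβ j).symm
    · rw [hD j]
      exact Finset.filter_subset _ _
    · rw [hD j] at hp
      exact (Finset.mem_filter.1 hp).2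
  have hfull : ∀ j, j₀ ≤ j → (∀ p ∈ Blk η j, Bad F m V ε p) → c / (j : ℝ) ≤ β j := by
    intro j hj hb
    rw [hβ j, hD j, Finset.filter_true_of_mem hb]
    exact hj₀ j hj
  refine no_bound hc hsum s (J + j₀ + 1) fun j hj => ?_
  by_cases hg : ∃ p ∈ Blk η j, ¬ Bad F m V ε p
  · have h1 : ∀ p ∈ Blk η (j + s), Bad F m V ε p := by
      intro p hp
      by_contra h2
      exact hcon ⟨j, by omega, hg, p, hp, h2⟩
    have h3 := hfull (j + s) (by omega) h1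
    have h4 := hβ0 j
    linarith
  · have hg' : ∀ p ∈ Blk η j, Bad F m V ε p := by
      intro p hp
      by_contra h2
      exact hg ⟨p, hp, h2⟩
    have h3 := hfull j (by omega) hg'
    have h4 := hβ0 (j + s)
    have hj1 : (1 : ℝ) ≤ j := by exact_mod_cast (by omega : 1 ≤ j)
    have hs0 : (0 : ℝ) ≤ s := Nat.cast_nonneg s
    have h5 : c / ((j + s : ℕ) : ℝ) ≤ c / (j : ℝ) := by
      refine div_le_div_of_nonneg_left hc.le (by linarith) ?_
      push_cast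
      linarith
    linarith

theorem mem_blk {η : ℝ} {j p : ℕ} (hp : p ∈ Blk η j) :
    p.Prime ∧ ⌊Real.exp ((j : ℝ) * η)⌋₊ < p ∧ (j : ℝ) * η ≤ Real.log p ∧
      Real.log p ≤ ((j : ℝ) + 1) * η := by
  simp only [Blk, Finset.mem_filter, Finset.mem_Ioc] at hp
  obtain ⟨⟨h1, h2⟩, h3⟩ := hp
  have h4 : Real.exp ((j : ℝ) * η) < p := Nat.lt_of_floor_lt h1
  have h5 : (p : ℝ) ≤ Real.exp (((j : ℝ) + 1) * η) :=
    (Nat.le_floor_iff (Real.exp_pos _).le).1 h2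
  have h6 : (0 : ℝ) < p := by exact_mod_cast h3.pos
  refine ⟨h3, h1, ?_, ?_⟩
  · exact ((Real.lt_log_iff_exp_lt h6).2 h4).le
  · exact (Real.log_le_iff_le_exp h6).2 h5

theorem step {a b c d e f : ℂ} {ε η : ℝ} (ha : ‖a‖ = 1) (hb : ‖b‖ = 1)
    (h1 : ‖c - a * d‖ ≤ ε) (h2 : ‖d - e‖ ≤ 4 * η) (h3 : ‖f - b * e‖ ≤ ε) :
    ‖c - a * conj b * f‖ ≤ 2 * ε + 4 * η := by
  have hbb : conj b * b = 1 := by
    rw [mul_comm, Complex.mul_conj, Complex.normSq_eq_norm_sq, hb]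
    norm_num
  have e1 : c - a * conj b * f = (c - a * d) + a * (d - e) - a * conj b * (f - b * e) := by
    linear_combination (-(a * e)) * hbb
  rw [e1]
  calc ‖(c - a * d) + a * (d - e) - a * conj b * (f - b * e)‖
      ≤ ‖c - a * d‖ + ‖a * (d - e)‖ + ‖a * conj b * (f - b * e)‖ :=
        (norm_sub_le _ _).trans (by gcongr; exact norm_add_le _ _)
    _ ≤ ε + 4 * η + ε := by
        rw [norm_mul, norm_mul, norm_mul, Complex.norm_conj, ha, hb]
        linarith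
    _ = 2 * ε + 4 * η := by ring

theorem fin {x y z t ρ : ℂ} {δ : ℝ} (hρ : ‖ρ‖ = 1) (hy : ‖y‖ ≤ 1) (hz : ‖z‖ ≤ 1)
    (h1 : ‖x - ρ * z‖ ≤ δ) (h2 : ‖y - ρ * t‖ ≤ δ) :
    ‖z * conj t - x * conj y‖ ≤ 2 * δ := by
  have hδ : 0 ≤ δ := (norm_nonneg _).trans h1
  have hrr : ρ * conj ρ = 1 := by
    rw [Complex.mul_conj, Complex.normSq_eq_norm_sq, hρ]
    norm_num
  have e1 : z * conj t - x * conj y =
      -((x - ρ * z) * conj y + ρ * z * conj (y - ρ * t)) := by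
    rw [map_sub, map_mul]
    linear_combination (-(z * conj t)) * hrr
  rw [e1, norm_neg]
  calc ‖(x - ρ * z) * conj y + ρ * z * conj (y - ρ * t)‖
      ≤ ‖x - ρ * z‖ * ‖y‖ + ‖ρ‖ * ‖z‖ * ‖y - ρ * t‖ := by
        refine (norm_add_le _ _).trans (le_of_eq ?_)
        rw [norm_mul, norm_mul, norm_mul, Complex.norm_conj, Complex.norm_conj]
    _ ≤ δ * 1 + 1 * 1 * δ := by
        rw [hρ]
        gcongr
    _ = 2 * δ := by ring

end XC4a

open XC4a in
theorem pr_C4a (hBL : S_BL) : S_C4a := by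
  intro F hF m hm1 hmL hD u w hu
  obtain ⟨B, hB⟩ := hF
  rw [← sub_eq_zero, ← norm_le_zero_iff]
  refine le_of_forall_pos_le_add fun δ hδ => ?_
  rw [zero_add]
  obtain ⟨ε, hε, hεδ⟩ : ∃ ε : ℝ, 0 < ε ∧ 12 * ε = δ := ⟨δ / 12, by positivity, by ring⟩
  have hs1 : (⌊u / ε⌋₊ : ℝ) * ε ≤ u := by
    have := Nat.floor_le (show 0 ≤ u / ε by positivity)
    rwa [le_div_iff₀ hε] at this
  have hs2 : u < ((⌊u / ε⌋₊ : ℝ) + 1) * ε := by
    have := Nat.lt_floor_add_one (u / ε)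
    rwa [div_lt_iff₀ hε] at this
  have hJ : (B : ℝ) ≤ Real.exp ((⌈(B : ℝ) / ε⌉₊ : ℝ) * ε) := by
    have h1 := Nat.le_ceil ((B : ℝ) / ε)
    rw [div_le_iff₀ hε] at h1
    have h2 := Real.add_one_le_exp ((⌈(B : ℝ) / ε⌉₊ : ℝ) * ε)
    linarith
  classical
  obtain ⟨j, hjJ, ⟨p, hp, hpg⟩, ⟨p', hp', hpg'⟩⟩ :=
    exists_good hBL hD {0, w, u, w + u} hε hε ⌊u / ε⌋₊ ⌈(B : ℝ) / ε⌉₊
  obtain ⟨hpp, hpj, hpl, hpu⟩ := mem_blk hp
  obtain ⟨hpp', hpj', hpl', hpu'⟩ := mem_blk hp'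
  push_cast at hpl' hpu'
  have hBig : ∀ i q : ℕ, ⌈(B : ℝ) / ε⌉₊ ≤ i → ⌊Real.exp ((i : ℝ) * ε)⌋₊ < q → B < q := by
    intro i q hi hq
    refine lt_of_le_of_lt (Nat.le_floor (hJ.trans (Real.exp_le_exp.2 ?_))) hq
    exact mul_le_mul_of_nonneg_right (by exact_mod_cast hi) hε.le
  have hFp : ‖F p‖ = 1 := hB p hpp (hBig j p hjJ hpj)
  have hFp' : ‖F p'‖ = 1 := hB p' hpp' (hBig _ p' (by omega) hpj')
  have hgood : ∀ v ∈ ({0, w, u, w + u} : Finset ℝ), ‖m v - F p * m (v + Real.log p)‖ ≤ ε := by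
    intro v hv
    by_contra h1
    exact hpg ⟨v, hv, not_le.1 h1⟩
  have hgood' : ∀ v ∈ ({0, w, u, w + u} : Finset ℝ), ‖m v - F p' * m (v + Real.log p')‖ ≤ ε := by
    intro v hv
    by_contra h1
    exact hpg' ⟨v, hv, not_le.1 h1⟩
  have hlog : |Real.log p' - u - Real.log p| ≤ 2 * ε := by
    rw [abs_le]
    constructor
    · linarith
    · linarith
  have hkey : ∀ v, v ∈ ({0, w, u, w + u} : Finset ℝ) → v + u ∈ ({0, w, u, w + u} : Finset ℝ) →
      ‖m v - F p' * conj (F p) * m (v + u)‖ ≤ 2 * ε + 4 * ε := by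
    intro v hv hvu
    refine step hFp' hFp (hgood' v hv) (e := m (v + u + Real.log p)) ?_ (hgood _ hvu)
    refine (hmL _ _).trans ?_
    have e1 : v + Real.log p' - (v + u + Real.log p) = Real.log p' - u - Real.log p := by ring
    rw [e1]
    linarith
  have hk0 := hkey 0 (by simp) (by simp)
  have hkw := hkey w (by simp) (by simp)
  rw [zero_add] at hk0
  have hρ : ‖F p' * conj (F p)‖ = 1 := by
    rw [norm_mul, Complex.norm_conj, hFp, hFp', mul_one]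
  have hfin := fin hρ (hm1 0) (hm1 (w + u)) hkw hk0
  linarith

end Pool.Agent.F0f91f8.HD
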