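import Pool.Agent.Work.MP_0f91f8_co.HD.StmtsC

/-!
# Item C4b of the block HD (MP_0f91f8_co): continuous characters of the line
-/

set_option autoImplicit false

namespace Pool.Agent.F0f91f8.HD

open Filter Topology ComplexConjugate
open scoped BigOperators

namespace XC4b

/-- a continuous solution of `g (v + w) = g v * g w`, `g 0 = 1`, is an exponential -/
theorem exp_of_cont (g : ℝ → ℂ) (hg : Continuous g) (h0 : g 0 = 1)
    (hadd : ∀ v w : ℝ, g (v + w) = g v * g w) :
    ∃ c : ℂ, ∀ v : ℝ, g v = Complex.exp (c * v) := by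
  obtain ⟨G, hG⟩ : ∃ G : ℝ → ℂ, G = fun v => ∫ s in (0 : ℝ)..v, g s := ⟨_, rfl⟩
  have hGd : ∀ v, HasDerivAt G (g v) v := by
    intro v
    rw [hG]
    exact intervalIntegral.integral_hasDerivAt_right (hg.intervalIntegrable _ _)
      (hg.stronglyMeasurableAtFilter _ _) hg.continuousAt
  have hex : ∃ δ : ℝ, G δ ≠ 0 := by
    by_contra hcon
    push Not at hcon
    have hG0 : G = fun _ => (0 : ℂ) := funext hcon
    have h1 := hGd 0
    rw [hG0] at h1
    have h2 := h1.unique (hasDerivAt_const (0 : ℝ) (0 : ℂ))
    rw [h0] at h2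
    exact one_ne_zero h2
  obtain ⟨δ, hδ⟩ := hex
  have hkey : ∀ v, g v * G δ = G (v + δ) - G v := by
    intro v
    have h1 : g v * G δ = ∫ s in (0 : ℝ)..δ, g (v + s) := by
      rw [hG]
      simp only [hadd]
      rw [intervalIntegral.integral_const_mul]
    have h2 : (∫ s in (0 : ℝ)..δ, g (v + s)) = ∫ s in v..(v + δ), g s := by
      rw [intervalIntegral.integral_comp_add_left (fun s => g s) v, add_zero]
    rw [h1, h2, hG]
    exact (intervalIntegral.integral_interval_sub_left (hg.intervalIntegrable _ _)
      (hg.intervalIntegrable _ _)).symm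
  obtain ⟨c, hc⟩ : ∃ c : ℂ, c = (g δ - 1) / G δ := ⟨_, rfl⟩
  have hgd : ∀ v, HasDerivAt g (c * g v) v := by
    intro v
    have h1 : HasDerivAt (fun v => (G (v + δ) - G v) / G δ) ((g (v + δ) - g v) / G δ) v :=
      (((hGd (v + δ)).comp_add_const v δ).sub (hGd v)).div_const (G δ)
    have h2 : (fun v => (G (v + δ) - G v) / G δ) = g := by
      funext w
      rw [← hkey w]
      field_simp
    have h3 : (g (v + δ) - g v) / G δ = c * g v := by
      rw [hadd, hc]
      ring
    rw [h2, h3] at h1
    exact h1
  refine ⟨c, ?_⟩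
  have hconst : ∀ v : ℝ, g v * Complex.exp (-(c * v)) = g 0 * Complex.exp (-(c * (0 : ℝ))) := by
    intro v
    have hd : ∀ w : ℝ, HasDerivAt (fun w : ℝ => g w * Complex.exp (-(c * w))) 0 w := by
      intro w
      have he : HasDerivAt (fun w : ℝ => Complex.exp (-(c * w)))
          (Complex.exp (-(c * w)) * (-(c * 1))) w := by
        have hl : HasDerivAt (fun w : ℝ => -(c * (w : ℂ))) (-(c * 1)) w :=
          ((Complex.ofRealCLM.hasDerivAt (x := w)).const_mul c).neg
        exact hl.cexp
      have h := (hgd w).mul he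
      have h' : c * g w * Complex.exp (-(c * w)) + g w * (Complex.exp (-(c * w)) * (-(c * 1)))
          = 0 := by ring
      rw [h'] at h
      exact h
    exact is_const_of_deriv_eq_zero (fun w => (hd w).differentiableAt)
      (fun w => (hd w).deriv) v 0
  intro v
  have h := hconst v
  rw [h0] at h
  simp only [Complex.ofReal_zero, mul_zero, neg_zero, Complex.exp_zero, mul_one] at h
  have h2 : Complex.exp (-(c * v)) * Complex.exp (c * v) = 1 := by
    rw [← Complex.exp_add, neg_add_cancel, Complex.exp_zero]
  calc g v = g v * (Complex.exp (-(c * v)) * Complex.exp (c * v)) := by rw [h2, mul_one]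
    _ = (g v * Complex.exp (-(c * v))) * Complex.exp (c * v) := by ring
    _ = Complex.exp (c * v) := by rw [h, one_mul]

end XC4b

theorem pr_C4b : S_C4b := by
  intro m hm hm0 hmul
  -- the modulus is constant
  have hmod : ∀ u : ℝ, 0 < u → m u * conj (m u) = m 0 * conj (m 0) := by
    intro u hu
    have h := hmul u 0 hu
    rwa [zero_add] at h
  have hc0 : conj (m 0) ≠ 0 := by simpa using hm0
  -- multiplicativity for positive shifts
  have hpos : ∀ u w : ℝ, 0 < u → m (w + u) * m 0 = m w * m u := by
    intro u w hu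
    have h := hmul u w hu
    have h2 := hmod u hu
    have h3 : (m (w + u) * m 0) * conj (m 0) = (m w * m u) * conj (m 0) := by
      calc (m (w + u) * m 0) * conj (m 0) = m (w + u) * (m 0 * conj (m 0)) := by ring
        _ = m (w + u) * (m u * conj (m u)) := by rw [h2]
        _ = (m (w + u) * conj (m u)) * m u := by ring
        _ = (m w * conj (m 0)) * m u := by rw [h]
        _ = (m w * m u) * conj (m 0) := by ring
    exact mul_right_cancel₀ hc0 h3
  have hall : ∀ u w : ℝ, m (w + u) * m 0 = m w * m u := by
    intro u w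
    rcases lt_trichotomy u 0 with hu | hu | hu
    · have h1 := hpos (-u) (w + u) (by linarith)
      have h2 := hpos (-u) u (by linarith)
      rw [add_neg_cancel_right] at h1
      rw [add_neg_cancel] at h2
      -- h1 : m w * m 0 = m (w+u) * m (-u);  h2 : m 0 * m 0 = m u * m (-u)
      have hne : m (-u) ≠ 0 := by
        intro h
        rw [h, mul_zero] at h2
        exact hm0 (by simpa using h2)
      apply mul_right_cancel₀ hne
      calc m (w + u) * m 0 * m (-u) = (m (w + u) * m (-u)) * m 0 := by ring
        _ = (m w * m 0) * m 0 := by rw [h1]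
        _ = m w * (m 0 * m 0) := by ring
        _ = m w * (m u * m (-u)) := by rw [h2]
        _ = m w * m u * m (-u) := by ring
    · rw [hu, add_zero]
    · exact hpos u w hu
  obtain ⟨c, hc⟩ := XC4b.exp_of_cont (fun v => m v / m 0) (hm.div_const _)
    (div_self hm0) (by
      intro v w
      have h := hall w v
      have h' : m (v + w) = m v * m w / m 0 := by
        rw [← h]
        field_simp
      show m (v + w) / m 0 = (m v / m 0) * (m w / m 0)
      rw [h']
      field_simp)
  -- the modulus at 1
  have h1 : Complex.exp (c * (1 : ℝ)) * conj (Complex.exp (c * (1 : ℝ))) = 1 := by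
    rw [← hc 1]
    have h2 := hmod 1 one_pos
    rw [map_div₀]
    rw [div_mul_div_comm, h2]
    exact div_self (mul_ne_zero hm0 hc0)
  have hre : c.re = 0 := by
    rw [Complex.mul_conj, Complex.normSq_eq_norm_sq, Complex.norm_exp] at h1
    have h3 : (Real.exp (c * (1 : ℝ)).re) ^ 2 = 1 := by exact_mod_cast h1
    have h4 : Real.exp (c * (1 : ℝ)).re = 1 := by
      have hpos' := Real.exp_pos (c * (1 : ℝ)).re
      nlinarith [h3, hpos']
    rw [Real.exp_eq_one_iff] at h4
    simpa using h4
  refine ⟨-c.im, fun v => ?_⟩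
  have hcI : c = (c.im : ℂ) * Complex.I := by
    apply Complex.ext <;> simp [hre]
  have h := hc v
  have h5 : m v = m 0 * Complex.exp (c * v) := by
    have h6 : m v = m 0 * (m v / m 0) := by field_simp
    rw [h6]
    exact congrArg (fun z => m 0 * z) h
  rw [h5]
  congr 2
  rw [hcI]
  push_cast
  simp
  ring

end Pool.Agent.F0f91f8.HD
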