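import Pool.Agent.Work.MP_0f91f8_co.HD.StmtsC

set_option autoImplicit false

namespace Pool.Agent.F0f91f8.HD

open Filter Topology ComplexConjugate
open scoped BigOperators

namespace XC5

lemma norm_chi_le {q : ℕ} [NeZero q] (χ : DirichletCharacter ℂ q) (a : ZMod q) : ‖χ a‖ ≤ 1 :=
  DirichletCharacter.norm_le_one χ a

/-- the terms agree -/
lemma term_eq (f : ℕ → ℂ) (hf : CM f) {q : ℕ} [NeZero q] (χ : DirichletCharacter ℂ q) (t : ℝ)
    (p : ℕ) (hp : p.Prime) :
    ‖f p - χ⁻¹ (p : ZMod q) * (p : ℂ) ^ (t * Complex.I)‖ =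
      ‖1 - f p * χ (p : ZMod q) * Complex.exp (-(t * Real.log p * Complex.I))‖ := by
  have hfp : ‖f p‖ = 1 := hf.2.2 p hp.pos
  have hp0 : (p : ℂ) ≠ 0 := by exact_mod_cast hp.ne_zero
  by_cases hu : IsUnit (p : ZMod q)
  · have hχ : χ⁻¹ (p : ZMod q) = conj (χ (p : ZMod q)) := by
      have h1 := MulChar.star_apply' χ (p : ZMod q)
      rw [← h1]
      rfl
    have hχn : ‖χ (p : ZMod q)‖ = 1 := by
      obtain ⟨u, hu⟩ := hu
      rw [← hu]
      exact DirichletCharacter.unit_norm_eq_one χ u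
    have hpow : (p : ℂ) ^ (t * Complex.I) = Complex.exp (t * Real.log p * Complex.I) := by
      rw [Complex.cpow_def_of_ne_zero hp0]
      congr 1
      rw [← Complex.natCast_log]
      ring
    rw [hχ, hpow]
    have h2 : f p - conj (χ (p : ZMod q)) * Complex.exp (t * Real.log p * Complex.I) =
        f p * conj (1 - f p * χ (p : ZMod q) * Complex.exp (-(t * Real.log p * Complex.I))) := by
      have h3 : f p * conj (f p) = 1 := by
        rw [Complex.mul_conj, Complex.normSq_eq_norm_sq, hfp]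
        norm_num
      have h4 : conj (Complex.exp (-(t * Real.log p * Complex.I))) =
          Complex.exp (t * Real.log p * Complex.I) := by
        rw [← Complex.exp_conj]
        congr 1
        rw [map_neg, map_mul, map_mul, Complex.conj_ofReal, Complex.conj_ofReal, Complex.conj_I]
        ring
      simp only [map_sub, map_one, map_mul]
      rw [h4]
      linear_combination (conj (χ (p : ZMod q)) * Complex.exp (t * Real.log p * Complex.I)) * h3
    rw [h2, norm_mul, hfp, one_mul, RCLike.norm_conj]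
  · rw [MulChar.map_nonunit _ hu, MulChar.map_nonunit _ hu]
    simp [hfp]

end XC5

open XC5 in
theorem pr_C5 : S_C5 := by
  intro hC1 hC3 hC4a hC4b f hf hA
  obtain ⟨q, hq, χ, m₀, hm₀, hfreq⟩ := hC1 f hf hA
  have hf1 : f 1 = 1 := by
    have h1 := hf.2.1 1 1
    rw [mul_one] at h1
    have h2 : f 1 ≠ 0 := by
      intro h
      have := hf.2.2 1 one_pos
      rw [h, norm_zero] at this
      exact zero_ne_one this
    exact (mul_right_cancel₀ h2 (by rw [one_mul]; exact h1)).symm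
  have hfb : ∀ n, ‖f n‖ ≤ 1 := by
    intro n
    rcases Nat.eq_zero_or_pos n with h | h
    · rw [h, hf.1, norm_zero]; exact zero_le_one
    · exact (hf.2.2 n h).le
  set F : ℕ → ℂ := fun n => f n * χ (n : ZMod q) with hF
  have hCMD : CMD F := by
    refine ⟨?_, ?_, ?_⟩
    · simp [hF, hf1]
    · intro m n
      simp only [hF]
      rw [hf.2.1, Nat.cast_mul, map_mul]
      ring
    · intro n
      simp only [hF]
      rw [norm_mul]
      calc _ ≤ 1 * 1 := mul_le_mul (hfb n) (norm_chi_le χ _) (norm_nonneg _) zero_le_one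
        _ = 1 := one_mul 1
  obtain ⟨m, hm0, hmb, hmL, hmD⟩ := hC3 F hCMD m₀ hm₀ hfreq
  have hmne : m 0 ≠ 0 := by
    intro h
    rw [h, norm_zero] at hm0
    linarith
  have hB : ∃ B : ℕ, ∀ p : ℕ, p.Prime → B < p → ‖F p‖ = 1 := by
    refine ⟨q, fun p hp hqp => ?_⟩
    simp only [hF]
    have hcop : Nat.Coprime p q := by
      rw [Nat.Prime.coprime_iff_not_dvd hp]
      intro hd
      exact absurd (Nat.le_of_dvd (Nat.pos_of_ne_zero hq.out) hd) (not_le.mpr hqp)
    have hu : IsUnit (p : ZMod q) := (ZMod.isUnit_iff_coprime p q).mpr hcop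
    obtain ⟨u, hu⟩ := hu
    rw [norm_mul, hf.2.2 p hp.pos, ← hu, DirichletCharacter.unit_norm_eq_one χ u, one_mul]
  have hrel := hC4a F hB m hmb hmL hmD
  have hcont : Continuous m := by
    rw [Metric.continuous_iff]
    intro b ε hε
    refine ⟨ε / 2, by linarith, fun a ha => ?_⟩
    rw [dist_eq_norm]
    rw [Real.dist_eq] at ha
    calc _ ≤ 2 * |a - b| := hmL a b
      _ < ε := by linarith
  obtain ⟨t, ht⟩ := hC4b m hcont hmne hrel
  refine ⟨q, hq, χ⁻¹, t, ?_⟩
  refine summable_of_sum_le (c := 1 / ‖m 0‖ ^ 2) (fun p => by positivity) ?_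
  intro s
  have hm0p : 0 < ‖m 0‖ := norm_pos_iff.mpr hmne
  rw [le_div_iff₀ (by positivity)]
  have h1 := hmD 0 (s.map ⟨fun p : Nat.Primes => (p : ℕ), Nat.Primes.coe_nat_injective⟩) (by
    intro p hp
    rw [Finset.mem_map] at hp
    obtain ⟨a, _, rfl⟩ := hp
    exact a.2)
  rw [Finset.sum_map] at h1
  refine le_trans (le_of_eq ?_) h1
  rw [Finset.sum_mul]
  refine Finset.sum_congr rfl fun p _ => ?_
  change _ = (1 : ℝ) / ((p : ℕ) : ℝ) * ‖m 0 - F (p : ℕ) * m (0 + Real.log ((p : ℕ) : ℝ))‖ ^ 2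
  rw [term_eq f hf χ t (p : ℕ) p.2, zero_add, ht (Real.log (p : ℕ))]
  have h2 : m 0 - F (p : ℕ) * (m 0 * Complex.exp (-(t * Real.log (p : ℕ) * Complex.I))) =
      m 0 * (1 - f (p : ℕ) * χ ((p : ℕ) : ZMod q) *
        Complex.exp (-(t * Real.log (p : ℕ) * Complex.I))) := by
    simp only [hF]
    ring
  rw [h2, norm_mul]
  ring

end Pool.Agent.F0f91f8.HD
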