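import Pool.Agent.Work.MP_a8fbd7_nt.ZF.All
import Pool.Agent.Work.MP_0f91f8_co.HD.C_BL
import Pool.Agent.Work.MP_0f91f8_co.HD.C_C1
import Pool.Agent.Work.MP_0f91f8_co.HD.C_C2
import Pool.Agent.Work.MP_0f91f8_co.HD.C_C3
import Pool.Agent.Work.MP_0f91f8_co.HD.C_C4a
import Pool.Agent.Work.MP_0f91f8_co.HD.C_C4b
import Pool.Agent.Work.MP_0f91f8_co.HD.C_C5

/-!
# Module C: a completely multiplicative function which is not aperiodic is pretentious
-/

set_option autoImplicit false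

namespace Pool.Agent.F0f91f8.HD

theorem pretStmt : PretStmt :=
  pr_C5 pr_C1 (pr_C3 pr_C2) (pr_C4a (pr_BL Pool.Agent.Work.MP_a8fbd7_nt.ZF.all_Pnt)) pr_C4b

end Pool.Agent.F0f91f8.HD
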