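import Pool.Agent.Work.MP_0f91f8_co.HD.Defs

/-!
# Half density: `PW f` for aperiodic `f`, and `PWStmt` from the modules
-/

set_option autoImplicit false

namespace Pool.Agent.F0f91f8.HD

open Filter Topology ComplexConjugate
open scoped BigOperators

theorem kp_pos (w K : ℕ) (e : Fin (w + 1) → Fin K) : 0 < kp w K e := by
  unfold kp
  refine Finset.prod_pos fun p _ => ?_
  split_ifs with h
  · exact pow_pos h.pos _
  · exact one_pos

theorem kk_pos (w K : ℕ) (e : Fin (K + 1) → Fin K) : 0 < kk w K e := by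
  unfold kk
  refine Finset.prod_pos fun p _ => ?_
  split_ifs with h
  · exact pow_pos h.1.pos _
  · exact one_pos

theorem Bx_add (Q D a₀ M : ℕ) (G H : ℕ → ℕ → ℂ) :
    Bx Q D a₀ M (fun a n => G a n + H a n) = Bx Q D a₀ M G + Bx Q D a₀ M H := by
  unfold Bx
  rw [← add_div]
  congr 1
  simp only [Finset.sum_add_distrib]

theorem pr_PWA (hA : AperStmt) (f : ℕ → ℂ) (hf : CM f) (hap : Aper f) : PW f := by
  intro ε hε
  refine ⟨0, fun w _ => ⟨1, fun K hK => ?_⟩⟩
  have hD : 0 < DD w K := by
    unfold DD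
    have := w.factorial_pos
    positivity
  have key : Tendsto (fun M : ℕ => Av w K M (pc f)) atTop (𝓝 0) := by
    have h1 : ∀ (e : Fin (w + 1) → Fin K) (e' : Fin (K + 1) → Fin K),
        Tendsto (fun M : ℕ => Bx w.factorial (DD w K) (inv0 w.factorial (kk w K e')) M fun a n =>
          pc f (tX (w.factorial * kp w K e) (kk w K e') a n)
            (tY (w.factorial * kp w K e) (kk w K e') a n)
            (tZ (w.factorial * kp w K e) (kk w K e') a n)) atTop (𝓝 0) := by
      intro e e'
      obtain ⟨h1, h2, h3⟩ := hA f hf hap (w.factorial * kp w K e) (kk w K e') w.factorial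
        (DD w K) (inv0 w.factorial (kk w K e')) (Nat.mul_pos w.factorial_pos (kp_pos w K e))
        (kk_pos w K e') w.factorial_pos hD
      have h4 := (h1.add h2).add h3
      simp only [add_zero] at h4
      refine h4.congr fun M => ?_
      rw [← Bx_add, ← Bx_add]
      rfl
    have h2 : Tendsto (fun M : ℕ => (∑ e : Fin (w + 1) → Fin K, ∑ e' : Fin (K + 1) → Fin K,
        Bx w.factorial (DD w K) (inv0 w.factorial (kk w K e')) M fun a n =>
          pc f (tX (w.factorial * kp w K e) (kk w K e') a n)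
            (tY (w.factorial * kp w K e) (kk w K e') a n)
            (tZ (w.factorial * kp w K e) (kk w K e') a n)) /
        ((K : ℂ) ^ (w + 1) * (K : ℂ) ^ (K + 1))) atTop
        (𝓝 ((∑ _e : Fin (w + 1) → Fin K, ∑ _e' : Fin (K + 1) → Fin K, (0 : ℂ)) /
          ((K : ℂ) ^ (w + 1) * (K : ℂ) ^ (K + 1)))) :=
      Tendsto.div_const (tendsto_finsetSum _ fun e _ => tendsto_finsetSum _ fun e' _ =>
        h1 e e') _
    simpa [Av] using h2
  have h3 : Tendsto (fun M : ℕ => (Av w K M (pc f)).re) atTop (𝓝 0) := by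
    have := (Complex.continuous_re.tendsto 0).comp key
    simpa using! this
  have h4 := h3.eventually (lt_mem_nhds (show -ε < 0 by linarith))
  rw [eventually_atTop] at h4
  obtain ⟨M₀, hM₀⟩ := h4
  exact ⟨M₀, fun M hM => (hM₀ M hM).le⟩

theorem pr_PWS (hA : AperStmt) (hC : PretStmt) (hD : PWPret) : PWStmt := by
  intro f hf
  by_cases h : Aper f
  · exact pr_PWA hA f hf h
  · exact hD f hf (hC f hf h)

end Pool.Agent.F0f91f8.HD
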