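import Pool.Agent.Work.MP_0f91f8_co.HD.Defs

/-!
# Module C of the block HD (MP_0f91f8_co): not aperiodic implies pretentious

Final statement of the module: `PretStmt` of `HD/Defs.lean`.  Composition:
`S_PRE : S_C1 → S_C3 → S_C4a → S_C4b → PretStmt` with `S_C2` used in `S_C3` and `S_BL` used in
`S_C4a`.  Items are `def .. : Prop`, the proofs are `theorem pr_.. : S_..` (hypotheses are
other items where the docstring says so).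
-/

set_option autoImplicit false

namespace Pool.Agent.F0f91f8.HD

open Filter Topology ComplexConjugate
open scoped BigOperators

/-- completely multiplicative and bounded by one -/
def CMD (F : ℕ → ℂ) : Prop :=
  F 1 = 1 ∧ (∀ m n : ℕ, F (m * n) = F m * F n) ∧ ∀ n : ℕ, ‖F n‖ ≤ 1

/-- mean value up to the real number `x` -/
noncomputable def Mx (F : ℕ → ℂ) (x : ℝ) : ℂ := (∑ n ∈ Finset.Icc 1 ⌊x⌋₊, F n) / (x : ℂ)

/-- the limit inequality (dual of Turan and Kubilius) for a function `m` on the real line -/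
def DTK (F : ℕ → ℂ) (m : ℝ → ℂ) : Prop :=
  ∀ v : ℝ, ∀ P : Finset ℕ, (∀ p ∈ P, p.Prime) →
    ∑ p ∈ P, (1 : ℝ) / p * ‖m v - F p * m (v + Real.log p)‖ ^ 2 ≤ 1

/-- C1 (from progressions to characters).  `f` is not aperiodic: there are `q, a, ε > 0` with
`ε N ≤ ‖Σ_{n ≤ N, n = a mod q} f(n)‖` for infinitely many `N`.  `d = gcd(a, q)`, `q = d q'`,
`a = d a'`: the `n` in the class are `n = d m`, `m = a' mod q'`, `f(dm) = f(d) f(m)`, `a'` is a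
unit mod `q'`.  `DirichletCharacter.sum_char_inv_mul_char_eq`:
`φ(q') 1_{m = a'} = Σ_χ χ(a'⁻¹) χ(m)`, so for infinitely many `N` some `χ` mod `q'` has
`ε N ≤ ‖Σ_{m ≤ N / d} f(m) χ(m)‖`; the number of characters is finite, so one `χ` works for
infinitely many `N` (`Filter.frequently_sup`, `Finite.exists`..).  `M = N / d` tends to infinity
with `N` and `ε M ≤ ε N`. -/
def S_C1 : Prop := ∀ f : ℕ → ℂ, CM f → ¬ Aper f →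
  ∃ (q : ℕ) (_ : NeZero q) (χ : DirichletCharacter ℂ q) (m₀ : ℝ), 0 < m₀ ∧
    ∃ᶠ N : ℕ in atTop, m₀ ≤ ‖Mx (fun n => f n * χ (n : ZMod q)) (N : ℝ)‖

/-- C2 (dual Turan-Kubilius).  `X = ⌊x⌋`.  For `p ∈ P`:
`c_p = (Mx F x - F p Mx F (x/p)) / √p = -(1/x) Σ_{n ≤ X} F(n) a_p(n)`,
`a_p(n) = (p 1_{p | n} - 1)/√p` (as `Σ_{m ≤ x/p} F(p) F(m) = Σ_{n ≤ x, p | n} F(n)`).
`Σ_n a_p(n)² ≤ X + 2` and `|Σ_n a_p(n) a_q(n)| ≤ 3 p q` for `p ≠ q` (`t ⌊X/t⌋ ∈ (X - t, X]` for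
`t = p, q, pq`).  So `Σ_n |Σ_p conj(c_p) a_p(n)|² ≤ (X + C) Σ_p |c_p|²`, `C = C(P)`
(`|c_p c_q| ≤ (|c_p|² + |c_q|²)/2`), and by Cauchy-Schwarz, with `S = Σ |c_p|²`,
`S = |(1/x) Σ_n F(n) Σ_p conj(c_p) a_p(n)| ≤ (1/x) √X √((X + C) S)`, `S ≤ X (X + C)/x²
≤ 1 + C/x`. -/
def S_C2 : Prop := ∀ F : ℕ → ℂ, CMD F → ∀ P : Finset ℕ, (∀ p ∈ P, p.Prime) → ∀ ε : ℝ, 0 < ε →
  ∀ᶠ x : ℝ in atTop, ∑ p ∈ P, (1 : ℝ) / p * ‖Mx F x - F p * Mx F (x / p)‖ ^ 2 ≤ 1 + ε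

/-- C3 (limit function; uses `S_C2`).  An ultrafilter `U ≤ atTop` on `ℕ` containing
`{N : m₀ ≤ ‖Mx F N‖}`; `m v = lim_U Mx F (N e^(-v))` (`‖Mx‖ ≤ 1`, compactness of the closed
disc).  For `x ≥ y > 0`: `‖Mx F x - Mx F y‖ ≤ (x - y + 1)/x + (x - y)/x`, so
`‖m v - m w‖ ≤ 2 (1 - e^(-|v-w|)) ≤ 2 |v - w|`.  `(N e^(-v))/p = N e^(-(v + log p))`: `S_C2` in the
limit, every `ε > 0`. -/
def S_C3 : Prop := ∀ F : ℕ → ℂ, CMD F → ∀ m₀ : ℝ, 0 < m₀ →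
  (∃ᶠ N : ℕ in atTop, m₀ ≤ ‖Mx F (N : ℝ)‖) →
  ∃ m : ℝ → ℂ, m₀ ≤ ‖m 0‖ ∧ (∀ v, ‖m v‖ ≤ 1) ∧ (∀ v w, ‖m v - m w‖ ≤ 2 * |v - w|) ∧ DTK F m

/-- primes in the block `(e^(jη), e^((j+1)η)]` -/
noncomputable def Blk (η : ℝ) (j : ℕ) : Finset ℕ :=
  (Finset.Ioc ⌊Real.exp (j * η)⌋₊ ⌊Real.exp ((j + 1) * η)⌋₊).filter Nat.Prime

/-- BL (prime number theorem in blocks; hypothesis `MP_a8fbd7_nt.ZF.StPnt`, proved in
`Work/MP_a8fbd7_nt/ZF/All.lean`, or any prime number theorem with error `o(x / log x)`).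
`A = 2`, `y = e^((j+1)η)`, `y' = e^(jη)`: `π(y) - π(y') ≥ ∫_{y'}^{y} du/log u - 2 C y/(jη)² ≥
(y - y')/((j+1)η) - 2 C y/(jη)²`, and each `1/p ≥ 1/y`:
the sum is `≥ (1 - e^(-η))/((j+1)η) - 2C/(jη)² ≥ c/j` for `j ≥ j₀`. -/
def S_BL : Prop := ∀ η : ℝ, 0 < η → ∃ c : ℝ, 0 < c ∧ ∃ j₀ : ℕ, ∀ j : ℕ, j₀ ≤ j →
  c / j ≤ ∑ p ∈ Blk η j, (1 : ℝ) / p

/-- C4a (uses `S_BL`).  `u > 0`, `w` real, `ε, η > 0` small, `s = ⌊u/η⌋`.  A prime `p` is bad if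
`‖m v - F p m (v + log p)‖ > ε` for some `v ∈ {0, w, u, w + u}`; by `DTK` the sum of `1/p` over a
finite set of bad primes is `≤ 4/ε²`.  If for every `j ≥ J` one of the blocks `j`, `j + s` had
only bad primes, then `c/(j+s) ≤ β_j + β_{j+s}`, `β_j = Σ_{p bad in Blk η j} 1/p`; sum over
`J ≤ j < J + L`: `Σ c/(j+s) ≤ 2 · 4/ε²`, false for large `L` (the blocks are disjoint).  So
there are good primes `p ∈ Blk η j`, `p' ∈ Blk η (j+s)`, both `> B`, and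
`|log p' - log p - u| ≤ 2η`.  For `v ∈ {0, w}`: `m v = F(p') m(v + log p') + O(ε)`,
`m(v + log p') = m(v + u + log p) + O(4η)`, `conj F(p) m(v + u) = m(v + u + log p) + O(ε)`
(`|F p| = 1`).  So `‖m v - ρ m (v + u)‖ ≤ 2ε + 4η =: δ` for `v = 0, w` with the SAME
`ρ = F(p') conj F(p)`, `|ρ| = 1`; so `‖m(w) conj m(0) - m(w+u) conj m(u)‖ ≤ 2δ` (`‖m‖ ≤ 1`).
`ε, η → 0`. -/
def S_C4a : Prop := ∀ F : ℕ → ℂ, (∃ B : ℕ, ∀ p : ℕ, p.Prime → B < p → ‖F p‖ = 1) →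
  ∀ m : ℝ → ℂ, (∀ v, ‖m v‖ ≤ 1) → (∀ v w, ‖m v - m w‖ ≤ 2 * |v - w|) → DTK F m →
  ∀ u w : ℝ, 0 < u → m (w + u) * conj (m u) = m w * conj (m 0)

/-- C4b (continuous characters of the line).  `w = 0`: `|m u| = |m 0|` for `u > 0`; `w = -u`:
`|m (-u)| = |m 0|`.  `g = m / m 0`: `|g| = 1`, `g 0 = 1`, `g (w + u) = g w g u` for `u > 0`, hence for
all `u` (`w := w + u`, `u := -u`).  `A = ∫_0^δ g ≠ 0` for small `δ`, `g v A = ∫_v^{v+δ} g`: `g` is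
differentiable, `g' = g'(0) g`, `g v = exp (g'(0) v)`, and `|g| = 1` gives `g'(0) = -i t`. -/
def S_C4b : Prop := ∀ m : ℝ → ℂ, Continuous m → m 0 ≠ 0 →
  (∀ u w : ℝ, 0 < u → m (w + u) * conj (m u) = m w * conj (m 0)) →
  ∃ t : ℝ, ∀ v : ℝ, m v = m 0 * Complex.exp (-(t * v * Complex.I))

/-- C5 (end of the module; uses `S_C1`, `S_C3`, `S_C4a`, `S_C4b`).  `F n = f n χ(n)` satisfies `CMD`
and `‖F p‖ = 1` for `p > q`.  `DTK` at `v = 0`: `Σ_{p ∈ P} (1/p) |m 0|² |1 - F(p) p^(-it)|² ≤ 1`.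
Termwise `|1 - f(p) χ(p) p^(-it)| = |f(p) - χ⁻¹(p) p^(it)|` (both are `1` if `p | q`; otherwise
multiply by the number `conj (f p)` of modulus one and conjugate).  `summable_of_sum_le`. -/
def S_C5 : Prop := S_C1 → S_C3 → S_C4a → S_C4b → PretStmt

end Pool.Agent.F0f91f8.HD
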