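import Pool.Agent.Work.MP_0f91f8_co.HD.StmtsB2

set_option autoImplicit false

/-! Block HD-B2, item Alg. -/

namespace Pool.Agent.F0f91f8.HD.B2

open Filter Topology ComplexConjugate
open scoped BigOperators Classical

namespace XAlg

theorem nm_cast (w : ℤ × ℤ) : (nm w : ℤ) = w.1 ^ 2 + w.2 ^ 2 := by
  unfold nm
  rw [Int.natCast_natAbs, abs_of_nonneg (by positivity)]

theorem inj (w g g' : ℤ × ℤ) (hw : w ≠ 0) (h : gm w g = gm w g') : g = g' := by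
  unfold gm at h
  rw [Prod.mk.injEq] at h
  obtain ⟨h1, h2⟩ := h
  have hpos : w.1 ^ 2 + w.2 ^ 2 ≠ 0 := by
    intro h0
    apply hw
    have e1 : w.1 ^ 2 = 0 := by nlinarith [sq_nonneg w.1, sq_nonneg w.2]
    have e2 : w.2 ^ 2 = 0 := by nlinarith [sq_nonneg w.1, sq_nonneg w.2]
    exact Prod.ext (by simpa using e1) (by simpa using e2)
  have e1 : (w.1 ^ 2 + w.2 ^ 2) * g.1 = (w.1 ^ 2 + w.2 ^ 2) * g'.1 := by
    linear_combination w.1 * h1 + w.2 * h2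
  have e2 : (w.1 ^ 2 + w.2 ^ 2) * g.2 = (w.1 ^ 2 + w.2 ^ 2) * g'.2 := by
    linear_combination w.1 * h2 - w.2 * h1
  exact Prod.ext (mul_left_cancel₀ hpos e1) (mul_left_cancel₀ hpos e2)

theorem nm_mul (w g : ℤ × ℤ) : nm (gm w g) = nm w * nm g := by
  unfold nm gm
  rw [← Int.natAbs_mul]
  congr 1
  ring

theorem dv_iff (w b : ℤ × ℤ) (hw : GP w) : dv w b ↔ (nm w : ℤ) ∣ w.1 * b.2 - w.2 * b.1 := by
  obtain ⟨h1, h2, hp⟩ := hw
  have hp' : Prime (nm w : ℤ) := Nat.prime_iff_prime_int.1 hp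
  have hc := nm_cast w
  constructor
  · rintro ⟨g, rfl⟩
    refine ⟨g.2, ?_⟩
    rw [hc]
    unfold gm
    ring
  · rintro ⟨v, hv⟩
    have h3 : (nm w : ℤ) ∣ w.2 * (w.1 * b.1 + w.2 * b.2) := by
      refine ⟨b.2 - w.1 * v, ?_⟩
      have h4 : w.2 * b.1 = w.1 * b.2 - nm w * v := by linarith
      have h5 : w.2 * (w.1 * b.1 + w.2 * b.2) = w.1 * (w.2 * b.1) + w.2 ^ 2 * b.2 := by ring
      rw [h5, h4, hc]
      ring
    have h6 : ¬ (nm w : ℤ) ∣ w.2 := by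
      intro h7
      have h8 := Int.le_of_dvd h1 h7
      rw [hc] at h8
      nlinarith
    obtain ⟨u, hu⟩ := (hp'.dvd_or_dvd h3).resolve_left h6
    have hne : (nm w : ℤ) ≠ 0 := hp'.ne_zero
    refine ⟨(u, v), ?_⟩
    unfold gm
    refine Prod.ext ?_ ?_
    · simp only
      apply mul_left_cancel₀ hne
      linear_combination w.1 * hu - w.2 * hv + b.1 * hc
    · simp only
      apply mul_left_cancel₀ hne
      linear_combination w.2 * hu + w.1 * hv + b.2 * hc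

theorem diff (w w' : ℤ × ℤ) (hw : GP w) (hw' : GP w') (h : nm w = nm w') : w = w' := by
  obtain ⟨h1, h2, hp⟩ := hw
  obtain ⟨h1', h2', _⟩ := hw'
  have hp' : Prime (nm w : ℤ) := Nat.prime_iff_prime_int.1 hp
  have hc := nm_cast w
  have hc' := nm_cast w'
  rw [← h] at hc'
  obtain ⟨a, b⟩ := w
  obtain ⟨a', b'⟩ := w'
  simp only at h1 h2 h1' h2' hc hc'
  set p : ℤ := (nm (a, b) : ℤ) with hpd
  have hp0 : 0 < p := by rw [hc]; nlinarith
  have hd : p ∣ (a * b' - a' * b) * (a * b' + a' * b) := by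
    refine ⟨b' ^ 2 - b ^ 2, ?_⟩
    linear_combination b' ^ 2 * (-hc) + b ^ 2 * hc'
  rcases hp'.dvd_or_dvd hd with hd | hd
  · have h5 : (a * a' + b * b') ^ 2 + (a * b' - a' * b) ^ 2 = p ^ 2 := by
      have : p ^ 2 = (a ^ 2 + b ^ 2) * (a' ^ 2 + b' ^ 2) := by
        rw [← hc, ← hc']; ring
      rw [this]; ring
    have h6 : 0 < a * a' + b * b' := by
      have : 0 < a * a' := mul_pos (h1.trans h2) (h1'.trans h2')
      have : 0 < b * b' := mul_pos h1 h1'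
      linarith
    have h7 : |a * b' - a' * b| < p := by
      refine abs_lt_of_sq_lt_sq ?_ hp0.le
      nlinarith
    have h8 := Int.eq_zero_of_abs_lt_dvd hd h7
    have h9 : a * b' = a' * b := by linarith
    have h10 : a ^ 2 * p = a' ^ 2 * p := by
      have e1 : a ^ 2 * p = a ^ 2 * a' ^ 2 + (a * b') ^ 2 := by rw [hc']; ring
      have e2 : a' ^ 2 * p = a ^ 2 * a' ^ 2 + (a' * b) ^ 2 := by rw [hc]; ring
      rw [e1, e2, h9]
    have h11 : a ^ 2 = a' ^ 2 := mul_right_cancel₀ hp0.ne' h10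
    have h12 : a = a' := by
      have := abs_eq_abs.2 (sq_eq_sq_iff_eq_or_eq_neg.1 h11)
      rw [abs_of_pos (h1.trans h2), abs_of_pos (h1'.trans h2')] at this
      exact this
    have h13 : b ^ 2 = b' ^ 2 := by linarith
    have h14 : b = b' := by
      have := abs_eq_abs.2 (sq_eq_sq_iff_eq_or_eq_neg.1 h13)
      rw [abs_of_pos h1, abs_of_pos h1'] at this
      exact this
    rw [h12, h14]
  · exfalso
    have h5 : (a * a' - b * b') ^ 2 + (a * b' + a' * b) ^ 2 = p ^ 2 := by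
      have : p ^ 2 = (a ^ 2 + b ^ 2) * (a' ^ 2 + b' ^ 2) := by
        rw [← hc, ← hc']; ring
      rw [this]; ring
    have h6 : 0 < a * a' - b * b' := by
      have : b * b' < a * a' := by nlinarith
      linarith
    have h7 : |a * b' + a' * b| < p := by
      refine abs_lt_of_sq_lt_sq ?_ hp0.le
      nlinarith
    have h8 := Int.eq_zero_of_abs_lt_dvd hd h7
    have : 0 < a * b' := mul_pos (h1.trans h2) h1'
    have : 0 < a' * b := mul_pos (h1'.trans h2') h1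
    linarith

theorem five (w g : ℤ × ℤ) (R : ℕ) (hw : GP w) (h : gm w g ∈ box R) : g ∈ box R := by
  obtain ⟨h1, h2, _⟩ := hw
  unfold box gm at h
  rw [Finset.mem_product, Finset.mem_Icc, Finset.mem_Icc] at h
  simp only at h
  obtain ⟨⟨e1, e2⟩, e3, e4⟩ := h
  set x := w.1 * g.1 - w.2 * g.2 with hx
  set y := w.2 * g.1 + w.1 * g.2 with hy
  have hxy : x ^ 2 + y ^ 2 = (w.1 ^ 2 + w.2 ^ 2) * (g.1 ^ 2 + g.2 ^ 2) := by
    rw [hx, hy]; ring
  have hR : (0 : ℤ) ≤ R := Int.natCast_nonneg R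
  have hx2 : x ^ 2 ≤ (R : ℤ) ^ 2 := sq_le_sq' e1 e2
  have hy2 : y ^ 2 ≤ (R : ℤ) ^ 2 := sq_le_sq' e3 e4
  have hw5 : 5 ≤ w.1 ^ 2 + w.2 ^ 2 := by nlinarith
  have hg : 5 * (g.1 ^ 2 + g.2 ^ 2) ≤ (w.1 ^ 2 + w.2 ^ 2) * (g.1 ^ 2 + g.2 ^ 2) :=
    mul_le_mul_of_nonneg_right hw5 (by positivity)
  have hg1 : g.1 ^ 2 ≤ (R : ℤ) ^ 2 := by nlinarith [sq_nonneg g.1, sq_nonneg g.2]
  have hg2 : g.2 ^ 2 ≤ (R : ℤ) ^ 2 := by nlinarith [sq_nonneg g.1, sq_nonneg g.2]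
  unfold box
  rw [Finset.mem_product, Finset.mem_Icc, Finset.mem_Icc]
  exact ⟨abs_le.1 (abs_le_of_sq_le_sq hg1 hR), abs_le.1 (abs_le_of_sq_le_sq hg2 hR)⟩

end XAlg

theorem Alg_pf : StAlg :=
  ⟨XAlg.inj, XAlg.nm_mul, XAlg.dv_iff, fun w w' h h' hne he => hne (XAlg.diff w w' h h' he),
    XAlg.five⟩

end Pool.Agent.F0f91f8.HD.B2
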