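import Pool.Agent.Work.MP_0f91f8_co.HD.StmtsB2

/-!
# Half density, module B2, item Cls
-/

set_option autoImplicit false

namespace Pool.Agent.F0f91f8.HD.B2

open Filter Topology ComplexConjugate
open scoped BigOperators Classical

theorem Cls_pf : StCls := by
  intro R q c hq
  have hq' : (0 : ℤ) < (q : ℤ) := by exact_mod_cast hq
  have e : Finset.Icc (-(R : ℤ)) R = Finset.Ioc (-(R : ℤ) - 1) R := by
    ext x
    simp only [Finset.mem_Icc, Finset.mem_Ioc]
    omega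
  have h := Int.Ioc_filter_modEq_card (-(R : ℤ) - 1) R hq' c
  rw [e]
  set N : ℕ := ((Finset.Ioc (-(R : ℤ) - 1) R).filter (fun y => y ≡ c [ZMOD q])).card with hN
  set A : ℚ := ((R : ℤ) - c : ℚ) / ((q : ℤ) : ℚ) with hA
  set B : ℚ := ((-(R : ℤ) - 1 : ℤ) - c : ℚ) / ((q : ℤ) : ℚ) with hB
  have hqQ : (0 : ℚ) < ((q : ℤ) : ℚ) := by exact_mod_cast hq
  have hAB : B ≤ A := by
    rw [hA, hB]
    apply div_le_div_of_nonneg_right _ hqQ.le
    push_cast
    have : (0 : ℚ) ≤ (R : ℚ) := Nat.cast_nonneg _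
    linarith
  have hfl : ⌊B⌋ ≤ ⌊A⌋ := Int.floor_le_floor hAB
  have h' : (N : ℤ) = ⌊A⌋ - ⌊B⌋ := by
    rw [hN]
    refine h.trans ?_
    rw [max_eq_left]
    linarith
  have hdiff : A - B = (2 * R + 1 : ℚ) / (q : ℚ) := by
    rw [hA, hB]
    push_cast
    field_simp
    ring
  have k1 := Int.floor_le A
  have k2 := Int.lt_floor_add_one A
  have k3 := Int.floor_le B
  have k4 := Int.lt_floor_add_one B
  have hNQ : (N : ℚ) = (⌊A⌋ : ℚ) - (⌊B⌋ : ℚ) := by exact_mod_cast h'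
  have hfin : |(N : ℚ) - (2 * R + 1 : ℚ) / (q : ℚ)| ≤ 1 := by
    rw [← hdiff, hNQ, abs_le]
    constructor <;> linarith
  have := (Rat.cast_le (K := ℝ)).2 hfin
  push_cast at this
  exact this

end Pool.Agent.F0f91f8.HD.B2
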