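import Pool.Agent.Work.MP_0f91f8_co.HD.StmtsB2

/-!
# Half density, module B2, item Cnt1: the number of multiples in the box
-/

set_option autoImplicit false

namespace Pool.Agent.F0f91f8.HD.B2

open Filter Topology ComplexConjugate
open scoped BigOperators Classical

namespace XCnt1

/-- the condition for fixed `x` is one residue class for `y` -/
lemma cls {a b p : ℤ} (h : IsCoprime a p) : ∃ u : ℤ, ∀ x y : ℤ,
    p ∣ a * y - b * x ↔ y ≡ u * x [ZMOD p] := by
  obtain ⟨u, v, huv⟩ := h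
  refine ⟨u * b, fun x y => ?_⟩
  rw [Int.modEq_iff_dvd]
  constructor
  · rintro ⟨k, hk⟩
    refine ⟨-(u * k) - v * y, ?_⟩
    linear_combination (-u) * hk + y * huv
  · rintro ⟨k, hk⟩
    refine ⟨-(a * k) - v * (b * x), ?_⟩
    linear_combination (-a) * hk + (b * x) * huv

lemma card_box (R : ℕ) : ((Finset.Icc (-(R : ℤ)) R).card : ℝ) = 2 * R + 1 := by
  rw [Int.card_Icc]
  have h : ((R : ℤ) + 1 - -(R : ℤ)).toNat = 2 * R + 1 := by omega
  rw [h]
  push_cast
  ring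

end XCnt1

theorem Cnt1_pf (hAlg : StAlg) (hCls : StCls) : StCnt1 := by
  intro w R hw
  have hdv : ∀ β : ℤ × ℤ, dv w β ↔ ((nm w : ℕ) : ℤ) ∣ w.1 * β.2 - w.2 * β.1 :=
    fun β => hAlg.2.2.1 w β hw
  obtain ⟨hb, hba, hp⟩ := hw
  have hnm : ((nm w : ℕ) : ℤ) = w.1 ^ 2 + w.2 ^ 2 := Int.natAbs_of_nonneg (by positivity)
  have hp' : Prime ((nm w : ℕ) : ℤ) := Nat.prime_iff_prime_int.1 hp
  have hcop : IsCoprime w.1 ((nm w : ℕ) : ℤ) := by
    refine IsCoprime.symm ((Irreducible.coprime_iff_not_dvd hp'.irreducible).2 fun h => ?_)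
    have h1 := Int.le_of_dvd (by omega) h
    rw [hnm] at h1
    nlinarith
  obtain ⟨u, hu⟩ := XCnt1.cls (b := w.2) hcop
  have e1 : (((box R).filter (fun b => dv w b)).card : ℝ) = ∑ x ∈ Finset.Icc (-(R : ℤ)) R,
      (((Finset.Icc (-(R : ℤ)) R).filter (fun y => y ≡ u * x [ZMOD ((nm w : ℕ) : ℤ)])).card : ℝ) := by
    rw [Finset.card_filter, box, Finset.sum_product]
    push_cast
    refine Finset.sum_congr rfl fun x _ => ?_
    rw [Finset.card_filter]
    push_cast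
    refine Finset.sum_congr rfl fun y _ => ?_
    by_cases h : dv w (x, y)
    · rw [if_pos h, if_pos ((hu x y).1 ((hdv (x, y)).1 h))]
    · rw [if_neg h, if_neg fun h' => h ((hdv (x, y)).2 ((hu x y).2 h'))]
  have e2 : (2 * R + 1 : ℝ) ^ 2 / nm w = ∑ x ∈ Finset.Icc (-(R : ℤ)) R, (2 * R + 1 : ℝ) / nm w := by
    rw [Finset.sum_const, nsmul_eq_mul, XCnt1.card_box]
    ring
  rw [e1, e2, ← Finset.sum_sub_distrib]
  refine (Finset.abs_sum_le_sum_abs _ _).trans ?_
  refine (Finset.sum_le_sum fun x _ => hCls R (nm w) (u * x) hp.pos).trans (le_of_eq ?_)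
  rw [Finset.sum_const, nsmul_eq_mul, XCnt1.card_box, mul_one]

end Pool.Agent.F0f91f8.HD.B2
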