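import Pool.Agent.Work.MP_0f91f8_co.HD.StmtsB2

/-!
# Half density, module B2, item Cnt2: the number of common multiples in the box
-/

set_option autoImplicit false

namespace Pool.Agent.F0f91f8.HD.B2

open Filter Topology ComplexConjugate
open scoped BigOperators Classical

namespace XCnt2

/-- the condition for fixed `x` is one residue class for `y` -/
lemma cls {a b p : ℤ} (h : IsCoprime a p) : ∃ u : ℤ, ∀ x y : ℤ,
    p ∣ a * y - b * x ↔ y ≡ u * x [ZMOD p] := by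
  obtain ⟨u, v, huv⟩ := h
  refine ⟨u * b, fun x y => ?_⟩
  rw [Int.modEq_iff_dvd]
  constructor
  · rintro ⟨k, hk⟩
    refine ⟨-(u * k) - v * y, ?_⟩
    linear_combination (-u) * hk + y * huv
  · rintro ⟨k, hk⟩
    refine ⟨-(a * k) - v * (b * x), ?_⟩
    linear_combination (-a) * hk + (b * x) * huv

lemma card_box (R : ℕ) : ((Finset.Icc (-(R : ℤ)) R).card : ℝ) = 2 * R + 1 := by
  rw [Int.card_Icc]
  have h : ((R : ℤ) + 1 - -(R : ℤ)).toNat = 2 * R + 1 := by omega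
  rw [h]
  push_cast
  ring

lemma one (hAlg : StAlg) (w : ℤ × ℤ) (hw : GP w) : ∃ u : ℤ, ∀ x y : ℤ,
    dv w (x, y) ↔ y ≡ u * x [ZMOD ((nm w : ℕ) : ℤ)] := by
  have hdv : ∀ β : ℤ × ℤ, dv w β ↔ ((nm w : ℕ) : ℤ) ∣ w.1 * β.2 - w.2 * β.1 :=
    fun β => hAlg.2.2.1 w β hw
  obtain ⟨hb, hba, hp⟩ := hw
  have hnm : ((nm w : ℕ) : ℤ) = w.1 ^ 2 + w.2 ^ 2 := Int.natAbs_of_nonneg (by positivity)
  have hp' : Prime ((nm w : ℕ) : ℤ) := Nat.prime_iff_prime_int.1 hp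
  have hcop : IsCoprime w.1 ((nm w : ℕ) : ℤ) := by
    refine IsCoprime.symm ((Irreducible.coprime_iff_not_dvd hp'.irreducible).2 fun h => ?_)
    have h1 := Int.le_of_dvd (by omega) h
    rw [hnm] at h1
    nlinarith
  obtain ⟨u, hu⟩ := cls (b := w.2) hcop
  exact ⟨u, fun x y => (hdv (x, y)).trans (hu x y)⟩

lemma crt (m n : ℕ) (h : Nat.Coprime m n) (a b : ℤ) : ∃ z : ℤ, ∀ y : ℤ,
    (y ≡ a [ZMOD (m : ℤ)] ∧ y ≡ b [ZMOD (n : ℤ)]) ↔ y ≡ z [ZMOD ((m * n : ℕ) : ℤ)] := by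
  obtain ⟨s, t, hst⟩ := Nat.isCoprime_iff_coprime.2 h
  set z : ℤ := a * (t * n) + b * (s * m) with hz
  have h1 : z ≡ a [ZMOD (m : ℤ)] := by
    rw [Int.modEq_iff_dvd]
    refine ⟨s * (a - b), ?_⟩
    rw [hz]
    linear_combination (-a) * hst
  have h2 : z ≡ b [ZMOD (n : ℤ)] := by
    rw [Int.modEq_iff_dvd]
    refine ⟨t * (b - a), ?_⟩
    rw [hz]
    linear_combination (-b) * hst
  refine ⟨z, fun y => ?_⟩
  have h3 := Int.modEq_and_modEq_iff_modEq_mul (a := y) (b := z) (m := (m : ℤ)) (n := (n : ℤ))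
    (by simpa using h)
  push_cast
  rw [← h3]
  exact ⟨fun h => ⟨h.1.trans h1.symm, h.2.trans h2.symm⟩,
    fun h => ⟨h.1.trans h1, h.2.trans h2⟩⟩

end XCnt2

theorem Cnt2_pf (hAlg : StAlg) (hCls : StCls) : StCnt2 := by
  intro w w' R hw hw' hne
  have hnn := hAlg.2.2.2.1 w w' hw hw' hne
  obtain ⟨u, hu⟩ := XCnt2.one hAlg w hw
  obtain ⟨u', hu'⟩ := XCnt2.one hAlg w' hw'
  have hcop : Nat.Coprime (nm w) (nm w') := (Nat.coprime_primes hw.2.2 hw'.2.2).2 hnn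
  choose z hz using fun x : ℤ => XCnt2.crt (nm w) (nm w') hcop (u * x) (u' * x)
  have e1 : (((box R).filter (fun b => dv w b ∧ dv w' b)).card : ℝ) =
      ∑ x ∈ Finset.Icc (-(R : ℤ)) R, (((Finset.Icc (-(R : ℤ)) R).filter
        (fun y => y ≡ z x [ZMOD ((nm w * nm w' : ℕ) : ℤ)])).card : ℝ) := by
    rw [Finset.card_filter, box, Finset.sum_product]
    push_cast
    refine Finset.sum_congr rfl fun x _ => ?_
    rw [Finset.card_filter]
    push_cast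
    refine Finset.sum_congr rfl fun y _ => ?_
    have h3 := hz x y
    push_cast at h3
    by_cases h : dv w (x, y) ∧ dv w' (x, y)
    · rw [if_pos h, if_pos (h3.1 ⟨(hu x y).1 h.1, (hu' x y).1 h.2⟩)]
    · rw [if_neg h, if_neg fun h' => h ⟨(hu x y).2 (h3.2 h').1, (hu' x y).2 (h3.2 h').2⟩]
  have e2 : (2 * R + 1 : ℝ) ^ 2 / (nm w * nm w') =
      ∑ x ∈ Finset.Icc (-(R : ℤ)) R, (2 * R + 1 : ℝ) / ((nm w * nm w' : ℕ) : ℝ) := by
    rw [Finset.sum_const, nsmul_eq_mul, XCnt2.card_box]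
    push_cast
    ring
  rw [e1, e2, ← Finset.sum_sub_distrib]
  refine (Finset.abs_sum_le_sum_abs _ _).trans ?_
  refine (Finset.sum_le_sum fun x _ => hCls R (nm w * nm w') (z x)
    (Nat.mul_pos hw.2.2.pos hw'.2.2.pos)).trans (le_of_eq ?_)
  rw [Finset.sum_const, nsmul_eq_mul, XCnt2.card_box, mul_one]

end Pool.Agent.F0f91f8.HD.B2
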