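import Pool.Agent.Work.MP_0f91f8_co.HD.StmtsB2

/-!
# Half density, module B2, item Dia: the diagonal terms
-/

set_option autoImplicit false

namespace Pool.Agent.F0f91f8.HD.B2

open Filter Topology ComplexConjugate
open scoped BigOperators Classical

theorem Dia_pf (hAlg : StAlg) (hCnt1 : StCnt1) : StDia := by
  intro w R ψ hw hψ0 hψ
  have hw0 : w ≠ 0 := by
    intro h
    have := hw.1
    rw [h] at this
    exact lt_irrefl _ this
  have h1 : ∑ b ∈ box R, ‖ψ (gm w b)‖ ^ 2 ≤
      ∑ b ∈ box R, (if gm w b ∈ box R then (1 : ℝ) else 0) := by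
    refine Finset.sum_le_sum fun b _ => ?_
    split_ifs with h
    · exact pow_le_one₀ (norm_nonneg _) (hψ _)
    · rw [hψ0 _ h]
      simp
  have h2 : ∑ b ∈ box R, (if gm w b ∈ box R then (1 : ℝ) else 0) =
      (((box R).filter (fun b => gm w b ∈ box R)).card : ℝ) := by
    rw [Finset.card_filter]
    push_cast
    rfl
  have h3 : ((box R).filter (fun b => gm w b ∈ box R)).card ≤
      ((box R).filter (fun b => dv w b)).card := by
    refine Finset.card_le_card_of_injOn (gm w) ?_ ?_
    · intro b hb
      have hb' := Finset.mem_filter.1 hb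
      exact Finset.mem_coe.2 (Finset.mem_filter.2 ⟨hb'.2, b, rfl⟩)
    · intro g _ g' _ h
      exact hAlg.1 w g g' hw0 h
  have h4 := (abs_le.1 (hCnt1 w R hw)).2
  have h5 : (((box R).filter (fun b => gm w b ∈ box R)).card : ℝ) ≤
      (((box R).filter (fun b => dv w b)).card : ℝ) := by exact_mod_cast h3
  linarith

end Pool.Agent.F0f91f8.HD.B2
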