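import Pool.Agent.Work.MP_0f91f8_co.HD.StmtsB2

/-!
# Half density, module B, second part: Katai's lemma (item Kat)
-/

set_option autoImplicit false

namespace Pool.Agent.F0f91f8.HD.B2

open Filter Topology ComplexConjugate
open scoped BigOperators Classical

namespace XKat

theorem card_box (R : ℕ) : ((box R).card : ℝ) = (2 * R + 1 : ℝ) ^ 2 := by
  unfold box
  rw [Finset.card_product, Int.card_Icc]
  have : ((R : ℤ) + 1 - -(R : ℤ)).toNat = 2 * R + 1 := by omega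
  rw [this]
  push_cast
  ring

/-- Cauchy-Schwarz for a sum over the box. -/
theorem cs (R : ℕ) (f : ℤ × ℤ → ℝ) :
    (∑ b ∈ box R, f b) ^ 2 ≤ (2 * R + 1 : ℝ) ^ 2 * ∑ b ∈ box R, f b ^ 2 := by
  have h := sq_sum_le_card_mul_sum_sq (s := box R) (f := f)
  rwa [card_box] at h

theorem sum_norm_le {ι : Type*} (s : Finset ι) (P : Finset (ℤ × ℤ)) (g : ℤ × ℤ → ℂ)
    (F : ℤ × ℤ → ι → ℂ) (hg : ∀ b, ‖g b‖ ≤ 1) :
    ∑ b ∈ s, ‖∑ w ∈ P, g w * F w b‖ ^ 2 ≤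
      ∑ w ∈ P, ∑ w' ∈ P, ‖∑ b ∈ s, F w b * conj (F w' b)‖ := by
  have h1 : ∀ b, ((‖∑ w ∈ P, g w * F w b‖ ^ 2 : ℝ) : ℂ) =
      ∑ w ∈ P, ∑ w' ∈ P, (g w * conj (g w')) * (F w b * conj (F w' b)) := by
    intro b
    rw [← Complex.normSq_eq_norm_sq, ← Complex.mul_conj, map_sum, Finset.sum_mul_sum]
    refine Finset.sum_congr rfl fun w _ => Finset.sum_congr rfl fun w' _ => ?_
    rw [map_mul]
    ring
  have h2 : ((∑ b ∈ s, ‖∑ w ∈ P, g w * F w b‖ ^ 2 : ℝ) : ℂ) =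
      ∑ w ∈ P, ∑ w' ∈ P, (g w * conj (g w')) * ∑ b ∈ s, F w b * conj (F w' b) := by
    rw [Complex.ofReal_sum]
    simp_rw [h1, Finset.mul_sum]
    rw [Finset.sum_comm]
    refine Finset.sum_congr rfl fun w _ => ?_
    rw [Finset.sum_comm]
  have h3 : ‖((∑ b ∈ s, ‖∑ w ∈ P, g w * F w b‖ ^ 2 : ℝ) : ℂ)‖ ≤
      ∑ w ∈ P, ∑ w' ∈ P, ‖∑ b ∈ s, F w b * conj (F w' b)‖ := by
    rw [h2]
    refine (norm_sum_le _ _).trans (Finset.sum_le_sum fun w _ => ?_)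
    refine (norm_sum_le _ _).trans (Finset.sum_le_sum fun w' _ => ?_)
    rw [norm_mul, norm_mul, RCLike.norm_conj]
    have h4 : ‖g w‖ * ‖g w'‖ ≤ 1 := mul_le_one₀ (hg w) (norm_nonneg _) (hg w')
    exact mul_le_of_le_one_left (norm_nonneg _) h4
  rw [Complex.norm_real, Real.norm_eq_abs,
    abs_of_nonneg (Finset.sum_nonneg fun b _ => by positivity)] at h3
  exact h3

end XKat

open XKat in
theorem Kat_pf (hTK : StTK) (hSwp : StSwp) (hDia : StDia) (hPrm : StPrm) : StKat := by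
  intro c hc
  obtain ⟨P, hP, hS⟩ := hPrm (1 + 1296 / c ^ 2)
  set S : ℝ := SP P with hSdef
  set n : ℝ := (P.card : ℝ) with hn
  have hc2 : 0 < c ^ 2 := by positivity
  have hdiv : 0 < 1296 / c ^ 2 := by positivity
  have hS1 : 1 ≤ S := by linarith
  have hSc : 1296 ≤ c ^ 2 * S := by
    have h1 : 1296 / c ^ 2 ≤ S := by linarith
    rwa [div_le_iff₀ hc2, mul_comm] at h1
  have hne : P.Nonempty := by
    rw [Finset.nonempty_iff_ne_empty]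
    rintro rfl
    simp [hSdef, SP] at hS1
    linarith
  have hn1 : 1 ≤ n := by
    have := hne.card_pos
    rw [hn]
    exact_mod_cast this
  have hκ : 0 < c ^ 2 * S ^ 2 / (72 * n ^ 2) := by positivity
  refine ⟨P, hP, c ^ 2 * S ^ 2 / (72 * n ^ 2), hκ, 9 * P.card ^ 2 + 1, ?_⟩
  intro R hR ψ g hψ hψ0 hg hgm hX
  have hR1 : 9 * n ^ 2 + 1 ≤ (R : ℝ) := by
    rw [hn]
    exact_mod_cast hR
  have hRpos : (1 : ℝ) ≤ R := by nlinarith
  set B : ℝ := (2 * R + 1 : ℝ) ^ 2 with hB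
  have hB9 : B ≤ 9 * (R : ℝ) ^ 2 := by
    rw [hB]
    nlinarith
  have hB0 : 0 ≤ B := by positivity
  have hn2 : 3 * n ^ 2 * (2 * R + 1) ≤ (R : ℝ) ^ 2 := by
    have : 3 * n ^ 2 * (2 * R + 1) ≤ 3 * n ^ 2 * (3 * R) := by
      apply mul_le_mul_of_nonneg_left _ (by positivity)
      linarith
    nlinarith
  have hn3 : n * (2 * R + 1) ≤ (R : ℝ) ^ 2 := by
    have : n * (2 * R + 1) ≤ 3 * n ^ 2 * (2 * R + 1) := by
      apply mul_le_mul_of_nonneg_right _ (by positivity)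
      nlinarith
    linarith
  -- the error term
  have hTK' := hTK P R hP
  rw [← hSdef, ← hn, ← hB] at hTK'
  have hE1 : ∑ b ∈ box R, ((om P b : ℝ) - S) ^ 2 ≤ 10 * (R : ℝ) ^ 2 * S := by
    have h1 : B * S ≤ 9 * (R : ℝ) ^ 2 * S := mul_le_mul_of_nonneg_right hB9 (by linarith)
    nlinarith [sq_nonneg (R : ℝ)]
  have hE2 : (∑ b ∈ box R, |(om P b : ℝ) - S|) ^ 2 ≤ (c * (R : ℝ) ^ 2 * S / 2) ^ 2 := by
    have h1 := cs R (fun b => |(om P b : ℝ) - S|)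
    simp only [sq_abs] at h1
    rw [← hB] at h1
    have h2 : B * ∑ b ∈ box R, ((om P b : ℝ) - S) ^ 2 ≤
        9 * (R : ℝ) ^ 2 * (10 * (R : ℝ) ^ 2 * S) :=
      mul_le_mul hB9 hE1 (Finset.sum_nonneg fun _ _ => sq_nonneg _) (by positivity)
    have h3 : 9 * (R : ℝ) ^ 2 * (10 * (R : ℝ) ^ 2 * S) ≤ (c * (R : ℝ) ^ 2 * S / 2) ^ 2 := by
      have h4 : (c * (R : ℝ) ^ 2 * S / 2) ^ 2 = (R : ℝ) ^ 4 * S * (c ^ 2 * S) / 4 := by ring
      rw [h4]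
      have h5 : 0 ≤ (R : ℝ) ^ 4 * S := by positivity
      have h6 : (R : ℝ) ^ 4 * S * 1296 ≤ (R : ℝ) ^ 4 * S * (c ^ 2 * S) :=
        mul_le_mul_of_nonneg_left hSc h5
      nlinarith
    linarith
  have hE3 : ∑ b ∈ box R, |(om P b : ℝ) - S| ≤ c * (R : ℝ) ^ 2 * S / 2 :=
    abs_le_of_sq_le_sq' hE2 (by positivity) |>.2
  have hE : ‖∑ b ∈ box R, (((om P b : ℝ) - S : ℝ) : ℂ) * (ψ b * g b)‖ ≤
      c * (R : ℝ) ^ 2 * S / 2 := by
    refine (norm_sum_le _ _).trans ((Finset.sum_le_sum fun b _ => ?_).trans hE3)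
    rw [norm_mul, norm_mul, Complex.norm_real, Real.norm_eq_abs]
    exact mul_le_of_le_one_right (abs_nonneg _) (mul_le_one₀ (hψ b) (norm_nonneg _) (hg b))
  -- the main term
  have hsplit : ∑ b ∈ box R, (om P b : ℂ) * (ψ b * g b) =
      (S : ℂ) * ∑ b ∈ box R, ψ b * g b +
        ∑ b ∈ box R, (((om P b : ℝ) - S : ℝ) : ℂ) * (ψ b * g b) := by
    rw [Finset.mul_sum, ← Finset.sum_add_distrib]
    refine Finset.sum_congr rfl fun b _ => ?_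
    push_cast
    ring
  have hY : c * (R : ℝ) ^ 2 * S / 2 ≤ ‖∑ b ∈ box R, (om P b : ℂ) * (ψ b * g b)‖ := by
    rw [hsplit]
    have h1 : S * (c * (R : ℝ) ^ 2) ≤ ‖(S : ℂ) * ∑ b ∈ box R, ψ b * g b‖ := by
      rw [norm_mul, Complex.norm_real, Real.norm_eq_abs, abs_of_nonneg (by linarith)]
      exact mul_le_mul_of_nonneg_left hX (by linarith)
    have h2 := norm_sub_norm_le ((S : ℂ) * ∑ b ∈ box R, ψ b * g b)
      (-(∑ b ∈ box R, (((om P b : ℝ) - S : ℝ) : ℂ) * (ψ b * g b)))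
    rw [sub_neg_eq_add, norm_neg] at h2
    linarith
  rw [hSwp P R ψ g hP hψ0 hgm] at hY
  -- Cauchy-Schwarz
  set H : ℤ × ℤ → ℂ := fun b => ∑ w ∈ P, g w * ψ (gm w b) with hH
  have hY2 : (c * (R : ℝ) ^ 2 * S / 2) ^ 2 ≤ B * ∑ b ∈ box R, ‖H b‖ ^ 2 := by
    have h1 : c * (R : ℝ) ^ 2 * S / 2 ≤ ∑ b ∈ box R, ‖H b‖ := by
      refine hY.trans ((norm_sum_le _ _).trans (Finset.sum_le_sum fun b _ => ?_))
      rw [norm_mul]
      exact mul_le_of_le_one_left (norm_nonneg _) (hg b)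
    have h2 := cs R (fun b => ‖H b‖)
    rw [← hB] at h2
    refine le_trans ?_ h2
    exact pow_le_pow_left₀ (by positivity) h1 2
  have hHH := sum_norm_le (box R) P g (fun w b => ψ (gm w b)) hg
  by_contra hcon
  push Not at hcon
  have hoff : ∀ w ∈ P, ∀ w' ∈ P,
      ‖∑ b ∈ box R, ψ (gm w b) * conj (ψ (gm w' b))‖ ≤
        (if w = w' then B / (nm w : ℝ) + (2 * R + 1) else 0) +
          c ^ 2 * S ^ 2 / (72 * n ^ 2) * (R : ℝ) ^ 2 := by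
    intro w hw w' hw'
    by_cases h : w = w'
    · subst h
      rw [if_pos rfl]
      have h1 := hDia w R ψ (hP w hw) hψ0 hψ
      rw [← hB] at h1
      have h2 : ‖∑ b ∈ box R, ψ (gm w b) * conj (ψ (gm w b))‖ ≤
          ∑ b ∈ box R, ‖ψ (gm w b)‖ ^ 2 := by
        refine (norm_sum_le _ _).trans (Finset.sum_le_sum fun b _ => ?_)
        rw [norm_mul, RCLike.norm_conj, sq]
      have h3 : 0 ≤ c ^ 2 * S ^ 2 / (72 * n ^ 2) * (R : ℝ) ^ 2 := by positivity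
      linarith
    · rw [if_neg h, zero_add]
      exact (hcon w hw w' hw' h).le
  have hsum : ∑ w ∈ P, ∑ w' ∈ P, ‖∑ b ∈ box R, ψ (gm w b) * conj (ψ (gm w' b))‖ ≤
      10 * (R : ℝ) ^ 2 * S + c ^ 2 * S ^ 2 / 72 * (R : ℝ) ^ 2 := by
    refine (Finset.sum_le_sum fun w hw => Finset.sum_le_sum fun w' hw' => hoff w hw w' hw').trans ?_
    simp_rw [Finset.sum_add_distrib]
    have h1 : ∑ w ∈ P, ∑ w' ∈ P, (if w = w' then B / (nm w : ℝ) + (2 * R + 1) else 0) =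
        B * S + n * (2 * R + 1) := by
      have h2 : ∀ w ∈ P, ∑ w' ∈ P, (if w = w' then B / (nm w : ℝ) + (2 * R + 1) else 0) =
          B / (nm w : ℝ) + (2 * R + 1) := by
        intro w hw
        rw [Finset.sum_ite_eq, if_pos hw]
      rw [Finset.sum_congr rfl h2, Finset.sum_add_distrib, Finset.sum_const, nsmul_eq_mul,
        ← hn, hSdef, SP, Finset.mul_sum]
      congr 1
      refine Finset.sum_congr rfl fun w _ => ?_
      rw [mul_one_div]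
    rw [h1]
    have h3 : ∑ _w ∈ P, ∑ _w' ∈ P, c ^ 2 * S ^ 2 / (72 * n ^ 2) * (R : ℝ) ^ 2 =
        c ^ 2 * S ^ 2 / 72 * (R : ℝ) ^ 2 := by
      simp only [Finset.sum_const, nsmul_eq_mul]
      rw [← hn]
      field_simp
    rw [h3]
    have h4 : B * S ≤ 9 * (R : ℝ) ^ 2 * S := mul_le_mul_of_nonneg_right hB9 (by linarith)
    have h5 : (R : ℝ) ^ 2 ≤ (R : ℝ) ^ 2 * S := le_mul_of_one_le_right (by positivity) hS1
    linarith
  have h1 : ∑ b ∈ box R, ‖H b‖ ^ 2 ≤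
      10 * (R : ℝ) ^ 2 * S + c ^ 2 * S ^ 2 / 72 * (R : ℝ) ^ 2 := hHH.trans hsum
  have h2 : B * ∑ b ∈ box R, ‖H b‖ ^ 2 ≤
      9 * (R : ℝ) ^ 2 * (10 * (R : ℝ) ^ 2 * S + c ^ 2 * S ^ 2 / 72 * (R : ℝ) ^ 2) :=
    mul_le_mul hB9 h1 (Finset.sum_nonneg fun _ _ => sq_nonneg _) (by positivity)
  have h3 := hY2.trans h2
  have h4 : (R : ℝ) ^ 4 * S * (c ^ 2 * S) ≤ (R : ℝ) ^ 4 * S * 720 := by
    nlinarith
  have h5 : 0 < (R : ℝ) ^ 4 * S := by positivity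
  have h6 : c ^ 2 * S ≤ 720 := le_of_mul_le_mul_left h4 h5
  linarith

end Pool.Agent.F0f91f8.HD.B2
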