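import Pool.Agent.Work.MP_0f91f8_co.HD.StmtsB2
import Pool.Agent.Work.MP_0f91f8_co.Rg.I_MER

/-!
# Half density, module B2, item Prm: Gaussian primes with a large sum of reciprocals of norms
-/

set_option autoImplicit false

namespace Pool.Agent.F0f91f8.HD.B2

open Filter Topology ComplexConjugate
open scoped BigOperators Classical

namespace XPrm

theorem ex_lt (a b p : ℕ) (hp : p.Prime) (h : a ^ 2 + b ^ 2 = p) (hb : 0 < b) (hab : b < a) :
    ∃ w : ℤ × ℤ, GP w ∧ nm w = p := by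
  have h1 : nm ((a : ℤ), (b : ℤ)) = p := by
    unfold nm
    simp only
    rw [← h]
    have : ((a : ℤ) ^ 2 + (b : ℤ) ^ 2) = ((a ^ 2 + b ^ 2 : ℕ) : ℤ) := by push_cast; ring
    rw [this, Int.natAbs_natCast]
  refine ⟨((a : ℤ), (b : ℤ)), ⟨?_, ?_, ?_⟩, h1⟩
  · exact Int.natCast_pos.2 hb
  · exact Int.ofNat_lt.2 hab
  · rw [h1]
    exact hp

theorem ex (p : ℕ) (hp : p.Prime) (h4 : p % 4 = 1) : ∃ w : ℤ × ℤ, GP w ∧ nm w = p := by
  have : Fact p.Prime := ⟨hp⟩
  obtain ⟨a, b, h⟩ := Nat.Prime.sq_add_sq (p := p) (by omega)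
  have hsq : ∀ c : ℕ, c ^ 2 ≠ p := by
    intro c hc
    rw [← hc] at hp
    exact (Nat.Prime.not_prime_pow (le_refl 2)) hp
  have ha : 0 < a := by
    rcases Nat.eq_zero_or_pos a with h0 | h0
    · rw [h0] at h
      exact absurd (by simpa using h) (hsq b)
    · exact h0
  have hb : 0 < b := by
    rcases Nat.eq_zero_or_pos b with h0 | h0
    · rw [h0] at h
      exact absurd (by simpa using h) (hsq a)
    · exact h0
  rcases lt_trichotomy b a with hab | hab | hab
  · exact ex_lt a b p hp h hb hab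
  · exfalso
    rw [hab] at h
    omega
  · exact ex_lt b a p hp (by rw [add_comm]; exact h) ha hab

end XPrm

theorem Prm_pf : StPrm := by
  intro A
  obtain ⟨k₃, _, T₀, hT⟩ := Pool.Agent.Work.MP_0f91f8_co.Rg.MER_pf A 1
  have hS := hT T₀ le_rfl
  set S := Pool.Agent.Work.MP_0f91f8_co.Rg.P1 T₀ 1 k₃ with hSd
  have hmem : ∀ p ∈ S, p.Prime ∧ p % 4 = 1 := by
    intro p hp
    rw [hSd] at hp
    unfold Pool.Agent.Work.MP_0f91f8_co.Rg.P1 at hp
    exact (Finset.mem_filter.1 hp).2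
  choose! w hw using fun (p : ℕ) (hp : p ∈ S) => XPrm.ex p (hmem p hp).1 (hmem p hp).2
  refine ⟨S.image w, ?_, ?_⟩
  · intro v hv
    obtain ⟨p, hp, rfl⟩ := Finset.mem_image.1 hv
    exact (hw p hp).1
  · unfold SP
    rw [Finset.sum_image]
    · rw [Finset.sum_congr rfl fun p hp => by rw [(hw p hp).2]]
      exact hS
    · intro p hp p' hp' h
      rw [← (hw p hp).2, ← (hw p' hp').2, h]

end Pool.Agent.F0f91f8.HD.B2
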