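import Pool.Agent.Work.MP_0f91f8_co.HD.StmtsB2

set_option autoImplicit false

/-!
Item Swp of the block HD, module B2: exchange of the sums.
-/

namespace Pool.Agent.F0f91f8.HD.B2

open Filter Topology ComplexConjugate
open scoped BigOperators Classical

namespace XSwp

theorem ne_zero {w : ℤ × ℤ} (hw : GP w) : w ≠ 0 := by
  rintro rfl
  have := hw.1
  simp at this

theorem one (h1 : StAlg) {w : ℤ × ℤ} (hw : GP w) (R : ℕ) (F : ℤ × ℤ → ℂ)
    (hF : ∀ b, b ∉ box R → F b = 0) :
    ∑ b ∈ (box R).filter (fun b => dv w b), F b = ∑ b ∈ box R, F (gm w b) := by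
  have e1 : ∑ b ∈ box R, F (gm w b) = ∑ b ∈ (box R).filter (fun b => gm w b ∈ box R), F (gm w b) := by
    symm
    apply Finset.sum_filter_of_ne
    intro b _ hb
    by_contra hc
    exact hb (hF _ hc)
  have e2 : ((box R).filter (fun b => gm w b ∈ box R)).image (gm w) =
      (box R).filter (fun b => dv w b) := by
    ext b
    rw [Finset.mem_image, Finset.mem_filter]
    constructor
    · rintro ⟨g, hg, rfl⟩
      rw [Finset.mem_filter] at hg
      exact ⟨hg.2, g, rfl⟩
    · rintro ⟨hb, g, rfl⟩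
      exact ⟨g, Finset.mem_filter.2 ⟨h1.2.2.2.2 w g R hw hb, hb⟩, rfl⟩
  rw [e1, ← e2, Finset.sum_image]
  intro x _ y _ hxy
  exact h1.1 w x y (ne_zero hw) hxy

end XSwp

theorem Swp_pf (h1 : StAlg) : StSwp := by
  intro P R ψ g hP hψ hg
  have e1 : ∀ b, (om P b : ℂ) * (ψ b * g b) = ∑ w ∈ P, if dv w b then ψ b * g b else 0 := by
    intro b
    unfold om
    rw [← Finset.sum_filter, Finset.sum_const, nsmul_eq_mul]
  simp only [e1]
  rw [Finset.sum_comm]
  simp only [Finset.mul_sum]
  rw [Finset.sum_comm (s := box R)]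
  apply Finset.sum_congr rfl
  intro w hw
  rw [← Finset.sum_filter, XSwp.one h1 (hP w hw) R (fun b => ψ b * g b) (fun b hb => by
    rw [hψ b hb, zero_mul])]
  apply Finset.sum_congr rfl
  intro b _
  rw [hg w hw b]
  ring

end Pool.Agent.F0f91f8.HD.B2
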