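import Pool.Agent.Work.MP_0f91f8_co.HD.StmtsB2

set_option autoImplicit false

namespace Pool.Agent.F0f91f8.HD.B2

open Filter Topology ComplexConjugate
open scoped BigOperators Classical

theorem TK_pf (h1 : StCnt1) (h2 : StCnt2) : StTK := by
  intro P R hP
  obtain ⟨B, hB⟩ : ∃ B : ℝ, B = (2 * R + 1 : ℝ) ^ 2 := ⟨_, rfl⟩
  obtain ⟨E, hE⟩ : ∃ E : ℝ, E = 2 * R + 1 := ⟨_, rfl⟩
  have hE0 : 0 ≤ E := by
    rw [hE]
    positivity
  have hB0 : 0 ≤ B := by
    rw [hB]
    positivity
  obtain ⟨n, hn⟩ : ∃ n : ℝ, n = (P.card : ℝ) := ⟨_, rfl⟩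
  have hn0 : 0 ≤ n := by
    rw [hn]
    positivity
  obtain ⟨S, hS⟩ : ∃ S : ℝ, S = SP P := ⟨_, rfl⟩
  have hS0 : 0 ≤ S := by
    rw [hS]
    unfold SP
    exact Finset.sum_nonneg (fun w _ => by positivity)
  have hSn : S ≤ n := by
    rw [hS, hn]
    unfold SP
    have : ∑ w ∈ P, 1 / (nm w : ℝ) ≤ ∑ _w ∈ P, (1 : ℝ) := by
      apply Finset.sum_le_sum
      intro w hw
      have h3 : 0 < nm w := (hP w hw).2.2.pos
      rw [div_le_one (by exact_mod_cast h3)]
      exact_mod_cast h3
    refine this.trans (le_of_eq ?_)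
    simp
  have hom : ∀ b, (om P b : ℝ) = ∑ w ∈ P, if dv w b then (1 : ℝ) else 0 := by
    intro b
    unfold om
    rw [Finset.card_filter]
    push_cast
    rfl
  have hcard : ((box R).card : ℝ) = B := by
    unfold box
    rw [Finset.card_product, Int.card_Icc, hB]
    have : ((R : ℤ) + 1 - -(R : ℤ)).toNat = 2 * R + 1 := by omega
    rw [this]
    push_cast
    ring
  have hs1 : ∑ b ∈ box R, (om P b : ℝ) = ∑ w ∈ P, (((box R).filter (fun b => dv w b)).card : ℝ) := by
    simp_rw [hom]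
    rw [Finset.sum_comm]
    apply Finset.sum_congr rfl
    intro w _
    rw [Finset.card_filter]
    push_cast
    rfl
  have hs2 : ∑ b ∈ box R, (om P b : ℝ) ^ 2
      = ∑ w ∈ P, ∑ w' ∈ P, (((box R).filter (fun b => dv w b ∧ dv w' b)).card : ℝ) := by
    have h3 : ∀ b ∈ box R, (om P b : ℝ) ^ 2
        = ∑ w ∈ P, ∑ w' ∈ P, if dv w b ∧ dv w' b then (1 : ℝ) else 0 := by
      intro b _
      rw [sq, hom, Finset.sum_mul_sum]
      apply Finset.sum_congr rfl
      intro w _
      apply Finset.sum_congr rfl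
      intro w' _
      by_cases hw : dv w b <;> by_cases hw' : dv w' b <;> simp [hw, hw']
    rw [Finset.sum_congr rfl h3, Finset.sum_comm]
    apply Finset.sum_congr rfl
    intro w _
    rw [Finset.sum_comm]
    apply Finset.sum_congr rfl
    intro w' _
    rw [Finset.card_filter]
    push_cast
    rfl
  have hlow : B * S - n * E ≤ ∑ b ∈ box R, (om P b : ℝ) := by
    rw [hs1, hS]
    unfold SP
    rw [Finset.mul_sum, hn]
    have h3 : (P.card : ℝ) * E = ∑ _w ∈ P, E := by simp
    rw [h3, ← Finset.sum_sub_distrib]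
    apply Finset.sum_le_sum
    intro w hw
    have h4 := (abs_le.mp (h1 w R (hP w hw))).1
    rw [← hB] at h4
    rw [hE, mul_one_div]
    linarith
  have hup : ∑ b ∈ box R, (om P b : ℝ) ^ 2 ≤ B * S ^ 2 + n ^ 2 * E + B * S := by
    rw [hs2]
    have h3 : ∀ w ∈ P, ∀ w' ∈ P, (((box R).filter (fun b => dv w b ∧ dv w' b)).card : ℝ)
        ≤ B * (1 / (nm w : ℝ)) * (1 / (nm w' : ℝ)) + E +
          (if w = w' then B * (1 / (nm w : ℝ)) else 0) := by
      intro w hw w' hw'
      by_cases hww : w = w'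
      · rw [if_pos hww, ← hww]
        have h4 := (abs_le.mp (h1 w R (hP w hw))).2
        have h5 : (box R).filter (fun b => dv w b ∧ dv w b) = (box R).filter (fun b => dv w b) := by
          apply Finset.filter_congr
          intro b _
          exact and_self_iff
        rw [h5]
        rw [← hB] at h4
        have h6 : 0 ≤ B * (1 / (nm w : ℝ)) * (1 / (nm w : ℝ)) := by positivity
        have h7 : B * (1 / (nm w : ℝ)) = B / (nm w : ℝ) := mul_one_div _ _
        rw [← hE] at h4
        linarith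
      · rw [if_neg hww, add_zero]
        have h4 := (abs_le.mp (h2 w w' R (hP w hw) (hP w' hw') hww)).2
        rw [← hB] at h4
        have h5 : B * (1 / (nm w : ℝ)) * (1 / (nm w' : ℝ)) = B / (nm w * nm w') := by
          rw [mul_one_div, mul_one_div, div_div]
        rw [h5, hE]
        linarith
    calc ∑ w ∈ P, ∑ w' ∈ P, (((box R).filter (fun b => dv w b ∧ dv w' b)).card : ℝ)
        ≤ ∑ w ∈ P, ∑ w' ∈ P, (B * (1 / (nm w : ℝ)) * (1 / (nm w' : ℝ)) + E +
          (if w = w' then B * (1 / (nm w : ℝ)) else 0)) :=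
          Finset.sum_le_sum (fun w hw => Finset.sum_le_sum (fun w' hw' => h3 w hw w' hw'))
      _ = B * S ^ 2 + n ^ 2 * E + B * S := by
          have h4 : ∀ w ∈ P, ∑ w' ∈ P, (B * (1 / (nm w : ℝ)) * (1 / (nm w' : ℝ)) + E +
              (if w = w' then B * (1 / (nm w : ℝ)) else 0))
              = B * (1 / (nm w : ℝ)) * S + n * E + B * (1 / (nm w : ℝ)) := by
            intro w hw
            rw [Finset.sum_add_distrib, Finset.sum_add_distrib, ← Finset.mul_sum,
              Finset.sum_ite_eq P w, if_pos hw, hS, hn]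
            unfold SP
            simp
          rw [Finset.sum_congr rfl h4, Finset.sum_add_distrib, Finset.sum_add_distrib,
            ← Finset.sum_mul, ← Finset.mul_sum]
          have h5 : ∑ w ∈ P, 1 / (nm w : ℝ) = S := by
            rw [hS]
            rfl
          have h6 : ∑ _w ∈ P, n * E = n * (n * E) := by
            rw [Finset.sum_const, nsmul_eq_mul, ← hn]
          rw [h5, h6]
          ring
  have hexp : ∑ b ∈ box R, ((om P b : ℝ) - S) ^ 2
      = ∑ b ∈ box R, (om P b : ℝ) ^ 2 - 2 * S * ∑ b ∈ box R, (om P b : ℝ) + S ^ 2 * B := by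
    rw [← hcard, Finset.mul_sum, ← Finset.sum_sub_distrib]
    have h3 : S ^ 2 * ((box R).card : ℝ) = ∑ _b ∈ box R, S ^ 2 := by
      rw [Finset.sum_const, nsmul_eq_mul]
      ring
    rw [h3, ← Finset.sum_add_distrib]
    apply Finset.sum_congr rfl
    intro b _
    ring
  rw [← hS, hexp, ← hB, ← hn, ← hE]
  have h3 : 2 * S * (B * S - n * E) ≤ 2 * S * ∑ b ∈ box R, (om P b : ℝ) :=
    mul_le_mul_of_nonneg_left hlow (by positivity)
  have h4 : S * (n * E) ≤ n * (n * E) := mul_le_mul_of_nonneg_right hSn (by positivity)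
  nlinarith

end Pool.Agent.F0f91f8.HD.B2
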