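import Pool.Agent.Work.MP_0f91f8_co.HD.StmtsB3

/-!
# Half density, module B, third part, item Fin: `AperStmt`
-/

set_option autoImplicit false

namespace Pool.Agent.F0f91f8.HD.B3

open Filter Topology ComplexConjugate
open Pool.Agent.F0f91f8.HD.B2
open Pool.Agent.U3 (ee lf dt sz bx)
open scoped BigOperators Classical

namespace XFin

lemma tend (D : ℕ) (hD : 0 < D) (B S : ℕ → ℂ)
    (hB : ∀ M, ‖B M‖ = ‖S M‖ / ((M : ℝ) ^ 2 * ((D * M : ℕ) : ℝ) ^ 2))
    (hS : ∀ ε : ℝ, 0 < ε → ∃ M₀ : ℕ, ∀ M ≥ M₀,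
      ‖S M‖ ≤ ε * (M : ℝ) ^ 2 * ((M : ℝ) * (D * M : ℕ))) :
    Tendsto B atTop (𝓝 0) := by
  rw [Metric.tendsto_atTop]
  intro ε hε
  obtain ⟨M₀, hM₀⟩ := hS (ε / 2) (by positivity)
  refine ⟨M₀ + 1, fun M hM => ?_⟩
  have h1 := hM₀ M (by omega)
  have hM1 : (0 : ℝ) < M := by exact_mod_cast (by omega : 0 < M)
  have hD1 : (1 : ℝ) ≤ D := by exact_mod_cast hD
  have hD0 : (0 : ℝ) < D := by linarith
  rw [dist_zero_right, hB M, div_lt_iff₀ (by push_cast; positivity)]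
  refine h1.trans_lt ?_
  push_cast
  have h2 : ε * ((M : ℝ) ^ 2 * ((D : ℝ) * M) ^ 2) - ε / 2 * (M : ℝ) ^ 2 * (M * (D * M)) =
      ε * (M : ℝ) ^ 4 * D * (D - 1 / 2) := by ring
  have h3 : 0 < ε * (M : ℝ) ^ 4 * D * (D - 1 / 2) := by
    have : (0 : ℝ) < D - 1 / 2 := by linarith
    positivity
  linarith

/-- the average as a sum, with the norm -/
lemma bx_norm (h1 : StRew) (κ k Q D a₀ M : ℕ) (hκ : 0 < κ) (hk : 0 < k) (hQ : 0 < Q)
    (Φ : ℕ → ℕ → ℂ) (G : ℕ → ℕ → ℂ) (hG : ∀ a n, G a n = Φ (k * a + κ * n) (κ * n)) (X : ℂ)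
    (hX : ‖∑ b ∈ box (CC κ k Q D a₀ * M), (WT κ k Q D a₀ M b : ℂ) * Φ b.1.toNat b.2.toNat‖ = ‖X‖) :
    ‖Bx Q D a₀ M G‖ = ‖X‖ / ((M : ℝ) ^ 2 * ((D * M : ℕ) : ℝ) ^ 2) := by
  have e1 : G = fun a n => Φ (k * a + κ * n) (κ * n) := by
    funext a n
    exact hG a n
  rw [e1, h1 κ k Q D a₀ M Φ hκ hk hQ, norm_div, hX]
  congr 1
  rw [norm_mul, norm_pow, norm_pow, Complex.norm_natCast, Complex.norm_natCast]

/-- comparison of two sums on the support -/
lemma sum_eq (h2 : StSup) (κ k Q D a₀ M : ℕ) (hκ : 0 < κ) (hk : 0 < k) (hQ : 0 < Q)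
    (F G : ℤ × ℤ → ℂ) (h : ∀ x y : ℕ, 0 < y → y < x → F ((x : ℤ), (y : ℤ)) = G ((x : ℤ), (y : ℤ))) :
    ∑ b ∈ box (CC κ k Q D a₀ * M), (WT κ k Q D a₀ M b : ℂ) * F b =
      ∑ b ∈ box (CC κ k Q D a₀ * M), (WT κ k Q D a₀ M b : ℂ) * G b := by
  refine Finset.sum_congr rfl fun b _ => ?_
  by_cases h0 : WT κ k Q D a₀ M b = 0
  · rw [h0]
    simp
  · obtain ⟨g1, g2, -⟩ := (h2 κ k Q D a₀ M hκ hk hQ).1 b h0
    obtain ⟨x, y⟩ := b
    simp only at g1 g2
    obtain ⟨x', rfl⟩ := Int.eq_ofNat_of_zero_le (by omega : 0 ≤ x)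
    obtain ⟨y', rfl⟩ := Int.eq_ofNat_of_zero_le (by omega : 0 ≤ y)
    have := h x' y' (by omega) (by omega)
    rw [this]

lemma nm_nat (x y : ℕ) : nm ((x : ℤ), (y : ℤ)) = x ^ 2 + y ^ 2 := by
  unfold nm
  have : ((x : ℤ) ^ 2 + (y : ℤ) ^ 2) = ((x ^ 2 + y ^ 2 : ℕ) : ℤ) := by push_cast; ring
  show ((x : ℤ) ^ 2 + (y : ℤ) ^ 2).natAbs = _
  rw [this, Int.natAbs_natCast]

end XFin

/-- Item Fin. -/
theorem Fin_pf (h1 : StRew) (h2 : StSup) (h3 : StXY) (h4 : StGK2) :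
    Pool.Agent.F0f91f8.HD.AperStmt := by
  intro f hf hA κ k Q D a₀ hκ hk hQ hD
  have hf' : CM f := hf
  obtain ⟨-, hmul, hnorm⟩ := hf
  have n2 : ‖f 2‖ = 1 := hnorm 2 (by norm_num)
  refine ⟨?_, ?_, ?_⟩
  · refine XFin.tend D hD _ (fun M => ∑ b ∈ box (CC κ k Q D a₀ * M), (WT κ k Q D a₀ M b : ℂ) *
      (f b.1.toNat * f b.2.toNat * conj (f (b.1 - b.2).toNat * f (b.1 + b.2).toNat))) ?_
      (h3 f hf' hA κ k Q D a₀ hκ hk hQ)
    intro M
    refine XFin.bx_norm h1 κ k Q D a₀ M hκ hk hQ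
      (fun m n => f (2 * n * m) * conj (f ((m - n) * (m + n)))) _ ?_ _ ?_
    · intro a n
      have e1 : k * a + κ * n - κ * n = k * a := Nat.add_sub_cancel _ _
      have e2 : k * a + κ * n + κ * n = k * a + 2 * (κ * n) := by ring
      show f (tX κ k a n) * conj (f (tY κ k a n)) = f (2 * (κ * n) * (k * a + κ * n)) *
        conj (f ((k * a + κ * n - κ * n) * (k * a + κ * n + κ * n)))
      rw [e1, e2]
      rfl
    · have e := XFin.sum_eq h2 κ k Q D a₀ M hκ hk hQ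
        (fun b => f (2 * b.2.toNat * b.1.toNat) *
          conj (f ((b.1.toNat - b.2.toNat) * (b.1.toNat + b.2.toNat))))
        (fun b => f 2 * (f b.1.toNat * f b.2.toNat *
          conj (f (b.1 - b.2).toNat * f (b.1 + b.2).toNat))) (by
          intro x y hy hxy
          have e1 : ((x : ℤ) - (y : ℤ)).toNat = x - y := by omega
          have e2 : ((x : ℤ) + (y : ℤ)).toNat = x + y := by omega
          simp only [Int.toNat_natCast, e1, e2, hmul]
          ring)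
      rw [e]
      have e3 : ∑ b ∈ box (CC κ k Q D a₀ * M), (WT κ k Q D a₀ M b : ℂ) *
          (f 2 * (f b.1.toNat * f b.2.toNat *
          conj (f (b.1 - b.2).toNat * f (b.1 + b.2).toNat))) =
          f 2 * ∑ b ∈ box (CC κ k Q D a₀ * M), (WT κ k Q D a₀ M b : ℂ) *
          (f b.1.toNat * f b.2.toNat *
          conj (f (b.1 - b.2).toNat * f (b.1 + b.2).toNat)) := by
        rw [Finset.mul_sum]
        exact Finset.sum_congr rfl fun b _ => by ring
      rw [e3, norm_mul, n2, one_mul]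
  · refine XFin.tend D hD _ (fun M => ∑ b ∈ box (CC κ k Q D a₀ * M), (WT κ k Q D a₀ M b : ℂ) *
      (f (lf (1, -1) b).toNat * f (lf (1, 1) b).toNat * conj (f (nm b)))) ?_
      (h4 f hf' hA κ k Q D a₀ hκ hk hQ (1, -1) (1, 1) (Or.inl ⟨rfl, rfl⟩))
    intro M
    refine XFin.bx_norm h1 κ k Q D a₀ M hκ hk hQ
      (fun m n => f ((m - n) * (m + n)) * conj (f (m ^ 2 + n ^ 2))) _ ?_ _ ?_
    · intro a n
      have e1 : k * a + κ * n - κ * n = k * a := Nat.add_sub_cancel _ _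
      have e2 : k * a + κ * n + κ * n = k * a + 2 * (κ * n) := by ring
      show f (tY κ k a n) * conj (f (tZ κ k a n)) =
        f ((k * a + κ * n - κ * n) * (k * a + κ * n + κ * n)) *
          conj (f ((k * a + κ * n) ^ 2 + (κ * n) ^ 2))
      rw [e1, e2]
      rfl
    · have e := XFin.sum_eq h2 κ k Q D a₀ M hκ hk hQ
        (fun b => f ((b.1.toNat - b.2.toNat) * (b.1.toNat + b.2.toNat)) *
          conj (f (b.1.toNat ^ 2 + b.2.toNat ^ 2)))
        (fun b => f (lf (1, -1) b).toNat * f (lf (1, 1) b).toNat * conj (f (nm b))) (by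
          intro x y hy hxy
          have e1 : (lf (1, -1) ((x : ℤ), (y : ℤ))).toNat = x - y := by
            show (1 * (x : ℤ) + -1 * (y : ℤ)).toNat = x - y
            omega
          have e2 : (lf (1, 1) ((x : ℤ), (y : ℤ))).toNat = x + y := by
            show (1 * (x : ℤ) + 1 * (y : ℤ)).toNat = x + y
            omega
          simp only [Int.toNat_natCast, e1, e2, XFin.nm_nat, hmul])
      rw [e]
  · refine XFin.tend D hD _ (fun M => ∑ b ∈ box (CC κ k Q D a₀ * M), (WT κ k Q D a₀ M b : ℂ) *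
      (f (lf (1, 0) b).toNat * f (lf (0, 1) b).toNat * conj (f (nm b)))) ?_
      (h4 f hf' hA κ k Q D a₀ hκ hk hQ (1, 0) (0, 1) (Or.inr ⟨rfl, rfl⟩))
    intro M
    refine XFin.bx_norm h1 κ k Q D a₀ M hκ hk hQ
      (fun m n => f (m ^ 2 + n ^ 2) * conj (f (2 * n * m))) _ ?_ _ ?_
    · intro a n
      rfl
    · have e := XFin.sum_eq h2 κ k Q D a₀ M hκ hk hQ
        (fun b => f (b.1.toNat ^ 2 + b.2.toNat ^ 2) * conj (f (2 * b.2.toNat * b.1.toNat)))
        (fun b => conj (f 2 * (f (lf (1, 0) b).toNat * f (lf (0, 1) b).toNat *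
          conj (f (nm b))))) (by
          intro x y hy hxy
          have e1 : (lf (1, 0) ((x : ℤ), (y : ℤ))).toNat = x := by
            show (1 * (x : ℤ) + 0 * (y : ℤ)).toNat = x
            omega
          have e2 : (lf (0, 1) ((x : ℤ), (y : ℤ))).toNat = y := by
            show (0 * (x : ℤ) + 1 * (y : ℤ)).toNat = y
            omega
          simp only [Int.toNat_natCast, e1, e2, XFin.nm_nat, hmul, map_mul, Complex.conj_conj]
          ring)
      rw [e]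
      have e3 : ∑ b ∈ box (CC κ k Q D a₀ * M), (WT κ k Q D a₀ M b : ℂ) *
          conj (f 2 * (f (lf (1, 0) b).toNat * f (lf (0, 1) b).toNat *
          conj (f (nm b)))) =
          conj (f 2 * ∑ b ∈ box (CC κ k Q D a₀ * M), (WT κ k Q D a₀ M b : ℂ) *
          (f (lf (1, 0) b).toNat * f (lf (0, 1) b).toNat * conj (f (nm b)))) := by
        rw [Finset.mul_sum, map_sum]
        refine Finset.sum_congr rfl fun b _ => ?_
        simp only [map_mul, Complex.conj_conj, Complex.conj_natCast]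
        ring
      rw [e3, Complex.norm_conj, norm_mul, n2, one_mul]

end Pool.Agent.F0f91f8.HD.B3
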