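import Pool.Agent.Work.MP_0f91f8_co.HD.StmtsB3

set_option autoImplicit false

namespace Pool.Agent.F0f91f8.HD.B3

open Filter Topology ComplexConjugate
open Pool.Agent.F0f91f8.HD.B2
open Pool.Agent.U3 (ee lf dt sz bx)
open scoped BigOperators Classical

namespace XGK2

theorem lf_pb (w r v : ℤ × ℤ) : lf (pb w r) v = lf r (gm w v) := by
  unfold lf pb gm
  ring

theorem tent_zero (κ : ℕ) (c s : ℤ) : tent 0 κ c s = 0 := by
  unfold tent
  rw [Finset.card_eq_zero]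
  apply Finset.filter_eq_empty_iff.mpr
  intro u hu
  rw [Finset.mem_product, Finset.mem_Icc] at hu
  omega

end XGK2

open XGK2

theorem GK2_pf (hAlg : StAlg) (hKat : StKat) (hIG : StIG) (hSup : StSup) (hInd : StInd) :
    StGK2 := by
  intro f hf haf κ k Q D a₀ hκ hk hQ r₁ r₂ hr ε hε
  have hf' := hf
  obtain ⟨hf0, hfm, hfn⟩ := hf'
  have hfb : ∀ n, ‖f n‖ ≤ 1 := by
    intro n
    rcases Nat.eq_zero_or_pos n with h | h
    · rw [h, hf0, norm_zero]
      exact zero_le_one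
    · exact (hfn n h).le
  obtain ⟨C, hC⟩ : ∃ C : ℕ, C = CC κ k Q D a₀ := ⟨_, rfl⟩
  have hC1 : 1 ≤ C := by
    rw [hC]
    unfold CC
    omega
  rw [← hC]
  have hCr : (0 : ℝ) < C := by exact_mod_cast hC1
  rcases Nat.eq_zero_or_pos D with hD | hD
  · refine ⟨0, fun M _ => ?_⟩
    have h0 : ∀ b ∈ box (C * M), (WT κ k Q D a₀ M b : ℂ) *
        (f (lf r₁ b).toNat * f (lf r₂ b).toNat * conj (f (nm b))) = 0 := by
      intro b _
      unfold WT
      rw [hD, zero_mul, tent_zero, mul_zero, Nat.cast_zero, zero_mul]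
    rw [Finset.sum_eq_zero h0, norm_zero]
    positivity
  obtain ⟨P, hP, κ', hκ', R₀, hK⟩ := hKat (ε / (C : ℝ) ^ 2) (by positivity)
  -- the pairs
  have hpair : ∀ w w' : ℤ × ℤ, ∃ M₁ : ℕ, w ∈ P → w' ∈ P → w ≠ w' → ∀ M ≥ M₁,
      ‖∑ v ∈ box (C * M), ((WT κ k Q D a₀ M (gm w v) : ℂ) * (WT κ k Q D a₀ M (gm w' v) : ℂ)) *
        ((f (lf r₁ (gm w v)).toNat * f (lf r₂ (gm w v)).toNat) *
          conj (f (lf r₁ (gm w' v)).toNat * f (lf r₂ (gm w' v)).toNat))‖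
        ≤ κ' * (C : ℝ) ^ 2 / 2 * (M : ℝ) ^ 2 * ((M : ℝ) * (D * M : ℕ)) ^ 2 := by
    intro w w'
    by_cases h : w ∈ P ∧ w' ∈ P ∧ w ≠ w'
    · obtain ⟨hw, hw', hne⟩ := h
      have hkQ : 0 < k * Q := Nat.mul_pos hk hQ
      obtain ⟨M₁, hM₁⟩ := hIG f hf haf ![pb w r₁, pb w r₂, pb w' r₁, pb w' r₂]
        (hInd w w' (hP w hw) (hP w' hw') hne r₁ r₂ hr) 4
        ![pb w (0, 1), pb w (1, -1), pb w' (0, 1), pb w' (1, -1)] ![1, D, 1, D]
        ![κ, k * Q, κ, k * Q] ![0, ((k * a₀ : ℕ) : ℤ), 0, ((k * a₀ : ℕ) : ℤ)]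
        (by intro j; fin_cases j <;> simp [hκ, hkQ]) C
        (by
          intro M v hv
          have h0 := hv 0
          have h1 := hv 1
          have h0' : tent (1 * M) κ 0 (lf (pb w (0, 1)) v) ≠ 0 := h0
          have h1' : tent (D * M) (k * Q) ((k * a₀ : ℕ) : ℤ) (lf (pb w (1, -1)) v) ≠ 0 := h1
          rw [one_mul, lf_pb] at h0'
          rw [lf_pb] at h1'
          have h2 : WT κ k Q D a₀ M (gm w v) ≠ 0 := by
            unfold WT
            have e1 : lf (0, 1) (gm w v) = (gm w v).2 := by unfold lf; ring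
            have e2 : lf (1, -1) (gm w v) = (gm w v).1 - (gm w v).2 := by unfold lf; ring
            rw [e1] at h0'
            rw [e2] at h1'
            exact mul_ne_zero h0' h1'
          have h3 := ((hSup κ k Q D a₀ M hκ hk hQ).1 _ h2).2.2
          rw [← hC] at h3
          exact hAlg.2.2.2.2 w v (C * M) (hP w hw) h3)
        (κ' * (C : ℝ) ^ 2 / 2) (by positivity)
      refine ⟨M₁, fun _ _ _ M hM => ?_⟩
      have h4 := hM₁ M hM ![fun s => conj (f s.toNat), fun s => conj (f s.toNat),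
        fun s => f s.toNat] (by
          intro i s
          fin_cases i
          · show ‖conj (f s.toNat)‖ ≤ 1
            rw [RCLike.norm_conj]
            exact hfb _
          · show ‖conj (f s.toNat)‖ ≤ 1
            rw [RCLike.norm_conj]
            exact hfb _
          · exact hfb _)
      have h5 : (κ' * (C : ℝ) ^ 2 / 2) * (M : ℝ) ^ 2 *
          ∏ j : Fin 4, (((![1, D, 1, D] : Fin 4 → ℕ) j * M : ℕ) : ℝ)
          = κ' * (C : ℝ) ^ 2 / 2 * (M : ℝ) ^ 2 * ((M : ℝ) * (D * M : ℕ)) ^ 2 := by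
        rw [Fin.prod_univ_four]
        show (κ' * (C : ℝ) ^ 2 / 2) * (M : ℝ) ^ 2 * (((1 * M : ℕ) : ℝ) * ((D * M : ℕ) : ℝ) *
          ((1 * M : ℕ) : ℝ) * ((D * M : ℕ) : ℝ)) = _
        push_cast
        ring
      rw [h5] at h4
      refine le_trans (le_of_eq ?_) h4
      rw [← RCLike.norm_conj, map_sum]
      congr 1
      apply Finset.sum_congr rfl
      intro v _
      rw [Fin.prod_univ_four, Fin.prod_univ_three]
      show _ = ((tent (1 * M) κ 0 (lf (pb w (0, 1)) v) : ℂ) *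
        (tent (D * M) (k * Q) ((k * a₀ : ℕ) : ℤ) (lf (pb w (1, -1)) v) : ℂ) *
        (tent (1 * M) κ 0 (lf (pb w' (0, 1)) v) : ℂ) *
        (tent (D * M) (k * Q) ((k * a₀ : ℕ) : ℤ) (lf (pb w' (1, -1)) v) : ℂ)) *
        (conj (f (lf (pb w r₁) v).toNat) * conj (f (lf (pb w r₂) v).toNat) *
          f (lf (pb w' r₁) v).toNat) * f (lf (pb w' r₂) v).toNat
      rw [lf_pb, lf_pb, lf_pb, lf_pb, lf_pb, lf_pb, lf_pb, lf_pb, one_mul]
      have e1 : ∀ u : ℤ × ℤ, lf (0, 1) u = u.2 := by intro u; unfold lf; ring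
      have e2 : ∀ u : ℤ × ℤ, lf (1, -1) u = u.1 - u.2 := by intro u; unfold lf; ring
      rw [e1, e2, e1, e2]
      unfold WT
      simp only [map_mul, Complex.conj_conj, map_natCast, Nat.cast_mul]
      ring
    · exact ⟨0, fun h1 h2 h3 => absurd ⟨h1, h2, h3⟩ h⟩
  choose M₁ hM₁ using hpair
  refine ⟨∑ w ∈ P, ∑ w' ∈ P, M₁ w w' + R₀ + 1, fun M hM => ?_⟩
  have hM1 : 1 ≤ M := by omega
  have hMr : (0 : ℝ) < M := by exact_mod_cast hM1
  have hDr : (0 : ℝ) < D := by exact_mod_cast hD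
  have hR₀ : R₀ ≤ C * M := by
    have : R₀ ≤ M := by omega
    exact this.trans (Nat.le_mul_of_pos_left M hC1)
  obtain ⟨L, hL⟩ : ∃ L : ℝ, L = (M : ℝ) * (D * M : ℕ) := ⟨_, rfl⟩
  have hLp : 0 < L := by
    rw [hL]
    push_cast
    positivity
  rw [← hL]
  by_contra hlt
  push Not at hlt
  obtain ⟨ψ, hψ⟩ : ∃ ψ : ℤ × ℤ → ℂ, ψ = fun b => (WT κ k Q D a₀ M b : ℂ) / (L : ℂ) *
      (f (lf r₁ b).toNat * f (lf r₂ b).toNat) := ⟨_, rfl⟩
  obtain ⟨g, hg⟩ : ∃ g : ℤ × ℤ → ℂ, g = fun b => conj (f (nm b)) := ⟨_, rfl⟩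
  have hLc : (L : ℂ) ≠ 0 := by exact_mod_cast hLp.ne'
  have hψ1 : ∀ b, ‖ψ b‖ ≤ 1 := by
    intro b
    rw [hψ]
    dsimp only
    rw [norm_mul, norm_div, norm_mul, Complex.norm_natCast, Complex.norm_real,
      Real.norm_of_nonneg hLp.le]
    have h1 : (WT κ k Q D a₀ M b : ℝ) ≤ L := by
      rw [hL]
      exact_mod_cast (hSup κ k Q D a₀ M hκ hk hQ).2 b
    have h2 : (WT κ k Q D a₀ M b : ℝ) / L ≤ 1 := by
      rw [div_le_one hLp]
      exact h1
    have h3 : ‖f (lf r₁ b).toNat‖ * ‖f (lf r₂ b).toNat‖ ≤ 1 :=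
      mul_le_one₀ (hfb _) (norm_nonneg _) (hfb _)
    exact mul_le_one₀ h2 (by positivity) h3
  have hψ0 : ∀ b, b ∉ box (C * M) → ψ b = 0 := by
    intro b hb
    have h1 : WT κ k Q D a₀ M b = 0 := by
      by_contra h
      apply hb
      have := ((hSup κ k Q D a₀ M hκ hk hQ).1 b h).2.2
      rwa [← hC] at this
    rw [hψ]
    dsimp only
    rw [h1, Nat.cast_zero, zero_div, zero_mul]
  have hg1 : ∀ b, ‖g b‖ ≤ 1 := by
    intro b
    rw [hg]
    dsimp only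
    rw [RCLike.norm_conj]
    exact hfb _
  have hgm : ∀ w ∈ P, ∀ b, g (gm w b) = g w * g b := by
    intro w _ b
    rw [hg]
    dsimp only
    rw [hAlg.2.1, hfm, map_mul]
  have hsum : ∑ b ∈ box (C * M), ψ b * g b = (∑ b ∈ box (C * M), (WT κ k Q D a₀ M b : ℂ) *
      (f (lf r₁ b).toNat * f (lf r₂ b).toNat * conj (f (nm b)))) / (L : ℂ) := by
    rw [Finset.sum_div]
    apply Finset.sum_congr rfl
    intro b _
    rw [hψ, hg]
    dsimp only
    ring
  obtain ⟨w, hw, w', hw', hne, hbig⟩ := hK (C * M) hR₀ ψ g hψ1 hψ0 hg1 hgm (by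
    rw [hsum, norm_div, Complex.norm_real, Real.norm_of_nonneg hLp.le, le_div_iff₀ hLp]
    refine le_trans (le_of_eq ?_) hlt.le
    push_cast
    field_simp)
  have hMw : M₁ w w' ≤ M := by
    have h1 : M₁ w w' ≤ ∑ w' ∈ P, M₁ w w' :=
      Finset.single_le_sum (f := fun w' => M₁ w w') (fun _ _ => Nat.zero_le _) hw'
    have h2 : ∑ w' ∈ P, M₁ w w' ≤ ∑ w ∈ P, ∑ w' ∈ P, M₁ w w' :=
      Finset.single_le_sum (f := fun w => ∑ w' ∈ P, M₁ w w') (fun _ _ => Nat.zero_le _) hw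
    omega
  have hsmall := hM₁ w w' hw hw' hne M hMw
  have hsum2 : ∑ b ∈ box (C * M), ψ (gm w b) * conj (ψ (gm w' b))
      = (∑ v ∈ box (C * M), ((WT κ k Q D a₀ M (gm w v) : ℂ) * (WT κ k Q D a₀ M (gm w' v) : ℂ)) *
        ((f (lf r₁ (gm w v)).toNat * f (lf r₂ (gm w v)).toNat) *
          conj (f (lf r₁ (gm w' v)).toNat * f (lf r₂ (gm w' v)).toNat))) / (L : ℂ) ^ 2 := by
    rw [Finset.sum_div]
    apply Finset.sum_congr rfl
    intro b _
    rw [hψ]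
    dsimp only
    simp only [map_mul, map_div₀, map_natCast, Complex.conj_ofReal]
    field_simp
  rw [hsum2, norm_div, norm_pow, Complex.norm_real, Real.norm_of_nonneg hLp.le,
    le_div_iff₀ (by positivity)] at hbig
  rw [← hL] at hsmall
  have h1 := hbig.trans hsmall
  have h2 : κ' * (C : ℝ) ^ 2 / 2 * (M : ℝ) ^ 2 * L ^ 2 < κ' * ((C * M : ℕ) : ℝ) ^ 2 * L ^ 2 := by
    push_cast
    have h3 : 0 < κ' * (C : ℝ) ^ 2 * (M : ℝ) ^ 2 * L ^ 2 := by positivity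
    nlinarith
  exact absurd h1 (not_le.mpr h2)

end Pool.Agent.F0f91f8.HD.B3
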