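import Pool.Agent.Work.MP_0f91f8_co.HD.StmtsB3

/-!
# Half density, module B, third part, item IG: the integer form, from `U3.StA`
-/

set_option autoImplicit false

namespace Pool.Agent.F0f91f8.HD.B3

open Filter Topology ComplexConjugate
open Pool.Agent.F0f91f8.HD.B2
open Pool.Agent.U3 (ee lf dt sz bx)
open scoped BigOperators Classical

namespace XIG

theorem ee_add (x y : ℝ) : ee (x + y) = ee x * ee y := by
  unfold ee
  push_cast
  rw [mul_add, Complex.exp_add]

theorem ee_zero : ee 0 = 1 := by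
  unfold ee
  simp

theorem norm_ee (x : ℝ) : ‖ee x‖ = 1 := by
  unfold ee
  rw [Complex.norm_exp]
  simp

theorem ee_sum {α : Type} (s : Finset α) (x : α → ℝ) : ee (∑ j ∈ s, x j) = ∏ j ∈ s, ee (x j) := by
  classical
  induction s using Finset.induction_on with
  | empty => simpa using ee_zero
  | @insert a s ha ih => rw [Finset.sum_insert ha, Finset.prod_insert ha, ee_add, ih]

theorem lf_le (r v : ℤ × ℤ) (R : ℤ) (h1 : |v.1| ≤ R) (h2 : |v.2| ≤ R) :
    |lf r v| ≤ (sz r : ℤ) * R := by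
  have h3 : |r.1 * v.1 + r.2 * v.2| ≤ |r.1| * |v.1| + |r.2| * |v.2| := by
    refine (abs_add_le _ _).trans (le_of_eq ?_)
    rw [abs_mul, abs_mul]
  have h4 : |r.1| * |v.1| ≤ |r.1| * R := mul_le_mul_of_nonneg_left h1 (abs_nonneg _)
  have h5 : |r.2| * |v.2| ≤ |r.2| * R := mul_le_mul_of_nonneg_left h2 (abs_nonneg _)
  unfold lf sz
  push_cast
  rw [add_mul]
  linarith

theorem mem_bx (T : ℤ) (v : ℤ × ℤ) : v ∈ bx T ↔ |v.1| ≤ T ∧ |v.2| ≤ T := by
  unfold bx
  rw [Finset.mem_product, Finset.mem_Icc, Finset.mem_Icc, abs_le, abs_le]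

theorem mem_box (T : ℕ) (v : ℤ × ℤ) : v ∈ box T ↔ |v.1| ≤ T ∧ |v.2| ≤ T := by
  unfold box
  rw [Finset.mem_product, Finset.mem_Icc, Finset.mem_Icc, abs_le, abs_le]

theorem sz_pos {r s : ℤ × ℤ} (h : dt r s ≠ 0) : 1 ≤ sz r := by
  by_contra h1
  have h2 : sz r = 0 := by omega
  unfold sz at h2
  have h3 : r.1 = 0 := by omega
  have h4 : r.2 = 0 := by omega
  apply h
  unfold dt
  rw [h3, h4]
  ring

theorem cramer (p q n v : ℤ × ℤ) (h : dt p q ≠ 0) : ((lf n v : ℤ) : ℝ) =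
    (dt n q : ℝ) / (dt p q : ℝ) * (lf p v : ℤ) + (dt p n : ℝ) / (dt p q : ℝ) * (lf q v : ℤ) := by
  have h1 : (dt p q : ℝ) ≠ 0 := by exact_mod_cast h
  field_simp
  unfold lf dt
  push_cast
  ring

/-- the extension of `f` to the integers -/
noncomputable def ext (f : ℕ → ℂ) : ℤ → ℂ := fun n => f n.natAbs

theorem ext_CM {f : ℕ → ℂ} (hf : CM f) : Pool.Agent.U3.CM (ext f) := by
  obtain ⟨h0, hm, hn⟩ := hf
  refine ⟨?_, ?_, ?_, ?_⟩
  · have h1 : f 1 = f 1 * f 1 := by
      have := hm 1 1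
      simpa using this
    have h2 : f 1 ≠ 0 := by
      intro h3
      have := hn 1 one_pos
      rw [h3, norm_zero] at this
      exact zero_ne_one this
    have h4 : f 1 * 1 = f 1 * f 1 := by rw [mul_one]; exact h1
    exact (mul_left_cancel₀ h2 h4).symm
  · intro a b
    unfold ext
    rw [Int.natAbs_mul, hm]
  · intro n hn0
    exact hn _ (Int.natAbs_pos.2 hn0)
  · exact h0

theorem ext_Aper {f : ℕ → ℂ} (hf : Aper f) : Pool.Agent.U3.Aper (ext f) := by
  intro r b hr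
  exact hf r b hr

end XIG

open XIG

/-- Item IG. -/
theorem IG_pf (hA : Pool.Agent.U3.StA) (hT : StTen) : StIG := by
  intro f hf hap l hl J m D κ c hκ C hsupp ε hε
  set T : ℕ := ∑ i, sz (l i) with hTdef
  have hsz : ∀ i, sz (l i) ≤ T := fun i =>
    Finset.single_le_sum (f := fun i => sz (l i)) (fun _ _ => Nat.zero_le _) (Finset.mem_univ i)
  have hT1 : 1 ≤ T := (sz_pos (hl 0 1 (by decide))).trans (hsz 0)
  set K : ℕ := T * (C + 1) with hK
  have hK1 : 1 ≤ K := Nat.mul_pos hT1 (Nat.succ_pos _)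
  have hK0 : (0 : ℝ) < K := by exact_mod_cast hK1
  set ε' : ℝ := ε / (K : ℝ) ^ 2 with hε'
  have hε'0 : 0 < ε' := div_pos hε (pow_pos hK0 2)
  obtain ⟨N0, hN0⟩ := hA (ext f) (ext_CM hf) (ext_Aper hap) l hl T le_rfl ε' hε'0
  refine ⟨N0, ?_⟩
  intro M hM F hF
  set N : ℕ := K * M with hN
  have hMN : M ≤ N := Nat.le_mul_of_pos_left M hK1
  have hCN : C * M ≤ N := by
    rw [hN, hK]
    exact Nat.mul_le_mul_right M ((Nat.le_succ C).trans (Nat.le_mul_of_pos_left _ hT1))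
  have hsub : box (C * M) ⊆ bx ((T : ℤ) * (N : ℤ)) := by
    intro v hv
    rw [mem_box] at hv
    rw [mem_bx]
    have h1 : ((C * M : ℕ) : ℤ) ≤ (T : ℤ) * (N : ℤ) := by
      have h2 : C * M ≤ T * N := hCN.trans (Nat.le_mul_of_pos_left N hT1)
      exact_mod_cast h2
    exact ⟨hv.1.trans h1, hv.2.trans h1⟩
  have hbd : ∀ v ∈ box (C * M), ∀ i, |lf (l i) v| ≤ (N : ℤ) := by
    intro v hv i
    rw [mem_box] at hv
    refine (lf_le (l i) v _ hv.1 hv.2).trans ?_
    have h1 : sz (l i) * (C * M) ≤ N := by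
      rw [hN, hK, mul_assoc]
      exact Nat.mul_le_mul (hsz i) (Nat.mul_le_mul_right M (Nat.le_succ C))
    exact_mod_cast h1
  -- the truncated functions
  set F' : Fin 3 → ℤ → ℂ := fun i s => if |s| ≤ (N : ℤ) then F i s else 0 with hF'
  set W : ℤ × ℤ → ℂ := fun v => ∏ j, (tent (D j * M) (κ j) (c j) (lf (m j) v) : ℂ) with hW
  set G : ℤ × ℤ → ℂ := fun v =>
    if lf (l 3) v ∈ Finset.Icc (1 : ℤ) N then ext f (lf (l 3) v) else 0 with hG
  have hW0 : ∀ v, v ∉ box (C * M) → W v = 0 := by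
    intro v hv
    by_contra h
    apply hv
    refine hsupp M v fun j => ?_
    have h1 := Finset.prod_ne_zero_iff.1 h j (Finset.mem_univ j)
    exact_mod_cast h1
  have e1 : ∑ v ∈ box (C * M), W v * (∏ i, F i (lf (l i.castSucc) v)) * f (lf (l 3) v).toNat =
      ∑ v ∈ bx ((T : ℤ) * (N : ℤ)), W v * (∏ i, F' i (lf (l i.castSucc) v)) * G v := by
    rw [← Finset.sum_subset hsub]
    · refine Finset.sum_congr rfl fun v hv => ?_
      have h1 : ∀ i : Fin 3, F i (lf (l i.castSucc) v) = F' i (lf (l i.castSucc) v) := by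
        intro i
        simp only [hF']
        rw [if_pos (hbd v hv i.castSucc)]
      have h2 : f (lf (l 3) v).toNat = G v := by
        simp only [hG, Finset.mem_Icc]
        have h3 := abs_le.1 (hbd v hv 3)
        by_cases h4 : 1 ≤ lf (l 3) v
        · rw [if_pos ⟨h4, h3.2⟩]
          unfold ext
          congr 1
          omega
        · rw [if_neg (fun h => h4 h.1)]
          have h5 : (lf (l 3) v).toNat = 0 := by omega
          rw [h5, hf.1]
      rw [h2]
      congr 2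
      exact Finset.prod_congr rfl fun i _ => h1 i
    · intro v _ hv
      rw [hW0 v hv, zero_mul, zero_mul]
  rw [e1]
  -- the trigonometric polynomials
  set P : ℕ := 1 + ∑ j, (sz (m j) * (T * N) + (c j).natAbs + 2 * κ j * (D j * M)) with hP
  have hP0 : 0 < P := by omega
  have hPj : ∀ j, sz (m j) * (T * N) + (c j).natAbs + 2 * κ j * (D j * M) < P := by
    intro j
    have h1 : sz (m j) * (T * N) + (c j).natAbs + 2 * κ j * (D j * M) ≤
        ∑ j, (sz (m j) * (T * N) + (c j).natAbs + 2 * κ j * (D j * M)) :=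
      Finset.single_le_sum
        (f := fun j => sz (m j) * (T * N) + (c j).natAbs + 2 * κ j * (D j * M))
        (fun _ _ => Nat.zero_le _) (Finset.mem_univ j)
    omega
  choose a ha1 ha2 using fun j => hT (D j * M) (κ j) P (c j) (hκ j) hP0
  have hD0 : dt (l 0) (l 1) ≠ 0 := hl 0 1 (by decide)
  set α : (Fin J → ℕ) → ℝ := fun k =>
    ∑ j, (k j : ℝ) / P * ((dt (m j) (l 1) : ℝ) / (dt (l 0) (l 1) : ℝ)) with hα
  set β : (Fin J → ℕ) → ℝ := fun k =>
    ∑ j, (k j : ℝ) / P * ((dt (l 0) (m j) : ℝ) / (dt (l 0) (l 1) : ℝ)) with hβ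
  have e2 : ∀ v ∈ bx ((T : ℤ) * (N : ℤ)), W v =
      ∑ k ∈ Fintype.piFinset (fun _ : Fin J => Finset.range P), (∏ j, a j (k j)) *
        ee (α k * (lf (l 0) v : ℤ) + β k * (lf (l 1) v : ℤ)) := by
    intro v hv
    rw [mem_bx] at hv
    have h1 : ∀ j, (tent (D j * M) (κ j) (c j) (lf (m j) v) : ℂ) =
        ∑ k ∈ Finset.range P, a j k * ee ((k : ℝ) * (lf (m j) v : ℤ) / P) := by
      intro j
      refine ha2 j _ ?_
      have h2 := lf_le (m j) v _ hv.1 hv.2
      have h3 := hPj j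
      have h4 : (sz (m j) : ℤ) * ((T : ℤ) * (N : ℤ)) + |c j| + 2 * (κ j : ℤ) * ((D j * M : ℕ) : ℤ) <
          (P : ℤ) := by
        rw [← Int.natCast_natAbs (c j)]
        exact_mod_cast h3
      linarith
    simp only [hW]
    rw [Finset.prod_congr rfl fun j _ => h1 j, Finset.prod_univ_sum]
    refine Finset.sum_congr rfl fun k _ => ?_
    rw [Finset.prod_mul_distrib, ← ee_sum]
    congr 2
    simp only [hα, hβ]
    rw [Finset.sum_mul, Finset.sum_mul, ← Finset.sum_add_distrib]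
    refine Finset.sum_congr rfl fun j _ => ?_
    rw [cramer (l 0) (l 1) (m j) v hD0]
    ring
  -- the functions of `StA`
  set fk : (Fin J → ℕ) → Fin 3 → ℤ → ℂ := fun k i s =>
    F' i s * ee ((![α k, β k, 0] : Fin 3 → ℝ) i * (s : ℝ)) with hfk
  have hfB : ∀ k i, Pool.Agent.U3.Bdd N (fk k i) := by
    intro k i n
    simp only [hfk, hF']
    refine ⟨?_, ?_⟩
    · rw [norm_mul, norm_ee, mul_one]
      split_ifs
      · exact hF i n
      · rw [norm_zero]
        exact zero_le_one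
    · intro hn
      rw [if_neg (not_le.2 hn), zero_mul]
  have e3 : ∀ (k : Fin J → ℕ) (v : ℤ × ℤ), ∏ i, fk k i (lf (l i.castSucc) v) =
      ee (α k * (lf (l 0) v : ℤ) + β k * (lf (l 1) v : ℤ)) *
        ∏ i, F' i (lf (l i.castSucc) v) := by
    intro k v
    simp only [hfk]
    rw [Finset.prod_mul_distrib, mul_comm]
    congr 1
    rw [Fin.prod_univ_three, ee_add]
    simp only [Matrix.cons_val_zero, Matrix.cons_val_one, Matrix.cons_val_two, Matrix.head_cons,
      Matrix.tail_cons, zero_mul, ee_zero, mul_one, Fin.castSucc_zero]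
    rfl
  have hMr : (N : ℝ) = K * M := by
    rw [hN]
    push_cast
    ring
  have hN2 : ε' * (N : ℝ) ^ 2 = ε * (M : ℝ) ^ 2 := by
    rw [hMr, hε']
    field_simp
  have e4 : ∀ k : Fin J → ℕ, ‖∑ v ∈ bx ((T : ℤ) * (N : ℤ)),
      (∏ i, fk k i (lf (l i.castSucc) v)) * G v‖ ≤ ε * (M : ℝ) ^ 2 := by
    intro k
    rw [← hN2]
    exact hN0 N (hM.trans hMN) (fk k) (hfB k) 1 N (by omega) le_rfl
  have e5 : ∑ v ∈ bx ((T : ℤ) * (N : ℤ)), W v * (∏ i, F' i (lf (l i.castSucc) v)) * G v =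
      ∑ k ∈ Fintype.piFinset (fun _ : Fin J => Finset.range P), (∏ j, a j (k j)) *
        ∑ v ∈ bx ((T : ℤ) * (N : ℤ)), (∏ i, fk k i (lf (l i.castSucc) v)) * G v := by
    simp only [Finset.mul_sum]
    rw [Finset.sum_comm]
    refine Finset.sum_congr rfl fun v hv => ?_
    rw [e2 v hv, Finset.sum_mul, Finset.sum_mul]
    refine Finset.sum_congr rfl fun k _ => ?_
    rw [e3 k v]
    ring
  rw [e5]
  have hM2 : 0 ≤ ε * (M : ℝ) ^ 2 := mul_nonneg hε.le (sq_nonneg _)
  calc ‖∑ k ∈ Fintype.piFinset (fun _ : Fin J => Finset.range P), (∏ j, a j (k j)) *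
        ∑ v ∈ bx ((T : ℤ) * (N : ℤ)), (∏ i, fk k i (lf (l i.castSucc) v)) * G v‖
      ≤ ∑ k ∈ Fintype.piFinset (fun _ : Fin J => Finset.range P),
        (∏ j, ‖a j (k j)‖) * (ε * (M : ℝ) ^ 2) := by
        refine norm_sum_le_of_le _ fun k _ => ?_
        rw [norm_mul, norm_prod]
        exact mul_le_mul_of_nonneg_left (e4 k) (Finset.prod_nonneg fun _ _ => norm_nonneg _)
    _ = (∏ j, ∑ k ∈ Finset.range P, ‖a j k‖) * (ε * (M : ℝ) ^ 2) := by
        rw [Finset.prod_univ_sum, Finset.sum_mul]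
    _ ≤ (∏ j, ((D j * M : ℕ) : ℝ)) * (ε * (M : ℝ) ^ 2) := by
        refine mul_le_mul_of_nonneg_right ?_ hM2
        exact Finset.prod_le_prod (fun j _ => Finset.sum_nonneg fun _ _ => norm_nonneg _)
          fun j _ => ha1 j
    _ = ε * (M : ℝ) ^ 2 * ∏ j, ((D j * M : ℕ) : ℝ) := by ring

end Pool.Agent.F0f91f8.HD.B3
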