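import Pool.Agent.Work.MP_0f91f8_co.HD.StmtsB3

/-!
# Half density, module B, item Ind: independence of the pulled back forms
-/

set_option autoImplicit false

namespace Pool.Agent.F0f91f8.HD.B3

open Filter Topology ComplexConjugate
open Pool.Agent.F0f91f8.HD.B2
open Pool.Agent.U3 (ee lf dt sz bx)
open scoped BigOperators Classical

namespace XInd

theorem cop {w : ℤ × ℤ} (hw : GP w) : IsCoprime w.1 w.2 := by
  obtain ⟨h1, h2, h3⟩ := hw
  have hpos : 0 ≤ w.1 ^ 2 + w.2 ^ 2 := by positivity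
  have hn : ((nm w : ℕ) : ℤ) = w.1 ^ 2 + w.2 ^ 2 := by
    unfold nm
    rw [Int.natCast_natAbs, abs_of_nonneg hpos]
  have hp : Prime (w.1 ^ 2 + w.2 ^ 2) := by
    rw [← hn]
    exact Nat.prime_iff_prime_int.mp h3
  rw [Int.isCoprime_iff_gcd_eq_one]
  have hd : ((Int.gcd w.1 w.2 : ℕ) : ℤ) * (Int.gcd w.1 w.2 : ℕ) ∣ w.1 ^ 2 + w.2 ^ 2 := by
    rw [← pow_two]
    exact dvd_add (pow_dvd_pow_of_dvd (Int.gcd_dvd_left ..) 2)
      (pow_dvd_pow_of_dvd (Int.gcd_dvd_right ..) 2)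
  have hu := hp.irreducible.squarefree _ hd
  rw [Int.isUnit_iff] at hu
  rcases hu with h | h
  · exact_mod_cast h
  · have : (0 : ℤ) ≤ (Int.gcd w.1 w.2 : ℕ) := Int.natCast_nonneg _
    omega

theorem cross {w w' : ℤ × ℤ} (hw : GP w) (hw' : GP w') (hne : w ≠ w') :
    w.1 * w'.2 ≠ w'.1 * w.2 := by
  intro h
  have c := cop hw
  have c' := cop hw'
  have p1 : 0 < w.1 := hw.1.trans hw.2.1
  have p2 : 0 < w'.1 := hw'.1.trans hw'.2.1
  have d1 : w.1 ∣ w'.1 := c.dvd_of_dvd_mul_right (Dvd.intro _ h)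
  have d2 : w'.1 ∣ w.1 := c'.dvd_of_dvd_mul_right (Dvd.intro _ h.symm)
  have e : w.1 = w'.1 := Int.dvd_antisymm p1.le p2.le d1 d2
  rw [← e] at h
  exact hne (Prod.ext e (mul_left_cancel₀ p1.ne' h).symm)

end XInd

open XInd in
theorem Ind_pf : StInd := by
  intro w w' hw hw' hne r₁ r₂ hr i j hij
  have hc := cross hw hw' hne
  obtain ⟨a, b⟩ := w
  obtain ⟨a', b'⟩ := w'
  have hb : 0 < b := hw.1
  have ha : 0 < a := hw.1.trans hw.2.1
  have hb' : 0 < b' := hw'.1
  have ha' : 0 < a' := hw'.1.trans hw'.2.1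
  have hc' : a * b' ≠ a' * b := hc
  have q1 : 0 < a * a + b * b := by positivity
  have q2 : 0 < a' * a' + b' * b' := by positivity
  have q3 : 0 < a * a' + b * b' := by positivity
  rcases hr with ⟨rfl, rfl⟩ | ⟨rfl, rfl⟩
  · fin_cases i <;> fin_cases j <;> first | exact absurd rfl hij | (
      intro h
      simp [pb, dt] at h
      exact hc' (by linarith))
  · fin_cases i <;> fin_cases j <;> first | exact absurd rfl hij | (
      intro h
      simp [pb, dt] at h
      exact hc' (by linarith))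

end Pool.Agent.F0f91f8.HD.B3
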