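import Pool.Agent.Work.MP_0f91f8_co.HD.StmtsB3

set_option autoImplicit false

namespace Pool.Agent.F0f91f8.HD.B3

open Filter Topology ComplexConjugate
open Pool.Agent.F0f91f8.HD.B2
open scoped BigOperators Classical

theorem Rew_pf : StRew := by
  intro κ k Q D a₀ M Φ hκ hk hQ
  unfold Bx
  congr 1
  obtain ⟨A, hA⟩ : ∃ A : Finset (ℕ × ℕ), A = Finset.Icc 1 M ×ˢ Finset.Icc 1 M := ⟨_, rfl⟩
  obtain ⟨B, hB⟩ : ∃ B : Finset (ℕ × ℕ), B = Finset.Icc 1 (D * M) ×ˢ Finset.Icc 1 (D * M) :=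
    ⟨_, rfl⟩
  have h1 : (∑ u ∈ Finset.Icc 1 M, ∑ u' ∈ Finset.Icc 1 M, ∑ v ∈ Finset.Icc 1 (D * M),
      ∑ v' ∈ Finset.Icc 1 (D * M),
        Φ (k * (Q * (v + v') + a₀) + κ * (u + u')) (κ * (u + u')))
      = ∑ p ∈ A ×ˢ B, Φ (k * (Q * (p.2.1 + p.2.2) + a₀) + κ * (p.1.1 + p.1.2))
        (κ * (p.1.1 + p.1.2)) := by
    rw [Finset.sum_product, hA, hB, Finset.sum_product]
    apply Finset.sum_congr rfl
    intro u _
    apply Finset.sum_congr rfl
    intro u' _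
    rw [Finset.sum_product]
  obtain ⟨φ, hφ⟩ : ∃ φ : (ℕ × ℕ) × (ℕ × ℕ) → ℤ × ℤ, φ = fun p =>
      (((k * (Q * (p.2.1 + p.2.2) + a₀) + κ * (p.1.1 + p.1.2) : ℕ) : ℤ),
        ((κ * (p.1.1 + p.1.2) : ℕ) : ℤ)) := ⟨_, rfl⟩
  have hmaps : ∀ p ∈ A ×ˢ B, φ p ∈ box (CC κ k Q D a₀ * M) := by
    intro p hp
    rw [Finset.mem_product, hA, hB, Finset.mem_product, Finset.mem_product] at hp
    simp only [Finset.mem_Icc] at hp
    obtain ⟨⟨⟨h1, h2⟩, h3, h4⟩, ⟨h5, h6⟩, h7, h8⟩ := hp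
    have hM1 : 1 ≤ M := by omega
    have hu : κ * (p.1.1 + p.1.2) ≤ 2 * κ * M := by
      calc κ * (p.1.1 + p.1.2) ≤ κ * (M + M) := Nat.mul_le_mul_left κ (by omega)
        _ = 2 * κ * M := by ring
    have hv : k * (Q * (p.2.1 + p.2.2) + a₀) ≤ (2 * k * Q * D + k * a₀) * M := by
      calc k * (Q * (p.2.1 + p.2.2) + a₀) ≤ k * (Q * (D * M + D * M) + a₀ * M) := by
            apply Nat.mul_le_mul_left k
            apply Nat.add_le_add
            · exact Nat.mul_le_mul_left Q (by omega)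
            · exact Nat.le_mul_of_pos_right a₀ hM1
        _ = (2 * k * Q * D + k * a₀) * M := by ring
    have htot : k * (Q * (p.2.1 + p.2.2) + a₀) + κ * (p.1.1 + p.1.2) ≤ CC κ k Q D a₀ * M := by
      unfold CC
      calc k * (Q * (p.2.1 + p.2.2) + a₀) + κ * (p.1.1 + p.1.2)
          ≤ (2 * k * Q * D + k * a₀) * M + 2 * κ * M := Nat.add_le_add hv hu
        _ = (2 * k * Q * D + k * a₀ + 2 * κ) * M := by ring
    have h9 : κ * (p.1.1 + p.1.2) ≤ CC κ k Q D a₀ * M := le_trans (Nat.le_add_left _ _) htot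
    rw [hφ]
    unfold box
    rw [Finset.mem_product, Finset.mem_Icc, Finset.mem_Icc]
    dsimp only
    refine ⟨⟨?_, by exact_mod_cast htot⟩, ?_, by exact_mod_cast h9⟩
    · have h10 : (0 : ℤ) ≤ ((k * (Q * (p.2.1 + p.2.2) + a₀) + κ * (p.1.1 + p.1.2) : ℕ) : ℤ) :=
        Int.natCast_nonneg _
      have h11 : (0 : ℤ) ≤ ((CC κ k Q D a₀ * M : ℕ) : ℤ) := Int.natCast_nonneg _
      linarith
    · have h10 : (0 : ℤ) ≤ ((κ * (p.1.1 + p.1.2) : ℕ) : ℤ) := Int.natCast_nonneg _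
      have h11 : (0 : ℤ) ≤ ((CC κ k Q D a₀ * M : ℕ) : ℤ) := Int.natCast_nonneg _
      linarith
  rw [h1, ← Finset.sum_fiberwise_of_maps_to hmaps]
  apply Finset.sum_congr rfl
  intro b _
  have h2 : ∀ p ∈ (A ×ˢ B).filter (fun p => φ p = b),
      Φ (k * (Q * (p.2.1 + p.2.2) + a₀) + κ * (p.1.1 + p.1.2)) (κ * (p.1.1 + p.1.2))
        = Φ b.1.toNat b.2.toNat := by
    intro p hp
    have h3 := (Finset.mem_filter.mp hp).2
    rw [← h3, hφ]
    dsimp only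
    rw [Int.toNat_natCast, Int.toNat_natCast]
  rw [Finset.sum_congr rfl h2, Finset.sum_const, nsmul_eq_mul]
  congr 1
  have h3 : (A ×ˢ B).filter (fun p => φ p = b)
      = (A.filter (fun u : ℕ × ℕ => (κ : ℤ) * ((u.1 : ℤ) + u.2) + 0 = b.2)) ×ˢ
        (B.filter (fun u : ℕ × ℕ => ((k * Q : ℕ) : ℤ) * ((u.1 : ℤ) + u.2) + ((k * a₀ : ℕ) : ℤ)
          = b.1 - b.2)) := by
    ext p
    rw [Finset.mem_filter, Finset.mem_product, Finset.mem_product, Finset.mem_filter,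
      Finset.mem_filter, hφ]
    dsimp only
    constructor
    · rintro ⟨⟨ha, hb⟩, h⟩
      have h4 := congrArg Prod.fst h
      have h5 := congrArg Prod.snd h
      dsimp only at h4 h5
      push_cast at h4 h5 ⊢
      refine ⟨⟨ha, ?_⟩, hb, ?_⟩
      · rw [← h5]
        ring
      · rw [← h4, ← h5]
        ring
    · rintro ⟨⟨ha, h4⟩, hb, h5⟩
      refine ⟨⟨ha, hb⟩, ?_⟩
      push_cast at h5 ⊢
      apply Prod.ext
      · dsimp only
        linarith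
      · dsimp only
        linarith
  rw [h3, Finset.card_product]
  unfold WT tent
  rw [hA, hB]

end Pool.Agent.F0f91f8.HD.B3
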