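import Pool.Agent.Work.MP_0f91f8_co.HD.StmtsB3

/-!
# Half density, module B, item Sup: support and size of the weights
-/

set_option autoImplicit false

namespace Pool.Agent.F0f91f8.HD.B3

open Filter Topology ComplexConjugate
open Pool.Agent.F0f91f8.HD.B2
open Pool.Agent.U3 (ee lf dt sz bx)
open scoped BigOperators Classical

namespace XSup

theorem tent_ne {L κ : ℕ} {c s : ℤ} (h : tent L κ c s ≠ 0) :
    ∃ u u' : ℕ, 1 ≤ u ∧ u ≤ L ∧ 1 ≤ u' ∧ u' ≤ L ∧ (κ : ℤ) * ((u : ℤ) + u') + c = s := by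
  unfold tent at h
  obtain ⟨⟨u, u'⟩, hu⟩ := Finset.card_ne_zero.1 h
  rw [Finset.mem_filter, Finset.mem_product, Finset.mem_Icc, Finset.mem_Icc] at hu
  exact ⟨u, u', hu.1.1.1, hu.1.1.2, hu.1.2.1, hu.1.2.2, hu.2⟩

theorem tent_le (L κ : ℕ) (c s : ℤ) (hκ : 0 < κ) : tent L κ c s ≤ L := by
  unfold tent
  have h1 : (Finset.Icc 1 L).card = L := by
    rw [Nat.card_Icc, Nat.add_sub_cancel]
  conv_rhs => rw [← h1]
  refine Finset.card_le_card_of_injOn Prod.fst ?_ ?_
  · intro u hu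
    rw [Finset.mem_coe, Finset.mem_filter, Finset.mem_product] at hu
    exact hu.1.1
  · intro u hu v hv huv
    rw [Finset.mem_coe, Finset.mem_filter] at hu hv
    have h2 : (κ : ℤ) * ((u.1 : ℤ) + u.2) = (κ : ℤ) * ((v.1 : ℤ) + v.2) := by
      linarith [hu.2, hv.2]
    have h3 : (κ : ℤ) ≠ 0 := by exact_mod_cast hκ.ne'
    have h4 := mul_left_cancel₀ h3 h2
    rw [huv] at h4
    have h5 : (u.2 : ℤ) = v.2 := by linarith
    exact Prod.ext huv (by exact_mod_cast h5)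

end XSup

open XSup

theorem Sup_pf : StSup := by
  intro κ k Q D a₀ M hκ hk hQ
  constructor
  · intro b hb
    unfold WT at hb
    obtain ⟨u, u', hu1, hu2, hu3, hu4, hu5⟩ := tent_ne (left_ne_zero_of_mul hb)
    obtain ⟨v, v', hv1, hv2, hv3, hv4, hv5⟩ := tent_ne (right_ne_zero_of_mul hb)
    rw [add_zero] at hu5
    push_cast at hv5
    have hκ' : (1 : ℤ) ≤ κ := by exact_mod_cast hκ
    have hk' : (1 : ℤ) ≤ k := by exact_mod_cast hk
    have hQ' : (1 : ℤ) ≤ Q := by exact_mod_cast hQ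
    have hu1' : (1 : ℤ) ≤ u := by exact_mod_cast hu1
    have hu2' : (u : ℤ) ≤ M := by exact_mod_cast hu2
    have hu3' : (1 : ℤ) ≤ u' := by exact_mod_cast hu3
    have hu4' : (u' : ℤ) ≤ M := by exact_mod_cast hu4
    have hv1' : (1 : ℤ) ≤ v := by exact_mod_cast hv1
    have hv2' : (v : ℤ) ≤ D * M := by exact_mod_cast hv2
    have hv3' : (1 : ℤ) ≤ v' := by exact_mod_cast hv3
    have hv4' : (v' : ℤ) ≤ D * M := by exact_mod_cast hv4
    have ha : (0 : ℤ) ≤ a₀ := by positivity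
    have hM : (1 : ℤ) ≤ M := by linarith
    have hkQ : (1 : ℤ) ≤ k * Q := by nlinarith
    have hka : (0 : ℤ) ≤ k * a₀ := by positivity
    have e1 : 0 < b.2 := by
      rw [← hu5]
      nlinarith
    have e2 : b.2 ≤ 2 * κ * M := by
      rw [← hu5]
      nlinarith
    have e3 : 0 < b.1 - b.2 := by
      rw [← hv5]
      nlinarith
    have e4 : b.1 - b.2 ≤ (2 * k * Q * D + k * a₀) * M := by
      rw [← hv5]
      have f1 : (k : ℤ) * Q * (v + v') ≤ k * Q * (D * M + D * M) :=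
        mul_le_mul_of_nonneg_left (by linarith) (by linarith)
      have f2 : (k : ℤ) * a₀ ≤ k * a₀ * M := by nlinarith
      nlinarith
    refine ⟨e1, by linarith, ?_⟩
    unfold box CC
    rw [Finset.mem_product, Finset.mem_Icc, Finset.mem_Icc]
    push_cast
    have e5 : b.1 ≤ (2 * k * Q * D + k * a₀ + 2 * κ) * M := by nlinarith
    have e6 : b.2 ≤ (2 * k * Q * D + k * a₀ + 2 * κ) * M := by linarith
    have e7 : 0 ≤ b.1 := by linarith
    refine ⟨⟨by linarith, e5⟩, by linarith, e6⟩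
  · intro b
    unfold WT
    exact Nat.mul_le_mul (tent_le M κ 0 b.2 hκ)
      (tent_le (D * M) (k * Q) _ _ (Nat.mul_pos hk hQ))

end Pool.Agent.F0f91f8.HD.B3
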