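import Pool.Agent.Work.MP_0f91f8_co.HD.StmtsB3

/-!
# Half density, module B3, item Ten: tents are trigonometric polynomials
-/

set_option autoImplicit false

namespace Pool.Agent.F0f91f8.HD.B3

open Filter Topology ComplexConjugate
open Pool.Agent.F0f91f8.HD.B2
open Pool.Agent.U3 (ee lf dt sz bx)
open scoped BigOperators Classical

namespace XTen

theorem ee_add (x y : ℝ) : ee (x + y) = ee x * ee y := by
  unfold ee
  rw [← Complex.exp_add]
  congr 1
  push_cast
  ring

theorem ee_norm (x : ℝ) : ‖ee x‖ = 1 := by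
  unfold ee
  rw [show (2 * Real.pi * Complex.I * x : ℂ) = ((2 * Real.pi * x : ℝ) : ℂ) * Complex.I by
    push_cast; ring]
  exact Complex.norm_exp_ofReal_mul_I _

theorem ee_conj (x : ℝ) : conj (ee x) = ee (-x) := by
  unfold ee
  rw [← Complex.exp_conj]
  congr 1
  simp only [map_mul, Complex.conj_I, Complex.conj_ofReal, Complex.ofReal_neg, map_ofNat]
  ring

theorem ee_int (k : ℤ) : ee k = 1 := by
  unfold ee
  rw [Complex.exp_eq_one_iff]
  exact ⟨k, by push_cast; ring⟩

theorem charsum (q : ℕ) (hq : 0 < q) (m : ℤ) :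
    ∑ j ∈ Finset.range q, ee (j * m / q) = if (q : ℤ) ∣ m then (q : ℂ) else 0 := by
  have hq' : (q : ℝ) ≠ 0 := by positivity
  have h1 : ∀ j : ℕ, ee (j * m / q) = ee (m / q) ^ j := by
    intro j
    unfold ee
    rw [← Complex.exp_nat_mul]
    congr 1
    push_cast
    ring
  split_ifs with hd
  · obtain ⟨k, rfl⟩ := hd
    have h2 : ∀ j ∈ Finset.range q, ee (j * (((q : ℤ) * k : ℤ) : ℝ) / q) = 1 := by
      intro j _
      rw [show ((j : ℝ) * (((q : ℤ) * k : ℤ) : ℝ) / q) = (((j : ℤ) * k : ℤ) : ℝ) by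
        push_cast; field_simp]
      exact ee_int _
    rw [Finset.sum_congr rfl h2]
    simp
  · have hne : ee (m / q) ≠ 1 := by
      intro h
      unfold ee at h
      rw [Complex.exp_eq_one_iff] at h
      obtain ⟨n, hn⟩ := h
      have h3 : (m : ℝ) / q = n := by
        have h2 : (2 * Real.pi * Complex.I : ℂ) ≠ 0 := Complex.two_pi_I_ne_zero
        have h4 : ((m / q : ℝ) : ℂ) = (n : ℂ) := by
          apply mul_left_cancel₀ h2
          rw [hn]
          ring
        exact_mod_cast h4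
      apply hd
      refine ⟨n, ?_⟩
      rw [div_eq_iff hq'] at h3
      have h4 : (m : ℝ) = ((q * n : ℤ) : ℝ) := by
        push_cast
        linarith
      exact_mod_cast h4
    have hp : ee (m / q) ^ q = 1 := by
      rw [← h1]
      rw [show ((q : ℝ) * m / q) = (m : ℝ) by field_simp]
      exact ee_int m
    rw [Finset.sum_congr rfl fun j _ => h1 j, geom_sum_eq hne, hp, sub_self, zero_div]

/-- the exponential sum over `u` -/
noncomputable def S (L κ P k : ℕ) : ℂ := ∑ u ∈ Finset.Icc 1 L, ee (-(k * (κ * u) / P))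

theorem sq_norm (L κ P : ℕ) (hκ : 0 < κ) (hP : 0 < P) (hL : κ * L < P) :
    ∑ k ∈ Finset.range P, ‖S L κ P k‖ ^ 2 = P * L := by
  have key : ((∑ k ∈ Finset.range P, ‖S L κ P k‖ ^ 2 : ℝ) : ℂ) = ((P * L : ℝ) : ℂ) := by
    have h1 : ∀ k ∈ Finset.range P, ((‖S L κ P k‖ ^ 2 : ℝ) : ℂ) =
        ∑ u ∈ Finset.Icc 1 L, ∑ v ∈ Finset.Icc 1 L, ee (k * ((κ * ((v : ℤ) - u) : ℤ) : ℝ) / P) := by
      intro k _
      rw [Complex.ofReal_pow, ← Complex.mul_conj', S, map_sum, Finset.sum_mul_sum]
      refine Finset.sum_congr rfl fun u _ => Finset.sum_congr rfl fun v _ => ?_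
      rw [ee_conj, ← ee_add]
      congr 1
      push_cast
      ring
    rw [Complex.ofReal_sum, Finset.sum_congr rfl h1, Finset.sum_comm]
    have h2 : ∀ u ∈ Finset.Icc 1 L, ∑ k ∈ Finset.range P, ∑ v ∈ Finset.Icc 1 L,
        ee (k * ((κ * ((v : ℤ) - u) : ℤ) : ℝ) / P) = P := by
      intro u hu
      rw [Finset.sum_comm]
      have h3 : ∀ v ∈ Finset.Icc 1 L, ∑ k ∈ Finset.range P,
          ee (k * ((κ * ((v : ℤ) - u) : ℤ) : ℝ) / P) = if v = u then (P : ℂ) else 0 := by
        intro v hv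
        rw [charsum P hP]
        rw [Finset.mem_Icc] at hu hv
        by_cases huv : v = u
        · rw [if_pos huv, if_pos]
          rw [huv, sub_self, mul_zero]
          exact dvd_zero _
        · rw [if_neg huv, if_neg]
          intro hd
          have h4 : |((κ : ℤ) * ((v : ℤ) - u))| < P := by
            rw [abs_mul, abs_of_nonneg (Int.natCast_nonneg κ)]
            have h5 : |((v : ℤ) - u)| ≤ L := by
              rw [abs_le]
              constructor <;> omega
            have h6 : (κ : ℤ) * |((v : ℤ) - u)| ≤ κ * L :=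
              mul_le_mul_of_nonneg_left h5 (Int.natCast_nonneg κ)
            have h7 : (κ : ℤ) * L < P := by exact_mod_cast hL
            linarith
          have h8 := Int.eq_zero_of_abs_lt_dvd hd h4
          rcases mul_eq_zero.1 h8 with h9 | h9
          · omega
          · apply huv
            omega
      rw [Finset.sum_congr rfl h3, Finset.sum_ite_eq' _ u, if_pos hu]
    rw [Finset.sum_congr rfl h2, Finset.sum_const, Nat.card_Icc, nsmul_eq_mul]
    push_cast
    ring
  exact_mod_cast key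

theorem rep (L κ P : ℕ) (c s : ℤ) (hP : 0 < P) (h : |s| + |c| + 2 * κ * L < P) :
    (tent L κ c s : ℂ) = ∑ k ∈ Finset.range P,
      ((P : ℂ)⁻¹ * ee (-(k * c / P)) * S L κ P k ^ 2) * ee ((k : ℝ) * s / P) := by
  have hPc : (P : ℂ) ≠ 0 := by exact_mod_cast hP.ne'
  have h1 : ∀ k ∈ Finset.range P,
      ((P : ℂ)⁻¹ * ee (-(k * c / P)) * S L κ P k ^ 2) * ee ((k : ℝ) * s / P) =
      ∑ u ∈ Finset.Icc 1 L, ∑ v ∈ Finset.Icc 1 L,
        (P : ℂ)⁻¹ * ee (k * ((s - c - κ * ((u : ℤ) + v) : ℤ) : ℝ) / P) := by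
    intro k _
    have h2 : S L κ P k ^ 2 = ∑ u ∈ Finset.Icc 1 L, ∑ v ∈ Finset.Icc 1 L,
        ee (-(k * (κ * u) / P)) * ee (-(k * (κ * v) / P)) := by
      rw [pow_two, S, Finset.sum_mul_sum]
    rw [h2, Finset.mul_sum, Finset.sum_mul]
    refine Finset.sum_congr rfl fun u _ => ?_
    rw [Finset.mul_sum, Finset.sum_mul]
    refine Finset.sum_congr rfl fun v _ => ?_
    have h3 : ((k : ℝ) * ((s - c - κ * ((u : ℤ) + v) : ℤ) : ℝ) / P) =
        (-(k * c / P)) + (-(k * (κ * u) / P)) + (-(k * (κ * v) / P)) + (k : ℝ) * s / P := by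
      push_cast
      ring
    rw [h3, ee_add, ee_add, ee_add]
    ring
  rw [Finset.sum_congr rfl h1, Finset.sum_comm]
  unfold tent
  rw [Finset.card_filter, Finset.sum_product]
  push_cast
  refine Finset.sum_congr rfl fun u hu => ?_
  rw [Finset.sum_comm]
  refine Finset.sum_congr rfl fun v hv => ?_
  have hch := charsum P hP (s - c - κ * ((u : ℤ) + v))
  push_cast at hch
  rw [← Finset.mul_sum, hch]
  rw [Finset.mem_Icc] at hu hv
  by_cases he : (κ : ℤ) * ((u : ℤ) + v) + c = s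
  · rw [if_pos he, if_pos, inv_mul_cancel₀ hPc]
    have : s - c - (κ : ℤ) * ((u : ℤ) + v) = 0 := by linarith
    rw [this]
    exact dvd_zero _
  · rw [if_neg he, if_neg, mul_zero]
    intro hd
    have h4 : |s - c - (κ : ℤ) * ((u : ℤ) + v)| < P := by
      have h5 : |s - c - (κ : ℤ) * ((u : ℤ) + v)| ≤ |s| + |c| + |(κ : ℤ) * ((u : ℤ) + v)| := by
        refine (abs_sub _ _).trans ?_
        have := abs_sub s c
        linarith
      have h6 : |(κ : ℤ) * ((u : ℤ) + v)| ≤ 2 * κ * L := by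
        rw [abs_of_nonneg (by positivity)]
        have h7 : ((u : ℤ) + v) ≤ 2 * L := by omega
        have h8 : (κ : ℤ) * ((u : ℤ) + v) ≤ κ * (2 * L) :=
          mul_le_mul_of_nonneg_left h7 (Int.natCast_nonneg κ)
        linarith
      linarith
    have h8 := Int.eq_zero_of_abs_lt_dvd hd h4
    exact he (by linarith)

end XTen

theorem Ten_pf : StTen := by
  intro L κ P c hκ hP
  by_cases hc : |c| + 2 * κ * L < (P : ℤ)
  · refine ⟨fun k => (P : ℂ)⁻¹ * ee (-(k * c / P)) * XTen.S L κ P k ^ 2, ?_,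
      fun s hs => XTen.rep L κ P c s hP hs⟩
    have h1 : ∀ k ∈ Finset.range P, ‖(P : ℂ)⁻¹ * ee (-(k * c / P)) * XTen.S L κ P k ^ 2‖ =
        (P : ℝ)⁻¹ * ‖XTen.S L κ P k‖ ^ 2 := by
      intro k _
      rw [norm_mul, norm_mul, XTen.ee_norm, norm_inv, Complex.norm_natCast, norm_pow, mul_one]
    rw [Finset.sum_congr rfl h1, ← Finset.mul_sum, XTen.sq_norm L κ P hκ hP]
    · rw [← mul_assoc, inv_mul_cancel₀ (by positivity), one_mul]
    · have h2 := abs_nonneg c
      have h3 : (0 : ℤ) ≤ κ * L := by positivity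
      have h4 : (κ : ℤ) * L < P := by linarith
      exact_mod_cast h4
  · refine ⟨fun _ => 0, ?_, ?_⟩
    · simp
    · intro s hs
      exact absurd (by have := abs_nonneg s; linarith) hc

end Pool.Agent.F0f91f8.HD.B3
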