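import Pool.Agent.Work.MP_0f91f8_co.HD.StmtsB3

/-!
# Half density, module B, item XY: the pair `x, y`
-/

set_option autoImplicit false

namespace Pool.Agent.F0f91f8.HD.B3

open Filter Topology ComplexConjugate
open Pool.Agent.F0f91f8.HD.B2
open Pool.Agent.U3 (ee lf dt sz bx)
open scoped BigOperators Classical

namespace XXY

/-- the four forms -/
def fl : Fin 4 → ℤ × ℤ := ![(0, 1), (1, -1), (1, 1), (1, 0)]

/-- the forms of the tents -/
def fm : Fin 2 → ℤ × ℤ := ![(0, 1), (1, -1)]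

theorem fl_dt (i j : Fin 4) (h : i ≠ j) : dt (fl i) (fl j) ≠ 0 := by
  revert h
  fin_cases i <;> fin_cases j <;> simp [fl, dt]

theorem norm_le (f : ℕ → ℂ) (hf : CM f) (n : ℕ) : ‖f n‖ ≤ 1 := by
  rcases Nat.eq_zero_or_pos n with h | h
  · subst h; rw [hf.1]; simp
  · exact (hf.2.2 n h).le

/-- the three bounded functions -/
noncomputable def FF (f : ℕ → ℂ) : Fin 3 → ℤ → ℂ :=
  ![fun s => f s.toNat, fun s => conj (f s.toNat), fun s => conj (f s.toNat)]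

theorem FF_le (f : ℕ → ℂ) (hf : CM f) (i : Fin 3) (s : ℤ) : ‖FF f i s‖ ≤ 1 := by
  fin_cases i
  · exact norm_le f hf _
  · show ‖conj (f s.toNat)‖ ≤ 1
    rw [RCLike.norm_conj]
    exact norm_le f hf _
  · show ‖conj (f s.toNat)‖ ≤ 1
    rw [RCLike.norm_conj]
    exact norm_le f hf _

theorem tents (κ k Q D a₀ M : ℕ) (v : ℤ × ℤ) :
    ∏ j : Fin 2, tent ((![1, D] : Fin 2 → ℕ) j * M) ((![κ, k * Q] : Fin 2 → ℕ) j)
      ((![0, ((k * a₀ : ℕ) : ℤ)] : Fin 2 → ℤ) j) (lf (fm j) v) = WT κ k Q D a₀ M v := by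
  rw [Fin.prod_univ_two]
  unfold WT
  have h1 : lf (fm 0) v = v.2 := by simp [fm, lf]
  have h2 : lf (fm 1) v = v.1 - v.2 := by simp [fm, lf]; ring
  rw [h1, h2]
  simp

end XXY

open XXY in
theorem XY_pf (hI : StIG) (hS : StSup) : StXY := by
  intro f hf hA κ k Q D a₀ hκ hk hQ ε hε
  have hpos : ∀ j : Fin 2, 0 < (![κ, k * Q] : Fin 2 → ℕ) j := by
    intro j
    fin_cases j
    · exact hκ
    · exact Nat.mul_pos hk hQ
  have hsup : ∀ (M : ℕ) (v : ℤ × ℤ),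
      (∀ j : Fin 2, tent ((![1, D] : Fin 2 → ℕ) j * M) ((![κ, k * Q] : Fin 2 → ℕ) j)
        ((![0, ((k * a₀ : ℕ) : ℤ)] : Fin 2 → ℤ) j) (lf (fm j) v) ≠ 0) →
      v ∈ box (CC κ k Q D a₀ * M) := by
    intro M v hv
    refine ((hS κ k Q D a₀ M hκ hk hQ).1 v ?_).2.2
    rw [← tents]
    exact Finset.prod_ne_zero_iff.mpr fun j _ => hv j
  obtain ⟨M₀, hM₀⟩ := hI f hf hA fl fl_dt 2 fm ![1, D] ![κ, k * Q] ![0, ((k * a₀ : ℕ) : ℤ)] hpos
    (CC κ k Q D a₀) hsup ε hε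
  refine ⟨M₀, fun M hM => ?_⟩
  have h := hM₀ M hM (FF f) (FF_le f hf)
  have e1 : ∏ j : Fin 2, ((((![1, D] : Fin 2 → ℕ) j * M : ℕ)) : ℝ) = (M : ℝ) * (D * M : ℕ) := by
    rw [Fin.prod_univ_two]
    simp
  rw [e1] at h
  refine le_trans (le_of_eq ?_) h
  congr 1
  refine Finset.sum_congr rfl fun v _ => ?_
  have e2 : ∏ j : Fin 2, (tent ((![1, D] : Fin 2 → ℕ) j * M) ((![κ, k * Q] : Fin 2 → ℕ) j)
        ((![0, ((k * a₀ : ℕ) : ℤ)] : Fin 2 → ℤ) j) (lf (fm j) v) : ℂ) =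
      (WT κ k Q D a₀ M v : ℂ) := by
    rw [← tents]
    push_cast
    rfl
  have e3 : ∏ i : Fin 3, FF f i (lf (fl i.castSucc) v) =
      f v.2.toNat * conj (f (v.1 - v.2).toNat) * conj (f (v.1 + v.2).toNat) := by
    rw [Fin.prod_univ_three]
    have h1 : lf (fl (Fin.castSucc 0)) v = v.2 := by simp [fl, lf]
    have h2 : lf (fl (Fin.castSucc 1)) v = v.1 - v.2 := by simp [fl, lf]; ring
    have h3 : lf (fl (Fin.castSucc 2)) v = v.1 + v.2 := by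
      show (1 : ℤ) * v.1 + 1 * v.2 = v.1 + v.2
      ring
    rw [h1, h2, h3]
    rfl
  have e4 : lf (fl 3) v = v.1 := by
    show (1 : ℤ) * v.1 + 0 * v.2 = v.1
    ring
  rw [e2, e3, e4, map_mul]
  ring

end Pool.Agent.F0f91f8.HD.B3
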