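import Pool.Agent.Work.MP_0f91f8_co.HD.B2_Alg
import Pool.Agent.Work.MP_0f91f8_co.HD.B2_Cls
import Pool.Agent.Work.MP_0f91f8_co.HD.B2_Cnt1
import Pool.Agent.Work.MP_0f91f8_co.HD.B2_Cnt2
import Pool.Agent.Work.MP_0f91f8_co.HD.B2_TK
import Pool.Agent.Work.MP_0f91f8_co.HD.B2_Swp
import Pool.Agent.Work.MP_0f91f8_co.HD.B2_Dia
import Pool.Agent.Work.MP_0f91f8_co.HD.B2_Prm
import Pool.Agent.Work.MP_0f91f8_co.HD.B2_Kat
import Pool.Agent.Work.MP_0f91f8_co.HD.B3_Ten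
import Pool.Agent.Work.MP_0f91f8_co.HD.B3_IG
import Pool.Agent.Work.MP_0f91f8_co.HD.B3_Sup
import Pool.Agent.Work.MP_0f91f8_co.HD.B3_Rew
import Pool.Agent.Work.MP_0f91f8_co.HD.B3_Ind
import Pool.Agent.Work.MP_0f91f8_co.HD.B3_GK2
import Pool.Agent.Work.MP_0f91f8_co.HD.B3_XY
import Pool.Agent.Work.MP_0f91f8_co.HD.B3_Fin
import Pool.Agent.Work.MP_0f91f8_co.U3.All

/-!
# Half density, module B: `AperStmt` is a theorem
-/

set_option autoImplicit false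

namespace Pool.Agent.F0f91f8.HD

theorem katai : B2.StKat :=
  B2.Kat_pf (B2.TK_pf (B2.Cnt1_pf B2.Alg_pf B2.Cls_pf) (B2.Cnt2_pf B2.Alg_pf B2.Cls_pf))
    (B2.Swp_pf B2.Alg_pf) (B2.Dia_pf B2.Alg_pf (B2.Cnt1_pf B2.Alg_pf B2.Cls_pf)) B2.Prm_pf

theorem ig : B3.StIG := B3.IG_pf Pool.Agent.U3.u3_A B3.Ten_pf

/-- the three pair correlations of an aperiodic function tend to zero -/
theorem aper : AperStmt :=
  B3.Fin_pf B3.Rew_pf B3.Sup_pf (B3.XY_pf ig B3.Sup_pf)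
    (B3.GK2_pf B2.Alg_pf katai ig B3.Sup_pf B3.Ind_pf)

end Pool.Agent.F0f91f8.HD
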