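import Pool.Agent.Work.MP_0f91f8_co.HD.StmtsB

/-!
# Half density, module B, item GTk: Turan-Kubilius on the plane lattice
-/

set_option autoImplicit false

namespace Pool.Agent.F0f91f8.HD

open Filter Topology ComplexConjugate
open scoped BigOperators

namespace BGTk

lemma gn_cast (v : ℤ × ℤ) : ((gn v : ℕ) : ℤ) = v.1 ^ 2 + v.2 ^ 2 := by
  unfold gn
  rw [Int.natAbs_of_nonneg]
  positivity

lemma dvd_both {π ρ v : ℤ × ℤ} (h : Nat.Coprime (gn π) (gn ρ)) (h1 : gdv π v) (h2 : gdv ρ v) :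
    gdv (gm π ρ) v := by
  obtain ⟨u, hu⟩ := h1
  obtain ⟨w, hw⟩ := h2
  have h3 : IsCoprime ((gn π : ℕ) : ℤ) ((gn ρ : ℕ) : ℤ) := Nat.isCoprime_iff_coprime.2 h
  obtain ⟨α, β, hab⟩ := h3
  rw [gn_cast, gn_cast] at hab
  refine ⟨(α * (π.1 * w.1 + π.2 * w.2) + β * (ρ.1 * u.1 + ρ.2 * u.2),
    α * (π.1 * w.2 - π.2 * w.1) + β * (ρ.1 * u.2 - ρ.2 * u.1)), ?_⟩
  have hu1 : v.1 = π.1 * u.1 - π.2 * u.2 := congrArg Prod.fst hu
  have hu2 : v.2 = π.1 * u.2 + π.2 * u.1 := congrArg Prod.snd hu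
  have hw1 : v.1 = ρ.1 * w.1 - ρ.2 * w.2 := congrArg Prod.fst hw
  have hw2 : v.2 = ρ.1 * w.2 + ρ.2 * w.1 := congrArg Prod.snd hw
  unfold gm
  apply Prod.ext
  · change v.1 = _
    linear_combination (-v.1) * hab + α * (π.1 ^ 2 + π.2 ^ 2) * hw1 +
      β * (ρ.1 ^ 2 + ρ.2 ^ 2) * hu1
  · change v.2 = _
    linear_combination (-v.2) * hab + α * (π.1 ^ 2 + π.2 ^ 2) * hw2 +
      β * (ρ.1 ^ 2 + ρ.2 ^ 2) * hu2

/-- indicator of divisibility -/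
noncomputable def ee (π v : ℤ × ℤ) : ℝ := Set.indicator {v | gdv π v} (fun _ => (1 : ℝ)) v

lemma ee_mul_self (π v : ℤ × ℤ) : ee π v * ee π v = ee π v := by
  unfold ee
  by_cases h : v ∈ {v | gdv π v}
  · rw [Set.indicator_of_mem h, mul_one]
  · rw [Set.indicator_of_notMem h, mul_zero]

lemma ee_nonneg (π v : ℤ × ℤ) : 0 ≤ ee π v := by
  unfold ee
  exact Set.indicator_nonneg (fun _ _ => zero_le_one) v

lemma ee_mul_le {π ρ : ℤ × ℤ} (h : Nat.Coprime (gn π) (gn ρ)) (v : ℤ × ℤ) :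
    ee π v * ee ρ v ≤ ee (gm π ρ) v := by
  by_cases h1 : gdv π v
  · by_cases h2 : gdv ρ v
    · have h3 := dvd_both h h1 h2
      unfold ee
      rw [Set.indicator_of_mem (s := {v | gdv π v}) h1, Set.indicator_of_mem (s := {v | gdv ρ v}) h2,
        Set.indicator_of_mem (s := {v | gdv (gm π ρ) v}) h3, mul_one]
    · have h3 : ee ρ v = 0 := Set.indicator_of_notMem (s := {v | gdv ρ v}) h2 _
      rw [h3, mul_zero]
      exact ee_nonneg _ _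
  · have h3 : ee π v = 0 := Set.indicator_of_notMem (s := {v | gdv π v}) h1 _
    rw [h3, zero_mul]
    exact ee_nonneg _ _

lemma card_bx (R : ℕ) : ((U3.bx (R : ℤ)).card : ℝ) = (2 * R + 1) ^ 2 := by
  unfold U3.bx
  rw [Finset.card_product, Int.card_Icc]
  have h : ((R : ℤ) + 1 - -(R : ℤ)).toNat = 2 * R + 1 := by omega
  rw [h]
  push_cast
  ring

lemma ne_zero_of_gn {π : ℤ × ℤ} (h : gn π ≠ 0) : π ≠ 0 := by
  rintro rfl
  apply h
  rfl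

end BGTk

open BGTk in
theorem pr_GTk : StGTk := by
  intro hE hC S hS hne
  classical
  set s : ℝ := ∑ π ∈ S, (1 : ℝ) / (gn π : ℝ) with hs
  set P : ℝ := ∑ π ∈ S, (gn π : ℝ) with hP
  have hgn : ∀ π ∈ S, (0 : ℝ) < (gn π : ℝ) := fun π hπ => by
    exact_mod_cast (hS π hπ).2.2.pos
  have hs0 : 0 < s := Finset.sum_pos (fun π hπ => div_pos one_pos (hgn π hπ)) hne
  have hP0 : 0 ≤ P := Finset.sum_nonneg fun π hπ => (hgn π hπ).le
  set E : ℝ := 8 * P + 8 * P ^ 2 + 16 * s * P with hEdef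
  refine ⟨⌈E / s⌉₊, ?_⟩
  intro R hR ω hω
  set b : ℝ := 2 * (R : ℝ) + 1 with hb
  have hb0 : 0 < b := by positivity
  have hEb : E ≤ s * b := by
    have h1 : E / s ≤ (R : ℝ) := (Nat.le_ceil _).trans (by exact_mod_cast hR)
    rw [div_le_iff₀ hs0] at h1
    have h2 : (0 : ℝ) ≤ R := Nat.cast_nonneg R
    nlinarith
  -- single counts
  have hN1 : ∀ π ∈ S, |∑ v ∈ U3.bx (R : ℤ), ee π v - b ^ 2 / (gn π : ℝ)| ≤ 8 * (gn π : ℝ) * b := by
    intro π hπ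
    exact hC π (ne_zero_of_gn (hS π hπ).2.2.ne_zero) R
  -- double counts
  have hN2 : ∀ π ∈ S, ∀ ρ ∈ S, ∑ v ∈ U3.bx (R : ℤ), ee π v * ee ρ v ≤
      b ^ 2 * (1 / (gn π : ℝ)) * (1 / (gn ρ : ℝ)) + 8 * b * ((gn π : ℝ) * (gn ρ : ℝ)) +
        if π = ρ then b ^ 2 * (1 / (gn π : ℝ)) + 8 * b * (gn π : ℝ) else 0 := by
    intro π hπ ρ hρ
    have h1 := hgn π hπ
    have h2 := hgn ρ hρ
    by_cases h : π = ρ
    · subst h
      rw [if_pos rfl]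
      simp only [ee_mul_self]
      have h3 := (abs_le.1 (hN1 π hπ)).2
      have h4 : 0 ≤ b ^ 2 * (1 / (gn π : ℝ)) * (1 / (gn π : ℝ)) +
          8 * b * ((gn π : ℝ) * (gn π : ℝ)) := by positivity
      have h5 : b ^ 2 / (gn π : ℝ) = b ^ 2 * (1 / (gn π : ℝ)) := by ring
      rw [h5] at h3
      linarith
    · rw [if_neg h, add_zero]
      have hne' := (hE.2.2.2.2 π ρ (hS π hπ) (hS ρ hρ) h).1
      have hco : Nat.Coprime (gn π) (gn ρ) := (Nat.coprime_primes (hS π hπ).2.2 (hS ρ hρ).2.2).2 hne'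
      have hmul : gn (gm π ρ) = gn π * gn ρ := hE.1 π ρ
      have hnz : gm π ρ ≠ 0 := ne_zero_of_gn (by
        rw [hmul]
        exact Nat.mul_ne_zero (hS π hπ).2.2.ne_zero (hS ρ hρ).2.2.ne_zero)
      have h3 : ∑ v ∈ U3.bx (R : ℤ), ee π v * ee ρ v ≤ ∑ v ∈ U3.bx (R : ℤ), ee (gm π ρ) v :=
        Finset.sum_le_sum fun v _ => ee_mul_le hco v
      have h4 := (abs_le.1 (hC (gm π ρ) hnz R)).2
      have h5 : ∑ v ∈ U3.bx (R : ℤ), ee (gm π ρ) v ≤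
          b ^ 2 / ((gn π : ℝ) * (gn ρ : ℝ)) + 8 * ((gn π : ℝ) * (gn ρ : ℝ)) * b := by
        rw [hmul] at h4
        push_cast at h4
        unfold ee
        linarith
      have h6 : b ^ 2 / ((gn π : ℝ) * (gn ρ : ℝ)) = b ^ 2 * (1 / (gn π : ℝ)) * (1 / (gn ρ : ℝ)) := by
        field_simp
      rw [h6] at h5
      linarith
  -- expansion
  have hexp : ∀ v, (ω v - s) ^ 2 = ∑ π ∈ S, ∑ ρ ∈ S, ee π v * ee ρ v - 2 * s * ∑ π ∈ S, ee π v +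
      s ^ 2 := by
    intro v
    rw [← Finset.sum_mul_sum]
    have h1 : ω v = ∑ π ∈ S, ee π v := hω v
    rw [h1]
    ring
  have hsum : ∑ v ∈ U3.bx (R : ℤ), (ω v - s) ^ 2 =
      ∑ π ∈ S, ∑ ρ ∈ S, ∑ v ∈ U3.bx (R : ℤ), ee π v * ee ρ v -
        2 * s * ∑ π ∈ S, ∑ v ∈ U3.bx (R : ℤ), ee π v + b ^ 2 * s ^ 2 := by
    simp only [hexp]
    rw [Finset.sum_add_distrib, Finset.sum_sub_distrib, Finset.sum_const, nsmul_eq_mul, card_bx,
      ← Finset.mul_sum]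
    congr 2
    · rw [Finset.sum_comm]
      refine Finset.sum_congr rfl fun π _ => ?_
      rw [Finset.sum_comm]
    · rw [Finset.sum_comm]
  have hA : ∑ π ∈ S, ∑ ρ ∈ S, ∑ v ∈ U3.bx (R : ℤ), ee π v * ee ρ v ≤
      b ^ 2 * s ^ 2 + 8 * b * P ^ 2 + (b ^ 2 * s + 8 * b * P) := by
    have h1 : ∑ π ∈ S, ∑ ρ ∈ S, ∑ v ∈ U3.bx (R : ℤ), ee π v * ee ρ v ≤
        ∑ π ∈ S, ∑ ρ ∈ S, (b ^ 2 * (1 / (gn π : ℝ)) * (1 / (gn ρ : ℝ)) +
          8 * b * ((gn π : ℝ) * (gn ρ : ℝ)) +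
            if π = ρ then b ^ 2 * (1 / (gn π : ℝ)) + 8 * b * (gn π : ℝ) else 0) :=
      Finset.sum_le_sum fun π hπ => Finset.sum_le_sum fun ρ hρ => hN2 π hπ ρ hρ
    refine h1.trans (le_of_eq ?_)
    have h2 : ∀ π ∈ S, ∑ ρ ∈ S, (b ^ 2 * (1 / (gn π : ℝ)) * (1 / (gn ρ : ℝ)) +
          8 * b * ((gn π : ℝ) * (gn ρ : ℝ)) +
            if π = ρ then b ^ 2 * (1 / (gn π : ℝ)) + 8 * b * (gn π : ℝ) else 0) =
        b ^ 2 * s * (1 / (gn π : ℝ)) + 8 * b * P * (gn π : ℝ) +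
          (b ^ 2 * (1 / (gn π : ℝ)) + 8 * b * (gn π : ℝ)) := by
      intro π hπ
      rw [Finset.sum_add_distrib, Finset.sum_add_distrib, ← Finset.mul_sum, ← Finset.mul_sum,
        ← Finset.mul_sum, Finset.sum_ite_eq, if_pos hπ]
      ring
    rw [Finset.sum_congr rfl h2, Finset.sum_add_distrib, Finset.sum_add_distrib,
      Finset.sum_add_distrib, ← Finset.mul_sum, ← Finset.mul_sum, ← Finset.mul_sum,
      ← Finset.mul_sum]
    ring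
  have hB : b ^ 2 * s - 8 * b * P ≤ ∑ π ∈ S, ∑ v ∈ U3.bx (R : ℤ), ee π v := by
    have h1 : ∑ π ∈ S, (b ^ 2 * (1 / (gn π : ℝ)) - 8 * b * (gn π : ℝ)) ≤
        ∑ π ∈ S, ∑ v ∈ U3.bx (R : ℤ), ee π v := by
      refine Finset.sum_le_sum fun π hπ => ?_
      have h3 := (abs_le.1 (hN1 π hπ)).1
      have h5 : b ^ 2 / (gn π : ℝ) = b ^ 2 * (1 / (gn π : ℝ)) := by ring
      rw [h5] at h3
      linarith
    rw [Finset.sum_sub_distrib, ← Finset.mul_sum, ← Finset.mul_sum] at h1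
    exact h1
  rw [hsum]
  have h1 : 2 * s * (b ^ 2 * s - 8 * b * P) ≤
      2 * s * ∑ π ∈ S, ∑ v ∈ U3.bx (R : ℤ), ee π v :=
    mul_le_mul_of_nonneg_left hB (by positivity)
  have h2 : E * b ≤ s * b * b := mul_le_mul_of_nonneg_right hEb hb0.le
  have h3 : E * b = 8 * b * P + 8 * b * P ^ 2 + 16 * s * b * P := by
    rw [hEdef]
    ring
  nlinarith

end Pool.Agent.F0f91f8.HD
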