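import Pool.Agent.Work.MP_0f91f8_co.HD.Defs

/-!
# Half density, module D: definitions (captains helper7, helper83)

Pretentious functions: `f n = n^(it) g n` for `n ≡ 1` modulo `q`, `g` close to `1` at most primes.
-/

set_option autoImplicit false

namespace Pool.Agent.F0f91f8.HD

open Filter Topology ComplexConjugate
open scoped BigOperators

/-- completely multiplicative and at finite distance from `1` -/
structure G1 (g : ℕ → ℂ) : Prop where
  cm : CM g
  sm : Summable fun p : Nat.Primes => ‖1 - g p‖ ^ 2 / ((p : ℕ) : ℝ)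

/-- the decomposition of a pretentious function on the class `1` modulo `q` -/
structure Dec (f g : ℕ → ℂ) (t : ℝ) (q : ℕ) : Prop where
  hf : CM f
  hg : G1 g
  hq : 0 < q
  eq : ∀ n : ℕ, 0 < n → n % q = 1 % q → f n = (n : ℂ) ^ (t * Complex.I) * g n

/-- the part of `g n` at the primes `p` with `A < p ≤ B` -/
noncomputable def gP (g : ℕ → ℂ) (A B n : ℕ) : ℂ :=
  ∏ p ∈ n.primeFactors.filter (fun p => A < p ∧ p ≤ B), g p ^ n.factorization p

/-- the part of `g n` at the primes `p > A` -/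
noncomputable def gT (g : ℕ → ℂ) (A n : ℕ) : ℂ :=
  ∏ p ∈ n.primeFactors.filter (fun p => A < p), g p ^ n.factorization p

/-- the primes `p > K` with `p⁴ ≤ M` -/
def pr4 (K M : ℕ) : Finset ℕ := (Finset.range (M + 1)).filter fun p => p.Prime ∧ K < p ∧ p ^ 4 ≤ M

/-- the constant of concentration for linear forms -/
noncomputable def cL (g : ℕ → ℂ) (K M : ℕ) : ℂ := Complex.exp (∑ p ∈ pr4 K M, (g p - 1) / p)

/-- the constant of concentration for the norm form -/
noncomputable def cQ (g : ℕ → ℂ) (K M : ℕ) : ℂ :=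
  Complex.exp (∑ p ∈ (pr4 K M).filter (fun p => p % 4 = 1), 2 * (g p - 1) / p)

/-- the tail of the distance -/
noncomputable def tl (g : ℕ → ℂ) (K : ℕ) : ℝ :=
  ∑' p : Nat.Primes, if K < (p : ℕ) then ‖1 - g p‖ ^ 2 / ((p : ℕ) : ℝ) else 0

/-- the error of concentration -/
noncomputable def er (g : ℕ → ℂ) (K : ℕ) : ℝ := Real.sqrt (tl g K + 1 / (K : ℝ))

/-- the average of a real function, as `Bx` -/
noncomputable def BR (Q D a₀ M : ℕ) (G : ℕ → ℕ → ℝ) : ℝ :=
  (∑ u ∈ Finset.Icc 1 M, ∑ u' ∈ Finset.Icc 1 M, ∑ v ∈ Finset.Icc 1 (D * M),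
    ∑ v' ∈ Finset.Icc 1 (D * M), G (Q * (v + v') + a₀) (u + u')) /
      ((M : ℝ) ^ 2 * ((D * M : ℕ) : ℝ) ^ 2)

open Classical in
/-- indicator of: a prime `p > K` divides `a` and `n` -/
noncomputable def iGc (K a n : ℕ) : ℝ :=
  if ∃ p : ℕ, p.Prime ∧ K < p ∧ p ∣ a ∧ p ∣ n then 1 else 0

open Classical in
/-- indicator of: the square of a prime `p > w` divides `n` -/
noncomputable def iPq (w n : ℕ) : ℝ := if ∃ p : ℕ, p.Prime ∧ w < p ∧ p ^ 2 ∣ n then 1 else 0

/-- the average over `a` alone -/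
noncomputable def EA (Q D a₀ M : ℕ) (F : ℕ → ℂ) : ℂ :=
  (∑ v ∈ Finset.Icc 1 (D * M), ∑ v' ∈ Finset.Icc 1 (D * M), F (Q * (v + v') + a₀)) /
    ((D * M : ℕ) : ℂ) ^ 2

/-- the average over `n` alone -/
noncomputable def EN (M : ℕ) (F : ℕ → ℂ) : ℂ :=
  (∑ u ∈ Finset.Icc 1 M, ∑ u' ∈ Finset.Icc 1 M, F (u + u')) / (M : ℂ) ^ 2

/-- the average of `Bx` with the parameters of the family -/
noncomputable def BF (w K : ℕ) (e' : Fin (K + 1) → Fin K) (M : ℕ) (G : ℕ → ℕ → ℂ) : ℂ :=
  Bx w.factorial (DD w K) (inv0 w.factorial (kk w K e')) M G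

/-- the correlation `x, y` -/
noncomputable def CX (f : ℕ → ℂ) (w K : ℕ) (e : Fin (w + 1) → Fin K) (e' : Fin (K + 1) → Fin K)
    (M : ℕ) : ℂ :=
  BF w K e' M fun a n => f (tX (w.factorial * kp w K e) (kk w K e') a n) *
    conj (f (tY (w.factorial * kp w K e) (kk w K e') a n))

/-- the correlation `y, z` -/
noncomputable def CY (f : ℕ → ℂ) (w K : ℕ) (e : Fin (w + 1) → Fin K) (e' : Fin (K + 1) → Fin K)
    (M : ℕ) : ℂ :=
  BF w K e' M fun a n => f (tY (w.factorial * kp w K e) (kk w K e') a n) *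
    conj (f (tZ (w.factorial * kp w K e) (kk w K e') a n))

/-- the correlation `z, x` -/
noncomputable def CZ (f : ℕ → ℂ) (w K : ℕ) (e : Fin (w + 1) → Fin K) (e' : Fin (K + 1) → Fin K)
    (M : ℕ) : ℂ :=
  BF w K e' M fun a n => f (tZ (w.factorial * kp w K e) (kk w K e') a n) *
    conj (f (tX (w.factorial * kp w K e) (kk w K e') a n))

/-- main term of `CX` without the factor `f (kp w K e)` (it does not depend on `e`) -/
noncomputable def UX (f g : ℕ → ℂ) (t : ℝ) (w K : ℕ) (e' : Fin (K + 1) → Fin K) (M : ℕ) : ℂ :=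
  f (2 * w.factorial) * conj (g (kk w K e')) * (cL g K M * conj (cL g K M)) *
    BF w K e' M fun a n => f n * conj (((kk w K e' * a : ℕ) : ℂ) ^ (t * Complex.I)) * conj (g a)

/-- main term of `CZ` without the factor `conj (f (kp w K e))` (it does not depend on `e`) -/
noncomputable def UZ (f g : ℕ → ℂ) (t : ℝ) (w K : ℕ) (e' : Fin (K + 1) → Fin K) (M : ℕ) : ℂ :=
  conj (f (2 * w.factorial)) * (cQ g K M * conj (cL g K M)) *
    BF w K e' M fun a n => conj (f n) * ((kk w K e' * a : ℕ) : ℂ) ^ (t * Complex.I) * gP g w K n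

/-- main term of `CY` without the factor `g (kk w K e')` -/
noncomputable def VY (g : ℕ → ℂ) (w K : ℕ) (e' : Fin (K + 1) → Fin K) (M : ℕ) : ℂ :=
  cL g K M * conj (cQ g K M) * BF w K e' M fun a n => g a * conj (gP g w K n)

/-- the total error -/
noncomputable def eT (g : ℕ → ℂ) (t : ℝ) (w K : ℕ) : ℝ :=
  er g K + 1 / (w : ℝ) + (1 + |t|) / (K : ℝ)

end Pool.Agent.F0f91f8.HD
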