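import Pool.Agent.Work.MP_0f91f8_co.HD.StmtsD

/-!
# Half density, module D, item DAr: archimedean factors
-/

set_option autoImplicit false

namespace Pool.Agent.F0f91f8.HD

open Filter Topology ComplexConjugate
open scoped BigOperators

namespace IDAr

theorem cpow_eq {n : ℕ} (hn : 0 < n) (t : ℝ) :
    (n : ℂ) ^ (t * Complex.I) = Complex.exp (((t * Real.log n : ℝ) : ℂ) * Complex.I) := by
  have h : (n : ℂ) ≠ 0 := by exact_mod_cast hn.ne'
  rw [Complex.cpow_def_of_ne_zero h, ← Complex.natCast_log]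
  congr 1
  push_cast
  ring

theorem conj_exp (x : ℝ) :
    conj (Complex.exp ((x : ℂ) * Complex.I)) = Complex.exp (((-x : ℝ) : ℂ) * Complex.I) := by
  rw [← Complex.exp_conj]
  congr 1
  simp

theorem exp_mul (x y : ℝ) : Complex.exp ((x : ℂ) * Complex.I) * Complex.exp ((y : ℂ) * Complex.I) =
    Complex.exp (((x + y : ℝ) : ℂ) * Complex.I) := by
  rw [← Complex.exp_add]
  congr 1
  push_cast
  ring

theorem exp_sub (x y : ℝ) : ‖Complex.exp ((x : ℂ) * Complex.I) - Complex.exp ((y : ℂ) * Complex.I)‖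
    ≤ |x - y| := by
  have h1 : Complex.exp ((x : ℂ) * Complex.I) - Complex.exp ((y : ℂ) * Complex.I) =
      Complex.exp ((y : ℂ) * Complex.I) * (Complex.exp (Complex.I * ((x - y : ℝ) : ℂ)) - 1) := by
    rw [mul_sub, mul_one, ← Complex.exp_add]
    congr 2
    push_cast
    ring
  rw [h1, norm_mul, Complex.norm_exp_ofReal_mul_I, one_mul]
  exact Real.norm_exp_I_mul_ofReal_sub_one_le

theorem log_sub {x y : ℝ} (hx : 0 < x) (hxy : x ≤ y) :
    0 ≤ Real.log y - Real.log x ∧ Real.log y - Real.log x ≤ (y - x) / x := by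
  have hy : 0 < y := hx.trans_le hxy
  refine ⟨sub_nonneg.2 (Real.log_le_log hx hxy), ?_⟩
  rw [← Real.log_div hy.ne' hx.ne']
  have h := Real.log_le_sub_one_of_pos (div_pos hy hx)
  rw [sub_div, div_self hx.ne']
  exact h

end IDAr

open IDAr in
theorem pr_DAr : StDAr := by
  intro t K κ k a n hK hκ hk ha hn hle
  have hK0 : (0 : ℝ) < K := by exact_mod_cast hK
  have hK1 : (1 : ℝ) ≤ K := by exact_mod_cast hK
  have hA : 0 < k * a := Nat.mul_pos hk ha
  have hB : 0 < κ * n := Nat.mul_pos hκ hn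
  have hm : 0 < k * a + κ * n := by omega
  have hm' : 0 < k * a + 2 * (κ * n) := by omega
  have hz : 0 < tZ κ k a n := by
    unfold tZ
    positivity
  set A : ℝ := ((k * a : ℕ) : ℝ) with hAdef
  set B : ℝ := ((κ * n : ℕ) : ℝ) with hBdef
  have hA0 : 0 < A := Nat.cast_pos.2 hA
  have hB0 : 0 < B := Nat.cast_pos.2 hB
  have hBA : K * B ≤ 2 * A := by
    rw [hAdef, hBdef]
    exact_mod_cast hle
  have e1 : ((k * a + κ * n : ℕ) : ℝ) = A + B := by
    rw [hAdef, hBdef]
    push_cast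
    ring
  have e2 : ((k * a + 2 * (κ * n) : ℕ) : ℝ) = A + 2 * B := by
    rw [hAdef, hBdef]
    push_cast
    ring
  have e3 : ((tZ κ k a n : ℕ) : ℝ) = (A + B) ^ 2 + B ^ 2 := by
    rw [hAdef, hBdef]
    unfold tZ
    push_cast
    ring
  have hq : B / A ≤ 2 / K := by
    rw [div_le_div_iff₀ hA0 hK0]
    linarith
  have h1 := log_sub hA0 (by linarith : A ≤ A + B)
  have h2 := log_sub (by linarith : 0 < A + B) (by linarith : A + B ≤ A + 2 * B)
  have h3 := log_sub (by positivity : 0 < (A + B) ^ 2)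
    (by nlinarith : (A + B) ^ 2 ≤ (A + B) ^ 2 + B ^ 2)
  have h4 : Real.log ((A + B) ^ 2) = 2 * Real.log (A + B) := by
    rw [Real.log_pow]
    norm_num
  rw [h4] at h3
  have b1 : Real.log (A + B) - Real.log A ≤ 2 / K := by
    refine h1.2.trans (le_trans (le_of_eq ?_) hq)
    ring
  have hBAB : B / (A + B) ≤ B / A := div_le_div_of_nonneg_left hB0.le hA0 (by linarith)
  have b2 : Real.log (A + 2 * B) - Real.log (A + B) ≤ 2 / K := by
    refine h2.2.trans (le_trans (le_of_eq ?_) (hBAB.trans hq))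
    ring
  have b3 : Real.log ((A + B) ^ 2 + B ^ 2) - 2 * Real.log (A + B) ≤ 4 / K := by
    have h5 : ((A + B) ^ 2 + B ^ 2 - (A + B) ^ 2) / (A + B) ^ 2 = (B / (A + B)) ^ 2 := by
      rw [div_pow]
      ring
    rw [h5] at h3
    have h6 : (B / (A + B)) ^ 2 ≤ (2 / K) ^ 2 :=
      pow_le_pow_left₀ (by positivity) (hBAB.trans hq) 2
    have h7 : (2 / (K : ℝ)) ^ 2 ≤ 4 / K := by
      rw [div_pow, div_le_div_iff₀ (by positivity) hK0]
      nlinarith
    linarith [h3.2]
  have hd : 2 / (K : ℝ) + 2 / K + 4 / K = 8 / K := by ring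
  have ht : ∀ x : ℝ, |x| ≤ 8 / K → |t| * |x| ≤ 10 * |t| / K := by
    intro x hx
    have h8 : 10 * |t| / K = |t| * (10 / K) := by ring
    rw [h8]
    refine mul_le_mul_of_nonneg_left (hx.trans ?_) (abs_nonneg t)
    exact div_le_div_of_nonneg_right (by norm_num) hK0.le
  have p2 : 0 < 2 / (K : ℝ) := by positivity
  have p4 : 0 < 4 / (K : ℝ) := by positivity
  rw [cpow_eq hm, cpow_eq hA, cpow_eq hm', cpow_eq hz]
  simp only [conj_exp, exp_mul]
  rw [e1, e2, e3]
  refine ⟨?_, ?_, ?_⟩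
  · refine (exp_sub _ _).trans ?_
    have e : t * Real.log (A + B) + -(t * Real.log A) + -(t * Real.log (A + 2 * B)) -
        -(t * Real.log A) = t * (Real.log (A + B) - Real.log (A + 2 * B)) := by ring
    rw [e, abs_mul]
    refine ht _ ?_
    rw [abs_le]
    constructor <;> linarith [h2.1]
  · refine (exp_sub _ _).trans ?_
    have e : t * Real.log ((A + B) ^ 2 + B ^ 2) + -(t * Real.log (A + B)) - t * Real.log A =
        t * ((Real.log ((A + B) ^ 2 + B ^ 2) - 2 * Real.log (A + B)) +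
          (Real.log (A + B) - Real.log A)) := by ring
    rw [e, abs_mul]
    refine ht _ ?_
    rw [abs_le]
    constructor <;> linarith [h1.1, h3.1]
  · have e0 : (1 : ℂ) = Complex.exp (((0 : ℝ) : ℂ) * Complex.I) := by simp
    rw [e0]
    refine (exp_sub _ _).trans ?_
    have e : t * Real.log A + t * Real.log (A + 2 * B) + -(t * Real.log ((A + B) ^ 2 + B ^ 2)) -
        0 = t * ((Real.log (A + 2 * B) - Real.log (A + B)) - (Real.log (A + B) - Real.log A) -
          (Real.log ((A + B) ^ 2 + B ^ 2) - 2 * Real.log (A + B))) := by ring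
    rw [e, abs_mul]
    refine ht _ ?_
    rw [abs_le]
    constructor <;> linarith [h1.1, h2.1, h3.1]

end Pool.Agent.F0f91f8.HD
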