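import Pool.Agent.Work.MP_0f91f8_co.HD.StmtsD

/-!
# Item DKp of the block HD (MP_0f91f8_co): averages over the exponents
-/

set_option autoImplicit false

namespace Pool.Agent.F0f91f8.HD

open Filter Topology ComplexConjugate
open scoped BigOperators

namespace IDKp

/-- a product structure: the average over all exponent vectors -/
theorem gen (N K : ℕ) (hK : 1 ≤ K) (h : Fin N → Fin K → ℂ) (hh : ∀ i j, ‖h i j‖ ≤ 1)
    (i0 : Fin N) (B : ℝ) (hB : ‖∑ j, h i0 j‖ ≤ B) :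
    ‖(∑ e : Fin N → Fin K, ∏ i, h i (e i)) / (K : ℂ) ^ N‖ ≤ B / K := by
  have hKpos : (0 : ℝ) < K := by exact_mod_cast hK
  have h1 : (∑ e : Fin N → Fin K, ∏ i, h i (e i)) = ∏ i, ∑ j, h i j := by
    rw [Finset.prod_univ_sum, Fintype.piFinset_univ]
  have h2 : (∏ i, ∑ j, h i j) / (K : ℂ) ^ N = ∏ i, ((∑ j, h i j) / (K : ℂ)) := by
    rw [Finset.prod_div_distrib, Finset.prod_const, Finset.card_univ, Fintype.card_fin]
  rw [h1, h2, norm_prod, ← Finset.mul_prod_erase Finset.univ _ (Finset.mem_univ i0)]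
  have h3 : ∀ i, ‖(∑ j, h i j) / (K : ℂ)‖ ≤ 1 := by
    intro i
    rw [norm_div, Complex.norm_natCast, div_le_one hKpos]
    calc ‖∑ j, h i j‖ ≤ ∑ j, ‖h i j‖ := norm_sum_le _ _
      _ ≤ ∑ _j : Fin K, (1 : ℝ) := Finset.sum_le_sum fun j _ => hh i j
      _ = K := by simp
  have h4 : ‖(∑ j, h i0 j) / (K : ℂ)‖ ≤ B / K := by
    rw [norm_div, Complex.norm_natCast]
    exact div_le_div_of_nonneg_right hB hKpos.le
  have h5 : (∏ i ∈ Finset.univ.erase i0, ‖(∑ j, h i j) / (K : ℂ)‖) ≤ 1 :=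
    Finset.prod_le_one (fun i _ => norm_nonneg _) (fun i _ => h3 i)
  have h6 : 0 ≤ (∏ i ∈ Finset.univ.erase i0, ‖(∑ j, h i j) / (K : ℂ)‖) :=
    Finset.prod_nonneg fun i _ => norm_nonneg _
  have hBK : 0 ≤ B / K := le_trans (norm_nonneg _) h4
  calc ‖(∑ j, h i0 j) / (K : ℂ)‖ * (∏ i ∈ Finset.univ.erase i0, ‖(∑ j, h i j) / (K : ℂ)‖)
      ≤ (B / K) * 1 := mul_le_mul h4 h5 h6 hBK
    _ = B / K := mul_one _

/-- geometric sums on the unit circle -/
theorem geo (z : ℂ) (hz : ‖z‖ = 1) (hz1 : z ≠ 1) (K : ℕ) :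
    ‖∑ j : Fin K, z ^ (j : ℕ)‖ ≤ 2 / ‖1 - z‖ := by
  have h1 : (∑ j : Fin K, z ^ (j : ℕ)) = ∑ j ∈ Finset.range K, z ^ j :=
    Fin.sum_univ_eq_sum_range (fun j => z ^ j) K
  rw [h1, geom_sum_eq hz1, norm_div, norm_sub_rev z 1]
  apply div_le_div_of_nonneg_right _ (norm_nonneg _)
  calc ‖z ^ K - 1‖ ≤ ‖z ^ K‖ + ‖(1 : ℂ)‖ := norm_sub_le _ _
    _ = 2 := by rw [norm_pow, hz, one_pow, norm_one]; norm_num

/-- a function in `CM` as a monoid homomorphism -/
theorem hom (f : ℕ → ℂ) (hf : CM f) : ∃ F : ℕ →* ℂ, ∀ n, F n = f n := by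
  have h1 : f 1 = 1 := by
    have h := hf.2.1 1 1
    rw [mul_one] at h
    have hne : f 1 ≠ 0 := by
      intro h0
      have := hf.2.2 1 one_pos
      rw [h0, norm_zero] at this
      exact zero_ne_one this
    exact (mul_right_cancel₀ hne (by rw [one_mul]; exact h)).symm
  exact ⟨⟨⟨f, h1⟩, hf.2.1⟩, fun n => rfl⟩

end IDKp

theorem pr_DKp : StDKp := by
  intro f hf w K p hK hp hfp
  obtain ⟨F, hF⟩ := IDKp.hom f hf
  have hn : ∀ q : ℕ, q.Prime → ‖f q‖ = 1 := fun q hq => hf.2.2 q hq.pos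
  have hB : 2 / (K * ‖1 - f p‖) = (2 / ‖1 - f p‖) / K := by
    rw [div_div, mul_comm]
  constructor
  · intro hpw
    obtain ⟨h, hh⟩ : ∃ h : Fin (w + 1) → Fin K → ℂ, ∀ i j, h i j =
      (if (i : ℕ).Prime then f i ^ (j : ℕ) else 1) := ⟨fun i j => _, fun i j => rfl⟩
    have h1 : (∑ e : Fin (w + 1) → Fin K, f (kp w K e)) = ∑ e : Fin (w + 1) → Fin K,
        ∏ i, h i (e i) := by
      apply Finset.sum_congr rfl
      intro e _
      unfold kp
      rw [← hF, map_prod]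
      apply Finset.prod_congr rfl
      intro i _
      rw [hh]
      by_cases hi : (i : ℕ).Prime
      · rw [if_pos hi, if_pos hi, map_pow, hF]
      · rw [if_neg hi, if_neg hi, map_one]
    rw [h1, hB]
    apply IDKp.gen (w + 1) K hK h _ ⟨p, by omega⟩ _ _
    · intro i j
      rw [hh]
      by_cases hi : (i : ℕ).Prime
      · rw [if_pos hi, norm_pow, hn _ hi, one_pow]
      · rw [if_neg hi, norm_one]
    · have h2 : (∑ j : Fin K, h ⟨p, by omega⟩ j) = ∑ j : Fin K, f p ^ (j : ℕ) := by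
        apply Finset.sum_congr rfl
        intro j _
        rw [hh]
        exact if_pos hp
      rw [h2]
      exact IDKp.geo (f p) (hn p hp) hfp K
  · intro hwp hpK
    obtain ⟨h, hh⟩ : ∃ h : Fin (K + 1) → Fin K → ℂ, ∀ i j, h i j =
      (if (i : ℕ).Prime ∧ w < (i : ℕ) then f i ^ ((j : ℕ) + 2) else 1) :=
      ⟨fun i j => _, fun i j => rfl⟩
    have h1 : (∑ e : Fin (K + 1) → Fin K, f (kk w K e)) = ∑ e : Fin (K + 1) → Fin K,
        ∏ i, h i (e i) := by
      apply Finset.sum_congr rfl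
      intro e _
      unfold kk
      rw [← hF, map_prod]
      apply Finset.prod_congr rfl
      intro i _
      rw [hh]
      by_cases hi : (i : ℕ).Prime ∧ w < (i : ℕ)
      · rw [if_pos hi, if_pos hi, map_pow, hF]
      · rw [if_neg hi, if_neg hi, map_one]
    rw [h1, hB]
    apply IDKp.gen (K + 1) K hK h _ ⟨p, by omega⟩ _ _
    · intro i j
      rw [hh]
      by_cases hi : (i : ℕ).Prime ∧ w < (i : ℕ)
      · rw [if_pos hi, norm_pow, hn _ hi.1, one_pow]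
      · rw [if_neg hi, norm_one]
    · have h2 : (∑ j : Fin K, h ⟨p, by omega⟩ j) = f p ^ 2 * ∑ j : Fin K, f p ^ (j : ℕ) := by
        rw [Finset.mul_sum]
        apply Finset.sum_congr rfl
        intro j _
        rw [hh, if_pos (show ((⟨p, by omega⟩ : Fin (K + 1)) : ℕ).Prime ∧
          w < ((⟨p, by omega⟩ : Fin (K + 1)) : ℕ) from ⟨hp, hwp⟩)]
        show f p ^ ((j : ℕ) + 2) = f p ^ 2 * f p ^ (j : ℕ)
        ring
      rw [h2, norm_mul, norm_pow, hn p hp, one_pow, one_mul]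
      exact IDKp.geo (f p) (hn p hp) hfp K

end Pool.Agent.F0f91f8.HD
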