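import Pool.Agent.Work.MP_0f91f8_co.HD.StmtsD

/-!
# Half density, module D, item DOn: the trivial function
-/

set_option autoImplicit false

namespace Pool.Agent.F0f91f8.HD

open Filter Topology ComplexConjugate
open scoped BigOperators

namespace IDOn

/-- nonnegative real numbers in the complex plane -/
def NN (z : ℂ) : Prop := ∃ a : ℝ, 0 ≤ a ∧ z = (a : ℂ)

theorem NN_add {z w : ℂ} (hz : NN z) (hw : NN w) : NN (z + w) := by
  obtain ⟨a, ha, rfl⟩ := hz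
  obtain ⟨b, hb, rfl⟩ := hw
  exact ⟨a + b, add_nonneg ha hb, by push_cast; rfl⟩

theorem NN_zero : NN 0 := ⟨0, le_rfl, by simp⟩

theorem NN_one : NN 1 := ⟨1, zero_le_one, by simp⟩

theorem NN_mul {z w : ℂ} (hz : NN z) (hw : NN w) : NN (z * w) := by
  obtain ⟨a, ha, rfl⟩ := hz
  obtain ⟨b, hb, rfl⟩ := hw
  exact ⟨a * b, mul_nonneg ha hb, by push_cast; rfl⟩

theorem NN_div {z w : ℂ} (hz : NN z) (hw : NN w) : NN (z / w) := by
  obtain ⟨a, ha, rfl⟩ := hz
  obtain ⟨b, hb, rfl⟩ := hw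
  exact ⟨a / b, div_nonneg ha hb, by push_cast; rfl⟩

theorem NN_nat (n : ℕ) : NN (n : ℂ) := ⟨n, Nat.cast_nonneg n, by simp⟩

theorem NN_pow {z : ℂ} (hz : NN z) (n : ℕ) : NN (z ^ n) := by
  obtain ⟨a, ha, rfl⟩ := hz
  exact ⟨a ^ n, pow_nonneg ha n, by push_cast; rfl⟩

theorem NN_conj {z : ℂ} (hz : NN z) : NN (conj z) := by
  obtain ⟨a, ha, rfl⟩ := hz
  exact ⟨a, ha, Complex.conj_ofReal a⟩

theorem NN_sum {ι : Type*} (s : Finset ι) (f : ι → ℂ) (h : ∀ i ∈ s, NN (f i)) :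
    NN (∑ i ∈ s, f i) :=
  Finset.sum_induction f NN (fun _ _ => NN_add) NN_zero h

theorem NN_Bx (Q D a₀ M : ℕ) (G : ℕ → ℕ → ℂ) (h : ∀ a n, NN (G a n)) : NN (Bx Q D a₀ M G) := by
  unfold Bx
  refine NN_div ?_ (NN_mul (NN_pow (NN_nat _) _) (NN_pow (NN_nat _) _))
  exact NN_sum _ _ fun _ _ => NN_sum _ _ fun _ _ => NN_sum _ _ fun _ _ => NN_sum _ _ fun _ _ =>
    h _ _

theorem NN_Av (w K M : ℕ) (Φ : ℕ → ℕ → ℕ → ℂ) (h : ∀ x y z, NN (Φ x y z)) : NN (Av w K M Φ) := by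
  unfold Av
  refine NN_div ?_ (NN_mul (NN_pow (NN_nat _) _) (NN_pow (NN_nat _) _))
  exact NN_sum _ _ fun _ _ => NN_sum _ _ fun _ _ => NN_Bx _ _ _ _ _ fun _ _ => h _ _ _

theorem f_one (f : ℕ → ℂ) (hf : CM f) (hp : ∀ p : ℕ, p.Prime → f p = 1) (n : ℕ) (hn : 0 < n) :
    f n = 1 := by
  induction n using Nat.strong_induction_on with
  | _ n ih =>
    rcases Nat.lt_or_ge 1 n with h1 | h1
    · have hpr := Nat.minFac_prime (by omega : n ≠ 1)
      obtain ⟨m, hm⟩ := Nat.minFac_dvd n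
      have hm0 : 0 < m := by
        rcases Nat.eq_zero_or_pos m with h | h
        · rw [h, mul_zero] at hm
          omega
        · exact h
      have hlt : m < n := by
        have := hpr.two_le
        nlinarith
      rw [hm, hf.2.1, hp _ hpr, ih m hlt hm0, one_mul]
    · have hn1 : n = 1 := by omega
      subst hn1
      have h2 := hf.2.1 1 1
      have h3 := hf.2.2 1 one_pos
      have h4 : f 1 ≠ 0 := by
        intro h
        rw [h, norm_zero] at h3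
        exact zero_ne_one h3
      have h5 : f 1 * f 1 = f 1 * 1 := by
        rw [← h2, mul_one]
        simp
      exact mul_left_cancel₀ h4 h5

theorem NN_f (f : ℕ → ℂ) (hf : CM f) (hp : ∀ p : ℕ, p.Prime → f p = 1) (n : ℕ) : NN (f n) := by
  rcases Nat.eq_zero_or_pos n with h | h
  · rw [h, hf.1]
    exact NN_zero
  · rw [f_one f hf hp n h]
    exact NN_one

end IDOn

/-- Item DOn. -/
theorem pr_DOn : StDOn := by
  intro f hf hp ε hε
  refine ⟨0, fun w _ => ⟨0, fun K _ => ⟨0, fun M _ => ?_⟩⟩⟩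
  have h : IDOn.NN (Av w K M (pc f)) := by
    refine IDOn.NN_Av w K M _ fun x y z => ?_
    unfold pc
    have hn := IDOn.NN_f f hf hp
    exact IDOn.NN_add (IDOn.NN_add (IDOn.NN_mul (hn x) (IDOn.NN_conj (hn y)))
      (IDOn.NN_mul (hn y) (IDOn.NN_conj (hn z)))) (IDOn.NN_mul (hn z) (IDOn.NN_conj (hn x)))
  obtain ⟨a, ha, h1⟩ := h
  rw [h1, Complex.ofReal_re]
  linarith

end Pool.Agent.F0f91f8.HD
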