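import Pool.Agent.Work.MP_0f91f8_co.HD.StmtsD2

/-!
# Half density, module D, item DZm: the correlation of `z` and `x`
-/

set_option autoImplicit false

namespace Pool.Agent.F0f91f8.HD

open Filter Topology ComplexConjugate
open scoped BigOperators

namespace IDZm

lemma mono (Q D a₀ M : ℕ) (F G : ℕ → ℕ → ℝ)
    (h : ∀ b n, 0 < b → 0 < n → F (Q * b + a₀) n ≤ G (Q * b + a₀) n) :
    BR Q D a₀ M F ≤ BR Q D a₀ M G := by
  unfold BR
  refine div_le_div_of_nonneg_right ?_ (by positivity)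
  refine Finset.sum_le_sum fun u hu => Finset.sum_le_sum fun u' hu' =>
    Finset.sum_le_sum fun v hv => Finset.sum_le_sum fun v' hv' => ?_
  rw [Finset.mem_Icc] at hu hu' hv hv'
  exact h (v + v') (u + u') (by omega) (by omega)

lemma DD_pos {w K : ℕ} (hK : 1 ≤ K) : 0 < DD w K := by
  unfold DD
  have := Nat.factorial_pos w
  positivity

/-- the average of a bound of the form of `StDPZ` -/
lemma five (hBx : StDBx) (Q D a₀ M : ℕ) (hD : 0 < D) (hM : 0 < M) (c x1 x2 x3 x4 : ℝ)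
    (I P N1 N2 : ℕ → ℕ → ℝ) (h1 : BR Q D a₀ M I ≤ x1) (h2 : BR Q D a₀ M P ≤ x2)
    (h3 : BR Q D a₀ M N1 ≤ x3) (h4 : BR Q D a₀ M N2 ≤ x4) :
    BR Q D a₀ M (fun a n => c + 2 * I a n + 2 * P a n + N1 a n + N2 a n) ≤
      c + 2 * x1 + 2 * x2 + x3 + x4 := by
  obtain ⟨-, -, -, -, hadd, hmul, hone⟩ := hBx Q D a₀ M
  have e0 : BR Q D a₀ M (fun _ _ => c) = c := by
    have := hmul c (fun _ _ => 1)
    rw [(hone hD hM).2, mul_one] at this
    simpa only [mul_one] using this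
  have e1 : BR Q D a₀ M (fun a n => c + 2 * I a n + 2 * P a n + N1 a n + N2 a n) =
      c + 2 * BR Q D a₀ M I + 2 * BR Q D a₀ M P + BR Q D a₀ M N1 + BR Q D a₀ M N2 := by
    rw [hadd (fun a n => c + 2 * I a n + 2 * P a n + N1 a n) N2,
      hadd (fun a n => c + 2 * I a n + 2 * P a n) N1,
      hadd (fun a n => c + 2 * I a n) (fun a n => 2 * P a n),
      hadd (fun _ _ => c) (fun a n => 2 * I a n), hmul 2 P, hmul 2 I, e0]
  rw [e1]
  linarith

/-- one choice of the exponents -/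
lemma one (hPZ : StDPZ) (hBx : StDBx) (hSz : StDSz) (hMd : StDMd) (C1 C2 : ℝ)
    (f g : ℕ → ℂ) (t : ℝ) (q : ℕ) (hDec : Dec f g t q) (w K : ℕ) (hw : 2 ≤ w) (hK : w ≤ K)
    (hq : q ∣ w.factorial) (η : ℝ) (e : Fin (w + 1) → Fin K) (e' : Fin (K + 1) → Fin K) (M : ℕ)
    (hM : 0 < M)
    (hPq : (BR w.factorial (DD w K) (inv0 w.factorial (kk w K e')) M fun _ n => iPq w n) ≤
      1 / (w : ℝ) + η)
    (hL : (BR w.factorial (DD w K) (inv0 w.factorial (kk w K e')) M fun a n =>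
      ‖gT g K (kk w K e' * a + w.factorial * kp w K e * n) - cL g K M‖) ≤
        C1 * er g K + η)
    (hQ : (BR w.factorial (DD w K) (inv0 w.factorial (kk w K e')) M fun a n =>
      ‖gT g K (tZ (w.factorial * kp w K e) (kk w K e') a n) - cQ g K M‖) ≤
        C2 * er g K + η) :
    ‖CZ f w K e e' M - conj (f (kp w K e)) * UZ f g t w K e' M‖ ≤
      10 * |t| / K + 2 * (1 / (K : ℝ)) + 2 * (1 / (w : ℝ) + η) + (C2 * er g K + η) +
        (C1 * er g K + η) := by
  have hK1 : 1 ≤ K := by omega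
  have hDp : 0 < DD w K := DD_pos hK1
  obtain ⟨-, hk0, -, -, -, -⟩ := hMd w K e e' hK
  have hSz' := hSz w K e (kk w K e') M (inv0 w.factorial (kk w K e')) hK1 hM hk0
  have hbx := hBx w.factorial (DD w K) (inv0 w.factorial (kk w K e')) M
  have hpos : ∀ b, 0 < b → 0 < w.factorial * b + inv0 w.factorial (kk w K e') := fun b hb =>
    Nat.add_pos_left (Nat.mul_pos (Nat.factorial_pos w) hb) _
  have e1 : CZ f w K e e' M - conj (f (kp w K e)) * UZ f g t w K e' M =
        Bx w.factorial (DD w K) (inv0 w.factorial (kk w K e')) M (fun a n =>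
          f (tZ (w.factorial * kp w K e) (kk w K e') a n) *
            conj (f (tX (w.factorial * kp w K e) (kk w K e') a n)) +
          -1 * (conj (f (kp w K e)) * (conj (f (2 * w.factorial)) * (cQ g K M * conj (cL g K M))) *
            (conj (f n) * ((kk w K e' * a : ℕ) : ℂ) ^ (t * Complex.I) * gP g w K n))) := by
    rw [hbx.1 (fun a n => f (tZ (w.factorial * kp w K e) (kk w K e') a n) *
            conj (f (tX (w.factorial * kp w K e) (kk w K e') a n)))
          (fun a n => -1 * (conj (f (kp w K e)) * (conj (f (2 * w.factorial)) *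
            (cQ g K M * conj (cL g K M))) *
            (conj (f n) * ((kk w K e' * a : ℕ) : ℂ) ^ (t * Complex.I) * gP g w K n))),
        hbx.2.1 (-1) (fun a n => conj (f (kp w K e)) * (conj (f (2 * w.factorial)) *
            (cQ g K M * conj (cL g K M))) *
            (conj (f n) * ((kk w K e' * a : ℕ) : ℂ) ^ (t * Complex.I) * gP g w K n)),
        hbx.2.1 (conj (f (kp w K e)) * (conj (f (2 * w.factorial)) * (cQ g K M * conj (cL g K M))))
          (fun a n => conj (f n) * ((kk w K e' * a : ℕ) : ℂ) ^ (t * Complex.I) * gP g w K n)]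
    unfold CZ UZ BF
    ring
  rw [e1]
  refine (hbx.2.2.1 _).trans ?_
  refine le_trans ?_ (five hBx w.factorial (DD w K) (inv0 w.factorial (kk w K e')) M hDp hM
      (10 * |t| / K) _ _ _ _ _ _ _ _ hSz' hPq hQ hL)
  refine mono _ _ _ _ _ _ fun b n hb hn => ?_
  have h1 := hPZ f g t q hDec w K hw hK hq e e' M _ b n rfl (hpos b hb) hn
  refine le_trans (le_of_eq ?_) h1
  congr 1
  ring

end IDZm

/-- Item DZm. -/
theorem pr_DZm (hPZ : StDPZ) (hBx : StDBx) (hSz : StDSz) (hPq : StDPq) (hLm : StDLm)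
    (hQd : StDQd) (hMd : StDMd) : StDZm := by
  obtain ⟨C1, hC1, hL⟩ := hLm
  obtain ⟨C2, hC2, hQ⟩ := hQd
  refine ⟨10 + C1 + C2, by positivity, ?_⟩
  intro f g t q hDec w K hw hK hq η hη
  have hK1 : 1 ≤ K := by omega
  have hη4 : 0 < η / 4 := by positivity
  have hDp : 0 < DD w K := IDZm.DD_pos hK1
  have hQ0 : 0 < w.factorial := Nat.factorial_pos w
  obtain ⟨M0, hM0⟩ := hPq w (by omega) (η / 4) hη4
  have hL' : ∀ (e : Fin (w + 1) → Fin K) (e' : Fin (K + 1) → Fin K), ∃ M1 : ℕ, ∀ M ≥ M1,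
      (BR w.factorial (DD w K) (inv0 w.factorial (kk w K e')) M fun a n =>
        ‖gT g K (kk w K e' * a + w.factorial * kp w K e * n) - cL g K M‖) ≤
          C1 * er g K + η / 4 := by
    intro e e'
    obtain ⟨-, hk0, hp0, hi, hpr, -⟩ := hMd w K e e' hK
    obtain ⟨M1, hM1⟩ := hL g hDec.hg K (w.factorial * kp w K e) (kk w K e') w.factorial (DD w K)
      (by omega) (Nat.mul_pos hQ0 hp0) hk0 hQ0 hDp (fun p hp hd => hpr p hp (hd.trans (by
        refine ⟨kk w K e', ?_⟩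
        ring))) (η / 4) hη4
    exact ⟨M1, fun M hM => (hM1 M hM _ hi).2.1⟩
  have hQ' : ∀ (e : Fin (w + 1) → Fin K) (e' : Fin (K + 1) → Fin K), ∃ M1 : ℕ, ∀ M ≥ M1,
      (BR w.factorial (DD w K) (inv0 w.factorial (kk w K e')) M fun a n =>
        ‖gT g K (tZ (w.factorial * kp w K e) (kk w K e') a n) - cQ g K M‖) ≤
          C2 * er g K + η / 4 := by
    intro e e'
    obtain ⟨-, hk0, hp0, hi, hpr, -⟩ := hMd w K e e' hK
    obtain ⟨M1, hM1⟩ := hQ g hDec.hg K (w.factorial * kp w K e) (kk w K e') w.factorial (DD w K)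
      (by omega) (Nat.mul_pos hQ0 hp0) hk0 hQ0 hDp hpr (η / 4) hη4
    exact ⟨M1, fun M hM => hM1 M hM _ hi⟩
  choose M1 hM1 using hL'
  choose M2 hM2 using hQ'
  refine ⟨M0 + 1 + (∑ e, ∑ e', M1 e e') + ∑ e, ∑ e', M2 e e', fun M hM e e' => ?_⟩
  have s1 : M1 e e' ≤ ∑ e, ∑ e', M1 e e' :=
    (Finset.single_le_sum (f := fun e' => M1 e e') (fun _ _ => Nat.zero_le _)
      (Finset.mem_univ e')).trans
      (Finset.single_le_sum (f := fun e => ∑ e', M1 e e') (fun _ _ => Nat.zero_le _)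
        (Finset.mem_univ e))
  have s2 : M2 e e' ≤ ∑ e, ∑ e', M2 e e' :=
    (Finset.single_le_sum (f := fun e' => M2 e e') (fun _ _ => Nat.zero_le _)
      (Finset.mem_univ e')).trans
      (Finset.single_le_sum (f := fun e => ∑ e', M2 e e') (fun _ _ => Nat.zero_le _)
        (Finset.mem_univ e))
  have hmain := IDZm.one hPZ hBx hSz hMd C1 C2 f g t q hDec w K hw hK hq (η / 4) e e' M (by omega)
    (hM0 M (by omega) _ _ _ hDp) (hM1 e e' M (by omega)) (hM2 e e' M (by omega))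
  have hKr : (0 : ℝ) < K := by exact_mod_cast (by omega : 0 < K)
  have hwr : (0 : ℝ) < w := by exact_mod_cast (by omega : 0 < w)
  have her : 0 ≤ er g K := Real.sqrt_nonneg _
  have ht : 0 ≤ |t| := abs_nonneg t
  have b1 : 10 * |t| / K + 2 * (1 / (K : ℝ)) ≤ 10 * ((1 + |t|) / K) := by
    rw [← sub_nonneg]
    have : 10 * ((1 + |t|) / K) - (10 * |t| / K + 2 * (1 / (K : ℝ))) = 8 / K := by ring
    rw [this]
    positivity
  have b2 : 0 ≤ (1 + |t|) / (K : ℝ) := by positivity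
  have b3 : 0 ≤ 1 / (w : ℝ) := by positivity
  refine hmain.trans ?_
  unfold eT
  nlinarith [mul_nonneg hC1.le b3, mul_nonneg hC2.le b3, mul_nonneg hC1.le b2,
    mul_nonneg hC2.le b2, mul_nonneg hC1.le her, mul_nonneg hC2.le her]

end Pool.Agent.F0f91f8.HD
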