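import Pool.Agent.Work.MP_0f91f8_co.HD.Defs

/-!
# Half density, module A: aperiodic completely multiplicative functions are U^3 uniform

Every item is an independent `Prop`; its docstring is its complete proof.  To prove item `X` write
`HD/A_X.lean` with `theorem pr_X : StX` (or `(h : StY) : StX` if the docstring says that item `Y`
is used).
-/

set_option autoImplicit false

namespace Pool.Agent.F0f91f8.HD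

open Filter Topology ComplexConjugate
open scoped BigOperators Pointwise

/-- normalised Fourier coefficient on `ZMod P` -/
noncomputable def hat {P : ℕ} [NeZero P] (F : ZMod P → ℂ) (ξ : ZMod P) : ℂ :=
  (∑ x : ZMod P, F x * ZMod.stdAddChar (-(ξ * x))) / (P : ℂ)

/-- the graph of `θ` over `H` -/
def gr {P : ℕ} (H : Finset (ZMod P)) (θ : ZMod P → ZMod P) : Finset (ZMod P × ZMod P) :=
  H.image fun h => (h, θ h)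

/-- `ψ(x) = E_h β(h) F(x+h) e(-θ_h x)` -/
noncomputable def psA {P : ℕ} [NeZero P] (F β : ZMod P → ℂ) (θ : ZMod P → ZMod P)
    (x : ZMod P) : ℂ :=
  (∑ h : ZMod P, β h * F (x + h) * ZMod.stdAddChar (-(θ h * x))) / (P : ℂ)

/-- admissible triples `(k,h,h')`: `|k| < N₁`, `h, h - pk, h', h' - qk ∈ H` -/
noncomputable def tri {P : ℕ} [NeZero P] (H : Finset (ZMod P)) (p q N₁ : ℕ) :
    Finset (ℤ × ZMod P × ZMod P) :=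
  (Finset.Ioo (-(N₁ : ℤ)) N₁ ×ˢ H ×ˢ H).filter fun t =>
    t.2.1 - (p : ZMod P) * (t.1 : ZMod P) ∈ H ∧ t.2.2 - (q : ZMod P) * (t.1 : ZMod P) ∈ H

/-- the frequency `ξ = p(θ_h - θ_{h-pk}) - q(θ_{h'} - θ_{h'-qk})` -/
def xiA {P : ℕ} (θ : ZMod P → ZMod P) (p q : ℕ) (t : ℤ × ZMod P × ZMod P) : ZMod P :=
  (p : ZMod P) * (θ t.2.1 - θ (t.2.1 - (p : ZMod P) * (t.1 : ZMod P))) -
    (q : ZMod P) * (θ t.2.2 - θ (t.2.2 - (q : ZMod P) * (t.1 : ZMod P)))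

/-- EASY.  ITEM APar (Parseval on `ZMod P`).  Expand `‖hat F ξ‖² = P⁻² ∑_{x,y} F x conj(F y)
e(-ξ(x-y))` and sum over `ξ` (`∑_ξ e(ξ z) = P` if `z = 0`, else `0`; `AddChar.sum_mulShift` or
the Parseval identity of `ZMod.dft`). -/
def StAPar : Prop := ∀ (P : ℕ) (_ : NeZero P) (F : ZMod P → ℂ),
  ∑ ξ : ZMod P, ‖hat F ξ‖ ^ 2 = (∑ x : ZMod P, ‖F x‖ ^ 2) / (P : ℝ)

/-- EASY.  ITEM AInv (Fourier inversion): `F x = ∑_ξ hat F ξ e(ξ x)`. -/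
def StAInv : Prop := ∀ (P : ℕ) (_ : NeZero P) (F : ZMod P → ℂ) (x : ZMod P),
  F x = ∑ ξ : ZMod P, hat F ξ * ZMod.stdAddChar (ξ * x)

/-- MEDIUM.  ITEM AUt (the U² norm is the l⁴ norm of the Fourier transform; may use AInv, APar).
`Dl (Dl G h₂) h₃ x = G(x+h₃+h₂) conj G(x+h₃) conj(G(x+h₂)) G(x)`.  Insert the Fourier inversion
formula for the four factors (frequencies `a, b, c, d`), or faster: `∑_{h₂} ∑_{h₃} ∑_x` with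
`y = x + h₃`: the sum is `∑_{h} |∑_x G(x+h) conj(G x)|²` (`h = h₂`; indeed `∑_{h₃,x}
G(x+h₃+h)conj G(x+h₃) conj(G(x+h) conj G(x)) = |∑_x G(x+h) conj(G x)|²`).  The correlation
`C(h) = ∑_x G(x+h) conj(G x) = P ∑_ξ ‖hat G ξ‖² e(ξ h)`, i.e. `hat C ξ = P ‖hat G ξ‖²`; Parseval
for `C`: `∑_h |C h|² = P ∑_ξ |hat C ξ|² = P³ ∑_ξ ‖hat G ξ‖⁴`. -/
def StAUt : Prop := ∀ (P : ℕ) (_ : NeZero P) (G : ZMod P → ℂ),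
  ∑ h₂ : ZMod P, ∑ h₃ : ZMod P, ∑ x : ZMod P, Dl (Dl G h₂) h₃ x =
    (((P : ℝ) ^ 3 * ∑ ξ : ZMod P, ‖hat G ξ‖ ^ 4 : ℝ) : ℂ)

/-- EASY-MEDIUM.  ITEM AMax (uses AUt, APar).  By AUt `U3 P F = P⁻¹ ∑_h ∑_ξ ‖hat (Dl F h) ξ‖⁴`.
Let `θ h` maximise `‖hat (Dl F h) ξ‖` (`Finset.exists_max_image`).  `∑_ξ ‖·‖⁴ ≤
‖hat (Dl F h) (θ h)‖² ∑_ξ ‖·‖²` and by Parseval `∑_ξ ‖·‖² = P⁻¹ ∑_x ‖Dl F h x‖² ≤ 1`. -/
def StAMax : Prop := ∀ (P : ℕ) (_ : NeZero P) (F : ZMod P → ℂ), (∀ x, ‖F x‖ ≤ 1) →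
  ∃ θ : ZMod P → ZMod P, U3 P F ≤ (∑ h : ZMod P, ‖hat (Dl F h) (θ h)‖ ^ 2) / (P : ℝ)

/-- MEDIUM.  ITEM AQu (additive quadruples).  Put `H = {h : η/2 ≤ ‖hat(Dl F h)(θ h)‖²}`,
`B h = conj (hat (Dl F h) (θ h))` on `H`, `0` outside; `‖B h‖ ≤ 1`.
`∑_h B h hat(Dl F h)(θ h) = ∑_{h ∈ H} ‖·‖² ≥ η P - (η/2) P`, i.e.
`|∑_x conj(F x) ∑_h B h F(x+h) e(-θ_h x)| ≥ (η/2) P²`.  Cauchy-Schwarz in `x` (`∑ ‖F x‖² ≤ P`):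
`(η/2)² P³ ≤ ∑_x |∑_h B h F(x+h) e(-θ_h x)|² = ∑_x ∑_{h,h'} B h conj(B h') F(x+h) conj F(x+h')
e(-(θ_h-θ_h')x)`.  Replace `x` by `x - h'` and put `k = h - h'`:
`= ∑_{x,k} conj(F x) F(x+k) S(x,k)`, `S(x,k) = ∑_{h'} B(h'+k) conj(B h') e(-(θ_{h'+k}-θ_{h'})(x-h'))`.
Cauchy-Schwarz in `(x,k)`: `(η/2)⁴ P⁶ ≤ P² ∑_{x,k} |S(x,k)|²`, and
`∑_x |S(x,k)|² = ∑_{h',h''} (modulus ≤ 1) ∑_x e(-(D_{h'}-D_{h''}) x)`, `D_{h'} = θ_{h'+k}-θ_{h'}`,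
`≤ P #{(h',h'') : h', h'+k, h'', h''+k ∈ H, D_{h'} = D_{h''}}`.  So
`(η/2)⁴ P³ ≤ #{(k,h',h'')} `, and `(k,h',h'')` is mapped injectively to the additive quadruple
`((h'+k,θ),(h',θ)), ((h'',θ),(h''+k,θ))` of `gr H θ`
(`(h'+k,θ_{h'+k}) + (h'',θ_{h''}) = (h',θ_{h'}) + (h''+k,θ_{h''+k})`). -/
def StAQu : Prop := ∀ (P : ℕ) (_ : NeZero P) (F : ZMod P → ℂ) (θ : ZMod P → ZMod P) (η : ℝ),
  (∀ x, ‖F x‖ ≤ 1) → 0 < η →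
  η * P ≤ ∑ h : ZMod P, ‖hat (Dl F h) (θ h)‖ ^ 2 →
  ∃ H : Finset (ZMod P), (∀ h ∈ H, η / 2 ≤ ‖hat (Dl F h) (θ h)‖ ^ 2) ∧
    (η / 2) ^ 4 * (P : ℝ) ^ 3 ≤ (Finset.addEnergy (gr H θ) (gr H θ) : ℝ)

/-- EASY.  ITEM ABs (Balog-Szemeredi-Gowers).  `Pool.Agent.F39168.SD.bsg`
(file `Work/MP_f39168_co/SD/BSG.lean`) for `A = gr H θ`, constant `1/ε ≥ 1`: `|A|³ ≤ P³ ≤
(1/ε) E(A)`, so `A' ⊆ A`, `|A| ≤ (12/ε)|A'|`, `|A' - A'| ≤ 10^15 ε^(-18) |A'|`.  `A' = gr H' θ`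
with `H' = A'.image Prod.fst`.  Also `ε P³ ≤ E(A) ≤ |A|³` (`Finset.addEnergy` is at most
`|A|² |A|`: three of the four elements determine the fourth) so `|A| ≥ ε P` (`ε ≤ 1`) and
`|A'| ≥ ε² P/12`. -/
def StABs : Prop := ∀ (P : ℕ) (_ : NeZero P) (H : Finset (ZMod P)) (θ : ZMod P → ZMod P) (ε : ℝ),
  0 < ε → ε ≤ 1 → ε * (P : ℝ) ^ 3 ≤ (Finset.addEnergy (gr H θ) (gr H θ) : ℝ) →
  ∃ H' ⊆ H, ε ^ 2 / 12 * P ≤ (H'.card : ℝ) ∧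
    ((gr H' θ - gr H' θ).card : ℝ) ≤ 10 ^ 15 * (1 / ε) ^ 18 * ((gr H' θ).card : ℝ)

/-- EASY.  ITEM APs.  `β h = conj (hat (Dl F h) (θ h))` on `H'` and `0` outside; `‖β h‖ ≤ 1`
because `‖F‖ ≤ 1`.  `∑_x psA F β θ x conj(F x) = ∑_{h} β h hat(Dl F h)(θ h)
= ∑_{h∈H'} ‖hat(Dl F h)(θ h)‖² ≥ |H'| η/2`. -/
def StAPs : Prop := ∀ (P : ℕ) (_ : NeZero P) (F : ZMod P → ℂ) (θ : ZMod P → ZMod P)
    (H' : Finset (ZMod P)) (η : ℝ), (∀ x, ‖F x‖ ≤ 1) → 0 < η →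
  (∀ h ∈ H', η / 2 ≤ ‖hat (Dl F h) (θ h)‖ ^ 2) →
  ∃ β : ZMod P → ℂ, (∀ h, ‖β h‖ ≤ 1) ∧ (∀ h, h ∉ H' → β h = 0) ∧
    (H'.card : ℝ) * (η / 2) ≤ ‖∑ x : ZMod P, psA F β θ x * conj (F x)‖

/-- EASY.  ITEM APr (sums of `1/p` are unbounded; Mathlib `Nat.Primes.not_summable_one_div`). -/
def StAPr : Prop := ∀ s : ℝ, ∃ S : Finset ℕ, (∀ p ∈ S, p.Prime) ∧ s ≤ ∑ p ∈ S, (1 : ℝ) / p

/-- EASY-MEDIUM.  ITEM ATk (Turan-Kubilius, fixed set of primes).  `ω(n) = #{p ∈ S : p ∣ n}`,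
`s = ∑ 1/p`.  `∑_{n ≤ N} ω² = ∑_{p,p'} #{n ≤ N : p ∣ n, p' ∣ n} ≤ N s² + N s` (`p ≠ p'`:
`pp' ∣ n`, at most `N/(pp')`), `∑ ω = ∑_p ⌊N/p⌋ ≥ N s - |S|`, so
`∑ (ω-s)² ≤ N s² + N s - 2 s (N s - |S|) + N s² = N s + 2 s |S| ≤ N s + 2|S|²`. -/
def StATk : Prop := ∀ (S : Finset ℕ) (N : ℕ), (∀ p ∈ S, p.Prime) →
  ∑ n ∈ Finset.Icc 1 N, (((S.filter fun p => p ∣ n).card : ℝ) - ∑ p ∈ S, (1 : ℝ) / p) ^ 2 ≤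
    N * ∑ p ∈ S, (1 : ℝ) / p + 2 * (S.card : ℝ) ^ 2

/-- MEDIUM.  ITEM AKa (quantitative Katai criterion; uses APr, ATk).  Choose `S` with
`s = ∑_{p∈S} 1/p ≥ 16/c²`, `Y = max S`, `κ = s²c²/(8|S|²)`, `N₀ ≥ 2|S|²/s`.  `ω(n) = #{p ∈ S : p ∣ n}`.
Cauchy-Schwarz and ATk: `|∑ ψ g (ω - s)| ≤ √N √(2 N s) ≤ (s c/2) N` (as `s c² ≥ 8`), hence
`|∑_n ψ(n)g(n)ω(n)| ≥ (sc/2)N`.  The left side is `|∑_{m ≤ N} g(m) ∑_{p∈S, pm ≤ N} g(p)ψ(pm)|`;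
Cauchy-Schwarz: `(sc/2)²N² ≤ N ∑_{p,p'∈S} g(p)conj g(p') ∑_{m ≤ N/max(p,p')} ψ(pm)conj ψ(p'm)`.
Diagonal `≤ ∑_p N/p = N s`.  So the off-diagonal terms have absolute sum `≥ (s²c²/4 - s)N ≥
(s²c²/8)N` and one of them is `≥ κ N`; by complex conjugation `p < q`. -/
def StAKa : Prop := ∀ c : ℝ, 0 < c → ∃ (Y N₀ : ℕ) (κ : ℝ), 0 < κ ∧ ∀ N ≥ N₀, ∀ g ψ : ℕ → ℂ,
  CM g → (∀ n, ‖ψ n‖ ≤ 1) → c * N ≤ ‖∑ n ∈ Finset.Icc 1 N, ψ n * g n‖ →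
  ∃ p q : ℕ, p.Prime ∧ q.Prime ∧ p < q ∧ q ≤ Y ∧
    κ * N ≤ ‖∑ n ∈ Finset.Icc 1 (N / q), ψ (p * n) * conj (ψ (q * n))‖

/-- MEDIUM.  ITEM ACs (elimination of `F`).  Write `Ψ = ∑_{n=1}^{N₁} psA(pn) conj(psA(qn))
= P⁻² ∑_n ∑_{h,h'} β h conj(β h') F(pn+h) conj F(qn+h') e((-pθ_h+qθ_{h'})n)`.  For fixed `n` put
`u = pn+h`, `v = qn+h'`: `P² Ψ = ∑_{u,v} F u conj(F v) ∑_n β(u-pn)conj β(v-qn)
e((-pθ_{u-pn}+qθ_{v-qn})n)`.  Cauchy-Schwarz over `(u,v)` (`∑|F u|²|F v|² ≤ P²`):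
`P⁴‖Ψ‖² ≤ P² ∑_{u,v}|∑_n …|²`.  Expand the square with `n` and `n' = n+k`, `|k| < N₁`, and put
`h = u-pn`, `h' = v-qn` (so `u-pn' = h-pk`, `v-qn' = h'-qk`): the phase of the term is
`e(-ξ n + (pθ_{h-pk} - qθ_{h'-qk})k)` with `ξ = xiA θ p q (k,h,h')`, the coefficients have modulus
`≤ 1` and vanish unless `(k,h,h') ∈ tri H p q N₁`.  Take absolute values after summing over `n`. -/
def StACs : Prop := ∀ (P : ℕ) (_ : NeZero P) (F β : ZMod P → ℂ) (θ : ZMod P → ZMod P)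
    (H : Finset (ZMod P)) (p q N₁ : ℕ), (∀ x, ‖F x‖ ≤ 1) → (∀ h, ‖β h‖ ≤ 1) →
  (∀ h, h ∉ H → β h = 0) →
  (P : ℝ) ^ 2 * ‖∑ n ∈ Finset.Icc 1 N₁, psA F β θ ((p * n : ℕ) : ZMod P) *
      conj (psA F β θ ((q * n : ℕ) : ZMod P))‖ ^ 2 ≤
    ∑ t ∈ tri H p q N₁, ‖∑ n ∈ (Finset.Icc (1 : ℤ) N₁).filter
      (fun n => n + t.1 ∈ Finset.Icc (1 : ℤ) N₁), ZMod.stdAddChar (-(xiA θ p q t * (n : ZMod P)))‖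

/-- EASY-MEDIUM.  ITEM AEx (exponential sum over an interval).  The set is an interval `[a,b]` of
integers of length `≤ N₁`.  First bound trivial.  Second: geometric sum, `≤ 2/|1 - e(ξ)| =
1/|sin(π x/P)| ≤ P/(2|x|)`, `x = ξ.valMinAbs`, `|x| ≤ P/2` (Jordan inequality
`Real.mul_le_sin`/`Real.two_div_pi_mul_le_sin`-type `sin y ≥ 2y/π` on `[0,π/2]`). -/
def StAEx : Prop := ∀ (P : ℕ) (_ : NeZero P) (ξ : ZMod P) (N₁ : ℕ) (k : ℤ),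
  ‖∑ n ∈ (Finset.Icc (1 : ℤ) N₁).filter (fun n => n + k ∈ Finset.Icc (1 : ℤ) N₁),
      (ZMod.stdAddChar (-(ξ * (n : ZMod P))) : ℂ)‖ ≤ N₁ ∧
  ‖∑ n ∈ (Finset.Icc (1 : ℤ) N₁).filter (fun n => n + k ∈ Finset.Icc (1 : ℤ) N₁),
      (ZMod.stdAddChar (-(ξ * (n : ZMod P))) : ℂ)‖ * (2 * |(ξ.valMinAbs : ℝ)|) ≤ P

/-- EASY-MEDIUM.  ITEM APg (pigeonhole for `ξ`; uses AEx).  Let `E(t)` be the summand of ACs.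
`|tri| ≤ 2N₁P² ≤ 2NP²`.  Terms with `|ξ.valMinAbs| > X₀ ≥ 2C/κ²`: `E ≤ P/(2X₀) ≤ CN/(2X₀)`, total
`≤ C N² P²/X₀ ≤ κ²N²P²/2`.  So `∑_{|ξ| ≤ X₀} E ≥ κ²N²P²/2`, and `E ≤ N₁ ≤ N`: at least
`κ²NP²/2` elements of `tri` have `|ξ.valMinAbs| ≤ X₀`; these `ξ` take at most `2X₀+1` values. -/
def StAPg : Prop := ∀ (κ : ℝ) (C : ℕ), 0 < κ → 0 < C → ∃ c₃ : ℝ, 0 < c₃ ∧
  ∀ (P : ℕ) (_ : NeZero P) (θ : ZMod P → ZMod P) (H : Finset (ZMod P)) (p q N₁ N : ℕ),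
    N₁ ≤ N → P ≤ C * N →
    κ ^ 2 * (N : ℝ) ^ 2 * (P : ℝ) ^ 2 ≤
      ∑ t ∈ tri H p q N₁, ‖∑ n ∈ (Finset.Icc (1 : ℤ) N₁).filter
        (fun n => n + t.1 ∈ Finset.Icc (1 : ℤ) N₁),
          (ZMod.stdAddChar (-(xiA θ p q t * (n : ZMod P))) : ℂ)‖ →
    ∃ ξ₀ : ZMod P, c₃ * N * (P : ℝ) ^ 2 ≤
      (((tri H p q N₁).filter fun t => xiA θ p q t = ξ₀).card : ℝ)

/-- EASY-MEDIUM.  ITEM APl (Pluennecke and the fibre bound).  `Γ = gr H θ`, nonempty,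
`|Γ - Γ| ≤ K|Γ|`.  Let `S` be a set of `s ∈ ZMod P` with `(0,s) ∈ m•Γ - m•Γ`.  The map
`Γ × S → (m+1)•Γ - m•Γ`, `((h,θ_h),s) ↦ (h,θ_h+s)` is injective because `Γ` is a graph, so
`|Γ||S| ≤ |(m+1)•Γ - m•Γ| ≤ K^(2m+1)|Γ|` by the Pluennecke-Ruzsa inequality (Mathlib, additive
version of `Finset.pluennecke_ruzsa_inequality_pow_div_pow_div`, `A = B = Γ`). -/
def StAPl : Prop := ∀ (P : ℕ) (_ : NeZero P) (H S : Finset (ZMod P)) (θ : ZMod P → ZMod P)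
    (K : ℝ) (m : ℕ), H.Nonempty → 0 ≤ K →
  ((gr H θ - gr H θ).card : ℝ) ≤ K * ((gr H θ).card : ℝ) →
  (∀ s ∈ S, ((0 : ZMod P), s) ∈ m • gr H θ - m • gr H θ) →
  (S.card : ℝ) ≤ K ^ (2 * m + 1)

/-- MEDIUM.  ITEM AFi (uses APl; the differences take boundedly many values).  For
`t = (k,h,h') ∈ tri` with `xiA = ξ₀` put `δ = θ_h - θ_{h-pk}`, `δ' = θ_{h'} - θ_{h'-qk}`.
`(pk,δ), (qk,δ') ∈ Γ - Γ`, so `σ = qδ - pδ'` satisfies `(0,σ) = q(pk,δ) - p(qk,δ') ∈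
(p+q)•Γ - (p+q)•Γ`.  From `pδ - qδ' = ξ₀`: `(q²-p²)δ = qσ - pξ₀`.  `q² - p²` is invertible modulo
the prime `P > q² > p²`, so `δ` is a function of `σ`, and the `σ` form a set `S` as in APl with
`m = p+q`: at most `K^(2(p+q)+1)` values of `δ`. -/
def StAFi : Prop := ∀ (P : ℕ) (_ : NeZero P) (H : Finset (ZMod P)) (θ : ZMod P → ZMod P)
    (K : ℝ) (p q N₁ : ℕ) (ξ₀ : ZMod P), P.Prime → 0 < p → p < q → q ^ 2 < P → 0 ≤ K →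
  ((gr H θ - gr H θ).card : ℝ) ≤ K * ((gr H θ).card : ℝ) →
  ((((tri H p q N₁).filter fun t => xiA θ p q t = ξ₀).image fun t =>
      θ t.2.1 - θ (t.2.1 - (p : ZMod P) * (t.1 : ZMod P))).card : ℝ) ≤ K ^ (2 * (p + q) + 1)

/-- EASY-MEDIUM.  ITEM ACo (constancy).  Let `T` be the filtered set, `|T| ≥ c₃NP²`.  Forget `h'`:
at least `c₃NP` pairs `(k,h)`.  Their `δ` takes at most `V` values: some `δ₀` has at least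
`c₃NP/V` pairs.  Some `h₁ = h - pk` has at least `c₃N/V` of these; for fixed `h₁` the map
`(k,h) ↦ h = h₁ + pk` is injective on `|k| < N₁` (`2N₁ ≤ P`, `p` invertible mod `P`), `h ∈ H` and
`θ_h = δ₀ + θ_{h₁}` is constant. -/
def StACo : Prop := ∀ (P : ℕ) (_ : NeZero P) (H : Finset (ZMod P)) (θ : ZMod P → ZMod P)
    (V c₃ : ℝ) (p q N₁ N : ℕ) (ξ₀ : ZMod P), P.Prime → 0 < p → p < P → 2 * N₁ ≤ P → 0 < V →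
  c₃ * N * (P : ℝ) ^ 2 ≤ (((tri H p q N₁).filter fun t => xiA θ p q t = ξ₀).card : ℝ) →
  ((((tri H p q N₁).filter fun t => xiA θ p q t = ξ₀).image fun t =>
      θ t.2.1 - θ (t.2.1 - (p : ZMod P) * (t.1 : ZMod P))).card : ℝ) ≤ V →
  ∃ (τ : ZMod P), c₃ / V * N ≤ ((H.filter fun h => θ h = τ).card : ℝ)

/-- EASY-MEDIUM.  ITEM ALf (large Fourier coefficient; may use APar, AInv).  `∑_h ‖hat(Dl F h)(τ)‖²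
≥ |H| η/2`.  With `G x = conj(F x) e(-τx)`: `P hat(Dl F h)(τ) = ∑_x F(x+h) G x =
P ∑_ξ hat F(ξ) e(ξh) hat G(-ξ)`; Parseval in `h`: `∑_h ‖hat(Dl F h)(τ)‖² = P ∑_ξ ‖hat F ξ‖²
‖hat G(-ξ)‖² ≤ P max‖hat F‖² ∑_ξ ‖hat G ξ‖² ≤ P max‖hat F‖²`. -/
def StALf : Prop := ∀ (P : ℕ) (_ : NeZero P) (F : ZMod P → ℂ) (H : Finset (ZMod P)) (τ : ZMod P)
    (η : ℝ), (∀ x, ‖F x‖ ≤ 1) → (∀ h ∈ H, η / 2 ≤ ‖hat (Dl F h) τ‖ ^ 2) →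
  ∃ ξ : ZMod P, (H.card : ℝ) * (η / 2) ≤ P * ‖hat F ξ‖ ^ 2

/-- MEDIUM.  ITEM ADa (Daboussi, major arc; uses AKa).  AKa for `g = f` and
`ψ(n) = exp(2πi α n)`: primes `p < q ≤ Y` with `|∑_{n ≤ N/q} exp(2πi(p-q)αn)| ≥ κN`.  With `x` the
distance of `(q-p)α` to the nearest integer the sum is `≤ 1/(2x)`, so `x ≤ 1/(2κN)`; `r = q-p`,
`|α - a/r| ≤ 1/(2κN)`. -/
def StADa : Prop := ∀ c : ℝ, 0 < c → ∃ (Y N₀ : ℕ) (C : ℝ), ∀ N ≥ N₀, ∀ f : ℕ → ℂ, CM f →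
  ∀ α : ℝ, c * N ≤ ‖∑ n ∈ Finset.Icc 1 N, f n * Complex.exp (2 * Real.pi * α * n * Complex.I)‖ →
  ∃ (r : ℕ) (a : ℤ), 1 ≤ r ∧ r ≤ Y ∧ |α - a / r| * N ≤ C

/-- EASY.  ITEM APa (partial summation).  `∑_{n ≤ N} g(n)e(βn)`: Abel summation with
`S(n) = ∑_{m ≤ n} g(m)`: `= S(N)e(βN) - ∑_{n<N} S(n)(e(β(n+1)) - e(βn))`,
`|e(β(n+1)) - e(βn)| ≤ 2π|β|`. -/
def StAPa : Prop := ∀ (g : ℕ → ℂ) (N : ℕ) (β B : ℝ), 0 ≤ B →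
  (∀ N' ≤ N, ‖∑ n ∈ Finset.Icc 1 N', g n‖ ≤ B) →
  ‖∑ n ∈ Finset.Icc 1 N, g n * Complex.exp (2 * Real.pi * β * n * Complex.I)‖ ≤
    (1 + 2 * Real.pi * |β| * N) * B

/-- EASY.  ITEM ACl (residue classes).  `exp(2πi(a/r)n)` depends on `n mod r` and has modulus 1. -/
def StACl : Prop := ∀ (f : ℕ → ℂ) (N r : ℕ) (a : ℤ) (B : ℝ), 1 ≤ r →
  (∀ b : ℕ, ‖∑ n ∈ (Finset.Icc 1 N).filter (fun n => n % r = b % r), f n‖ ≤ B) →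
  ‖∑ n ∈ Finset.Icc 1 N, f n * Complex.exp (2 * Real.pi * ((a : ℝ) / r : ℝ) * n * Complex.I)‖ ≤
    r * B

/-- MEDIUM.  ITEM ADb (Daboussi's theorem; uses ADa, APa, ACl).  Given `c`, ADa gives `Y, C`.
Suppose `c N < |∑ f(n)e(αn)|`.  `α = a/r + β`, `|β|N ≤ C`.  By aperiodicity there is `N₁` with
`|∑_{n ≤ N', n ≡ b (r)} f(n)| ≤ ε N'` for all `N' ≥ N₁`, `r ≤ Y`, `b` (finitely many `(r,b)`),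
so for all `N' ≤ N`: `≤ εN + N₁`.  ACl: `|∑_{n ≤ N'} f(n)e(an/r)| ≤ Y(εN+N₁)`; APa:
`c N ≤ (1+2πC)Y(εN+N₁)`: impossible for `ε = c/(4(1+2πC)Y)` and `N` large. -/
def StADb : Prop := ∀ f : ℕ → ℂ, CM f → Aper f → ∀ c : ℝ, 0 < c → ∃ N₀ : ℕ, ∀ N ≥ N₀, ∀ α : ℝ,
  ‖∑ n ∈ Finset.Icc 1 N, f n * Complex.exp (2 * Real.pi * α * n * Complex.I)‖ ≤ c * N

/-- MEDIUM.  ITEM AFin (assembly; uses AMax, AQu, ABs, APs, AKa, ACs, APg, AFi, ACo, ALf; the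
intermediate theorem with quantifiers: large U³ norm implies a large Fourier coefficient).
Given `η ∈ (0,1]`, `C`.  `F = tr f N P`.  AMax: `ηP ≤ ∑_h ‖hat(Dl F h)(θ h)‖²` .  AQu: `H`,
energy `≥ ε₀P³`, `ε₀ = (η/2)⁴`.  ABs: `H' ⊆ H`, `|H'| ≥ ε₀²P/12`, `K = 10^15 ε₀^(-18)`.  APs: `β`
with `|∑_x psA x conj(F x)| ≥ c₂P`, `c₂ = ε₀²η/24`; the sum over `x` is the sum over
`n ∈ [1,N]` (`x = n`, `F = 0` elsewhere; `N < P`) of `ψ(n) conj f(n)`, `ψ n = psA F β θ (n : ZMod P)`,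
and `c₂P ≥ c₂N`.  AKa with `g = conj f` (it is CM), `c = c₂`: `p < q ≤ Y`, `κ`.  ACs with
`N₁ = N/q`, `H := H'`, then APg: `c₃, ξ₀`.  AFi (`P > Y²` for `N` large; `2N ≤ P`):
`V = max(1,K)^(4Y+1)`.  ACo: `τ`, at least `(c₃/V)N ≥ c₃P/(VC)` elements `h ∈ H'` with `θ h = τ`.
ALf: `‖hat F ξ‖² ≥ c₃η/(2VC)`. -/
def StAFin : Prop := ∀ (η : ℝ) (C : ℕ), 0 < η → η ≤ 1 → ∃ (c₆ : ℝ) (N₀ : ℕ), 0 < c₆ ∧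
  ∀ f : ℕ → ℂ, CM f → ∀ N ≥ N₀, ∀ P : ℕ, ∀ _ : NeZero P, P.Prime → 2 * N ≤ P → P ≤ C * N →
    η ≤ U3 P (tr f N P) → ∃ ξ : ZMod P, c₆ ≤ ‖hat (tr f N P) ξ‖

/-- EASY.  ITEM AAll (U3Stmt from AFin, ADb).  If `U3 > ε` for some large `N`, `P` (put
`η = min ε 1`) then `c₆ ≤ ‖hat F ξ‖`, and `P hat F ξ = ∑_{n ≤ N} f(n) e(-ξ n/P)`, so
`|∑_{n ≤ N} f(n) exp(2πi α n)| ≥ c₆P ≥ 2c₆N`, `α = -ξ/P`; contradiction to ADb with `c = c₆`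
(`N ≥ 1`). -/
def StAAll : Prop := StAFin → StADb → U3Stmt

end Pool.Agent.F0f91f8.HD
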