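import Pool.Agent.Work.MP_0f91f8_co.HD.Defs
import Pool.Agent.Work.MP_0f91f8_co.U3.Stmts

/-!
# Half density, module B: the three pair correlations vanish for aperiodic `f` (`AperStmt`)

From theorem A of helper40 (`Pool.Agent.U3.StA`, four pairwise independent linear forms).
Every item is an independent `Prop`; its docstring is its complete proof.  To prove item `X` write
`HD/B_X.lean` with `theorem pr_X : StX` (hypotheses are already inside the statements).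
-/

set_option autoImplicit false

namespace Pool.Agent.F0f91f8.HD

open Filter Topology ComplexConjugate
open scoped BigOperators

/-- `f` extended by zero to the integers (`f 0 = 0` for `CM f`) -/
def fp (f : ℕ → ℂ) (s : ℤ) : ℂ := f s.toNat

/-- tent with scale and offset: number of `(u,u')`, `1 ≤ u,u' ≤ L`, with `k (u+u') + c = s` -/
def tnt (L k : ℕ) (c s : ℤ) : ℕ :=
  ((Finset.Icc 1 L ×ˢ Finset.Icc 1 L).filter fun t => (k : ℤ) * ((t.1 : ℤ) + (t.2 : ℤ)) + c = s).card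

/-- parameters of a tent: linear form, scale, offset -/
structure Tp where
  l : ℤ × ℤ
  k : ℕ
  c : ℤ

/-- EASY.  ITEM BEx (bounds on tents).  `tnt L k c s ≤ L` (`u` determines `u'` as `k ≥ 1`), and if
`tnt L k c s ≠ 0` then `s = k m + c` with `2 ≤ m ≤ 2L`. -/
def StBEx : Prop := ∀ (L k : ℕ) (c s : ℤ), 0 < k → tnt L k c s ≤ L ∧
  (tnt L k c s ≠ 0 → ∃ m : ℤ, 2 ≤ m ∧ m ≤ 2 * L ∧ s = k * m + c)

/-- EASY-MEDIUM.  ITEM BTe (Fourier expansion of a tent on `ℤ/P`).  Let `S + 2kL + |c| < P`.  Put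
`a_w = (P L)⁻¹ (∑_{u=1}^{L} e(-wku/P))² e(-wc/P)`, `e(x) = exp(2πix)`.  For an integer `s`,
`∑_{w<P} a_w e(ws/P) = L⁻¹ #{(u,u') : k(u+u')+c ≡ s mod P}`, and for `|s| ≤ S` the congruence is an
equality (both sides differ by less than `P`).  `∑_w |a_w| = (PL)⁻¹ ∑_w |∑_u e(-wku/P)|² =
L⁻¹ #{(u,u') : ku ≡ ku' mod P} = 1` (`kL < P`). -/
def StBTe : Prop := ∀ (L k P S : ℕ) (c : ℤ), 0 < L → 0 < k → S + 2 * k * L + c.natAbs < P →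
  ∃ a : ℕ → ℂ, ∑ w ∈ Finset.range P, ‖a w‖ ≤ 1 ∧
    ∀ s : ℤ, |s| ≤ S → (tnt L k c s : ℂ) / (L : ℂ) =
      ∑ w ∈ Finset.range P, a w * Complex.exp (2 * Real.pi * Complex.I * (w * s / P : ℝ))

/-- the integer form IG: four pairwise independent integral linear forms `l_i`, `J` tents in
integral linear forms whose product is supported in the box of side `C M`, three arbitrary
functions of modulus `≤ 1` and `f`.  Everything except `M`, `L`, `F` is fixed. -/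
def StIG : Prop := ∀ f : ℕ → ℂ, CM f → Aper f → ∀ (l : Fin 4 → ℤ × ℤ) (J : ℕ) (tp : Fin J → Tp)
    (C : ℕ), (∀ i j, i ≠ j → U3.dt (l i) (l j) ≠ 0) → (∀ j, 0 < (tp j).k) →
  ∀ ε : ℝ, 0 < ε → ∃ M₀ : ℕ, ∀ M ≥ M₀, ∀ L : Fin J → ℕ, (∀ j, 1 ≤ L j ∧ L j ≤ C * M) →
  (∀ v : ℤ × ℤ, (∀ j, tnt (L j) (tp j).k (tp j).c (U3.lf (tp j).l v) ≠ 0) →
    v ∈ U3.bx (C * M : ℤ)) →
  ∀ F : Fin 3 → ℤ → ℂ, (∀ i s, ‖F i s‖ ≤ 1) →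
  ‖∑ v ∈ U3.bx (C * M : ℤ),
      (∏ j, ((tnt (L j) (tp j).k (tp j).c (U3.lf (tp j).l v) : ℂ) / (L j : ℂ))) *
        (F 0 (U3.lf (l 0) v) * F 1 (U3.lf (l 1) v) * F 2 (U3.lf (l 2) v) *
          fp f (U3.lf (l 3) v))‖ ≤ ε * (M : ℝ) ^ 2

/-- MEDIUM.  ITEM BIG (uses `U3.StA`, BTe).  `g(n) = f(|n|)` is `U3.CM`, `U3.Aper`.  Let
`A = 1 + ∑ sz(l_i)` and `N = A C M`, `T = A` (WLOG `C ≥ 1`; for `C = 0` the box is `{0}` and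
`fp f 0 = 0`).  `v ∈ bx(CM)` implies `|l_i(v)| ≤ N`.  Let `S` bound all `|tp_j.l (v)|`,
`v ∈ bx(TN)`, and `P > S + 2 k_j L_j + |c_j|` for all `j`.  By BTe, for all `v ∈ bx(TN)`,
`W(v) = ∏_j tnt/L_j = ∑_{w ∈ (range P)^J} a_w e(∑_j w_j tp_j.l(v)/P)`, `∑|a_w| ≤ 1`.  As `l_0,l_1` are
linearly independent, `∑_j w_j tp_j.l(v)/P = α l_0(v) + β l_1(v)` with real `α,β` depending on `w`.
So for fixed `w` the sum over `v ∈ bx(TN)` is `U3.StA` with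
`f_0(n) = F_0(n)e(αn)1_{|n| ≤ N}`, `f_1(n) = F_1(n)e(βn)1_{|n| ≤ N}`, `f_2 = F_2 1_{|n| ≤ N}`,
`[A,B] = [1,N]`: absolute value `≤ ε' N²`.  Hence
`|∑_{v∈bx(TN)} W(v) ∏_{i<3} F_i(l_i v)1_{|l_i v| ≤ N} fp f(l_3 v) 1_{l_3 v ≤ N}| ≤ ε'N²`, and since
`W` vanishes outside `bx(CM)` (hypothesis) and all cut-offs are 1 on `bx(CM) ⊆ bx(TN)`, this is the
sum of the statement.  `ε' = ε/(AC)²`. -/
def StBIG : Prop := U3.StA → StBTe → StIG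

/-- EASY-MEDIUM.  ITEM BBx (the box average in the variables `r = ka+κn`, `s = κn`).  With
`n = u+u'`, `a = Q(v+v')+a₀`: `s = κ(u+u')`, `r - s = kQ(v+v') + ka₀`; collect the quadruples
`(u,u',v,v')` with the same `(r,s)`: there are `tnt M κ 0 s * tnt (DM) (kQ) (ka₀) (r-s)` of them, and
`0 ≤ s ≤ r ≤ C M` if `C = 2kQD + ka₀ + 2κ`. -/
def StBBx : Prop := ∀ (Q D a₀ κ k M : ℕ) (H : ℤ → ℤ → ℂ), 0 < Q → 0 < D → 0 < κ → 0 < k → 0 < M →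
  Bx Q D a₀ M (fun a n => H ((k * a + κ * n : ℕ) : ℤ) ((κ * n : ℕ) : ℤ)) =
    (∑ v ∈ U3.bx (((2 * k * Q * D + k * a₀ + 2 * κ : ℕ) : ℤ) * M),
      ((tnt M κ 0 v.2 : ℂ) / (M : ℂ)) *
        ((tnt (D * M) (k * Q) ((k * a₀ : ℕ) : ℤ) (v.1 - v.2) : ℂ) / ((D * M : ℕ) : ℂ)) *
          H v.1 v.2) / ((M : ℂ) * ((D * M : ℕ) : ℂ))

/-- EASY-MEDIUM.  ITEM BXy (the correlation of `x` and `y`).  `x = 2rs`, `y = (r-s)(r+s)`,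
`f(x)conj f(y) = f(2)·fp f(s) fp f(r) conj(fp f(r-s)) conj(fp f(r+s))` (`r > s > 0`, or the product is
0 on both sides).  By BBx the average is `(D M²)⁻¹ f(2)·(sum of StIG)` with `J = 2`, tents
`((0,1), κ, 0)` with `L = M`, `((1,-1), kQ, ka₀)` with `L = DM`, forms `l_0 = (0,1)`, `l_1 = (1,-1)`,
`l_2 = (1,1)`, `l_3 = (1,0)`, `F_0 = fp f`, `F_1 = F_2 = conj (fp f)`; support: BEx
(`0 ≤ s`, `0 ≤ r-s`, `r ≤ CM`), `C = 2kQD+ka₀+2κ`. -/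
def StBXy : Prop := StBEx → StBBx → StIG → ∀ f : ℕ → ℂ, CM f → Aper f → ∀ κ k Q D a₀ : ℕ,
  0 < κ → 0 < k → 0 < Q → 0 < D →
    Tendsto (fun M : ℕ => Bx Q D a₀ M fun a n => f (tX κ k a n) * conj (f (tY κ k a n)))
      atTop (𝓝 0)

/-- multiplication by the Gaussian integer `a + ib` -/
def gm (π v : ℤ × ℤ) : ℤ × ℤ := (π.1 * v.1 - π.2 * v.2, π.1 * v.2 + π.2 * v.1)

/-- norm -/
def gn (v : ℤ × ℤ) : ℕ := (v.1 ^ 2 + v.2 ^ 2).natAbs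

/-- a good Gaussian prime: `π = a + ib`, `a > b > 0`, of prime norm -/
def GP (π : ℤ × ℤ) : Prop := 0 < π.2 ∧ π.2 < π.1 ∧ (gn π).Prime

/-- `π` divides `v` in the Gaussian integers -/
def gdv (π v : ℤ × ℤ) : Prop := ∃ u : ℤ × ℤ, v = gm π u

/-- EASY.  ITEM GEl (elementary facts).  `gn (gm π v) = gn π * gn v`; `gm` is commutative and
associative; `gm π` is injective if `π ≠ 0`; `π ∈ GP`, `π' ∈ GP`, `π ≠ π'` have different norms (a prime is a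
sum `a²+b²`, `a > b > 0`, in one way only: Mathlib or: `ab' ≠ a'b` as `gcd(a,b) = 1`, and
`p = p'` gives `p | (ab')² - (a'b)²`...: simply use unique factorisation in `GaussianInt`), and
`ab' ≠ a'b`. -/
def StGEl : Prop :=
  (∀ π v, gn (gm π v) = gn π * gn v) ∧ (∀ π v, gm π v = gm v π) ∧
  (∀ π ρ v, gm π (gm ρ v) = gm (gm π ρ) v) ∧
  (∀ π v w, π ≠ 0 → gm π v = gm π w → v = w) ∧
  (∀ π ρ, GP π → GP ρ → π ≠ ρ → gn π ≠ gn ρ ∧ π.1 * ρ.2 ≠ ρ.1 * π.2)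

/-- EASY-MEDIUM.  ITEM GPr (there are many Gaussian primes).  `∑ 1/p` over the primes
`p ≡ 1 mod 4` diverges (Dirichlet in the form of Mathlib's
`ArithmeticFunction.vonMangoldt.not_summable_residueClass_prime_div`-type results gives
`∑ log p/p`; for `1/p`: use the Dirichlet series: `∑_{p ≡ 1 (4)} p^(-σ) → ∞` as `σ → 1`, or the
prime number theorem in progressions on main, `MP_b51559_nt/BG/A` (`psi(x;4,1) ~ x/2`), or the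
elementary fact that every `n²+1`-type product has only such odd prime factors); every such `p` is
`a²+b²` with `a > b > 0` (`Nat.Prime.sq_add_sq`). -/
def StGPr : Prop := ∀ s : ℝ, ∃ S : Finset (ℤ × ℤ), (∀ π ∈ S, GP π) ∧
  s ≤ ∑ π ∈ S, (1 : ℝ) / (gn π : ℝ)

/-- EASY-MEDIUM.  ITEM GCt (counting multiples in a box).  The multiples of `δ ≠ 0` form a subgroup
of `ℤ²` of index `n = gn δ` containing `nℤ²` (`n v = gm δ (gm (conj δ) v)`).  A box `[-R,R]²` is, up to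
`4n(2R+1)` points, a union of `⌊(2R+1)/n⌋²` disjoint translates of `[0,n)²`, each of which contains
exactly `n²/n = n` multiples of `δ`.  So `|# - (2R+1)²/n| ≤ 8n(2R+1)`, say. -/
def StGCt : Prop := ∀ δ : ℤ × ℤ, δ ≠ 0 → ∀ R : ℕ,
  |(∑ v ∈ U3.bx (R : ℤ), Set.indicator {v | gdv δ v} (fun _ => (1 : ℝ)) v) -
    (2 * R + 1) ^ 2 / (gn δ : ℝ)| ≤ 8 * (gn δ : ℝ) * (2 * R + 1)

/-- MEDIUM.  ITEM GTk (Turan-Kubilius on `ℤ²`; uses GEl, GCt).  `ω(v) = #{π ∈ S : π | v}`,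
`s = ∑_{π∈S} 1/gn π`.  For `π ≠ π'` in `S`: `π | v` and `π' | v` iff `gm π π' | v` (coprime norms
`p, p'`: take `αp + βp' = 1` in `ℤ`; `v = αp v + βp' v`, `p v = gm π (gm (conj π) v)` and `π' | v`, so
`αp v` and `βp' v` are both divisible by `gm π π'`).  By GCt, for fixed `S` and `R → ∞`:
`(2R+1)⁻² ∑_{v∈bx R} (ω(v) - s)² → ∑_{π≠π'} 1/(pp') + ∑ 1/p - 2s·s + s² = s - ∑ 1/p² ≤ s`. So the sum is
`≤ 2 s (2R+1)²` for `R ≥ R₀(S)` (if `s > 0`). -/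
def StGTk : Prop := StGEl → StGCt → ∀ S : Finset (ℤ × ℤ), (∀ π ∈ S, GP π) → S.Nonempty →
  ∃ R₀ : ℕ, ∀ R ≥ R₀, ∀ ω : ℤ × ℤ → ℝ,
    (∀ v, ω v = ∑ π ∈ S, Set.indicator {v | gdv π v} (fun _ => (1 : ℝ)) v) →
    ∑ v ∈ U3.bx (R : ℤ), (ω v - ∑ π ∈ S, (1 : ℝ) / (gn π : ℝ)) ^ 2 ≤
      2 * (∑ π ∈ S, (1 : ℝ) / (gn π : ℝ)) * (2 * R + 1) ^ 2

/-- MEDIUM.  ITEM GKa (Katai's criterion over the Gaussian integers; uses GEl, GPr, GCt, GTk).  `ψ` is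
supported in `bx R`, `|ψ| ≤ 1`, `G(v) = g(gn v)`.  Let `B = (2R+1)²` (`R² ≤ B ≤ 9R²`), `c' = c/9`, so
`c'B ≤ |∑ψG|`.  Choose `S` with `s ≥ 32/c'²` (GPr).  Cauchy-Schwarz and GTk:
`|∑ψG(ω-s)| ≤ √B √(2sB) ≤ (s c'/2) B` as `s c'² ≥ 8`, so `|∑_v ψ(v)G(v)ω(v)| ≥ (s c'/2)B`.  The left side is
`|∑_{π∈S} ∑_{u} ψ(πu) g(gn π) g(gn u)|` (`v = πu`; `u ∈ bx R` whenever `πu ∈ bx R`, `gm` injective) `≤
∑_{u∈bx R} |∑_π g(gn π)ψ(πu)|`.  Cauchy-Schwarz: `(s c'/2)²B² ≤ B ∑_{π,π'} g(gn π)conj g(gn π')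
∑_u ψ(πu)conj ψ(π'u)`; the diagonal terms are at most `∑_π #{v ∈ bx R : π | v} ≤ 2sB` for `R ≥ R₀` (GCt).
`s²c'²/4 - 2s ≥ s²c'²/8` if `s c'² ≥ 16`.  So some `π ≠ π'` has
`|∑_u ψ(πu)conj ψ(π'u)| ≥ s²c'²/(8|S|²) B`.  The set `S` depends on `c` only. -/
def StGKa : Prop := StGEl → StGPr → StGCt → StGTk → ∀ c : ℝ, 0 < c →
  ∃ (S : Finset (ℤ × ℤ)) (R₀ : ℕ) (κ : ℝ), 0 < κ ∧ (∀ π ∈ S, GP π) ∧ ∀ R ≥ R₀, ∀ g : ℕ → ℂ, CM g →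
  ∀ ψ : ℤ × ℤ → ℂ, (∀ v, ‖ψ v‖ ≤ 1) → (∀ v, v ∉ U3.bx (R : ℤ) → ψ v = 0) →
  c * (R : ℝ) ^ 2 ≤ ‖∑ v ∈ U3.bx (R : ℤ), ψ v * g (gn v)‖ →
  ∃ π ∈ S, ∃ ρ ∈ S, π ≠ ρ ∧
    κ * (R : ℝ) ^ 2 ≤ ‖∑ u ∈ U3.bx (R : ℤ), ψ (gm π u) * conj (ψ (gm ρ u))‖

/-- the conclusion of GKa, as hypothesis for the next items -/
def GKaC : Prop := ∀ c : ℝ, 0 < c →
  ∃ (S : Finset (ℤ × ℤ)) (R₀ : ℕ) (κ : ℝ), 0 < κ ∧ (∀ π ∈ S, GP π) ∧ ∀ R ≥ R₀, ∀ g : ℕ → ℂ, CM g →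
  ∀ ψ : ℤ × ℤ → ℂ, (∀ v, ‖ψ v‖ ≤ 1) → (∀ v, v ∉ U3.bx (R : ℤ) → ψ v = 0) →
  c * (R : ℝ) ^ 2 ≤ ‖∑ v ∈ U3.bx (R : ℤ), ψ v * g (gn v)‖ →
  ∃ π ∈ S, ∃ ρ ∈ S, π ≠ ρ ∧
    κ * (R : ℝ) ^ 2 ≤ ‖∑ u ∈ U3.bx (R : ℤ), ψ (gm π u) * conj (ψ (gm ρ u))‖

/-- the weight times `f` at two forms `A, B` (coefficient vectors), in the variables `v = (r,s)` -/
noncomputable def psB (f : ℕ → ℂ) (A B : ℤ × ℤ) (κ k Q D a₀ M : ℕ) (v : ℤ × ℤ) : ℂ :=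
  ((tnt M κ 0 v.2 : ℂ) / (M : ℂ)) *
    ((tnt (D * M) (k * Q) ((k * a₀ : ℕ) : ℤ) (v.1 - v.2) : ℂ) / ((D * M : ℕ) : ℂ)) *
      (fp f (U3.lf A v) * fp f (U3.lf B v))

/-- MEDIUM.  ITEM BPi (the bilinear sum; uses BEx, GEl, StIG).  `(A,B)` is `((1,0),(0,1))` (forms `r,s`) or
`((1,-1),(1,1))` (forms `r-s, r+s`).  `π = (a,b)`, `ρ = (a',b')` different good primes.  With
`r_π = a u₁ - b u₂`, `s_π = b u₁ + a u₂` the sum over `u` is the sum of StIG with `J = 4`: tents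
`(s_π, κ, 0)` (`L = M`), `(r_π - s_π, kQ, ka₀)` (`L = DM`), the same for `ρ`; forms `l_3 = A∘π` with `fp f`,
`l_0 = B∘π` with `F_0 = fp f`, `l_1 = A∘ρ`, `l_2 = B∘ρ` with `F = conj (fp f)`.  Determinants, case
`(r,s)`: `dt(r_π,s_π) = a²+b²`, `dt(r_π,r_ρ) = a'b-ab'`, `dt(r_π,s_ρ) = aa'+bb'`, `dt(s_π,r_ρ) = -(aa'+bb')`,
`dt(s_π,s_ρ) = a'b-ab'`, all nonzero (GEl); case `(r-s,r+s)`: the same times 2 up to order.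
Support: if the tents at `π` are nonzero then `0 ≤ s_π ≤ r_π ≤ CM`, and `u = (r_π,s_π) conj(π)/p`, so
`|u_i| ≤ (a+b)CM/p ≤ CM`. -/
def StBPi : Prop := StBEx → StGEl → StIG → ∀ f : ℕ → ℂ, CM f → Aper f → ∀ κ k Q D a₀ C : ℕ,
  0 < κ → 0 < k → 0 < Q → 0 < D → C = 2 * k * Q * D + k * a₀ + 2 * κ →
  ∀ A B : ℤ × ℤ, ((A = (1, 0) ∧ B = (0, 1)) ∨ (A = (1, -1) ∧ B = (1, 1))) →
  ∀ π ρ : ℤ × ℤ, GP π → GP ρ → π ≠ ρ → ∀ ε : ℝ, 0 < ε → ∃ M₀ : ℕ, ∀ M ≥ M₀,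
    ‖∑ u ∈ U3.bx (C * M : ℤ), psB f A B κ k Q D a₀ M (gm π u) *
      conj (psB f A B κ k Q D a₀ M (gm ρ u))‖ ≤ ε * (M : ℝ) ^ 2

/-- the conclusion of BPi -/
def BPiC : Prop := ∀ f : ℕ → ℂ, CM f → Aper f → ∀ κ k Q D a₀ C : ℕ,
  0 < κ → 0 < k → 0 < Q → 0 < D → C = 2 * k * Q * D + k * a₀ + 2 * κ →
  ∀ A B : ℤ × ℤ, ((A = (1, 0) ∧ B = (0, 1)) ∨ (A = (1, -1) ∧ B = (1, 1))) →
  ∀ π ρ : ℤ × ℤ, GP π → GP ρ → π ≠ ρ → ∀ ε : ℝ, 0 < ε → ∃ M₀ : ℕ, ∀ M ≥ M₀,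
    ‖∑ u ∈ U3.bx (C * M : ℤ), psB f A B κ k Q D a₀ M (gm π u) *
      conj (psB f A B κ k Q D a₀ M (gm ρ u))‖ ≤ ε * (M : ℝ) ^ 2

/-- MEDIUM.  ITEM BZz (correlations with `z`; uses BEx, BBx, GKaC, BPiC).  `z = r²+s² = gn (r,s)`.  Let
`C` be as above, `R = CM`.  By BBx the average of `H(r,s) = fp f(A)fp f(B)conj f(gn)` is
`(DM²)⁻¹∑_{v∈bx R} psB(v) g(gn v)`, `g = conj f` (CM).  If its modulus is `≥ ε` for some large `M` then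
`|∑| ≥ εDM² = c R²`, `c = εD/C²`; `‖psB‖ ≤ 1` and `psB = 0` outside `bx R` (BEx); GKaC gives `π ≠ ρ` in
the finite set `S(c)` with `κ₀R² ≤ |∑_u psB(πu)conj psB(ρu)|`, which contradicts BPiC for `M` larger than the
finitely many `M₀(π,ρ)` with `ε' = κ₀C²/2`. -/
def StBZz : Prop := StBEx → StBBx → GKaC → BPiC → ∀ f : ℕ → ℂ, CM f → Aper f →
  ∀ κ k Q D a₀ : ℕ, 0 < κ → 0 < k → 0 < Q → 0 < D →
  ∀ A B : ℤ × ℤ, ((A = (1, 0) ∧ B = (0, 1)) ∨ (A = (1, -1) ∧ B = (1, 1))) →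
    Tendsto (fun M : ℕ => Bx Q D a₀ M fun a n =>
      fp f (U3.lf A (((k * a + κ * n : ℕ) : ℤ), ((κ * n : ℕ) : ℤ))) *
        fp f (U3.lf B (((k * a + κ * n : ℕ) : ℤ), ((κ * n : ℕ) : ℤ))) *
          conj (f (tZ κ k a n))) atTop (𝓝 0)

/-- EASY.  ITEM BAll (assembly: AperStmt).  First limit BXy.  Second: `f(y) = f(r-s)f(r+s)` and BZz with
`A = (1,-1)`, `B = (1,1)` (`r-s = ka`, `r+s = ka+2κn`).  Third: `f(z)conj f(x) = conj(f(x)conj f(z))`,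
`f(x) = f(2)f(r)f(s)`, BZz with `A = (1,0)`, `B = (0,1)` and complex conjugation.  The hypothesis BXyC is the
conclusion of BXy. -/
def StBAll : Prop :=
  (∀ f : ℕ → ℂ, CM f → Aper f → ∀ κ k Q D a₀ : ℕ, 0 < κ → 0 < k → 0 < Q → 0 < D →
    Tendsto (fun M : ℕ => Bx Q D a₀ M fun a n => f (tX κ k a n) * conj (f (tY κ k a n)))
      atTop (𝓝 0)) →
  (∀ f : ℕ → ℂ, CM f → Aper f →
    ∀ κ k Q D a₀ : ℕ, 0 < κ → 0 < k → 0 < Q → 0 < D →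
    ∀ A B : ℤ × ℤ, ((A = (1, 0) ∧ B = (0, 1)) ∨ (A = (1, -1) ∧ B = (1, 1))) →
    Tendsto (fun M : ℕ => Bx Q D a₀ M fun a n =>
      fp f (U3.lf A (((k * a + κ * n : ℕ) : ℤ), ((κ * n : ℕ) : ℤ))) *
        fp f (U3.lf B (((k * a + κ * n : ℕ) : ℤ), ((κ * n : ℕ) : ℤ))) *
          conj (f (tZ κ k a n))) atTop (𝓝 0)) →
  AperStmt

end Pool.Agent.F0f91f8.HD
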