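import Pool.Agent.Work.MP_0f91f8_co.HD.Defs

/-!
# Half density, module B, second part: Katai's lemma for Gaussian integers

Gaussian integers are pairs of integers. `GP w`: `w = a + b i`, `0 < b < a`, of prime norm
(`= 1 mod 4`). Everything is elementary; every docstring is the complete proof. No item has to
wait for another one: a theorem may assume EARLIER items of this file as hypotheses
(`(h : StCnt1)` etc.).
-/

set_option autoImplicit false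

namespace Pool.Agent.F0f91f8.HD.B2

open Filter Topology ComplexConjugate
open scoped BigOperators Classical

/-- multiplication of Gaussian integers, as pairs -/
def gm (w g : ℤ × ℤ) : ℤ × ℤ := (w.1 * g.1 - w.2 * g.2, w.2 * g.1 + w.1 * g.2)

/-- the norm of a Gaussian integer -/
def nm (g : ℤ × ℤ) : ℕ := (g.1 ^ 2 + g.2 ^ 2).natAbs

/-- the square `|x|, |y| ≤ R` -/
noncomputable def box (R : ℕ) : Finset (ℤ × ℤ) := Finset.Icc (-(R : ℤ)) R ×ˢ Finset.Icc (-(R : ℤ)) R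

/-- the Gaussian primes `a + b i`, `0 < b < a`, `a² + b²` prime -/
def GP (w : ℤ × ℤ) : Prop := 0 < w.2 ∧ w.2 < w.1 ∧ (nm w).Prime

/-- divisibility -/
def dv (w b : ℤ × ℤ) : Prop := ∃ g, b = gm w g

/-- `Σ 1/N(w)` -/
noncomputable def SP (P : Finset (ℤ × ℤ)) : ℝ := ∑ w ∈ P, 1 / (nm w : ℝ)

/-- the number of divisors in `P` -/
noncomputable def om (P : Finset (ℤ × ℤ)) (b : ℤ × ℤ) : ℕ := (P.filter (fun w => dv w b)).card

/-- EASY [Alg]. (1) `gm w` is injective for `w ≠ 0`; (2) the norm is multiplicative; (3) for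
`GP w` with `p = nm w`, `w = (a, b)`, and `β = (x, y)`: `w` divides `β` iff `p ∣ a y - b x`;
(4) two different `w, w'` with `GP` have different norms; (5) for `GP w` (so `p ≥ 5`) and
`gm w g ∈ box R` one has `g ∈ box R`.
PROOF. (1) if `gm w g = gm w g'` then `nm w * nm (g - g') = 0` (use (2) for the difference,
`gm w g - gm w g' = gm w (g - g')`). (2) `ring`. (3) If `β = gm w (u, v)`, `x = a u - b v`,
`y = b u + a v`, then `a y - b x = (a² + b²) v`. Conversely let `a y - b x = p v`. Then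
`b (a x + b y) = a (b x) + b² y = a (a y - p v) + b² y = p (y - a v)`; as `p` is prime and
`0 < b < a`, `b² < p`, `p ∤ b`, so `p ∣ a x + b y`, `a x + b y = p u`, and
`p (a u - b v) = a (a x + b y) - b (a y - b x) = p x`, similarly `y`. (4) Let
`a² + b² = a'² + b'² = p`. `(a b' - a' b)(a b' + a' b) = a² b'² - a'² b² = p (b'² - b²)`, so `p`
divides `a b' - a' b` or `a b' + a' b`. By `(a a' + b b')² + (a b' - a' b)² = p²` both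
`|a b' - a' b|` and (by the same identity with `b' ↦ -b'`) `a b' + a' b` are `≤ p`. If
`p ∣ a b' - a' b` then `a b' - a' b = 0` (it is not `± p` because `a a' + b b' > 0`), so
`a b' = a' b`, and `a, b` coprime (a common prime factor would have its square dividing `p`) and
`a', b'` coprime give `a = a'`, `b = b'`. If `p ∣ a b' + a' b` (positive and `≤ p`), it is `p`,
so `a a' - b b' = 0`, but `a a' > b b'`: contradiction. (5) `nm w ≥ 5` as `a ≥ 2`, `b ≥ 1`; if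
`g = (u, v)`, then `5 (u² + v²) ≤ x² + y² ≤ 2 R²`, so `u², v² ≤ R²`. -/
def StAlg : Prop :=
  (∀ w g g' : ℤ × ℤ, w ≠ 0 → gm w g = gm w g' → g = g') ∧
  (∀ w g : ℤ × ℤ, nm (gm w g) = nm w * nm g) ∧
  (∀ w b : ℤ × ℤ, GP w → (dv w b ↔ (nm w : ℤ) ∣ w.1 * b.2 - w.2 * b.1)) ∧
  (∀ w w' : ℤ × ℤ, GP w → GP w' → w ≠ w' → nm w ≠ nm w') ∧
  (∀ (w g : ℤ × ℤ) (R : ℕ), GP w → gm w g ∈ box R → g ∈ box R)

/-- EASY [Cls]. In an interval of `2 R + 1` consecutive integers every residue class modulo `q ≥ 1`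
has `(2 R + 1) / q + θ` elements, `|θ| ≤ 1`. PROOF. Mathlib `Int.Ico_filter_modEq_card` or
`Int.Ioc_filter_modEq_card` (floor formula), `|⌊x⌋ - ⌊y⌋ - (x - y)| < 1`. -/
def StCls : Prop := ∀ (R q : ℕ) (c : ℤ), 0 < q →
  |((((Finset.Icc (-(R : ℤ)) R).filter (fun y => y ≡ c [ZMOD q])).card : ℕ) : ℝ)
    - (2 * R + 1 : ℝ) / q| ≤ 1

/-- EASY-MEDIUM [Cnt1]. Number of multiples of `w` in the box. PROOF. By `StAlg` (3) the condition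
is `a y ≡ b x mod p`, `p ∤ a` (as `0 < a`, `a² < p`), so for every `x` it is one residue class for
`y` (`a` is invertible mod `p`): `StCls` for each of the `2 R + 1` values of `x`. -/
def StCnt1 : Prop := ∀ (w : ℤ × ℤ) (R : ℕ), GP w →
  |((((box R).filter (fun b => dv w b)).card : ℕ) : ℝ) - (2 * R + 1 : ℝ) ^ 2 / nm w| ≤ 2 * R + 1

/-- EASY-MEDIUM [Cnt2]. Number of common multiples of two different `w, w'`. PROOF. As `StCnt1`: the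
norms `p ≠ p'` (`StAlg` (4)) are different primes, for every `x` the two conditions
`a y ≡ b x mod p`, `a' y ≡ b' x mod p'` are one class modulo `p p'` (Chinese remainder). -/
def StCnt2 : Prop := ∀ (w w' : ℤ × ℤ) (R : ℕ), GP w → GP w' → w ≠ w' →
  |((((box R).filter (fun b => dv w b ∧ dv w' b)).card : ℕ) : ℝ)
    - (2 * R + 1 : ℝ) ^ 2 / (nm w * nm w')| ≤ 2 * R + 1

/-- MEDIUM [TK]. Turan-Kubilius in the box. PROOF. Let `B = (2 R + 1)²`, `n = #P`, `S = SP P`,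
`S ≤ n`. `om P β = Σ_w 1[w ∣ β]`. `Σ_β om² = Σ_{w, w'} #{w, w' ∣ β} ≤
Σ_{w ≠ w'} (B / (N N') + 2 R + 1) + Σ_w (B / N + 2 R + 1) ≤ B S² + B S + n² (2 R + 1)` (in the first
sum drop nothing but the diagonal, `Σ_{w ≠ w'} 1/(N N') ≤ S²`);
`Σ_β om = Σ_w #{w ∣ β} ≥ B S - n (2 R + 1)`. So `Σ_β (om - S)² ≤ B S² + B S + n² (2R+1)
- 2 S (B S - n (2R+1)) + S² B = B S + (n² + 2 S n)(2R+1) ≤ B S + 3 n² (2R+1)`. -/
def StTK : Prop := ∀ (P : Finset (ℤ × ℤ)) (R : ℕ), (∀ w ∈ P, GP w) →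
  ∑ b ∈ box R, ((om P b : ℝ) - SP P) ^ 2 ≤
    (2 * R + 1 : ℝ) ^ 2 * SP P + 3 * (P.card : ℝ) ^ 2 * (2 * R + 1)

/-- EASY-MEDIUM [Swp]. `ψ` supported in the box, `g` multiplicative for multiplication by the
elements of `P`. PROOF. `om P β = Σ_{w ∈ P} 1[w ∣ β]`; for fixed `w` the map `γ ↦ w γ` is a
bijection (`StAlg` (1)) of `{γ ∈ box R : w γ ∈ box R}` to `{β ∈ box R : w ∣ β}` (`StAlg` (5)), and
the terms `γ ∈ box R` with `w γ ∉ box R` vanish. -/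
def StSwp : Prop := ∀ (P : Finset (ℤ × ℤ)) (R : ℕ) (ψ g : ℤ × ℤ → ℂ), (∀ w ∈ P, GP w) →
  (∀ b, b ∉ box R → ψ b = 0) → (∀ w ∈ P, ∀ b, g (gm w b) = g w * g b) →
  ∑ b ∈ box R, (om P b : ℂ) * (ψ b * g b) =
    ∑ b ∈ box R, g b * ∑ w ∈ P, g w * ψ (gm w b)

/-- EASY [Dia]. PROOF. `γ ↦ w γ` is injective from the `γ ∈ box R` with `ψ (w γ) ≠ 0` to
`{β ∈ box R : w ∣ β}`; `StCnt1`. -/
def StDia : Prop := ∀ (w : ℤ × ℤ) (R : ℕ) (ψ : ℤ × ℤ → ℂ), GP w → (∀ b, b ∉ box R → ψ b = 0) →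
  (∀ b, ‖ψ b‖ ≤ 1) →
  ∑ b ∈ box R, ‖ψ (gm w b)‖ ^ 2 ≤ (2 * R + 1 : ℝ) ^ 2 / nm w + (2 * R + 1)

/-- EASY-MEDIUM [Prm]. Finite sets of Gaussian primes with large `Σ 1/N`. PROOF. `MER` of block RG
(`Pool/Agent/Work/MP_0f91f8_co/Rg/I_MER.lean`): for every `A` there are `k₂ = 1`, `k₃`, `T` with
`Σ 1/p ≥ A` over the primes `p = 1 mod 4` in `(T^k₂, T^k₃]`. Every prime `p = 1 mod 4` is
`a² + b²` (`Nat.Prime.sq_add_sq`), and w.l.o.g. `0 < b < a` (`b ≠ 0` as `p` is not a square,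
`a ≠ b` as `p` is odd). Take one such `w` for each of these `p`; different `p` give different `w`.
-/
def StPrm : Prop := ∀ A : ℝ, ∃ P : Finset (ℤ × ℤ), (∀ w ∈ P, GP w) ∧ A ≤ SP P

/-- MEDIUM [Kat]. KATAI'S LEMMA. PROOF. By `StPrm` choose `P` with `S = SP P ≥ A`, `A` below;
`n = #P ≥ 1`. Let `R` be large (depending on `P`), `B = (2R+1)² ≤ 9 R²`, and suppose
`3 n² (2 R + 1) ≤ R² ≤ B S`, `n (2R+1) ≤ R²`. Let `X = Σ_β ψ g`, `‖X‖ ≥ c R²`. Then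
`S X = Σ om ψ g - Σ (om - S) ψ g`, and by Cauchy-Schwarz and `StTK`
`‖Σ (om - S) ψ g‖ ≤ (B S + R²)^(1/2) B^(1/2) ≤ (18 R² S · 9 R²)^(1/2) ≤ 13 R² S^(1/2)` (if
`S ≥ 1`), which is `≤ c R² S / 2` for `S ≥ (26/c)²`. So `Y = Σ om ψ g` has `‖Y‖ ≥ c R² S / 2`.
By `StSwp` `Y = Σ_γ g(γ) H(γ)`, `H(γ) = Σ_w g(w) ψ(w γ)`. Cauchy-Schwarz:
`c² R⁴ S² / 4 ≤ ‖Y‖² ≤ B Σ_γ ‖H‖²`, and `Σ_γ ‖H‖² = Σ_{w, w'} g(w) conj g(w')
Σ_γ ψ(w γ) conj ψ(w' γ) ≤ Σ_w Σ_γ ‖ψ(w γ)‖² + Σ_{w ≠ w'} ‖..‖ ≤ (B S + n (2R+1)) +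
Σ_{w ≠ w'} ‖..‖ ≤ 18 R² S + Σ_{w ≠ w'} ‖..‖` by `StDia`. So
`Σ_{w ≠ w'} ‖Σ_γ ψ(w γ) conj ψ(w' γ)‖ ≥ c² R² S² / 36 - 18 R² S ≥ c² R² S² / 72` if
`S ≥ 1296 / c²`. One of the at most `n²` pairs has `≥ κ R²`, `κ = c² S² / (72 n²)`. Take
`A = 1 + 1296 / c² `. -/
def StKat : Prop := ∀ c : ℝ, 0 < c → ∃ P : Finset (ℤ × ℤ), (∀ w ∈ P, GP w) ∧
  ∃ κ : ℝ, 0 < κ ∧ ∃ R₀ : ℕ, ∀ R ≥ R₀, ∀ ψ g : ℤ × ℤ → ℂ, (∀ b, ‖ψ b‖ ≤ 1) →
    (∀ b, b ∉ box R → ψ b = 0) → (∀ b, ‖g b‖ ≤ 1) → (∀ w ∈ P, ∀ b, g (gm w b) = g w * g b) →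
    c * (R : ℝ) ^ 2 ≤ ‖∑ b ∈ box R, ψ b * g b‖ →
    ∃ w ∈ P, ∃ w' ∈ P, w ≠ w' ∧
      κ * (R : ℝ) ^ 2 ≤ ‖∑ b ∈ box R, ψ (gm w b) * conj (ψ (gm w' b))‖

end Pool.Agent.F0f91f8.HD.B2
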