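import Pool.Agent.Work.MP_0f91f8_co.HD.StmtsB2
import Pool.Agent.Work.MP_0f91f8_co.U3.Stmts

/-!
# Half density, module B, third part: from `U3.StA` (helper40) to `AperStmt`

`StA`: four pairwise independent linear forms, three arbitrary bounded functions supported in
`[-N, N]`, the fourth one aperiodic, cut to an interval. Here: tents are trigonometric polynomials
(`Ten`), integer form `IG`, and the three pair correlations. Every docstring is the complete proof.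
No item has to wait for another one: a theorem may assume EARLIER items of this file and all items
of `StmtsB2.lean` as hypotheses (`(h : StIG)` etc.).
-/

set_option autoImplicit false

namespace Pool.Agent.F0f91f8.HD.B3

open Filter Topology ComplexConjugate
open Pool.Agent.F0f91f8.HD.B2
open Pool.Agent.U3 (ee lf dt sz bx)
open scoped BigOperators Classical

/-- number of representations `s = κ (u + u') + c` with `1 ≤ u, u' ≤ L` -/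
noncomputable def tent (L κ : ℕ) (c s : ℤ) : ℕ :=
  ((Finset.Icc 1 L ×ˢ Finset.Icc 1 L).filter
    (fun u : ℕ × ℕ => (κ : ℤ) * ((u.1 : ℤ) + u.2) + c = s)).card

/-- the weight of a Gaussian integer `b = m + i n`, `n = κ (u + u')`, `m - n = k (Q (v + v') + a₀)` -/
noncomputable def WT (κ k Q D a₀ M : ℕ) (b : ℤ × ℤ) : ℕ :=
  tent M κ 0 b.2 * tent (D * M) (k * Q) ((k * a₀ : ℕ) : ℤ) (b.1 - b.2)

/-- the box of the support -/
def CC (κ k Q D a₀ : ℕ) : ℕ := 2 * k * Q * D + k * a₀ + 2 * κ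

/-- the form `r` composed with multiplication by `w`: `lf r (gm w v) = lf (pb w r) v` -/
def pb (w r : ℤ × ℤ) : ℤ × ℤ := (r.1 * w.1 + r.2 * w.2, r.2 * w.1 - r.1 * w.2)

/-- EASY-MEDIUM [Ten]. Tents are trigonometric polynomials. PROOF. If `|c| + 2 κ L ≥ P` take `a = 0`
(the second condition is empty). Otherwise
`a k = P⁻¹ e(-k c/P) (Σ_{u=1}^L e(-k κ u/P))²`, `k < P`. By orthogonality
(`Σ_{k<P} e(k n/P) = P` if `P ∣ n`, else `0`) `Σ_k a k e(k s/P) = #{(u,u') : P ∣ s - c - κ(u+u')}`,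
and `|s - c - κ (u+u')| ≤ |s| + |c| + 2 κ L < P`, so this is the tent.
`Σ ‖a k‖ = P⁻¹ Σ_k |Σ_u e(-kκu/P)|² = #{(u,u') : P ∣ κ (u - u')} = L` since
`|κ (u - u')| < κ L < P` and `κ > 0` (if `L = 0` everything is `0`). -/
def StTen : Prop := ∀ (L κ P : ℕ) (c : ℤ), 0 < κ → 0 < P → ∃ a : ℕ → ℂ,
  (∑ k ∈ Finset.range P, ‖a k‖) ≤ L ∧
  ∀ s : ℤ, |s| + |c| + 2 * κ * L < P →
    (tent L κ c s : ℂ) = ∑ k ∈ Finset.range P, a k * ee ((k : ℝ) * s / P)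

/-- MEDIUM [IG]. INTEGER FORM, from `U3.StA` (write the theorem as
`IG_pf (hA : Pool.Agent.U3.StA) (hT : StTen) : StIG`). Four pairwise independent linear forms `l i`,
weights `W(v) = ∏_j tent(D_j M, κ_j, c_j)(m_j v)`, supported in the box `C M`.
PROOF. `g n = f |n|` (`n : ℤ`) is `U3.CM` and `U3.Aper`. `T = Σ_i sz (l i) ≥ 1`,
`N = T (C+1) M`; for `v ∈ box (C M)` all `|lf (l i) v| ≤ N`. As `W` vanishes outside `box (C M)`,
the sum is `Σ_{v ∈ bx (T N)} W(v) ∏_{i<3} F'_i(l_i v) 1_[1,N](l_3 v) g(l_3 v)`, where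
`F'_i = F_i 1_{|s| ≤ N}` (`f 0 = 0`, so `f (s.toNat) = 0` for `s ≤ 0`; `box (C M) ⊆ bx (T N)`).
Choose `P` larger than all `sz (m_j) T N + |c_j| + 2 κ_j D_j M`. By `StTen` (for every `j`) for all
`v ∈ bx (T N)`: `W(v) = ∏_j Σ_{k<P} a_{j,k} e(k m_j(v)/P) = Σ_{k : Fin J → range P}
(∏_j a_{j,k_j}) e(θ_k(v))`, `θ_k(v) = Σ_j k_j m_j(v)/P` (`Finset.prod_univ_sum`). As `dt (l 0) (l 1)
≠ 0` there are real `α, β` with `θ_k(v) = α lf (l 0) v + β lf (l 1) v` (Cramer); so for fixed `k` the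
inner sum is the sum of `StA` for `f 0 (s) = F'_0(s) e(α s)`, `f 1 (s) = F'_1(s) e(β s)`,
`f 2 = F'_2`, `A = 1`, `B = N`: at most `ε' N²` for `M` large, `ε' = ε / (T (C+1))²`. Total:
`∏_j Σ_k ‖a_{j,k}‖ ε' N² ≤ ∏_j (D_j M) ε M²`. -/
def StIG : Prop := ∀ f : ℕ → ℂ, CM f → Aper f → ∀ l : Fin 4 → ℤ × ℤ,
  (∀ i j, i ≠ j → dt (l i) (l j) ≠ 0) → ∀ (J : ℕ) (m : Fin J → ℤ × ℤ) (D κ : Fin J → ℕ)
  (c : Fin J → ℤ), (∀ j, 0 < κ j) → ∀ C : ℕ,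
  (∀ (M : ℕ) (v : ℤ × ℤ), (∀ j, tent (D j * M) (κ j) (c j) (lf (m j) v) ≠ 0) → v ∈ box (C * M)) →
  ∀ ε : ℝ, 0 < ε → ∃ M₀ : ℕ, ∀ M ≥ M₀, ∀ F : Fin 3 → ℤ → ℂ, (∀ i s, ‖F i s‖ ≤ 1) →
    ‖∑ v ∈ box (C * M), (∏ j, (tent (D j * M) (κ j) (c j) (lf (m j) v) : ℂ)) *
      (∏ i, F i (lf (l i.castSucc) v)) * f (lf (l 3) v).toNat‖ ≤
      ε * (M : ℝ) ^ 2 * ∏ j, ((D j * M : ℕ) : ℝ)

/-- EASY [Sup]. Support and size of the weights. PROOF. `tent M κ 0 b.2 ≠ 0`: `b.2 = κ (u + u')`,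
`2 κ ≤ b.2 ≤ 2 κ M`; `b.1 - b.2 = k Q (v+v') + k a₀` is positive and `≤ 2 k Q D M + k a₀ ≤
(2 k Q D + k a₀) M` (`M ≥ 1` as there is a `u`). In a tent `u` determines `u'` (`κ > 0`), so it is
`≤ L`. -/
def StSup : Prop := ∀ κ k Q D a₀ M : ℕ, 0 < κ → 0 < k → 0 < Q →
  (∀ b : ℤ × ℤ, WT κ k Q D a₀ M b ≠ 0 → 0 < b.2 ∧ b.2 < b.1 ∧ b ∈ box (CC κ k Q D a₀ * M)) ∧
  (∀ b : ℤ × ℤ, WT κ k Q D a₀ M b ≤ M * (D * M))

/-- EASY-MEDIUM [Rew]. The average as a sum over Gaussian integers `b = m + i n`. PROOF.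
Sum over the fibres of `(u, u', v, v') ↦ (m, n)`, `n = κ (u + u')`,
`m = k (Q (v + v') + a₀) + κ (u + u')`: the number of `(u, u', v, v')` in the fibre of `b` is
`WT b`, and all images are in the box (`StSup`; or direct). `M = 0`: both sides are `0`. -/
def StRew : Prop := ∀ (κ k Q D a₀ M : ℕ) (Φ : ℕ → ℕ → ℂ), 0 < κ → 0 < k → 0 < Q →
  Bx Q D a₀ M (fun a n => Φ (k * a + κ * n) (κ * n)) =
    (∑ b ∈ box (CC κ k Q D a₀ * M), (WT κ k Q D a₀ M b : ℂ) * Φ b.1.toNat b.2.toNat) /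
      ((M : ℂ) ^ 2 * ((D * M : ℕ) : ℂ) ^ 2)

/-- EASY [Ind]. Independence of the pulled back forms, for `r₁ = (1,-1), r₂ = (1,1)` and for
`r₁ = (1,0), r₂ = (0,1)`. PROOF. `w = (a, b)`, `w' = (a', b')`. `dt (pb w r) (pb w' r')` is a
bilinear expression: the determinants are `± p`, `± 2 p` (`p = a² + b²`) for equal `w`, and
`± (a b' - a' b)`, `± (a a' + b b')` (first up to the factor `2`) for different `w`. `a a' + b b' > 0`.
If `a b' = a' b`: `a, b` are coprime and `a', b'` are coprime (`a² + b²` is prime), so `a = a'`,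
`b = b'`: contradiction. -/
def StInd : Prop := ∀ w w' : ℤ × ℤ, GP w → GP w' → w ≠ w' → ∀ r₁ r₂ : ℤ × ℤ,
  (r₁ = (1, -1) ∧ r₂ = (1, 1)) ∨ (r₁ = (1, 0) ∧ r₂ = (0, 1)) →
  ∀ i j : Fin 4, i ≠ j →
    dt ((![pb w r₁, pb w r₂, pb w' r₁, pb w' r₂] : Fin 4 → ℤ × ℤ) i)
      ((![pb w r₁, pb w r₂, pb w' r₁, pb w' r₂] : Fin 4 → ℤ × ℤ) j) ≠ 0

/-- MEDIUM [GK2]. GAUSSIAN KATAI AND THE INTEGER FORM (uses `StKat`, `StIG`, `StSup`, `StAlg`,
`StInd`). PROOF. `C = CC ..`, `C ≥ 1`, w.l.o.g. `D ≥ 1` (`D = 0`: all terms vanish). Put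
`ψ(b) = WT(b)/(M · D M) f(lf r₁ b) f(lf r₂ b)` (`f` at `toNat`), `g(b) = conj f (nm b)`. `‖ψ‖ ≤ 1` and
support in `box (C M)` by `StSup`, `g (gm w b) = g w * g b` (`nm` multiplicative, `StAlg`),
`‖g‖ ≤ 1`. Let `c = ε / C²` and take `P, κ', R₀` from `StKat`. For each pair `w ≠ w'` in `P` apply
`StIG` to the forms `l = ![pb w r₁, pb w r₂, pb w' r₁, pb w' r₂]` (`StInd`), the four tents with
forms `pb w (0,1)`, `pb w (1,-1)`, `pb w' (0,1)`, `pb w' (1,-1)` and data `(M, κ, 0)`,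
`(D M, k Q, k a₀)` twice (so `∏ tent = WT (gm w v) * WT (gm w' v)`, `lf r (gm w v) = lf (pb w r) v`;
support: `gm w v ∈ box (C M)` implies `v ∈ box (C M)`, `StAlg` (5)), `F 0 = F 1 = conj f`, `F 2 = f`
(at `toNat`), `ε' = κ' C² / 2`: for `M` large
`‖Σ_v ψ(gm w v) conj ψ(gm w' v)‖ ≤ ε' M² < κ' (C M)²` (take the conjugate of the sum). So by `StKat`
`‖Σ ψ g‖ < c (C M)² = ε M²` once `C M ≥ R₀`, `M ≥ 1`. Multiply by `M · D M`. -/
def StGK2 : Prop := ∀ f : ℕ → ℂ, CM f → Aper f → ∀ κ k Q D a₀ : ℕ, 0 < κ → 0 < k → 0 < Q →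
  ∀ r₁ r₂ : ℤ × ℤ, (r₁ = (1, -1) ∧ r₂ = (1, 1)) ∨ (r₁ = (1, 0) ∧ r₂ = (0, 1)) →
  ∀ ε : ℝ, 0 < ε → ∃ M₀ : ℕ, ∀ M ≥ M₀,
    ‖∑ b ∈ box (CC κ k Q D a₀ * M), (WT κ k Q D a₀ M b : ℂ) *
      (f (lf r₁ b).toNat * f (lf r₂ b).toNat * conj (f (nm b)))‖ ≤
      ε * (M : ℝ) ^ 2 * ((M : ℝ) * (D * M : ℕ))

/-- EASY-MEDIUM [XY]. The same for the pair `x, y`, directly from `StIG` (uses `StSup`): the forms
`n, m, m - n, m + n` on `b = (m, n)`, i.e. `l = ![(0,1), (1,-1), (1,1), (1,0)]`, two tents with forms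
`(0,1)`, `(1,-1)` and data `(M, κ, 0)`, `(D M, k Q, k a₀)`, `F 0 = f`, `F 1 = F 2 = conj f` at
`toNat`. -/
def StXY : Prop := ∀ f : ℕ → ℂ, CM f → Aper f → ∀ κ k Q D a₀ : ℕ, 0 < κ → 0 < k → 0 < Q →
  ∀ ε : ℝ, 0 < ε → ∃ M₀ : ℕ, ∀ M ≥ M₀,
    ‖∑ b ∈ box (CC κ k Q D a₀ * M), (WT κ k Q D a₀ M b : ℂ) *
      (f b.1.toNat * f b.2.toNat * conj (f (b.1 - b.2).toNat * f (b.1 + b.2).toNat))‖ ≤
      ε * (M : ℝ) ^ 2 * ((M : ℝ) * (D * M : ℕ))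

/-- EASY-MEDIUM [Fin]. `AperStmt` from `StRew`, `StSup`, `StXY`, `StGK2` (write
`Fin_pf (h1 : StRew) (h2 : StSup) (h3 : StXY) (h4 : StGK2) : AperStmt`). PROOF. With `m = k a + κ n`,
`n' = κ n`: `tX = 2 m n'`, `tY = (m - n')(m + n')`, `tZ = m² + n'²`. So the three functions are
`Φ(m, n')` with `Φ = f 2 f(m) f(n') conj (f(m - n') f(m + n'))` (`m ≥ n'`),
`f(m - n') f(m + n') conj f(m² + n'²)` and the conjugate of `f 2 f(m) f(n') conj f(m² + n'²)`. Apply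
`StRew`; on the support of `WT` `0 < n' < m` (`StSup`), so `toNat` of `m, n', m - n', m + n'` is
correct and `nm (m, n') = m² + n'²`; the bounds of `StXY`, `StGK2` (with `r₁ = (1,-1), r₂ = (1,1)`,
resp. `(1,0), (0,1)`; the constant `f 2` and conjugation do not change the norm) divided by
`M² (D M)²` are `ε M² M D M / (M² (D M)²) = ε / D ≤ ε`. -/
def StFin : Prop := AperStmt

end Pool.Agent.F0f91f8.HD.B3
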