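import Pool.Agent.Work.MP_0f91f8_co.HD.DefsD

/-!
# Half density, module D: the lower bound for pretentious functions. Statements, each with its
complete proof (captains helper7, helper83)

Item `X`: statement `StX`, file `HD/I_X.lean`, theorem `pr_X`, hypotheses named in the docstring.
`y` = the number with `y⁴ = M` (real), so `pr4 K M` is the set of the primes in `(K, y]`.
-/

set_option autoImplicit false

namespace Pool.Agent.F0f91f8.HD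

open Filter Topology ComplexConjugate
open scoped BigOperators

/-! ## 1. Averages -/

/-- [DBx] (EASY) `Bx` is linear, `|Bx F| ≤ BR |F|`, `BR` is monotone and additive, constants.
Immediate from the definitions (`Finset.sum_le_sum`, `norm_sum_le`; the denominator is the number of
terms; for `M = 0` everything is `0`). -/
def StDBx : Prop := ∀ Q D a₀ M : ℕ,
  (∀ F G : ℕ → ℕ → ℂ, Bx Q D a₀ M (fun a n => F a n + G a n) = Bx Q D a₀ M F + Bx Q D a₀ M G) ∧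
  (∀ (c : ℂ) (F : ℕ → ℕ → ℂ), Bx Q D a₀ M (fun a n => c * F a n) = c * Bx Q D a₀ M F) ∧
  (∀ F : ℕ → ℕ → ℂ, ‖Bx Q D a₀ M F‖ ≤ BR Q D a₀ M fun a n => ‖F a n‖) ∧
  (∀ F G : ℕ → ℕ → ℝ, (∀ a n, 0 < n → a₀ ≤ a → F a n ≤ G a n) → BR Q D a₀ M F ≤ BR Q D a₀ M G) ∧
  (∀ F G : ℕ → ℕ → ℝ, BR Q D a₀ M (fun a n => F a n + G a n) = BR Q D a₀ M F + BR Q D a₀ M G) ∧
  (∀ (c : ℝ) (F : ℕ → ℕ → ℝ), BR Q D a₀ M (fun a n => c * F a n) = c * BR Q D a₀ M F) ∧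
  (0 < D → 0 < M → Bx Q D a₀ M (fun _ _ => 1) = 1 ∧ BR Q D a₀ M (fun _ _ => 1) = 1)

/-- [DPd] (EASY) products: `Bx` is the product measure of the average over `(v, v')` (giving `a`)
and over `(u, u')` (giving `n`). Rearrange the finite sums (`Finset.sum_mul_sum`). -/
def StDPd : Prop := ∀ (Q D a₀ M : ℕ) (F G : ℕ → ℂ),
  Bx Q D a₀ M (fun a n => F a * G n) = EA Q D a₀ M F * EN M G

/-- [DAv] (EASY) `Av` of the pair correlations is the average of `CX + CY + CZ` over `e`, `e'`.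
Unfold, `pc f x y z` is the sum of the three products, linearity of `Bx` (hypothesis `StDBx`). -/
def StDAv : Prop := ∀ (f : ℕ → ℂ) (w K M : ℕ),
  Av w K M (pc f) = (∑ e : Fin (w + 1) → Fin K, ∑ e' : Fin (K + 1) → Fin K,
    (CX f w K e e' M + CY f w K e e' M + CZ f w K e e' M)) /
      ((K : ℂ) ^ (w + 1) * (K : ℂ) ^ (K + 1))

/-! ## 2. Turan and Kubilius -/

/-- [DTk] (EASY-MEDIUM) the inequality of Turan and Kubilius for residue classes. `P0` a finite set of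
primes, `S p` a set of at most two residues modulo `p` (`S p ⊆ range p`), `|θ p| ≤ 2`,
`I_p(u) = 1` if `u % p ∈ S p`. With `ρ = (S p).card`: `|#{u ≤ M : I_p} - M ρ_p/p| ≤ ρ_p`, and
`|#{u ≤ M : I_p, I_q} - M ρ_p ρ_q/(pq)| ≤ ρ_p ρ_q` for `p ≠ q` (Chinese remainder: `ρ_p ρ_q` classes
modulo `pq`). Expand the square: the terms `p ≠ q` of
`∑_u (I_p - ρ_p/p)(I_q - ρ_q/q)` are at most `ρ_p ρ_q (1 + 1/p + 1/q) ≤ 2 ρ_p ρ_q`, the term `p = q` is at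
most `∑_u I_p + M ρ_p^2/p^2 ≤ 2 M ρ_p/p + ρ_p + ...` (`ρ_p ≤ 2 ≤ p`). Total at most
`2 M ∑ ρ_p |θ_p|²/p + 3 (∑ ρ_p |θ_p|)²`, and `∑ ρ_p |θ_p| ≤ 4 |P0|`. -/
def StDTk : Prop := ∀ (P0 : Finset ℕ) (S : ℕ → Finset ℕ) (θ : ℕ → ℂ) (M : ℕ),
  (∀ p ∈ P0, p.Prime) → (∀ p ∈ P0, S p ⊆ Finset.range p ∧ (S p).card ≤ 2) →
  (∀ p ∈ P0, ‖θ p‖ ≤ 2) →
  ∑ u ∈ Finset.Icc 1 M, ‖(∑ p ∈ P0, if u % p ∈ S p then θ p else 0) -
      ∑ p ∈ P0, ((S p).card : ℂ) * θ p / p‖ ^ 2 ≤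
    2 * M * (∑ p ∈ P0, ((S p).card : ℝ) * ‖θ p‖ ^ 2 / p) + 48 * ((P0.card : ℝ)) ^ 2

/-- [DEx] (EASY) (i) `|e^z - e^w| ≤ |z - w|` if both real parts are `≤ 0` (mean value inequality on
the segment). (ii) for numbers `g p` of modulus one:
`|∏ g p - exp (∑ (g p - 1))| ≤ ∑ |g p - 1|²`: for one factor
`|e^(g-1) - g| ≤ |g - 1|²` (`|e^z - 1 - z| ≤ |z|²` for `Re z ≤ 0`, `|z| ≤ 2`: Taylor with integral remainder,
`|e^(sz)| ≤ 1`), all factors `g p`, `e^(g p - 1)` have modulus `≤ 1`, telescope. (iii)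
`|∏ z_i - ∏ w_i| ≤ ∑ |z_i - w_i|` for numbers of modulus `≤ 1`. -/
def StDEx : Prop :=
  (∀ z w : ℂ, z.re ≤ 0 → w.re ≤ 0 → ‖Complex.exp z - Complex.exp w‖ ≤ ‖z - w‖) ∧
  (∀ (S : Finset ℕ) (g : ℕ → ℂ), (∀ p ∈ S, ‖g p‖ = 1) →
    ‖∏ p ∈ S, g p - Complex.exp (∑ p ∈ S, (g p - 1))‖ ≤ ∑ p ∈ S, ‖g p - 1‖ ^ 2) ∧
  (∀ (S : Finset ℕ) (z w : ℕ → ℂ), (∀ p ∈ S, ‖z p‖ ≤ 1) → (∀ p ∈ S, ‖w p‖ ≤ 1) →
    ‖∏ p ∈ S, z p - ∏ p ∈ S, w p‖ ≤ ∑ p ∈ S, ‖z p - w p‖)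

/-- [DTl] (EASY) the tail `tl g K` is nonnegative, antitone, tends to `0`, bounds every finite sum, and
`er g K → 0`; `|cL|, |cQ| ≤ 1`; `1/√K ≤ er g K`, `√(tl) ≤ er`. (`Summable` from `G1.sm`; the real part
of the exponent of `cL`, `cQ` is `≤ 0`.) -/
def StDTl : Prop := ∀ g : ℕ → ℂ, G1 g →
  (∀ K, 0 ≤ tl g K) ∧ (∀ K L, K ≤ L → tl g L ≤ tl g K) ∧ Tendsto (tl g) atTop (𝓝 0) ∧
  Tendsto (er g) atTop (𝓝 0) ∧
  (∀ (K : ℕ) (S : Finset ℕ), (∀ p ∈ S, p.Prime ∧ K < p) → ∑ p ∈ S, ‖1 - g p‖ ^ 2 / (p : ℝ) ≤ tl g K) ∧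
  (∀ K M, ‖cL g K M‖ ≤ 1 ∧ ‖cQ g K M‖ ≤ 1) ∧
  (∀ K : ℕ, 0 < K → tl g K ≤ er g K ^ 2 ∧ 1 / (K : ℝ) ≤ er g K ^ 2)

/-- [DcD] (EASY-MEDIUM) `cL g K (D M) - cL g K M → 0` for fixed `D`. By (i) of `StDEx` the difference is at most
`∑ |g p - 1|/p` over the primes with `M < p⁴ ≤ D M`, which is
`≤ (∑ |g p - 1|²/p)^(1/2) (∑ 1/p)^(1/2)`; the first factor is `≤ tl(y)^(1/2) → 0`, the second is bounded:
`∑_(y < n ≤ D y) 1/n ≤ 1 + log D` (the fourth root of `D M` is at most `D y`). (hEx : StDEx, hTl : StDTl) -/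
def StDcD : Prop := ∀ g : ℕ → ℂ, G1 g → ∀ K D : ℕ, 0 < D →
  Tendsto (fun M : ℕ => cL g K (D * M) - cL g K M) atTop (𝓝 0)

/-! ## 3. Concentration on linear forms -/

/-- [DLs] (EASY-MEDIUM) splitting a value `R ≤ M^3`, `R ≥ 1`, all of whose prime factors `p ≤ K` are
ignored: `|gT g K R - exp (∑_(p ∈ pr4 K M, p ∣ R) (g p - 1))|` is at most
`2 · 1[p² ∣ R for some p ∈ pr4 K M] + ∑_(p ∈ pr4 K M, p ∣ R) |g p - 1|²
+ 12 (∑_(p ∣ R, p > K, p⁴ > M) |1 - g p|²)^(1/2)`.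
Proof: `gT g K R = ∏_(p ∈ pr4, p ∣ R) g p^(v_p) · ∏_(p ∣ R, K < p, M < p⁴) g p^(v_p)`. If `p² ∤ R` for
`p ∈ pr4` the first product is `∏ g p`, use (ii) of `StDEx`. Second product: `|g^v - 1| ≤ v |g - 1|`,
(iii) of `StDEx`, and `∑ v_p ≤ 12` (`M^(v/4) < p^v`, the product divides `R ≤ M³`), so by Cauchy-Schwarz
`∑ v_p |1 - g p| ≤ (∑ v_p)^(1/2) (∑ v_p |1 - g p|²)^(1/2) ≤ 12 (∑ |1 - g p|²)^(1/2)`.
(`|exp| ≤ 1`.) (hEx : StDEx) -/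
def StDLs : Prop := ∀ g : ℕ → ℂ, CM g → ∀ K M R : ℕ, 1 ≤ M → 1 ≤ R → R ≤ M ^ 3 →
  ‖gT g K R - Complex.exp (∑ p ∈ (pr4 K M).filter (fun p => p ∣ R), (g p - 1))‖ ≤
    2 * (if ∃ p ∈ pr4 K M, p ^ 2 ∣ R then 1 else 0) +
    ∑ p ∈ (pr4 K M).filter (fun p => p ∣ R), ‖g p - 1‖ ^ 2 +
    12 * Real.sqrt (∑ p ∈ R.primeFactors.filter (fun p => K < p ∧ M < p ^ 4), ‖1 - g p‖ ^ 2)

/-- [DLin] (MEDIUM) concentration for one linear form `α u + β`, `1 ≤ u ≤ M`, uniformly in `β ≤ C0 M`; all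
prime factors of `α` are `≤ K`. Proof. `R = α u + β ≤ (α + C0) M ≤ M²` for large `M`; `StDLs`.
(1) `p² ∣ R`, `p ∈ pr4`: at most `M/p² + 1` values of `u` (`α` is invertible mod `p²`), so the proportion is
`≤ ∑_(p > K) 1/p² + y/M ≤ 1/K + y/M`. (2) `(1/M) ∑_u ∑_(p ∈ pr4, p ∣ R) |g p - 1|² ≤ ∑ |g p - 1|² (1/p + 1/M)
≤ tl g K + 4 y/M`. (3) `StDTk` with `S p` = the residue of `-β/α` and `θ p = g p - 1`; by (i) of `StDEx` the
average of `|exp (∑_(p ∣ R)) - cL|` is at most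
`((1/M) ∑_u |..|²)^(1/2) ≤ (2 tl g K + 48 y²/M)^(1/2)`. (4) the last term: Cauchy-Schwarz in `u`,
`(1/M) ∑_u ∑_(p ∣ R, p⁴ > M) |1 - g p|² ≤ ∑_(y < p ≤ (α+C0) M) |1 - g p|² (1/p + 1/M)
≤ (1 + α + C0) tl g ⌊y⌋ → 0`. Since `tl g K ≤ er²` and everything is `≤ 2`, (2) gives `≤ 2 er` (either
`er ≥ 1` or `er² ≤ er`). Total `≤ C er g K + η` for `M ≥ M0`. (hTk, hEx, hTl, hLs) -/
def StDLin : Prop := ∃ C : ℝ, 0 < C ∧ ∀ g : ℕ → ℂ, G1 g → ∀ K α C0 : ℕ, 1 ≤ K → 0 < α →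
  (∀ p : ℕ, p.Prime → p ∣ α → p ≤ K) → ∀ η : ℝ, 0 < η → ∃ M0 : ℕ, ∀ M ≥ M0, ∀ β ≤ C0 * M,
    (∑ u ∈ Finset.Icc 1 M, ‖gT g K (α * u + β) - cL g K M‖) / (M : ℝ) ≤ C * er g K + η

/-- [DLm] (EASY-MEDIUM) concentration on `a`, `k a + κ n`, `k a + 2 κ n` (`n = u + u'`,
`a = Q (v + v') + a₀`), all prime factors of `κ`, `Q` are `≤ K`. For the last two fix `u', v, v'` and use
`StDLin` in `u` with `α = κ` (`2 κ`), `β = k a + κ u'`, `β ≤ C0 M`. For `a` fix `v'` and use `StDLin` with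
`D M` in place of `M`, `α = Q`, `β = Q v' + a₀`, and `StDcD`. (`2 ≤ K` for the factor `2`.)
(hLin : StDLin, hcD : StDcD, hBx : StDBx) -/
def StDLm : Prop := ∃ C : ℝ, 0 < C ∧ ∀ g : ℕ → ℂ, G1 g → ∀ K κ k Q D : ℕ, 2 ≤ K → 0 < κ → 0 < k →
  0 < Q → 0 < D → (∀ p : ℕ, p.Prime → p ∣ κ * Q → p ≤ K) → ∀ η : ℝ, 0 < η → ∃ M0 : ℕ,
    ∀ M ≥ M0, ∀ a₀ ≤ Q,
    (BR Q D a₀ M fun a _ => ‖gT g K a - cL g K M‖) ≤ C * er g K + η ∧
    (BR Q D a₀ M fun a n => ‖gT g K (k * a + κ * n) - cL g K M‖) ≤ C * er g K + η ∧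
    (BR Q D a₀ M fun a n => ‖gT g K (k * a + 2 * (κ * n)) - cL g K M‖) ≤ C * er g K + η

/-! ## 4. Concentration on the norm form `z = (k a + κ n)² + (κ n)²` -/

/-- [DRt] (EASY-MEDIUM) roots. `p` an odd prime, `p ∤ κ k a`. There is a set `S` of residues modulo `p`, of
cardinality `2` if `p ≡ 1` mod `4` and `0` if not, such that
`p ∣ (k a + κ n)² + (κ n)² ↔ n % p ∈ S`; and modulo `p²` at most two residues. Proof: if `p ∣ z` then `p ∤ κ n`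
(otherwise `p ∣ k a`), so `-1` is a square mod `p`; if `i² = -1` then `z = (m - i κ n)(m + i κ n)`,
`m = k a + κ n`, so `n = k a/(κ (i - 1))` or `n = k a/(κ (-i - 1))` modulo `p` (`(i - 1)(-i - 1) = 2`), two different
residues. Modulo `p²`: if `n`, `n'` are two zeros with `n ≡ n'` mod `p` then `p²` divides
`z(n) - z(n') = (n - n')(2 κ² (n + n') + 2 k a κ)`, and the second factor is `≡ 2 κ (2 κ n + k a)` mod `p`, not
divisible by `p` (otherwise `2 z = (2 κ n + k a)² + (k a)²` gives `p ∣ k a`), so `p² ∣ n - n'`. -/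
def StDRt : Prop := ∀ p κ k a : ℕ, p.Prime → p ≠ 2 → ¬ p ∣ κ * k * a →
  (∃ S : Finset ℕ, S ⊆ Finset.range p ∧ (S.card = if p % 4 = 1 then 2 else 0) ∧
    ∀ n : ℕ, p ∣ tZ κ k a n ↔ n % p ∈ S) ∧
  ∃ S : Finset ℕ, S.card ≤ 2 ∧ ∀ n : ℕ, p ^ 2 ∣ tZ κ k a n → n % p ^ 2 ∈ S

/-- [DLat] (EASY-MEDIUM) lattice points. `p ≤ 2 R²`; the number of pairs `(m, n)`, `1 ≤ m, n ≤ R`, with
`p ∣ m² + n²` is at most `100 R²/p` (generous). Proof: if `p ∣ n` then `p ∣ m`: at most `(R/p)²` pairs, `≤ R²/p`. The other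
pairs satisfy `m ≡ r n` mod `p` for one of at most two residues `r` with `r² = -1`; for fixed `r` the
difference of two different such pairs is a vector `(x, y) ≠ 0` with `p ∣ x² + y²`, so `x² + y² ≥ p`; a
half open square of side `s = √p/2` contains at most one such pair (`2 s² < p`). `[1, R]²` is covered
by `(2R/√p + 1)² ≤ (2R/√p + √2 R/√p)² ≤ 12 R²/p` squares. (`p = 2`: trivial, the number is `≤ R²`.) -/
def StDLat : Prop := ∀ p R : ℕ, p.Prime → p ≤ 2 * R ^ 2 →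
  ((((Finset.Icc 1 R ×ˢ Finset.Icc 1 R).filter fun x => p ∣ x.1 ^ 2 + x.2 ^ 2).card : ℝ)) ≤
    100 * (R : ℝ) ^ 2 / p

/-- [DZp] (EASY-MEDIUM) the probability that `p` divides `z`: for fixed `Q, D, κ, k` there is `C0` with
`Pr(p ∣ z) ≤ C0/p` for all primes `p` and all `M ≥ 1`, `a₀ ≤ Q`; and `z ≤ C0 M²`. Proof: put
`R = C1 M` with `m = k a + κ n ≤ C1 M`, `κ n ≤ C1 M`. If `p > 2 R²` then `p ∤ z` (`0 < z ≤ 2 R²`). Otherwise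
`StDLat`: at most `100 C1² M²/p` pairs `(m, κ n)`, i.e. pairs `(a, n)`; every pair `(a, n)` comes from at most `M`
pairs `(u, u')` and at most `D M` pairs `(v, v')`; divide by `M² (D M)²`: probability `≤ 100 C1²/(D p)`.
(hLat : StDLat) -/
def StDZp : Prop := ∀ Q D κ k : ℕ, 0 < Q → 0 < D → 0 < κ → 0 < k → ∃ C0 : ℝ, 0 < C0 ∧
  ∀ M : ℕ, 1 ≤ M → ∀ a₀ ≤ Q,
    (∀ p : ℕ, p.Prime → (BR Q D a₀ M fun a n => if p ∣ tZ κ k a n then 1 else 0) ≤ C0 / p) ∧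
    ∀ u ∈ Finset.Icc 1 M, ∀ u' ∈ Finset.Icc 1 M, ∀ v ∈ Finset.Icc 1 (D * M),
      ∀ v' ∈ Finset.Icc 1 (D * M),
      ((tZ κ k (Q * (v + v') + a₀) (u + u') : ℕ) : ℝ) ≤ C0 * (M : ℝ) ^ 2

/-- [DGc] (EASY) common factors of `a` and `n` and the primes dividing `a`, all prime factors of `Q` are
`≤ K`. (i) the probability that a prime `p > K` divides both `a` and `n` is `≤ 4/K + η`: for `p ≤ 2M` it is
`≤ (1/p + 1/(DM)) (1/p + 1/M) ≤ 6/p²` up to `p ≤ 2M` (use `1/M ≤ 2/p`, `1/(DM) ≤ 2/p`; `9/p²`) and `0` for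
`p > 2 M`; `∑_(p > K) 9/p² ≤ 9/K`. (ii) the average of `∑_(p ∣ a, K < p ≤ y) 1/p` is at most
`∑_(p > K) (1/p)(1/p + 1/(DM)) ≤ 1/K + y/(D M)`. Stated with the constant `10`. -/
def StDGc : Prop := ∀ K Q D : ℕ, 1 ≤ K → 0 < Q → 0 < D → (∀ p : ℕ, p.Prime → p ∣ Q → p ≤ K) →
  ∀ η : ℝ, 0 < η → ∃ M0 : ℕ, ∀ M ≥ M0, ∀ a₀ ≤ Q,
    (BR Q D a₀ M fun a n => iGc K a n) ≤
      10 / (K : ℝ) + η ∧
    (BR Q D a₀ M fun a _ => ∑ p ∈ (pr4 K M).filter (fun p => p ∣ a), 1 / (p : ℝ)) ≤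
      1 / (K : ℝ) + η

/-- [DQd] (MEDIUM) concentration on `z = tZ κ k a n`; all prime factors of `κ k Q` are `≤ K`, `2 ≤ K`.
Proof. Outside the event (i) of `StDGc` every prime `p > K` with `p ∣ z` does not divide `a`
(`p ∣ a`, `p ∣ z` give `p ∣ 2 (κ n)²`). `z ≤ C0 M² ≤ M³`: `StDLs`. Fix `u', v, v'` (so `a`), `u` varies.
(1) `p² ∣ z`, `p ∈ pr4`, `p ∤ a`: at most `2 (M/p² + 1)` values of `u` (`StDRt`), proportion `≤ 2/K + 2 y/M`.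
(2) the average of `∑_(p ∈ pr4, p ∣ z, p ∤ a) |g p - 1|²` is `≤ 2 tl g K + 8 y/M`. (3) `StDTk` with the sets of
`StDRt` shifted by `u'` (`n = u + u'`), for the primes of `pr4` not dividing `a`: the average of
`|∑_(p ∈ pr4, p ∤ a, p ∣ z) (g p - 1) - ∑_(p ∈ pr4, p ∤ a, p ≡ 1 (4)) 2 (g p - 1)/p|` is
`≤ (4 tl g K + 48 y²/M)^(1/2)`; the condition `p ∤ a` in the second sum costs `∑_(p ∣ a, p ∈ pr4) 4/p`, in the
average `≤ 4/K + η` (`StDGc`). (4) Cauchy-Schwarz and `StDZp`: the average of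
`∑_(p ∣ z, p⁴ > M) |1 - g p|²` is `≤ C0 tl g ⌊y⌋ → 0`.
(hTk, hEx, hTl, hLs, hRt, hZp, hGc, hBx) -/
def StDQd : Prop := ∃ C : ℝ, 0 < C ∧ ∀ g : ℕ → ℂ, G1 g → ∀ K κ k Q D : ℕ, 2 ≤ K → 0 < κ → 0 < k →
  0 < Q → 0 < D → (∀ p : ℕ, p.Prime → p ∣ κ * k * Q → p ≤ K) → ∀ η : ℝ, 0 < η → ∃ M0 : ℕ,
    ∀ M ≥ M0, ∀ a₀ ≤ Q,
    (BR Q D a₀ M fun a n => ‖gT g K (tZ κ k a n) - cQ g K M‖) ≤ C * er g K + η

/-! ## 5. Small primes, sizes -/

/-- [DFc] (EASY) factorisation: if no prime `≤ w` divides `n ≥ 1` and `w ≤ K` then `g n = gP g w K n · gT g K n`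
and the moduli are one (`Nat.factorization_prod_pow_eq_self`, `CM`); `gP`, `gT` have modulus one for
`n ≥ 1` always. -/
def StDFc : Prop := ∀ g : ℕ → ℂ, CM g → ∀ w K n : ℕ, 0 < n → w ≤ K →
  ((∀ p : ℕ, p.Prime → p ∣ n → w < p) → g n = gP g w K n * gT g K n) ∧
  ‖gP g w K n‖ = 1 ∧ ‖gT g K n‖ = 1

/-- [DMd] (EASY) congruences: `K ≥ 1`, `k = kk w K e'`, `κ = w! k'`, `a = w! b + inv0 w! k`: then `k`, `w!` are
coprime, `k a ≡ 1` mod `w!`, so `k a`, `k a + κ n`, `k a + 2 κ n`, `tZ κ k a n` are `≡ 1` mod `w!`, and no prime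
`≤ w` divides them or `a`. All prime factors of `κ k w!` are `≤ K` if `w ≤ K`. -/
def StDMd : Prop := ∀ (w K : ℕ) (e : Fin (w + 1) → Fin K) (e' : Fin (K + 1) → Fin K), w ≤ K →
  Nat.Coprime (kk w K e') w.factorial ∧ 0 < kk w K e' ∧ 0 < kp w K e ∧
  inv0 w.factorial (kk w K e') ≤ w.factorial ∧
  (∀ p : ℕ, p.Prime → p ∣ w.factorial * kp w K e * kk w K e' * w.factorial → p ≤ K) ∧
  ∀ b n : ℕ,
    (kk w K e' * (w.factorial * b + inv0 w.factorial (kk w K e'))) % w.factorial =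
      1 % w.factorial ∧
    (kk w K e' * (w.factorial * b + inv0 w.factorial (kk w K e')) +
      w.factorial * kp w K e * n) % w.factorial = 1 % w.factorial ∧
    (kk w K e' * (w.factorial * b + inv0 w.factorial (kk w K e')) +
      2 * (w.factorial * kp w K e * n)) % w.factorial = 1 % w.factorial ∧
    tZ (w.factorial * kp w K e) (kk w K e') (w.factorial * b + inv0 w.factorial (kk w K e')) n %
      w.factorial = 1 % w.factorial ∧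
    ∀ p : ℕ, p.Prime → p ≤ w →
      ¬ p ∣ (w.factorial * b + inv0 w.factorial (kk w K e')) ∧
      ¬ p ∣ (kk w K e' * (w.factorial * b + inv0 w.factorial (kk w K e')) +
        w.factorial * kp w K e * n) ∧
      ¬ p ∣ (kk w K e' * (w.factorial * b + inv0 w.factorial (kk w K e')) +
        2 * (w.factorial * kp w K e * n)) ∧
      ¬ p ∣ tZ (w.factorial * kp w K e) (kk w K e')
        (w.factorial * b + inv0 w.factorial (kk w K e')) n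

/-- [DSp] (EASY-MEDIUM) the primes in `(w, K]`: they divide `k` to the power `≥ 2` and do not divide `2 κ`. If
`p² ∤ n` (`n ≥ 1`) for all primes `p > w` then `v_p(k a + κ n) = v_p(k a + 2 κ n) = v_p(n)` and
`v_p(tZ κ k a n) = 2 v_p(n)` for these primes (`z = (k a)² + 2 k a κ n + 2 (κ n)²`, valuations `≥ 4`,
`≥ 2 + v_p(n)`, `2 v_p(n) ≤ 2`, `v_p(n) ≤ 1`). So the parts of `g` are `gP g w K n`, its square for `z`.
(`2 ≤ w` so that these primes are odd.) -/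
def StDSp : Prop := ∀ g : ℕ → ℂ, CM g → ∀ (w K : ℕ) (e : Fin (w + 1) → Fin K)
  (e' : Fin (K + 1) → Fin K), 2 ≤ w → w ≤ K → ∀ a n : ℕ, 0 < a → 0 < n →
  (∀ p : ℕ, p.Prime → w < p → ¬ p ^ 2 ∣ n) →
  gP g w K (kk w K e' * a + w.factorial * kp w K e * n) = gP g w K n ∧
  gP g w K (kk w K e' * a + 2 * (w.factorial * kp w K e * n)) = gP g w K n ∧
  gP g w K (tZ (w.factorial * kp w K e) (kk w K e') a n) = gP g w K n ^ 2

/-- [DPq] (EASY) the probability that `p² ∣ n` for some prime `p > w` is `≤ 1/w + η`: for fixed `u'` the number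
of `u ≤ M` with `p² ∣ u + u'` is `≤ M/p² + 1`, and `p² ≤ 2 M`; `∑_(p > w) 1/p² ≤ 1/w`,
`√(2M)/M → 0`. -/
def StDPq : Prop := ∀ w : ℕ, 1 ≤ w → ∀ η : ℝ, 0 < η → ∃ M0 : ℕ, ∀ M ≥ M0, ∀ Q D a₀ : ℕ, 0 < D →
  (BR Q D a₀ M fun _ n => iPq w n) ≤ 1 / (w : ℝ) + η

/-- [DSz] (EASY) sizes: `DD w K ≥ K² κ`, `κ = w! k'`; the probability that `K κ n > 2 k a` is `≤ 1/K`: if
`K (v + v') ≥ D M` then `K · K κ n ≤ K² κ · 2 M ≤ 2 D M ≤ 2 K (v + v') ≤ 2 K a`. So the event is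
contained in `K (v + v') < D M`, in particular `K v < D M`, of probability `≤ 1/K`. -/
def StDSz : Prop := ∀ (w K : ℕ) (e : Fin (w + 1) → Fin K) (k M a₀ : ℕ), 1 ≤ K → 1 ≤ M → 0 < k →
  (BR w.factorial (DD w K) a₀ M fun a n =>
    if K * (w.factorial * kp w K e * n) > 2 * (k * a) then 1 else 0) ≤ 1 / (K : ℝ)

/-- [DAr] (EASY) archimedean factors. If `K κ n ≤ 2 k a`, `k a, n ≥ 1`, `m = k a + κ n`, `m' = k a + 2 κ n`,
`z = m² + (κ n)²` then each of the four numbers below has the stated error: `|x^(it) - y^(it)| ≤ |t| |log x - log y|`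
and `0 ≤ log m - log (k a) ≤ 2/K`, `0 ≤ log m' - log m ≤ 2/K`, `0 ≤ log z - 2 log m ≤ 4/K²`.
(`log (1 + s) ≤ s`.) -/
def StDAr : Prop := ∀ (t : ℝ) (K κ k a n : ℕ), 1 ≤ K → 0 < κ → 0 < k → 0 < a → 0 < n →
  K * (κ * n) ≤ 2 * (k * a) →
  ‖((k * a + κ * n : ℕ) : ℂ) ^ (t * Complex.I) * conj (((k * a : ℕ) : ℂ) ^ (t * Complex.I)) *
      conj (((k * a + 2 * (κ * n) : ℕ) : ℂ) ^ (t * Complex.I)) -
      conj (((k * a : ℕ) : ℂ) ^ (t * Complex.I))‖ ≤ 10 * |t| / K ∧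
  ‖((tZ κ k a n : ℕ) : ℂ) ^ (t * Complex.I) *
      conj (((k * a + κ * n : ℕ) : ℂ) ^ (t * Complex.I)) -
      ((k * a : ℕ) : ℂ) ^ (t * Complex.I)‖ ≤ 10 * |t| / K ∧
  ‖((k * a : ℕ) : ℂ) ^ (t * Complex.I) *
      ((k * a + 2 * (κ * n) : ℕ) : ℂ) ^ (t * Complex.I) *
      conj (((tZ κ k a n : ℕ) : ℂ) ^ (t * Complex.I)) - 1‖ ≤ 10 * |t| / K

/-! ## 6. The three correlations -/

/-- [DXm] (MEDIUM) `CX = f(k') UX + error`. `x = 2 κ n m`, `y = k a m'`, `κ = w! k'`, so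
`f(x) conj f(y) = f(2 w!) f(k') f(n) f(m) conj f(k a) conj f(m')`, and `m, k a, m' ≡ 1` mod `q`
(`StDMd`, `q ∣ w!`), so `f(m) = m^(it) g(m)` etc. Replace successively (all factors have modulus `≤ 1`):
the archimedean factor by `conj (k a)^(it)` (`StDAr` outside the event of `StDSz`); `g(m)` by
`gP g w K n · cL`, `g(m')` by the same (`StDFc`, `StDSp` outside the event of `StDPq`, `StDLm`);
`gP gP̄ = 1`; `g(k a) = g(k) g(a)`. Each replacement costs at most 2 × probability or the bound of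
`StDLm`. -/
def StDXm : Prop := ∃ C : ℝ, 0 < C ∧ ∀ (f g : ℕ → ℂ) (t : ℝ) (q : ℕ), Dec f g t q →
  ∀ w K : ℕ, 2 ≤ w → w ≤ K → q ∣ w.factorial → ∀ η : ℝ, 0 < η → ∃ M0 : ℕ, ∀ M ≥ M0,
  ∀ (e : Fin (w + 1) → Fin K) (e' : Fin (K + 1) → Fin K),
    ‖CX f w K e e' M - f (kp w K e) * UX f g t w K e' M‖ ≤ C * eT g t w K + η

/-- [DZm] (MEDIUM) `CZ = conj f(k') UZ + error`: `f(z) conj f(x) = z^(it) g(z) conj (f(2 w!) f(k') f(n)) m^(-it) conj g(m)`;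
`z^(it) m^(-it)` is replaced by `(k a)^(it)`, `g(z)` by `(gP g w K n)² cQ` (`StDQd`, `StDSp`, `StDFc`),
`g(m)` by `gP g w K n cL`. As `StDXm`. -/
def StDZm : Prop := ∃ C : ℝ, 0 < C ∧ ∀ (f g : ℕ → ℂ) (t : ℝ) (q : ℕ), Dec f g t q →
  ∀ w K : ℕ, 2 ≤ w → w ≤ K → q ∣ w.factorial → ∀ η : ℝ, 0 < η → ∃ M0 : ℕ, ∀ M ≥ M0,
  ∀ (e : Fin (w + 1) → Fin K) (e' : Fin (K + 1) → Fin K),
    ‖CZ f w K e e' M - conj (f (kp w K e)) * UZ f g t w K e' M‖ ≤ C * eT g t w K + η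

/-- [DYm] (MEDIUM) `CY = g(k) VY + error`: `f(y) conj f(z) = (k a)^(it) m'^(it) z^(-it) g(k) g(a) g(m') conj g(z)`; the
archimedean factor is replaced by `1`, `g(m')` by `gP g w K n cL`, `g(z)` by `(gP g w K n)² cQ`. Second
clause: if `g p = 1` for all primes `p > w` then `g(k) = g(a) = g(m') = g(z) = 1` and
`Re CY ≥ 1 - error`. As `StDXm`. -/
def StDYm : Prop := ∃ C : ℝ, 0 < C ∧ ∀ (f g : ℕ → ℂ) (t : ℝ) (q : ℕ), Dec f g t q →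
  ∀ w K : ℕ, 2 ≤ w → w ≤ K → q ∣ w.factorial → ∀ η : ℝ, 0 < η → ∃ M0 : ℕ, ∀ M ≥ M0,
  ∀ (e : Fin (w + 1) → Fin K) (e' : Fin (K + 1) → Fin K),
    ‖CY f w K e e' M - g (kk w K e') * VY g w K e' M‖ ≤ C * eT g t w K + η ∧
    ((∀ p : ℕ, p.Prime → w < p → g p = 1) → 1 - C * ((1 + |t|) / K) - η ≤ (CY f w K e e' M).re)

/-- [DPe] (MEDIUM) the part of `g` in `(w, K]` has a mean over `a` which does not depend on the class `a₀`
coprime to `Q = w!`: Let `J` be large, `N = ∏_(w < p ≤ K) p^J`, `H(x) = ∏_(w<p≤K) g(p)^(min(v_p(x), J))`, a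
function of `x` mod `N` (put `v_p = J` if `p^J ∣ x`). `|gP g w K x - H(x)| ≤ 2` and is `0` unless
`p^J ∣ x` for some `p`, of probability `≤ K (2^(-J) + 1/(D M))` (for fixed `v'` at most `D M/p^J + 1` values of
`v`, `p ∤ Q`). `b ↦ H(Q b + a₀)` has period `N`; `Q` is invertible mod `N`, so its mean over a period is
the mean of `H` over all residues, for every `a₀`; the average over `v ≤ D M` (fixed `v'`) differs from it
by at most `2 N/(D M)`. -/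
def StDPe : Prop := ∀ g : ℕ → ℂ, CM g → ∀ w K Q D : ℕ, 0 < Q → 0 < D →
  (∀ p : ℕ, p.Prime → p ∣ Q → p ≤ w) → ∀ η : ℝ, 0 < η → ∃ M0 : ℕ, ∀ M ≥ M0, ∀ a₀ ≤ Q, ∀ a₁ ≤ Q,
    ‖EA Q D a₀ M (gP g w K) - EA Q D a₁ M (gP g w K)‖ ≤ η

/-- [DVe] (EASY-MEDIUM) `VY` does not depend on `e'` up to the error: by `StDPd`
`VY = cL conj cQ EA(g) EN(conj gP g w K)`; `g(a) = gP g w K a gT g K a` (`StDFc`, `StDMd`), so
`EA(g) = cL EA(gP g w K) + O(er g K)` (`StDLm`), and `StDPe`. -/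
def StDVe : Prop := ∃ C : ℝ, 0 < C ∧ ∀ g : ℕ → ℂ, G1 g → ∀ w K : ℕ, 2 ≤ w → w ≤ K →
  ∀ η : ℝ, 0 < η → ∃ M0 : ℕ, ∀ M ≥ M0, ∀ e' e'' : Fin (K + 1) → Fin K,
    ‖VY g w K e' M - VY g w K e'' M‖ ≤ C * er g K + η

/-- [DKp] (EASY) averages over the exponents: geometric sums.
`K^(-(w+1)) ∑_e f(k') = ∏_(p ≤ w) (1/K) ∑_(j < K) f(p)^j` (`Finset.prod_univ_sum`, `Fintype.piFinset`), each factor has
modulus `≤ 1`, the factor of `p₀` is at most `2/(K |1 - f p₀|)`. The same for `k` and `p₁` in `(w, K]`. -/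
def StDKp : Prop := ∀ f : ℕ → ℂ, CM f → ∀ w K p : ℕ, 1 ≤ K → p.Prime → f p ≠ 1 →
  (p ≤ w → ‖(∑ e : Fin (w + 1) → Fin K, f (kp w K e)) / (K : ℂ) ^ (w + 1)‖ ≤
    2 / (K * ‖1 - f p‖)) ∧
  (w < p → p ≤ K → ‖(∑ e' : Fin (K + 1) → Fin K, f (kk w K e')) / (K : ℂ) ^ (K + 1)‖ ≤
    2 / (K * ‖1 - f p‖))

/-! ## 7. Conclusion -/

/-- [DDe] (EASY-MEDIUM) a pretentious function has a decomposition. `χ` mod `q`, `t` from `Pret`. `g` = the completely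
multiplicative function with `g p = f p conj (χ p p^(it))` for `p ∤ q` and `g p = 1` for `p ∣ q`
(`g n = ∏ g p^(v_p(n))`, `g 0 = 0`). Distance: `|1 - g p| = |f p - χ p p^(it)|` for `p ∤ q` (moduli one), and
only finitely many `p ∣ q`. For `n ≡ 1` mod `q`, `n > 0`: `n` is coprime to `q`, `χ n = 1`, and
`f n = χ n n^(it) g n` by multiplicativity. -/
def StDDe : Prop := ∀ f : ℕ → ℂ, CM f → Pret f → ∃ (g : ℕ → ℂ) (t : ℝ) (q : ℕ), Dec f g t q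

/-- [DOn] (EASY) if `f p = 1` for all primes then `f n = 1` for `n ≥ 1`, so `pc f x y z = 3` on positive integers
and `Av w K M (pc f) = 3` for `K, M ≥ 1`, so `PW f`. (`tX`, `tY`, `tZ` are positive.) -/
def StDOn : Prop := ∀ f : ℕ → ℂ, CM f → (∀ p : ℕ, p.Prime → f p = 1) → PW f

/-- [DFi] (MEDIUM) MODULE D. (hAv, hTl, hXm, hZm, hYm, hVe, hKp, hDe, hOn) `f` with `f p₀ ≠ 1`, decomposition
`g, t, q`. Given `ε`: `w₀` with `w₀ ≥ p₀, q, 2` (then `q ∣ w!`) and `3 C/w₀ ≤ ε/10`. Let `w ≥ w₀`. Case 1: some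
prime `p₁ > w` has `g p₁ ≠ 1`: `K₀ ≥ p₁, w` such that `C er g K`, `C (1 + |t|)/K`, `2/(K |1 - f p₀|)`,
`2/(K |1 - g p₁|)` are `≤ ε/20` for `K ≥ K₀`. Average over `e`: `∑_e f(k') UX` is small since `|UX| ≤ 1` does not
depend on `e`; the same for `CZ`; `CY`: replace `VY(e')` by `VY(e'₀)` and average `g(k)`. Case 2: `g p = 1` for all
`p > w`: second clause of `StDYm`, `Re CY ≥ 0` up to `ε/10`. Sum: `Re Av ≥ - ε` for `M ≥ M₀`. -/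
def StDFi : Prop := PWPret

end Pool.Agent.F0f91f8.HD
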